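import Pool.Agent.Lib.MP_d4b40b_lc.Defs
import Pool.Agent.Lib.MP_fcebdf_lc.Ords

set_option autoImplicit false
set_option linter.unreachableTactic false
set_option linter.unusedTactic false

namespace Pool.Agent.Lib.MP_d4b40b_lc

open Pool.Agent.Lib.helper81 Pool.Agent.Lib.MP_fcebdf_lc

lemma def_pow (i j : ℕ) : Def (fun _ E v => Pow E (v i) (v j)) :=
  Def.all ((Def.mem _ _).iff (Def.sub _ _))

lemma def_isOrd (i : ℕ) : Def (fun _ E v => IsOrd E (v i)) :=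
  (Def.all ((Def.mem _ _).imp (Def.sub _ _))).and (Def.all (Def.all ((Def.mem _ _).imp
    ((Def.mem _ _).imp ((Def.mem _ _).or ((Def.eq _ _).or (Def.mem _ _)))))))

lemma def_uf (i j : ℕ) : Def (fun _ E v => UF E (v i) (v j)) := by
  unfold UF
  with_reducible repeat' first
    | exact Def.mem _ _ | exact Def.eq _ _ | exact Def.sub _ _ | exact def_le _ _
    | apply Def.not | apply Def.and | apply Def.or | apply Def.iff | apply Def.imp
    | apply Def.all | apply Def.ex | apply Def.exu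

lemma def_base (i j : ℕ) : Def (fun _ E v => Base E (v i) (v j)) :=
  (Def.sub _ _).and (Def.all ((Def.mem _ _).imp (Def.ex ((Def.mem _ _).and (Def.sub _ _)))))

lemma def_tree (i j : ℕ) : Def (fun _ E v => Tree E (v i) (v j)) := by
  unfold Tree
  with_reducible repeat' first
    | exact Def.mem _ _ | exact Def.eq _ _ | exact Def.rel _ _ _
    | apply Def.not | apply Def.and | apply Def.or | apply Def.iff | apply Def.imp
    | apply Def.all | apply Def.ex | apply Def.exu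

lemma def_ht (i j k : ℕ) : Def (fun _ E v => Ht E (v i) (v j) (v k)) := by
  unfold Ht
  with_reducible repeat' first
    | exact Def.mem _ _ | exact Def.eq _ _ | exact Def.rel _ _ _ | exact def_isOrd _
    | apply Def.not | apply Def.and | apply Def.or | apply Def.iff | apply Def.imp
    | apply Def.all | apply Def.ex | apply Def.exu

lemma def_ltree (i j k : ℕ) : Def (fun _ E v => LTree E (v i) (v j) (v k)) := by
  unfold LTree
  with_reducible repeat' first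
    | exact Def.mem _ _ | exact Def.eq _ _ | exact def_tree _ _ | exact def_ht _ _ _
    | exact def_le _ _
    | apply Def.not | apply Def.and | apply Def.or | apply Def.iff | apply Def.imp
    | apply Def.all | apply Def.ex | apply Def.exu

variable {M : Type} {E : M → M → Prop}

lemma exists_op (h : IsZF E) (a b : M) : ∃ p, OP E p a b := by
  obtain ⟨s, hs⟩ := h.pair a a
  obtain ⟨t, ht⟩ := h.pair a b
  obtain ⟨u, hu⟩ := h.pair s t
  refine ⟨u, fun z => (hu z).trans (or_congr ⟨?_, fun k => h.ext _ _ fun w => ?_⟩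
    ⟨?_, fun k => h.ext _ _ fun w => (k w).trans (ht w).symm⟩)⟩
  · rintro rfl w; rw [hs, or_self]
  · rw [k, hs, or_self]
  · rintro rfl; exact ht

lemma le_of_def (h : IsZF E) {Φ : Pred} (hΦ : Def Φ) (v : ℕ → M) {X Y : M}
    (h1 : ∀ x, E x X → ∃! y, Φ M E (cons x (cons y v)))
    (h2 : ∀ x y, E x X → Φ M E (cons x (cons y v)) → E y Y)
    (h3 : ∀ x x' y, E x X → E x' X → Φ M E (cons x (cons y v)) → Φ M E (cons x' (cons y v)) →
      x = x') : Le E X Y := by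
  obtain ⟨φ, hφ⟩ : Def (fun M E v => ∃ y, Φ M E (cons (v 1) (cons y fun j => v (j + 2))) ∧
      OP E (v 0) (v 1) y) :=
    Def.ex ((hΦ.cons2 2 0 fun j => j + 2 + 1).and (Def.op _ _ _))
  obtain ⟨f, hf⟩ := h.repl φ v X fun x hx => by
    obtain ⟨y, k1, k2⟩ := h1 x hx
    obtain ⟨p, hp⟩ := exists_op h x y
    refine ⟨p, (hφ _ _ _).1 ⟨y, k1, hp⟩, fun q hq => ?_⟩
    obtain ⟨y', k3, k4⟩ := (hφ _ _ _).2 hq
    exact OP.unique h.ext (k2 y' k3 ▸ k4) hp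
  simp only [← hφ] at hf
  have key : ∀ x y, Rel E f x y ↔ E x X ∧ Φ M E (cons x (cons y v)) := fun x y => by
    constructor
    · rintro ⟨p, k1, k2⟩
      obtain ⟨x', k3, y', k4, k5⟩ := (hf p).1 k1
      obtain ⟨rfl, rfl⟩ := k2.inj h.pair k5
      exact ⟨k3, k4⟩
    · rintro ⟨k1, k2⟩
      obtain ⟨p, hp⟩ := exists_op h x y
      exact ⟨p, (hf p).2 ⟨x, k1, y, k2, hp⟩, hp⟩
  refine ⟨f, fun p hp => ?_, fun x hx => ?_, fun x x' y k1 k2 => ?_⟩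
  · obtain ⟨x, k3, y, k4, k5⟩ := (hf p).1 hp
    exact ⟨x, y, k3, h2 x y k3 k4, k5⟩
  · simpa only [key, hx, true_and] using h1 x hx
  · rw [key] at k1 k2
    exact h3 x x' y k1.1 k2.1 k1.2 k2.2

lemma le_of_sub (h : IsZF E) {X Y : M} (h1 : Sub E X Y) : Le E X Y :=
  le_of_def h (Def.eq 1 0) (fun _ => X) (fun x _ => ⟨x, rfl, fun _ k => k⟩)
    (fun x y k (e : y = x) => e ▸ h1 _ k) fun x x' y _ _ (e : y = x) (e' : y = x') => e.symm.trans e'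

lemma le_trans' (h : IsZF E) {X Y Z : M} (h1 : Le E X Y) (h2 : Le E Y Z) : Le E X Z := by
  obtain ⟨f, hf⟩ := h1
  obtain ⟨g, hg⟩ := h2
  refine le_of_def h (Φ := fun _ E v => ∃ y, Rel E (v 2) (v 0) y ∧ Rel E (v 3) y (v 1))
    (Def.ex ((Def.rel _ _ _).and (Def.rel _ _ _))) (w2 f g) (fun x hx => ?_)
    (fun _ _ _ ⟨_, _, k⟩ => (Inj.rel_mem h hg k).2)
    fun x x' z _ _ ⟨y, k1, k2⟩ ⟨y', k3, k4⟩ => hf.2.2 x x' y k1 (hg.2.2 y' y z k4 k2 ▸ k3)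
  obtain ⟨y, k1, k2⟩ := hf.2.1 x hx
  obtain ⟨z, k3, k4⟩ := hg.2.1 y (Inj.rel_mem h hf k1).2
  exact ⟨z, ⟨y, k1, k3⟩, fun z' ⟨y', k5, k6⟩ => k4 z' (k2 y' k5 ▸ k6)⟩

lemma cantor' (h : IsZF E) {x y : M} (h1 : Pow E y x) : ¬ Le E y x := by
  rintro ⟨f, hf⟩
  obtain ⟨D, hD⟩ := h.sepDef (Φ := fun _ E v => ∃ A, Rel E (v 1) A (v 0) ∧ ¬ E (v 0) A)
    (Def.ex ((Def.rel _ _ _).and (Def.mem _ _).not)) (fun _ => f) x
  obtain ⟨z, k1, -⟩ := hf.2.1 D ((h1 D).2 fun z k => ((hD z).1 k).1)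
  have k2 : ¬ E z D := fun k => by
    obtain ⟨-, A, k3, k4⟩ := (hD z).1 k
    exact k4 (hf.2.2 D A z k1 k3 ▸ k)
  exact k2 ((hD z).2 ⟨(Inj.rel_mem h hf k1).2, D, k1, k2⟩)

lemma uf_of_base (h : IsZF E) {B k : M} (h0 : ∃ C, E C B) (h1 : ∀ C, E C B → Sub E C k ∧ Le E k C)
    (h2 : ∀ C C', E C B → E C' B → ∃ C'', E C'' B ∧ Sub E C'' C ∧ Sub E C'' C')
    (h3 : ∀ A, Sub E A k → ∃ C, E C B ∧ (Sub E C A ∨ ∀ x, E x C → ¬ E x A)) :
    ∃ U, UF E U k ∧ Base E B U := by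
  obtain ⟨y, hy⟩ := h.pow k
  obtain ⟨U, hU⟩ := h.sepDef (Φ := fun _ E v => ∃ C, E C (v 1) ∧ Sub E C (v 0))
    (Def.ex ((Def.mem _ _).and (Def.sub _ _))) (fun _ => B) y
  replace hU : ∀ A, E A U ↔ Sub E A k ∧ ∃ C, E C B ∧ Sub E C A := fun A => by
    rw [hU, hy]; rfl
  refine ⟨U, ⟨fun A hA => ?_, ?_, fun A A' hA k1 k2 => ?_, fun A A' A'' hA hA' e => ?_,
    fun A A' hA e => ?_⟩, fun C hC => (hU C).2 ⟨(h1 C hC).1, C, hC, fun _ k => k⟩,
    fun A hA => ((hU A).1 hA).2⟩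
  · obtain ⟨k1, C, k2, k3⟩ := (hU A).1 hA
    exact ⟨k1, (h1 C k2).2.mono k3⟩
  · exact (hU k).2 ⟨fun _ k => k, h0.imp fun C hC => ⟨hC, (h1 C hC).1⟩⟩
  · obtain ⟨-, C, k3, k4⟩ := (hU A).1 hA
    exact (hU A').2 ⟨k2, C, k3, fun x hx => k1 x (k4 x hx)⟩
  · obtain ⟨k1, C, k2, k3⟩ := (hU A).1 hA
    obtain ⟨-, C', k4, k5⟩ := (hU A').1 hA'
    obtain ⟨C'', k6, k7, k8⟩ := h2 C C' k2 k4
    exact (hU A'').2 ⟨fun x hx => k1 x ((e x).1 hx).1, C'', k6, fun x hx =>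
      (e x).2 ⟨k3 x (k7 x hx), k5 x (k8 x hx)⟩⟩
  · obtain ⟨C, k1, k2 | k2⟩ := h3 A hA
    · exact Or.inl ((hU A).2 ⟨hA, C, k1, k2⟩)
    · exact Or.inr ((hU A').2 ⟨fun x hx => ((e x).1 hx).1, C, k1, fun x hx =>
        (e x).2 ⟨(h1 C k1).1 x hx, k2 x hx⟩⟩)

lemma uf_dec (h : IsZF E) {U B k A : M} (h1 : UF E U k) (h2 : Base E B U) (hA : Sub E A k) :
    ∃ C, E C B ∧ (Sub E C A ∨ ∀ x, E x C → ¬ E x A) := by
  obtain ⟨A', e⟩ := h.sepDef (Def.mem 0 1).not (fun _ => A) k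
  rcases h1.2.2.2.2 A A' hA e with k | k
  · exact (h2.2 A k).imp fun _ l => ⟨l.1, Or.inl l.2⟩
  · exact (h2.2 A' k).imp fun _ l => ⟨l.1, Or.inr fun x hx => ((e x).1 (l.2 x hx)).2⟩

lemma Ht.unique (hw : WellFounded E) (he : ∀ a b, (∀ x, E x a ↔ E x b) → a = b) {R t a a' : M}
    (h : Ht E R t a) (h' : Ht E R t a') : a = a' := by
  obtain ⟨o, f, f1, f2, f3, f4⟩ := h
  obtain ⟨o', g, g1, g2, g3, g4⟩ := h'
  have key : ∀ i x j, Rel E R x t → Rel E f x i → Rel E g x j → i = j := by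
    intro i
    induction i using hw.induction with
    | _ i ih =>
    intro x j k1 k2 k3
    refine he _ _ fun η => ⟨fun l => ?_, fun l => ?_⟩
    · obtain ⟨y, l1, l2⟩ := f3 η (o.1 i (f2 x i k1 k2) η l)
      obtain ⟨η', l3, -⟩ := g1 y l1
      exact ih η l y η' l1 l2 l3 ▸ (g4 y x η' j l1 k1 l3 k3).1 ((f4 y x η i l1 k1 l2 k2).2 l)
    · obtain ⟨y, l1, l2⟩ := g3 η (o'.1 j (g2 x j k1 k3) η l)
      obtain ⟨η', l3, -⟩ := f1 y l1
      have := (f4 y x η' i l1 k1 l3 k2).1 ((g4 y x η j l1 k1 l2 k3).2 l)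
      exact ih η' this y η l1 l3 l2 ▸ this
  refine he _ _ fun η => ⟨fun l => ?_, fun l => ?_⟩
  · obtain ⟨y, l1, l2⟩ := f3 η l
    obtain ⟨η', l3, -⟩ := g1 y l1
    exact key η y η' l1 l2 l3 ▸ g2 y η' l1 l3
  · obtain ⟨y, l1, l2⟩ := g3 η l
    obtain ⟨η', l3, -⟩ := f1 y l1
    exact key η' y η l1 l3 l2 ▸ f2 y η' l1 l3

lemma isOrd_mem (hw : WellFounded E) {a i : M} (h : IsOrd E a) (hi : E i a) : IsOrd E i := by
  have asym : ∀ x y, E x y → ¬ E y x := hw.asymm.asymm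
  refine ⟨fun x hx y hy => ?_, fun x y hx hy => h.2 x y (h.1 i hi x hx) (h.1 i hi y hy)⟩
  rcases h.2 y i (h.1 x (h.1 i hi x hx) y hy) hi with l | l | l
  · exact l
  · exact absurd hx (asym _ _ (l ▸ hy))
  · obtain ⟨m, m1, m2⟩ := hw.has_min {i, x, y} ⟨i, by simp⟩
    rcases m1 with rfl | rfl | rfl
    · exact absurd hx (m2 x (by simp))
    · exact absurd hy (m2 y (by simp))
    · exact absurd l (m2 i (by simp))

lemma Ht.down (hw : WellFounded E) {T R t a : M} (hT : Tree E T R) (h : Ht E R t a) :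
    ∃ f, (∀ x, Rel E R x t → ∃ i, Rel E f x i) ∧ (∀ i, E i a → ∃ x, Rel E R x t ∧ Rel E f x i) ∧
      (∀ x i, Rel E R x t → Rel E f x i → Ht E R x i) ∧
      ∀ x y i j, Rel E R x t → Rel E R y t → Rel E f x i → Rel E f y j → (Rel E R x y ↔ E i j) := by
  obtain ⟨o, f, f1, f2, f3, f4⟩ := h
  refine ⟨f, fun x k => (f1 x k).exists, f3, fun z i k1 k2 => ⟨isOrd_mem hw o (f2 z i k1 k2), f,
    fun x k => f1 x (hT.2.2.1 _ _ _ k k1),
    fun x j k k' => (f4 x z j i (hT.2.2.1 _ _ _ k k1) k1 k' k2).1 k, fun j l => ?_,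
    fun x y j j' k k' => f4 x y j j' (hT.2.2.1 _ _ _ k k1) (hT.2.2.1 _ _ _ k' k1)⟩, f4⟩
  obtain ⟨x, l1, l2⟩ := f3 j (o.1 i (f2 z i k1 k2) j l)
  exact ⟨x, (f4 x z j i l1 k1 l2 k2).2 l, l2⟩

lemma Ht.pred (hw : WellFounded E) {T R t a i : M} (hT : Tree E T R) (h : Ht E R t a)
    (hi : E i a) : ∃ x, Rel E R x t ∧ Ht E R x i := by
  obtain ⟨f, -, f2, f3, -⟩ := h.down hw hT
  obtain ⟨x, k1, k2⟩ := f2 i hi
  exact ⟨x, k1, f3 x i k1 k2⟩

lemma Ht.cmp (hw : WellFounded E) (he : ∀ a b, (∀ x, E x a ↔ E x b) → a = b) {T R t a x y i j : M}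
    (hT : Tree E T R) (h : Ht E R t a) (hx : Rel E R x t) (hy : Rel E R y t) (hi : Ht E R x i)
    (hj : Ht E R y j) : Rel E R x y ↔ E i j := by
  obtain ⟨f, f1, -, f3, f4⟩ := h.down hw hT
  obtain ⟨i', k1⟩ := f1 x hx
  obtain ⟨j', k2⟩ := f1 y hy
  rw [hi.unique hw he (f3 x i' hx k1), hj.unique hw he (f3 y j' hy k2)]
  exact f4 x y i' j' hx hy k1 k2

end Pool.Agent.Lib.MP_d4b40b_lc
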