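import Pool.Agent.Lib.MP_fcebdf_lc.Defs

set_option autoImplicit false

namespace Pool.Agent.Lib.MP_d4b40b_lc

open Pool.Agent.Lib.helper81 Pool.Agent.Lib.MP_fcebdf_lc

/-- `W` is a fine, normal, `c`-complete ultrafilter on the subsets of `K` of size `< c`. -/
def SC {K : Type} (c : Cardinal.{0}) (W : Ultrafilter (Set K)) : Prop :=
  CardinalInterFilter (W : Filter (Set K)) c ∧ {x : Set K | Cardinal.mk x < c} ∈ W ∧
    (∀ β, {x : Set K | β ∈ x} ∈ W) ∧
    ∀ g : Set K → K, {x | g x ∈ x} ∈ W → ∃ β, {x | g x = β} ∈ W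

variable {M : Type} (E : M → M → Prop)

/-- `y` is the power set of `x`. -/
def Pow (y x : M) : Prop := ∀ z, E z y ↔ Sub E z x

/-- The power set of every member of `k` has size `< |k|`. -/
def StrongLimit (k : M) : Prop := ∀ x y, E x k → Pow E y x → ¬ Le E k y

/-- `U` is a uniform ultrafilter on `k`. -/
def UF (U k : M) : Prop :=
  (∀ A, E A U → Sub E A k ∧ Le E k A) ∧ E k U ∧
    (∀ A B, E A U → Sub E A B → Sub E B k → E B U) ∧
    (∀ A B C, E A U → E B U → (∀ x, E x C ↔ E x A ∧ E x B) → E C U) ∧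
    ∀ A B, Sub E A k → (∀ x, E x B ↔ E x k ∧ ¬ E x A) → E A U ∨ E B U

/-- `B` is a base of `U`. -/
def Base (B U : M) : Prop := Sub E B U ∧ ∀ A, E A U → ∃ C, E C B ∧ Sub E C A

/-- The ultrafilter number of `k` is `|c|`. -/
def UNum (k c : M) : Prop :=
  (∃ U B, UF E U k ∧ Base E B U ∧ Le E B c) ∧ ∀ U B, UF E U k → Base E B U → Le E c B

/-- `(T, R)` is a tree: a strict partial order in which the predecessors of each node are
well-ordered. -/
def Tree (T R : M) : Prop :=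
  (∀ x y, Rel E R x y → E x T ∧ E y T) ∧ (∀ x, ¬ Rel E R x x) ∧
    (∀ x y z, Rel E R x y → Rel E R y z → Rel E R x z) ∧
    (∀ t x y, Rel E R x t → Rel E R y t → Rel E R x y ∨ x = y ∨ Rel E R y x) ∧
    ∀ t A, (∀ x, E x A → Rel E R x t) → (∃ x, E x A) → ∃ x, E x A ∧ ∀ y, E y A → ¬ Rel E R y x

/-- The `R`-predecessors of `t` are order isomorphic to the ordinal `a`. -/
def Ht (R t a : M) : Prop :=
  IsOrd E a ∧ ∃ f, (∀ x, Rel E R x t → ∃! i, Rel E f x i) ∧
    (∀ x i, Rel E R x t → Rel E f x i → E i a) ∧ (∀ i, E i a → ∃ x, Rel E R x t ∧ Rel E f x i) ∧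
    ∀ x y i j, Rel E R x t → Rel E R y t → Rel E f x i → Rel E f y j → (Rel E R x y ↔ E i j)

/-- `(T, R)` is a tree of height `l` all of whose levels have size `< |l|`. -/
def LTree (l T R : M) : Prop :=
  Tree E T R ∧ (∀ t, E t T → ∃ a, E a l ∧ Ht E R t a) ∧ (∀ a, E a l → ∃ t, E t T ∧ Ht E R t a) ∧
    ∀ a L, E a l → (∀ t, E t L ↔ E t T ∧ Ht E R t a) → ¬ Le E l L

/-- The tree property: every `l`-tree has a chain meeting every level. -/
def TP (l : M) : Prop :=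
  ∀ T R, LTree E l T R → ∃ b, Sub E b T ∧
    (∀ x y, E x b → E y b → Rel E R x y ∨ x = y ∨ Rel E R y x) ∧
    ∀ a, E a l → ∃ t, E t b ∧ Ht E R t a

end Pool.Agent.Lib.MP_d4b40b_lc
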