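import Mathlib

set_option autoImplicit false

namespace Pool.Agent.Lib.MP_d4b40b_lc

open Filter Set Cardinal

/-- meeting `ρ` many dense open sets in a sufficiently closed preorder -/
theorem seq_meet {S : Type} (le : S → S → Prop) (hr : ∀ s, le s s)
    (ht : ∀ a b c, le a b → le b c → le a c) {ρ : Cardinal.{0}}
    (hcl : ∀ (I : Type) (f : I → S), Nonempty I → #I ≤ ρ →
      (∀ i j, le (f i) (f j) ∨ le (f j) (f i)) → ∃ s, ∀ i, le s (f i))
    {T : Type} (hT : #T ≤ ρ) (G : T → S → Prop) (hop : ∀ τ a b, G τ a → le b a → G τ b)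
    (s0 : S) (hd : ∀ τ s, le s s0 → ∃ s', le s' s ∧ G τ s') : ∃ s, le s s0 ∧ ∀ τ, G τ s := by
  classical
  rcases isEmpty_or_nonempty T with h | h
  · exact ⟨s0, hr _, fun τ => isEmptyElim τ⟩
  let r : T → T → Prop := WellOrderingRel
  have hwf : WellFounded r := IsWellFounded.wf
  let f : T → S := hwf.fix fun τ g =>
    if h : ∃ s, le s s0 ∧ G τ s ∧ ∀ σ (hσ : r σ τ), le s (g σ hσ) then h.choose else s0
  have hf : ∀ τ, f τ = if h : ∃ s, le s s0 ∧ G τ s ∧ ∀ σ (_ : r σ τ), le s (f σ)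
      then h.choose else s0 := fun τ => hwf.fix_eq _ τ
  have key : ∀ τ, le (f τ) s0 ∧ G τ (f τ) ∧ ∀ σ (_ : r σ τ), le (f τ) (f σ) := by
    intro τ
    induction τ using hwf.induction with
    | _ τ ih =>
    have hex : ∃ s, le s s0 ∧ G τ s ∧ ∀ σ (_ : r σ τ), le s (f σ) := by
      by_cases hn : ∃ σ, r σ τ
      · obtain ⟨σ0, hσ0⟩ := hn
        obtain ⟨s, hs⟩ := hcl {σ // r σ τ} (fun σ => f σ.1) ⟨⟨σ0, hσ0⟩⟩
          ((mk_subtype_le _).trans hT) (by
            rintro ⟨a, ha⟩ ⟨b, hb⟩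
            rcases trichotomous_of r a b with l | l | l
            · exact Or.inr ((ih b hb).2.2 a l)
            · subst l; exact Or.inl (hr _)
            · exact Or.inl ((ih a ha).2.2 b l))
        obtain ⟨s', h1, h2⟩ := hd τ s (ht _ _ _ (hs ⟨σ0, hσ0⟩) (ih σ0 hσ0).1)
        exact ⟨s', ht _ _ _ h1 (ht _ _ _ (hs ⟨σ0, hσ0⟩) (ih σ0 hσ0).1), h2,
          fun σ hσ => ht _ _ _ h1 (hs ⟨σ, hσ⟩)⟩
      · obtain ⟨s', h1, h2⟩ := hd τ s0 (hr _)
        exact ⟨s', h1, h2, fun σ hσ => absurd ⟨σ, hσ⟩ hn⟩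
    rw [hf τ, dif_pos hex]
    exact hex.choose_spec
  obtain ⟨s, hs⟩ := hcl T f h hT (by
    intro a b
    rcases trichotomous_of r a b with l | l | l
    · exact Or.inr ((key b).2.2 a l)
    · subst l; exact Or.inl (hr _)
    · exact Or.inl ((key a).2.2 b l))
  obtain ⟨τ0⟩ := h
  exact ⟨s, ht _ _ _ (hs τ0) (key τ0).1, fun τ => hop τ _ _ (key τ).2.1 (hs τ)⟩

theorem exists_seq {S : Type} (Good : ℕ → S → Prop) (R : ℕ → S → S → Prop)
    (h : ∀ n s, Good n s → ∃ s', Good (n + 1) s' ∧ R n s s') (s0 : S) (h0 : Good 0 s0) :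
    ∃ g : ℕ → S, ∀ n, Good n (g n) ∧ R n (g n) (g (n + 1)) := by
  choose nx h1 h2 using h
  let g : ∀ n, {s // Good n s} := fun n =>
    Nat.rec ⟨s0, h0⟩ (fun n s => ⟨nx n s.1 s.2, h1 n s.1 s.2⟩) n
  exact ⟨fun n => (g n).1, fun n => ⟨(g n).2, h2 n _ (g n).2⟩⟩

section ultra

variable {T : Type} (V : Ultrafilter T) (c : Cardinal.{0}) [CardinalInterFilter (V : Filter T) c]

lemma ae_ball {J : Type} {R : Set J} (hR : #R < c) {Q : T → J → Prop}
    (h : ∀ r ∈ R, ∀ᶠ x in (V : Filter T), Q x r) : ∀ᶠ x in (V : Filter T), ∀ r ∈ R, Q x r :=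
  (eventually_cardinal_ball hR).2 h

lemma ae_all {J : Type} (hJ : #J < c) {Q : T → J → Prop}
    (h : ∀ r, ∀ᶠ x in (V : Filter T), Q x r) : ∀ᶠ x in (V : Filter T), ∀ r, Q x r :=
  (eventually_cardinal_forall hJ).2 h

lemma ae_ex {J : Type} {R : Set J} (hR : #R < c) {Q : T → J → Prop}
    (h : ∀ᶠ x in (V : Filter T), ∃ r ∈ R, Q x r) : ∃ r ∈ R, ∀ᶠ x in (V : Filter T), Q x r := by
  by_contra h'
  have h1 := ae_ball V c hR (Q := fun x r => ¬ Q x r) fun r hr =>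
    Ultrafilter.eventually_not.2 fun h'' => h' ⟨r, hr, h''⟩
  obtain ⟨x, k1, r, k2, k3⟩ := (h1.and h).exists
  exact k1 r k2 k3

lemma ae_cst {J : Type} {R : Set J} (hR : #R < c) {f : T → J}
    (h : ∀ᶠ x in (V : Filter T), f x ∈ R) : ∃ r ∈ R, ∀ᶠ x in (V : Filter T), f x = r :=
  ae_ex V c hR (h.mono fun x hx => ⟨f x, hx, rfl⟩)

lemma ae_cst' {J : Type} (hJ : #J < c) (f : T → J) : ∃ r, ∀ᶠ x in (V : Filter T), f x = r := by
  obtain ⟨r, -, h⟩ := ae_cst V c (R := univ) (by simpa using hJ) (f := f)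
    (Eventually.of_forall fun _ => mem_univ _)
  exact ⟨r, h⟩

lemma ae_pw {J : Type} {R : Set J} (hR : #R < c) (Q : T → J → Prop) :
    ∃ Z ∈ V, ∀ a ∈ Z, ∀ a' ∈ Z, ∀ j ∈ R, Q a j → Q a' j := by
  refine ⟨{a | ∀ j ∈ R, Q a j ↔ ∀ᶠ x in (V : Filter T), Q x j}, ae_ball V c hR fun j _ => ?_,
    fun a ha a' ha' j hj h => (ha' j hj).2 ((ha j hj).1 h)⟩
  by_cases h : ∀ᶠ x in (V : Filter T), Q x j
  · exact h.mono fun x hx => iff_of_true hx h
  · exact (Ultrafilter.eventually_not.2 h).mono fun x hx => iff_of_false hx h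

lemma ae_notMem (hV : ∀ t, ∀ᶠ x in (V : Filter T), x ≠ t) {R : Set T} (hR : #R < c) :
    ∀ᶠ x in (V : Filter T), x ∉ R :=
  (ae_ball V c hR (Q := fun x r => x ≠ r) fun r _ => hV r).mono fun x hx h => hx x h rfl

lemma le_mk_of_ae (hV : ∀ t, ∀ᶠ x in (V : Filter T), x ≠ t) {R : Set T} (hR : R ∈ V) : c ≤ #R := by
  by_contra h
  obtain ⟨x, h1, h2⟩ := ((ae_notMem V c hV (not_le.1 h)).and hR).exists
  exact h1 h2

theorem inacc_of_ultra (hV : ∀ t, ∀ᶠ x in (V : Filter T), x ≠ t) (hT : #T ≤ c) (hc : ℵ₀ < c) :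
    IsInaccessible c := by
  refine ⟨hc, ?_, fun x hx => ?_⟩
  · by_contra h
    rw [← Ordinal.cof_toType, not_le] at h
    obtain ⟨s, hs, hs'⟩ := Order.exists_cof_eq c.ord.ToType
    obtain ⟨e⟩ : Nonempty (T ↪ c.ord.ToType) := by
      rw [← Cardinal.le_def]; simpa using hT
    have h1 := ae_ball V c (hs'.trans_lt h) (Q := fun x r => e x ∉ Iic r) fun r _ => by
      refine ae_notMem V c hV (R := e ⁻¹' Iic r) ((mk_preimage_of_injective _ _ e.injective).trans_lt ?_)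
      rw [← Iio_insert, mk_insert (by simp)]
      exact add_lt_of_lt hc.le (by simpa using mk_Iio_lt r) (one_lt_aleph0.trans hc)
    obtain ⟨x, hx⟩ := h1.exists
    obtain ⟨r, k1, k2⟩ := hs (e x)
    exact hx r k1 k2
  · by_contra h
    obtain ⟨e⟩ : Nonempty (T ↪ Set x.out) := by
      rw [← Cardinal.le_def]; simpa using hT.trans (not_lt.1 h)
    obtain ⟨Z, h1, h2⟩ := ae_pw V c (R := (univ : Set x.out)) (by simpa using hx)
      (fun a j => j ∈ e a)
    obtain ⟨a, ha⟩ := Ultrafilter.nonempty_of_mem h1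
    obtain ⟨b, k1, k2⟩ := ((hV a).and h1).exists
    exact k1 (e.injective (Subset.antisymm (fun j => h2 b k2 a ha j trivial)
      fun j => h2 a ha b k2 j trivial))

end ultra

lemma inacc_pow_lt {c a b : Cardinal.{0}} (h : IsInaccessible c) (ha : a < c) (hb : b < c) :
    a ^ b < c := by
  refine lt_of_le_of_lt (power_le_power_right (cantor a).le) ?_
  rw [← power_mul]
  exact h.isStrongPrelimit (mul_lt_of_lt h.1.le ha hb)

lemma inacc_succ_lt {c a : Cardinal.{0}} (h : IsInaccessible c) (ha : a < c) :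
    Order.succ a < c := h.isSuccLimit.succ_lt ha

lemma inacc_pow_le {c b : Cardinal.{0}} (h : IsInaccessible c) (hb : b < c) : c ^ b ≤ c := by
  have h1 : c ^ b = #(b.out → c.ord.ToType) := by simp
  rw [h1]
  have h2 : (univ : Set (b.out → c.ord.ToType)) ⊆ ⋃ δ : c.ord.ToType, {f | ∀ i, f i ≤ δ} := by
    intro f _
    have : ¬ IsCofinal (range f) := fun h' => by
      have := Order.cof_le h'
      rw [Ordinal.cof_toType] at this
      exact absurd ((h.le_cof_ord.trans this).trans mk_range_le) (by simpa using hb)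
    simp only [IsCofinal, not_forall] at this
    obtain ⟨δ, hδ⟩ := this
    exact mem_iUnion.2 ⟨δ, fun i => le_of_not_ge fun l => hδ ⟨f i, mem_range_self i, l⟩⟩
  rw [← mk_univ]
  refine (mk_le_mk_of_subset h2).trans (mk_iUnion_le_sum_mk.trans ?_)
  refine (sum_le_sum _ (fun _ => c) fun δ => ?_).trans (by simp [mul_eq_self h.1.le])
  have h3 : #{f : b.out → c.ord.ToType | ∀ i, f i ≤ δ} ≤ #(b.out → Iic δ) :=
    mk_le_of_injective (f := fun f i => ⟨f.1 i, f.2 i⟩) fun f g e =>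
      Subtype.ext (funext fun i => congrArg Subtype.val (congrFun e i))
  refine h3.trans (le_of_lt ?_)
  have h4 : #(b.out → Iic δ) = #(Iic δ) ^ b := by simp
  rw [h4]
  refine inacc_pow_lt h ?_ hb
  rw [← Iio_insert, mk_insert (by simp)]
  exact add_lt_of_lt h.1.le (by simpa using mk_Iio_lt δ) (one_lt_aleph0.trans h.1)

lemma mk_biUnion_le' {α β : Type} {s : Set α} {t : α → Set β} {c : Cardinal.{0}} (hc : ℵ₀ ≤ c)
    (hs : #s ≤ c) (ht : ∀ a ∈ s, #(t a) ≤ c) : #(⋃ a ∈ s, t a) ≤ c := by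
  rw [← Order.lt_succ_iff]
  exact (card_biUnion_lt_iff_forall_of_isRegular (t := fun a _ => t a) (isRegular_succ hc)
    (Order.lt_succ_iff.2 hs)).2 fun a ha => Order.lt_succ_iff.2 (ht a ha)

lemma mk_iUnion_le' {α β : Type} {t : α → Set β} {c : Cardinal.{0}} (hc : ℵ₀ ≤ c)
    (hs : #α ≤ c) (ht : ∀ a, #(t a) ≤ c) : #(⋃ a, t a) ≤ c := by
  rw [← Order.lt_succ_iff]
  exact (card_iUnion_lt_iff_forall_of_isRegular (isRegular_succ hc)
    (Order.lt_succ_iff.2 hs)).2 fun a => Order.lt_succ_iff.2 (ht a)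

lemma mk_union_le' {β : Type} {s t : Set β} {c : Cardinal.{0}} (hc : ℵ₀ ≤ c)
    (hs : #s ≤ c) (ht : #t ≤ c) : #(s ∪ t : Set β) ≤ c :=
  (mk_union_le s t).trans ((add_le_add hs ht).trans (add_eq_self hc).le)

lemma mk_union_lt' {β : Type} {s t : Set β} {c : Cardinal.{0}} (hc : ℵ₀ ≤ c)
    (hs : #s < c) (ht : #t < c) : #(s ∪ t : Set β) < c :=
  (mk_union_le s t).trans_lt (add_lt_of_lt hc hs ht)

lemma mul_le' {a b c : Cardinal.{0}} (hc : ℵ₀ ≤ c) (ha : a ≤ c) (hb : b ≤ c) : a * b ≤ c :=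
  (mul_le_mul' ha hb).trans (mul_eq_self hc).le

lemma mk_prod_le' {A B : Type} {c : Cardinal.{0}} (hc : ℵ₀ ≤ c) (ha : #A ≤ c) (hb : #B ≤ c) :
    #(A × B) ≤ c := by
  rw [mk_prod, lift_id, lift_id]; exact mul_le' hc ha hb

lemma mk_prod_lt' {A B : Type} {c : Cardinal.{0}} (hc : ℵ₀ ≤ c) (ha : #A < c) (hb : #B < c) :
    #(A × B) < c := by
  rw [mk_prod, lift_id, lift_id]; exact mul_lt_of_lt hc ha hb

lemma mk_sprod_le' {A B : Type} {s : Set A} {t : Set B} {c : Cardinal.{0}} (hc : ℵ₀ ≤ c)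
    (ha : #s ≤ c) (hb : #t ≤ c) : #(s ×ˢ t : Set (A × B)) ≤ c := by
  rw [mk_setProd]; exact mul_le' hc ha hb

lemma mk_sprod_lt' {A B : Type} {s : Set A} {t : Set B} {c : Cardinal.{0}} (hc : ℵ₀ ≤ c)
    (ha : #s < c) (hb : #t < c) : #(s ×ˢ t : Set (A × B)) < c := by
  rw [mk_setProd]; exact mul_lt_of_lt hc ha hb

/-- representatives -/
lemma exists_rep {A B : Type} (f : A → B) :
    ∃ r : A → A, #(range r) ≤ #(range f) ∧ ∀ a, f (r a) = f a := by
  refine ⟨fun a => rangeSplitting f ⟨f a, mem_range_self a⟩, ?_, fun a => apply_rangeSplitting f _⟩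
  refine (mk_le_mk_of_subset ?_).trans (mk_range_le (f := rangeSplitting f))
  rintro _ ⟨a, rfl⟩
  exact mem_range_self _

lemma range_le_of_inv {A B C : Type} (f : A → B) (g : A → C) (h : ∀ a a', f a = f a' → g a = g a') :
    #(range g) ≤ #(range f) := by
  refine (mk_le_mk_of_subset ?_).trans (mk_range_le (f := fun x => g (rangeSplitting f x)))
  rintro _ ⟨a, rfl⟩
  exact ⟨⟨f a, mem_range_self a⟩, h _ _ (apply_rangeSplitting f _)⟩

/-- finitely supported sequences of representatives -/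
lemma mk_finseq_le {T : ℕ → Type} (d : ∀ n, T n) (R : ∀ n, Set (T n)) (m : ℕ) {c : Cardinal.{0}}
    (hc : ℵ₀ ≤ c) (h : ∀ n < m, #(R n) ≤ c) :
    #{s : ∀ n, T n | (∀ n < m, s n ∈ R n) ∧ ∀ n, m ≤ n → s n = d n} ≤ c := by
  have h1 : #{s : ∀ n, T n | (∀ n < m, s n ∈ R n) ∧ ∀ n, m ≤ n → s n = d n} ≤
      #(∀ n : Fin m, R n) := by
    refine mk_le_of_injective (f := fun s n => ⟨s.1 n, s.2.1 n n.2⟩) fun s t e => ?_
    refine Subtype.ext (funext fun n => ?_)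
    rcases lt_or_ge n m with l | l
    · exact congrArg Subtype.val (congrFun e ⟨n, l⟩)
    · rw [s.2.2 n l, t.2.2 n l]
  refine h1.trans ?_
  rw [mk_pi]
  refine (Cardinal.prod_le_prod _ (fun _ => c) fun n : Fin m => h n n.2).trans ?_
  simp only [prod_const, lift_id, mk_fintype, Fintype.card_fin]
  exact power_nat_le hc

lemma mk_seq_lt {T : ℕ → Type} {c d : Cardinal.{0}} (hc : IsInaccessible c) (hd : d < c)
    (h : ∀ n, #(T n) ≤ d) : #(∀ n, T n) < c := by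
  rw [mk_pi]
  refine (Cardinal.prod_le_prod _ (fun _ => d) h).trans_lt ?_
  simp only [prod_const, lift_id, mk_nat]
  exact inacc_pow_lt hc hd hc.1

section Lt

variable (K : Type) [LinearOrder K]

/-- the initial ordinal of a cardinal, as an initial segment of `K` -/
def Lt (ρ : Cardinal.{0}) : Set K := {β | #(Iio β) < ρ}

variable {K}

lemma lower_Lt (ρ : Cardinal.{0}) : IsLowerSet (Lt K ρ) := fun _ _ h hb =>
  lt_of_le_of_lt (mk_le_mk_of_subset (Iio_subset_Iio h)) hb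

lemma Lt_mono {ρ σ : Cardinal.{0}} (h : ρ ≤ σ) : Lt K ρ ⊆ Lt K σ := fun _ hb => lt_of_lt_of_le hb h

lemma mem_Lt_succ {ρ : Cardinal.{0}} {β : K} : β ∈ Lt K (Order.succ ρ) ↔ #(Iio β) ≤ ρ :=
  Order.lt_succ_iff (a := #(Iio β))

lemma mk_Iic_le {β : K} {c : Cardinal.{0}} (hc : ℵ₀ ≤ c) (h : #(Iio β) ≤ c) : #(Iic β) ≤ c := by
  rw [← Iio_insert, mk_insert (by simp)]
  exact (add_le_add h (one_lt_aleph0.le.trans hc)).trans (add_eq_self hc).le

lemma mk_Iic_lt {β : K} {c : Cardinal.{0}} (hc : ℵ₀ ≤ c) (h : #(Iio β) < c) : #(Iic β) < c := by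
  rw [← Iio_insert, mk_insert (by simp)]
  exact add_lt_of_lt hc h (one_lt_aleph0.trans_le hc)

variable [WellFoundedLT K]

lemma mk_Lt_le (ρ : Cardinal.{0}) : #(Lt K ρ) ≤ ρ := by
  have h : ∀ β : Lt K ρ, Ordinal.typein (α := K) (· < ·) β.1 < ρ.ord := fun β => by
    rw [lt_ord, Ordinal.card_typein]; exact β.2
  have h1 : lift.{1} #(Lt K ρ) ≤ lift.{0} #(Iio ρ.ord) :=
    Cardinal.lift_mk_le_lift_mk_of_injective (f := fun β => (⟨_, h β⟩ : Iio ρ.ord)) fun a b e =>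
      Subtype.ext (Ordinal.typein_injective _ (congrArg Subtype.val e))
  rw [mk_Iio_ordinal] at h1
  simpa using h1

lemma le_mk_Lt {ρ : Cardinal.{0}} (h : ρ ≤ #K) : ρ ≤ #(Lt K ρ) := by
  by_contra h1
  rw [not_le] at h1
  have : ∃ β, β ∉ Lt K ρ := by
    by_contra h2
    push Not at h2
    rw [eq_univ_of_forall h2, mk_univ] at h1
    exact absurd h (not_le.2 h1)
  obtain ⟨β, h2, h3⟩ := (wellFounded_lt (α := K)).has_min {β | β ∉ Lt K ρ} this
  exact h2 (lt_of_le_of_lt (mk_le_mk_of_subset fun γ hγ => by_contra fun h' => h3 γ h' hγ) h1)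

lemma exists_Lt_notMem {ρ : Cardinal.{0}} (h : ρ ≤ #K) {S : Set K} (hS : #S < ρ) :
    ∃ β ∈ Lt K ρ, β ∉ S := by
  by_contra h1
  push Not at h1
  exact absurd ((le_mk_Lt h).trans (mk_le_mk_of_subset h1)) (not_le.2 hS)

lemma exists_Lt_bound {ρ : Cardinal.{0}} (h : ρ ≤ #K) (hρ : ρ.IsRegular) {S : Set K} (hS : #S < ρ)
    (hs : S ⊆ Lt K ρ) : ∃ δ ∈ Lt K ρ, ∀ β ∈ S, β < δ := by
  obtain ⟨δ, h1, h2⟩ := exists_Lt_notMem h (S := ⋃ β ∈ S, Iic β)
    ((card_biUnion_lt_iff_forall_of_isRegular (t := fun β _ => Iic β) hρ hS).2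
      fun β hβ => mk_Iic_lt hρ.1 (hs hβ))
  exact ⟨δ, h1, fun β hβ => not_le.1 fun l => h2 (mem_biUnion hβ l)⟩

lemma exists_collapse (x : Set K) (h : #x < #K) :
    ∃ (top : K) (f : K → K), StrictMonoOn f x ∧ f '' x = Iio top ∧ ∀ β, f β ≤ top := by
  classical
  let e := (Subtype.relEmbedding ((· < ·) : K → K → Prop) (· ∈ x)).collapse
  have h1 : ∃ β, β ∉ range e := by
    by_contra h2
    push Not at h2
    exact absurd (mk_le_of_surjective (f := e) h2) (not_le.2 h)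
  obtain ⟨top, h2, h3⟩ := (wellFounded_lt (α := K)).has_min {β | β ∉ range e} h1
  have h4 : ∀ a, e a < top := fun a => by
    by_contra l
    rcases (not_lt.1 l).eq_or_lt with l | l
    · exact h2 ⟨a, l.symm⟩
    · exact h2 (e.mem_range_of_rel l)
  refine ⟨top, fun β => if hβ : β ∈ x then e ⟨β, hβ⟩ else top, fun a ha b hb l => ?_, ?_,
    fun β => ?_⟩
  · simp only [dif_pos ha, dif_pos hb]
    exact e.map_rel_iff.2 l
  · ext γ
    constructor
    · rintro ⟨a, ha, rfl⟩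
      simp only [dif_pos ha]
      exact h4 _
    · intro hγ
      obtain ⟨a, rfl⟩ : γ ∈ range e := by_contra fun h' => h3 γ h' hγ
      exact ⟨a.1, a.2, by simp only [dif_pos a.2]⟩
  · by_cases hβ : β ∈ x
    · simp only [dif_pos hβ]; exact (h4 _).le
    · simp only [dif_neg hβ]; exact le_rfl

end Lt

end Pool.Agent.Lib.MP_d4b40b_lc
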