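import Pool.Agent.Lib.MP_d4b40b_lc.Inner
import Pool.Agent.Lib.MP_d4b40b_lc.Card

set_option autoImplicit false

namespace Pool.Agent.Lib.MP_d4b40b_lc

open Pool.Agent.Lib.helper81 Pool.Agent.Lib.helper81.Name Pool.Agent.Lib.MP_fcebdf_lc Set Cardinal

variable {P : Type} [Preorder P]

/-- the least index which can be forced to have the property -/
def Lst {I : Type} (S : I → P → Prop) (i : I) (q : P) : Prop :=
  S i q ∧ ∀ j, WellOrderingRel j i → ∀ s ≤ q, ¬ S j s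

lemma Lst.mono {I : Type} {S : I → P → Prop} {i : I} {q r : P} (h : Lst S i q) (hr : r ≤ q)
    (h' : S i r) : Lst S i r := ⟨h', fun j l s hs => h.2 j l s (hs.trans hr)⟩

lemma Lst.uniq {I : Type} {S : I → P → Prop} {i j : I} {q : P} (h : Lst S i q) (h' : Lst S j q) :
    i = j := by
  rcases trichotomous_of WellOrderingRel i j with l | l | l
  · exact absurd h.1 (h'.2 i l q le_rfl)
  · exact l
  · exact absurd h'.1 (h.2 j l q le_rfl)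

lemma exists_lst {I : Type} (S : I → P → Prop) {q : P} (h : ∃ r ≤ q, ∃ i, S i r) :
    ∃ r ≤ q, ∃ i, Lst S i r := by
  obtain ⟨r, h1, i, h2⟩ := h
  obtain ⟨j, ⟨s, k1, k2⟩, k3⟩ := (IsWellFounded.wf (r := (WellOrderingRel : I → I → Prop))).has_min
    {i | ∃ r ≤ q, S i r} ⟨i, r, h1, h2⟩
  exact ⟨s, k1, j, k2, fun j' l t ht k => k3 j' ⟨t, ht.trans k1, k⟩ l⟩

/-- generic selection of distinct candidates along a well-ordering -/
theorem exists_sel {T I : Type} [LinearOrder T] [WellFoundedLT T] (A : T → I → P → Prop)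
    (hA : ∀ t i q r, A t i q → r ≤ q → A t i r) (R : I → I → P → Prop)
    (hR : ∀ i j q, R i j q → R j i q) :
    ∃ S : T → I → P → Prop, (∀ t i q r, S t i q → r ≤ q → S t i r) ∧ (∀ t i q, S t i q → A t i q) ∧
      (∀ t i j q, S t i q → S t j q → i = j) ∧
      (∀ t t' i j q, S t i q → S t' j q → R i j q → t = t') ∧
      ∀ t q, (∃ r ≤ q, ∃ i, S t i r) ∨
        ∀ r ≤ q, ∀ i, A t i r → ∃ s ≤ r, ∃ t' < t, ∃ j, S t' j s ∧ R i j s := by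
  let S : T → I → P → Prop := (wellFounded_lt (α := T)).fix fun t f =>
    Lst fun i q => A t i q ∧ ∀ t' (h : t' < t) j, ∀ s ≤ q, f t' h j s → ¬ R i j s
  have hS : ∀ t, S t = Lst fun i q => A t i q ∧ ∀ t' (_ : t' < t) j, ∀ s ≤ q, S t' j s → ¬ R i j s :=
    fun t => (wellFounded_lt (α := T)).fix_eq _ t
  refine ⟨S, fun t i q r h l => ?_, fun t i q h => ?_, fun t i j q h h' => ?_,
    fun t t' i j q h h' e => ?_, fun t q => ?_⟩
  · rw [hS] at h ⊢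
    exact h.mono l ⟨hA _ _ _ _ h.1.1 l, fun t' k j s hs => h.1.2 t' k j s (hs.trans l)⟩
  · rw [hS] at h
    exact h.1.1
  · rw [hS] at h h'
    exact h.uniq h'
  · rcases lt_trichotomy t t' with l | l | l
    · rw [hS] at h'
      exact absurd (hR _ _ _ e) (h'.1.2 t l i q le_rfl h)
    · exact l
    · rw [hS] at h
      exact absurd e (h.1.2 t' l j q le_rfl h')
  · rw [hS]
    refine or_iff_not_imp_right.2 fun h => exists_lst _ ?_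
    simp only [not_forall, not_exists, not_and] at h
    obtain ⟨r, k1, i, k2, k3⟩ := h
    exact ⟨r, k1, i, k2, fun t' l j s hs => k3 s hs t' l j⟩

variable {K : Type} [LinearOrder K] [WellFoundedLT K]

/-- a set covered by few names injects into a set of ordinals -/
theorem fc_cover {Φ : Type} (σ : Φ → HN P) (e : Φ → K) (S : Φ → P → Prop) {L : Set K} {X : HN P}
    {p : P} (hm : ∀ φ q r, S φ q → r ≤ q → S φ r) (he : ∀ φ q, S φ q → e φ ∈ L)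
    (hi : ∀ φ φ' q, S φ q → S φ' q → e φ = e φ' → Feq (σ φ).1 (σ φ').1 q)
    (hc : ∀ x : HN P, ∀ q ≤ p, Fmem x.1 X.1 q → ∃ r ≤ q, ∃ φ, S φ r ∧ Feq x.1 (σ φ).1 r) :
    Fc (fun _ E v => Le E (v 0) (v 1)) (w2 X (oS P L)) p := by
  refine fc_le σ (fun φ => ordH P (e φ)) (fun φ => ⟨{q | (Fmem (σ φ).1 X.1 q ∧ S φ q) ∧
      ∀ φ', e φ' < e φ → ∀ s ≤ q, S φ' s → ¬ Feq (σ φ).1 (σ φ').1 s},
    fun _ _ l h => ⟨⟨h.1.1.mono l, hm _ _ _ h.1.2 l⟩, fun φ' k s hs => h.2 φ' k s (hs.trans l)⟩⟩)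
    (fun φ q _ h => ⟨h.1.1, fmem_oS (he _ _ h.1.2) q⟩) (fun x q hq h => ?_)
    (fun φ φ' q _ h h' k => ?_) fun φ φ' q _ h h' k => hi _ _ _ h.1.2 h'.1.2 (feq_ord k)
  · obtain ⟨r, k1, φ, k2⟩ := hc x q hq h
    obtain ⟨r', k3, β, ⟨ψ, rfl, k4, k5⟩, k6⟩ := exists_min_dec
      (fun β r => ∃ φ, e φ = β ∧ S φ r ∧ Feq x.1 (σ φ).1 r) ⟨_, r, k1, φ, rfl, k2⟩
    exact ⟨r', k3, ψ, ⟨⟨(h.mono k3).congr_left k5, k4⟩, fun φ' l s hs l1 l2 =>
      k6 _ l s hs ⟨φ', rfl, l1, (k5.mono hs).trans l2⟩⟩, k5⟩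
  · rcases lt_trichotomy (e φ) (e φ') with l | l | l
    · exact absurd k.symm (h'.2 φ l q le_rfl h.1.2)
    · rw [l]; exact Feq.refl _ _
    · exact absurd k (h.2 φ' l q le_rfl h'.1.2)

lemma fmem_elim {x : Name P} {X : HN P} {q : P} (h : Fmem x X.1 q) :
    ∃ r ≤ q, ∃ i, r ∈ X.1.B i ∧ Feq x (X.sub i).1 r := h q le_rfl

/-- comparability of cardinals -/
theorem le_or_le (gm : GN P) {X : gm.M} {L : Set K} (hL : oS P L ∈ gm.S) :
    Le gm.E (gm.val (oS P L)) X ∨ ∃ x, gm.E x (gm.val (oS P L)) ∧ Le gm.E X x := by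
  obtain ⟨X, hX, rfl⟩ := gm.surj X
  obtain ⟨S, s1, s2, s3, s4, s5⟩ := exists_sel (T := K) (fun _ i q => q ∈ X.1.B i)
    (fun _ _ _ _ => lmono) (fun i j q => Feq (X.sub i).1 (X.sub j).1 q) fun _ _ _ => Feq.symm
  have hd : Def (fun _ E v => Le E (v 0) (v 1) ∨ ∃ x, E x (v 0) ∧ Le E (v 1) x) :=
    (def_le _ _).or (Def.ex ((Def.mem _ _).and (def_le _ _)))
  obtain ⟨p, hp⟩ := gm.nonempty
  refine Fc.reg hd (w := w2 (oS P L) X) (fun q _ => ?_) gm hp (mem2 hL hX)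
  by_cases h : ∀ ξ ∈ L, ∀ r ≤ q, ∃ s ≤ r, ∃ i, S ξ i s
  · exact ⟨q, le_rfl, fun g k1 k2 => Or.inl (fc_le_oS L X.sub S s1
      (fun ξ i r _ _ k => Fmem.of_B (s2 ξ i r k)) h s3
      (fun ξ _ ξ' _ i j r => s4 ξ ξ' i j r) g k1 k2)⟩
  · simp only [not_forall] at h
    obtain ⟨ξ, k1, r, k2, k3⟩ := h
    refine ⟨r, k2, Fc.of_extra hd {ordH P ξ} (to_countable _) fun g l1 l2 l3 =>
      Or.inr ⟨_, oS_intro g (l2 0) (l3 rfl) k1, ?_⟩⟩
    have l4 : ordH P ξ ∈ g.S := l3 rfl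
    rw [ordH_eq] at l4 ⊢
    refine fc_cover (Φ := K × X.1.ι) (fun φ => X.sub φ.2) Prod.fst
      (fun φ s => φ.1 < ξ ∧ S φ.1 φ.2 s) (fun _ _ _ k l => ⟨k.1, s1 _ _ _ _ k.2 l⟩)
      (fun _ _ k => k.1) (fun φ φ' s k k' e => ?_) (fun x s hs k => ?_) g l1 (mem2 (l2 1) l4)
    · rw [s3 _ _ _ _ k.2 (e ▸ k'.2)]; exact Feq.refl _ _
    · obtain ⟨s', n1, i, n2, n3⟩ := fmem_elim k
      obtain ⟨s'', n4, t, n5, j, n6, n7⟩ := (s5 ξ r).resolve_left k3 s' (n1.trans hs) i n2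
      exact ⟨s'', n4.trans n1, (t, j), ⟨n5, n6⟩, (n3.mono n4).trans n7⟩

lemma le_oS (gm : GN P) {L L' : Set K} (h : #L ≤ #L') (hL : oS P L ∈ gm.S) (hL' : oS P L' ∈ gm.S) :
    Le gm.E (gm.val (oS P L)) (gm.val (oS P L')) := by
  obtain ⟨e⟩ := (Cardinal.le_def _ _).1 h
  obtain ⟨p, hp⟩ := gm.nonempty
  refine fc_le_oS L (fun t : L' => ordH P t.1) (fun ξ t _ => ∃ h : ξ ∈ L, e ⟨ξ, h⟩ = t)
    (fun _ _ _ _ h _ => h) (fun _ t q _ _ _ => fmem_oS t.2 q)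
    (fun ξ h q _ => ⟨q, le_rfl, _, h, rfl⟩) (fun _ _ _ _ ⟨_, h⟩ ⟨_, h'⟩ => h.symm.trans h')
    ?_ gm hp (mem2 hL hL')
  rintro ξ _ ξ' _ _ _ q ⟨_, rfl⟩ ⟨_, rfl⟩ k
  exact congrArg Subtype.val (e.injective (Subtype.ext (feq_ord k)))

lemma le_ord (gm : GN P) {β γ : K} (h : #(Iio β) ≤ #(Iio γ)) (hβ : ordH P β ∈ gm.S)
    (hγ : ordH P γ ∈ gm.S) : Le gm.E (gm.val (ordH P β)) (gm.val (ordH P γ)) := by
  rw [ordH_eq] at hβ hγ
  rw [ordH_eq, ordH_eq]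
  exact le_oS gm h hβ hγ

lemma sub_oS (gm : GN P) {L L' : Set K} (h : L ⊆ L') (hL : oS P L ∈ gm.S) (hL' : oS P L' ∈ gm.S) :
    Sub gm.E (gm.val (oS P L)) (gm.val (oS P L')) := fun x hx => by
  obtain ⟨β, k1, k2, rfl⟩ := oS_elim gm hL hx
  exact oS_intro gm hL' k2 (h k1)

lemma sub_ord (gm : GN P) {β γ : K} (h : β ≤ γ) (hβ : ordH P β ∈ gm.S)
    (hγ : ordH P γ ∈ gm.S) : Sub gm.E (gm.val (ordH P β)) (gm.val (ordH P γ)) := by
  rw [ordH_eq] at hβ hγ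
  rw [ordH_eq, ordH_eq]
  exact sub_oS gm (Iio_subset_Iio h) hβ hγ

lemma le_collapse' (gm : GN P) {w lam : K} {p : P} (hp : p ∈ gm.Γ) (H : K → K → P → Prop)
    (h1 : ∀ ξ η p q, H ξ η p → q ≤ p → H ξ η q) (h2 : ∀ ξ η η' p, H ξ η p → H ξ η' p → η = η')
    (h3 : ∀ η < lam, ∀ q ≤ p, ∃ r ≤ q, ∃ ξ < w, H ξ η r) (hw : ordH P w ∈ gm.S)
    (hl : ordH P lam ∈ gm.S) : Le gm.E (gm.val (ordH P lam)) (gm.val (ordH P w)) := by
  rw [ordH_eq lam] at hl ⊢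
  refine fc_le_oS (Iio lam) (ordH P) (Y := ordH P w) (fun η => Lst fun ξ q => ξ < w ∧ H ξ η q)
    (fun _ _ _ _ h hr => h.mono hr ⟨h.1.1, h1 _ _ _ _ h.1.2 hr⟩)
    (fun _ _ q _ _ h => by rw [ordH_eq w]; exact fmem_oS (L := Iio w) h.1.1 q)
    (fun η hη q hq => exists_lst _ (h3 η hη q hq)) (fun η ξ ξ' q => Lst.uniq)
    (fun η _ η' _ ξ ξ' q k1 k2 e => ?_) gm hp (mem2 hl hw)
  obtain rfl : ξ = ξ' := feq_ord e
  exact h2 ξ η η' q k1.1.2 k2.1.2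

/-- a name witnessing that the generic meets a set -/
def dn (D : LowerSet P) : HN P := mkH (fun _ : Unit => omegaH (Triv P)) fun _ => D

lemma meet_dense (gm : GN P) {D : LowerSet P} (hD : ∀ q, ∃ r ≤ q, r ∈ D) (h : dn D ∈ gm.S) :
    ∃ q ∈ gm.Γ, q ∈ D := by
  obtain ⟨p, hp⟩ := gm.nonempty
  have : Fmem (omegaH (Triv P)).1 (dn D).1 p := Fmem.reg fun q _ =>
    (hD q).imp fun _ k => ⟨k.1, fmem_mkH (A := fun _ : Unit => omegaH (Triv P)) (i := ()) k.2⟩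
  obtain ⟨-, -, -, k⟩ := mkH_elim gm h (val_mem gm gm.omega_mem h hp this)
  exact k

lemma omega_sub [Infinite K] (gm : GN P) {L : Set K} (hL : Lt K ℵ₀ ⊆ L) (h : oS P L ∈ gm.S) :
    Sub gm.E gm.omega (gm.val (oS P L)) := by
  obtain ⟨f⟩ : Nonempty (((· < ·) : ℕ → ℕ → Prop) ↪r ((· < ·) : K → K → Prop)) := by
    obtain ⟨f, hf⟩ := Infinite.exists_strictMono_or_strictAnti K
    exact ⟨(OrderEmbedding.ofStrictMono f
      (hf.resolve_right (not_strictAnti_of_wellFoundedLT f))).ltEmbedding⟩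
  let e := f.collapse
  have he : ∀ n, Iio (e n) = e '' Iio n := fun n => by
    ext β
    constructor
    · intro l
      obtain ⟨i, rfl⟩ := e.mem_range_of_rel l
      exact ⟨i, e.map_rel_iff.1 l, rfl⟩
    · rintro ⟨i, l, rfl⟩
      exact e.map_rel_iff.2 l
  obtain ⟨p, hp⟩ := gm.nonempty
  refine Fc.of_extra (Def.sub 0 1) (w := w2 (omegaH (Triv P)) (oS P L))
    (range fun n => ordH P (e n)) (countable_range _) (fun g _ k1 k2 x hx => ?_) gm hp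
    (mem2 gm.omega_mem h)
  have k3 : ∀ n, ordH P (e n) ∈ g.S := fun n => k2 (mem_range_self n)
  have key : ∀ n, g.nat n = g.val (ordH P (e n)) := by
    intro n
    induction n using Nat.strong_induction_on with
    | _ n ih =>
    refine g.ext _ _ fun x => (g.mem_nat n x).trans ⟨?_, fun l => ?_⟩
    · rintro ⟨i, l, rfl⟩
      exact ih i l ▸ ord_lt g (k3 i) (k3 n) (e.map_rel_iff.2 l)
    · have k4 := k3 n
      rw [ordH_eq, he] at k4 l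
      obtain ⟨_, ⟨i, l1, rfl⟩, -, l2⟩ := oS_elim g k4 l
      exact ⟨i, l1, (ih i l1).trans l2⟩
  obtain ⟨n, rfl⟩ := (g.mem_omega x).1 hx
  rw [key]
  refine oS_intro g (k1 1) (k3 n) (hL ?_)
  show #(Iio (e n)) < ℵ₀
  rw [he]
  exact lt_aleph0_iff_set_finite.2 ((finite_Iio n).image _)

lemma omega_le [Infinite K] (gm : GN P) (h : oS P (Lt K ℵ₀) ∈ gm.S) :
    Le gm.E gm.omega (gm.val (oS P (Lt K ℵ₀))) := le_of_sub gm.isZF (omega_sub gm Subset.rfl h)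

end Pool.Agent.Lib.MP_d4b40b_lc
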