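import Pool.Agent.Lib.MP_d4b40b_lc.Prikry

set_option autoImplicit false
set_option linter.unusedSectionVars false

namespace Pool.Agent.Lib.MP_d4b40b_lc

open Filter Set Cardinal

variable {K : Type} [LinearOrder K] [WellFoundedLT K] [Sys K] [Ext K]

/-- mixing lower parts -/
def lmix (m : ℕ) (d d' : Low K) : Low K := fun k => if k < m then d k else d' k

lemma lmix_congr {m : ℕ} {d d0 : Low K} (h : ∀ k < m, d0 k = d k) (d' : Low K) :
    lmix m d0 d' = lmix m d d' := funext fun k => by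
  simp only [lmix]
  split_ifs with l
  exacts [h k l, rfl]

lemma lmix_le {m : ℕ} {d d' d'' : Low K} {k : ℕ} (h : k < m → d k ≤ d'' k) (h' : d' k ≤ d'' k) :
    lmix m d d' k ≤ d'' k := by
  simp only [lmix]
  split_ifs with l
  exacts [h l, h']

lemma le_lmix {m : ℕ} {d d' d'' : Low K} {k : ℕ} (h : k < m → d'' k ≤ d k) (h' : d'' k ≤ d' k) :
    d'' k ≤ lmix m d d' k := by
  simp only [lmix]
  split_ifs with l
  exacts [h l, h']

lemma exists_lmix {q r : Cond K} (h : r ≤ q) {m : ℕ} {d : Low K}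
    (hd : ∀ k < m, d k ≤ r.low k) :
    ∃ r' ≤ r, r' ≤ setLow q (lmix m d q.low) ∧ ∀ k < m, r'.low k ≤ d k := by
  have h1 : DLe (setLow r (lmix m d r.low)) r :=
    setLow_dle (DLe.refl r) fun k _ => lmix_le (hd k) le_rfl
  have h2 : ∀ k < m, lmix m d r.low k ≤ d k := fun k hk => (if_pos hk : _ = d k).le
  exact ⟨_, h1.le, le_setLow (h1.le.trans h) fun k hk =>
    le_lmix (h2 k) (low_le (h1.le.trans h) hk), fun k hk => h2 k hk⟩

theorem low_meet (p : Cond K) {m : ℕ} (hm : m ≤ p.len) {I : Type} (hI : #I ≤ pre K m)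
    (D : I → Cond K → Prop) (hD : ∀ i a b, D i a → DLe b a → D i b)
    (hd : ∀ i q, DLe q p → ∃ r, DLe r q ∧ D i r) :
    ∃ q, DLe q p ∧ ∀ i, ∀ r ≤ q, ∃ d : Low K, (∀ k < m, d k ≤ r.low k) ∧
      D i (setLow q (lmix m d q.low)) := by
  obtain ⟨L, l1, l2⟩ := seq_reps (K := K) mk_Lo m
  obtain ⟨q, h1, h2⟩ := fix_meet m (T := I × L) (mk_prod_le' (pre_inf m) hI l1)
    (fun τ q => (∀ k < m, τ.2.1 k ≤ p.low k) → ∃ d : Low K, (∀ k < m, d k ≤ τ.2.1 k) ∧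
      D τ.1 (setLow q (lmix m d q.low))) p
    (fun τ a b g e k => (g k).imp fun d k' => ⟨k'.1, hD _ _ _ k'.2 (setLow_mono e.dle fun j hj => by
      simp only [lmix]
      split_ifs
      exacts [le_rfl, e.dle.ex.low j hj])⟩)
    (fun τ q hq => by
      by_cases hx : ∀ k < m, τ.2.1 k ≤ p.low k
      · have k0 : ∀ k < m, τ.2.1 k ≤ q.low k := fun k hk =>
          (hx k hk).trans (hq.low k hk (hk.trans_le hm))
        have k1 : DLe (setLow q (lmix m τ.2.1 q.low)) q :=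
          setLow_dle (DLe.refl q) fun k _ => lmix_le (k0 k) le_rfl
        obtain ⟨r, k2, k3⟩ := hd τ.1 _ (k1.trans hq.dle)
        have k4 := k2.trans k1
        refine ⟨setLow r (lmix m q.low r.low), ⟨setLow_dle k4 fun k hk =>
          lmix_le (fun _ => le_rfl) (k4.ex.low k hk), fun k hk _ => (if_pos hk : _ = q.low k).ge,
          fun k j1 j2 => absurd (j1.trans_le (hq.dle.len ▸ hm)) (not_lt.2 j2)⟩,
          fun _ => ⟨r.low, fun k hk => (k2.ex.low k (hk.trans_le (hq.dle.len ▸ hm))).trans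
            (if_pos hk : _ = τ.2.1 k).le, hD _ _ _ k3 (setLow_dle (q := r) (DLe.refl r)
              (d := lmix m r.low (lmix m q.low r.low)) fun k _ => ?_)⟩⟩
        simp only [lmix]
        split_ifs <;> exact le_rfl
      · exact ⟨q, Fix.refl _ _, fun k => absurd k hx⟩)
  refine ⟨q, h1.dle, fun i r hr => ?_⟩
  obtain ⟨d0, k1, k2⟩ := l2 r.low
  obtain ⟨d, k3, k4⟩ := h2 (i, ⟨d0, k1⟩) fun k hk =>
    (k2 k hk).le.trans (low_le (hr.trans h1.dle.le) (hk.trans_le hm))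
  exact ⟨d, fun k hk => (k3 k hk).trans (k2 k hk).le, k4⟩

/-- `q` forces the negation -/
def Out (I : Cond K → Prop) (q : Cond K) : Prop := ∀ r ≤ q, ¬ I r

lemma decide_direct {I : Cond K → Prop} (hm : ∀ a b, I a → b ≤ a → I b)
    (hr : ∀ q, (∀ r ≤ q, ∃ r' ≤ r, I r') → I q) (p : Cond K) :
    ∃ q, DLe q p ∧ (I q ∨ Out I q) := by
  obtain ⟨q, h1, j, h2⟩ := prikry_small (J := Bool) (by simp)
    (D := fun j q => bif j then I q else Out I q)
    (fun j a b k e => by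
      cases j
      exacts [fun r l => k r (l.trans e), hm a b k e])
    (fun j q k => by
      cases j
      · intro r l i
        obtain ⟨r', k1, k2⟩ := k r l
        exact k2 r' le_rfl (hm _ _ i k1)
      · exact hr q k) p
    (fun q _ => by
      by_cases k : ∃ r ≤ q, I r
      · obtain ⟨r, k1, k2⟩ := k
        exact ⟨r, k1, true, k2⟩
      · exact ⟨q, le_rfl, false, fun r k1 k2 => k ⟨r, k1, k2⟩⟩)
  cases j
  exacts [⟨q, h1, Or.inr h2⟩, ⟨q, h1, Or.inl h2⟩]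

/-- the set coded by `φ` and the lower collapses -/
def Sig {m : ℕ} {T : Type} (φ : Set ((∀ k : Fin m, Lo K k) × T)) (ξ : T) (r : Cond K) : Prop :=
  m ≤ r.len ∧ ∃ d, (d, ξ) ∈ φ ∧ ∀ k : Fin m, r.low k ≤ d k

lemma Sig.mono {m : ℕ} {T : Type} {φ : Set ((∀ k : Fin m, Lo K k) × T)} {ξ : T} {r r' : Cond K}
    (h : Sig φ ξ r) (e : r' ≤ r) : Sig φ ξ r' :=
  ⟨h.1.trans (len_le e), h.2.imp fun _ k => ⟨k.1, fun j =>
    (low_le e (j.2.trans_le h.1)).trans (k.2 j)⟩⟩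

lemma mk_codes {m : ℕ} {T : Type} (hT : #T ≤ pre K m) :
    #(Set ((∀ k : Fin m, Lo K k) × T)) < kp K m := by
  rw [mk_set]
  refine (inacc_kp m).isStrongPrelimit ((mk_prod_le' (pre_inf m) ?_ hT).trans_lt (pre_lt m))
  rw [mk_pi]
  refine (Cardinal.prod_le_prod _ (fun _ => pre K m)
    fun n : Fin m => (mk_Lo n).trans (kp_le_pre n.2)).trans ?_
  simp only [prod_const, lift_id, mk_fintype, Fintype.card_fin]
  exact power_nat_le (pre_inf m)

theorem cover_sub {m : ℕ} {T : Type} (hT : #T ≤ pre K m) (I : T → Cond K → Prop)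
    (hm : ∀ ξ a b, I ξ a → b ≤ a → I ξ b) (hr : ∀ ξ q, (∀ r ≤ q, ∃ r' ≤ r, I ξ r') → I ξ q)
    (p : Cond K) : ∃ q ≤ p, ∃ φ : Set ((∀ k : Fin m, Lo K k) × T), ∀ ξ, ∀ r ≤ q,
      (Sig φ ξ r → I ξ r) ∧ (I ξ r → ∃ r' ≤ r, Sig φ ξ r') := by
  obtain ⟨p', h1, h2⟩ := exists_long p m
  obtain ⟨q, h3, h4⟩ := low_meet p' h2 hT (fun ξ q => I ξ q ∨ Out (I ξ) q)
    (fun ξ a b k e => k.imp (fun k => hm ξ a b k e.le) fun k r l => k r (l.trans e.le))
    (fun ξ q _ => decide_direct (hm ξ) (hr ξ) q)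
  refine ⟨q, h3.le.trans h1, {x | ∃ d : Low K, (∀ k : Fin m, x.1 k = d k) ∧
    I x.2 (setLow q (lmix m d q.low))}, fun ξ r hr => ⟨?_, fun k => ?_⟩⟩
  · rintro ⟨-, d, ⟨d', k1, k2⟩, k3⟩
    exact hm _ _ _ k2 (le_setLow hr fun k hk => le_lmix
      (fun l => (k3 ⟨k, l⟩).trans (k1 ⟨k, l⟩).le) (low_le hr hk))
  · obtain ⟨d, k1, k2⟩ := h4 ξ r hr
    obtain ⟨r', k3, k4, k5⟩ := exists_lmix hr k1
    exact ⟨r', k3, (h3.len ▸ h2 : m ≤ q.len).trans (len_le (k3.trans hr)), fun k => d k,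
      ⟨d, fun _ => rfl, k2.resolve_right fun l => l r' k4 (hm _ _ _ k k3)⟩, fun k => k5 k k.2⟩

lemma bound_ks {S : Set K} (h1 : #S ≤ ks K) (h2 : S ⊆ Lt K (Order.succ (ks K))) :
    ∃ δ ∈ Lt K (Order.succ (ks K)), ∀ β ∈ S, β < δ :=
  exists_Lt_bound succ_ks_lt.le (isRegular_succ ks_inf) (Order.lt_succ_iff.2 h1) h2

theorem bound_succ (S : K → K → Cond K → Prop) (hm : ∀ ξ γ a b, S ξ γ a → b ≤ a → S ξ γ b)
    (hf : ∀ ξ γ γ' q, S ξ γ q → S ξ γ' q → γ = γ')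
    (hb : ∀ ξ γ q, S ξ γ q → γ ∈ Lt K (Order.succ (ks K))) (p : Cond K) :
    ∃ q ≤ p, ∃ j ∈ Lt K (Order.succ (ks K)), ∀ ξ ∈ Lt K (ks K), ∀ γ, ∀ r ≤ q, S ξ γ r → γ < j := by
  let J := Lt K (Order.succ (ks K))
  let D : Set K → J → Cond K → Prop := fun T j q => ∀ ξ ∈ T, ∀ γ, ∀ r ≤ q, S ξ γ r → γ < j.1
  have sup : ∀ {I : Type} (f : I → J), #(range f) ≤ ks K → ∃ j : J, ∀ i, (f i).1 < j.1 := by
    intro I f hf
    obtain ⟨δ, k1, k2⟩ := bound_ks (S := Subtype.val '' range f) (mk_image_le.trans hf)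
      (by rintro _ ⟨x, -, rfl⟩; exact x.2)
    exact ⟨⟨δ, k1⟩, fun i => k2 _ ⟨_, mem_range_self i, rfl⟩⟩
  obtain ⟨j0, -⟩ := sup (I := Empty) Empty.elim (by simp)
  have key : ∀ T p, (∀ q ≤ p, ∃ r ≤ q, ∃ j, D T j r) → ∃ q, DLe q p ∧ ∃ j, D T j q := fun T p =>
    prikry (fun j a b k e ξ l γ r l' => k ξ l γ r (l'.trans e))
      (fun j q k ξ l γ r l' s => by
        obtain ⟨r', k1, k2⟩ := k r l'
        exact k2 ξ l γ r' le_rfl (hm _ _ _ _ s k1))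
      (fun n f hf => (sup f (hf.trans (kp_le_ks n))).imp fun j k => Eventually.of_forall
        fun μ q d ξ l γ r l' s => (d ξ l γ r l' s).trans (k μ)) p
  have k1 : ∀ ξ p, ∃ q, DLe q p ∧ ∃ j, D {ξ} j q := fun ξ p => key _ p fun q _ => by
    by_cases k : ∃ r ≤ q, ∃ γ, S ξ γ r
    · obtain ⟨r, l1, γ, l2⟩ := k
      obtain ⟨j, l3⟩ := sup (I := Unit) (fun _ => ⟨γ, hb _ _ _ l2⟩)
        (mk_range_le.trans (by simpa using one_lt_aleph0.le.trans ks_inf))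
      refine ⟨r, l1, j, ?_⟩
      rintro _ rfl γ' r' l4 l5
      exact hf _ _ _ _ (hm _ _ _ _ l2 l4) l5 ▸ l3 ()
    · refine ⟨q, le_rfl, j0, ?_⟩
      rintro _ rfl γ' r' l4 l5
      exact absurd ⟨r', l4, γ', l5⟩ k
  obtain ⟨q, h1, h2⟩ := dle_meet (fun m q => ∃ j, D (Lt K (pre K m)) j q) p
    (fun m a b g e => g.imp fun j k ξ l γ r l' => k ξ l γ r (l'.trans e.le))
    (fun m q _ => key _ q fun q _ => by
      obtain ⟨q1, l1, l2⟩ := exists_long q m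
      obtain ⟨q2, l3, l4⟩ := low_meet q1 l2 (I := Lt K (pre K m)) (mk_Lt_le _)
        (fun ξ q => ∃ j, D {ξ.1} j q)
        (fun ξ a b g e => g.imp fun j k ξ l γ r l' => k ξ l γ r (l'.trans e.le))
        (fun ξ q _ => k1 ξ q)
      obtain ⟨L, n1, n2⟩ := seq_reps (K := K) mk_Lo m
      have : ∀ x : Lt K (pre K m) × L, ∃ j : J, (∃ j, D {x.1.1} j (setLow q2 (lmix m x.2 q2.low))) →
          D {x.1.1} j (setLow q2 (lmix m x.2 q2.low)) := by
        intro x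
        by_cases k : ∃ j, D {x.1.1} j (setLow q2 (lmix m x.2 q2.low))
        · exact k.imp fun _ k _ => k
        · exact ⟨j0, fun l => absurd l k⟩
      choose f hf using this
      obtain ⟨j, hj⟩ := sup f (mk_range_le.trans
        ((mk_prod_le' (pre_inf m) (mk_Lt_le _) n1).trans (pre_le_ks m)))
      refine ⟨q2, l3.le.trans l1, j, fun ξ l γ r l' s => ?_⟩
      obtain ⟨d, n3, n4⟩ := l4 ⟨ξ, l⟩ r l'
      obtain ⟨r', n5, n6, -⟩ := exists_lmix l' n3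
      obtain ⟨d0, n7, n8⟩ := n2 d
      rw [← lmix_congr n8] at n4 n6
      exact (hf (⟨ξ, l⟩, ⟨d0, n7⟩) n4 ξ rfl γ r' n6 (hm _ _ _ _ s n5)).trans (hj _))
  choose f hf using h2
  obtain ⟨j, hj⟩ := sup f (mk_range_le.trans (by simpa using ks_inf))
  refine ⟨q, h1.le, j, j.2, fun ξ l γ r l' s => ?_⟩
  obtain ⟨n, hn⟩ := lt_ks l
  exact (hf (n + 1) ξ hn γ r l' s).trans (hj _)

/-- the generic collapse -/
def GF (β i v : K) (p : Cond K) : Prop := ∀ s, (β, i, v) ∈ p.F p.len s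

lemma F_le {q p : Cond K} {t : Stem K} {h : p.len ≤ q.len} (e : DLe q (act p t q.len h))
    {x : Tr K} {n : ℕ} (h1 : p.len ≤ n) (h2 : n ≤ q.len) (hx : x ∈ p.F n t) (s : Stem K) :
    x ∈ q.F q.len s :=
  e.F le_rfl s (p.F_mono h1 h2 _ (p.hFi.sub h1 (sagr_merge_left _ _ _ h2 t s).symm hx))

lemma GF.mono {β i v : K} {p q : Cond K} (h : GF β i v p) (e : q ≤ p) : GF β i v q := by
  obtain ⟨h1, t, -, e⟩ := e
  exact F_le e le_rfl h1 (h t)

lemma GF.fn {β i v v' : K} {p : Cond K} (h : GF β i v p) (h' : GF β i v' p) : v = v' :=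
  (p.hF _ le_rfl default).fn _ _ _ _ (h _) (h' _)

lemma GF.ex {β i v : K} {p q : Cond K} {S : Set K} (h : GF β i v p) (e : Ex S q p) (hβ : β ∈ S) :
    GF β i v q := fun s => e.len ▸ e.F _ le_rfl s _ hβ (h s)

lemma gf_dense {β v : K} (hv : v ≤ β) (p : Cond K) :
    ∃ q ≤ p, ∃ i ∈ Lt K (Order.succ (ks K)), GF β i v q := by
  obtain ⟨i, h1, h2⟩ := exists_fresh ks_lt p.hFc
  obtain ⟨q, h3, -, h4⟩ := exists_grow p p.b (fun _ _ => {(β, i, v)}) (fun _ _ => Subset.rfl) p.hb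
    (fun _ _ _ _ _ _ k => k) (fun n hn s => (p.hF n hn s).union ⟨by rintro _ _ _ _ ⟨⟩ ⟨⟩; rfl,
      by rintro _ rfl; exact ⟨trivial, h1, hv⟩⟩
      (by rintro _ _ _ _ k ⟨⟩; exact absurd rfl (h2 _ ⟨n, hn, s, k⟩))) (fun _ _ _ => Subset.rfl)
    (le_trans (mk_le_mk_of_subset (t := {(β, i, v)}) (by rintro _ ⟨_, _, _, k⟩; exact k))
      (by simpa using one_lt_aleph0.le.trans ks_inf))
  exact ⟨q, h3.le, i, mem_Lt_succ.2 h1, fun s => h4 _ s rfl⟩

lemma exists_setLo (p : Cond K) {n : ℕ} {d : Lo K n} (h : d ≤ p.low n) :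
    ∃ q ≤ p, q.len = p.len ∧ q.low n = d := by
  refine ⟨setLow p (Function.update p.low n d), (setLow_dle (DLe.refl p) fun k _ => ?_).le, rfl,
    Function.update_self _ _ _⟩
  rcases eq_or_ne k n with rfl | l
  · rwa [Function.update_self]
  · rw [Function.update_of_ne l]

lemma c_dense (p : Cond K) (n : ℕ) {β v : K} (hβ : β < (p.low n).lam.1) (hv : v ≤ β) :
    ∃ q ≤ p, ∃ i ∈ Lt K (Order.succ (pre K n)), (β, i, v) ∈ (q.low n).c := by
  obtain ⟨i, h1, h2⟩ := (p.low n).hc.add ((pre_lt n).trans (Sys.lt n)) (pre_inf n) hβ hv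
  obtain ⟨q, h3, -, h4⟩ := exists_setLo p (d := ⟨_, _, _, h2, (p.low n).he⟩)
    ⟨rfl, subset_union_left, Subset.rfl⟩
  exact ⟨q, h3, i, mem_Lt_succ.2 h1, by rw [h4]; exact Or.inr rfl⟩

lemma e_dense (p : Cond K) (n : ℕ) {β v : K} (hβ : β ∈ Lt K (kp K n)) (hv : v ≤ β) :
    ∃ q ≤ p, ∃ i ∈ Lt K (Order.succ (p.low n).lam.c), (β, i, v) ∈ (q.low n).e := by
  obtain ⟨i, h1, h2⟩ := (p.low n).he.add (Sys.ord _) (Top.inf _) hβ hv
  obtain ⟨q, h3, -, h4⟩ := exists_setLo p (d := ⟨_, _, _, (p.low n).hc, h2⟩)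
    ⟨rfl, Subset.rfl, subset_union_left⟩
  exact ⟨q, h3, i, mem_Lt_succ.2 h1, by rw [h4]; exact Or.inr rfl⟩

end Pool.Agent.Lib.MP_d4b40b_lc
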