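import Pool.Agent.Lib.MP_d4b40b_lc.Appl

set_option autoImplicit false
set_option linter.unusedSectionVars false

namespace Pool.Agent.Lib.MP_d4b40b_lc

open Filter Set Cardinal

variable {K : Type} [LinearOrder K] [WellFoundedLT K] [Sys K] [Ext K]

/-- membership in the generic subset of the `n`-th cardinal given by `Y` and `h` -/
def InB (n : ℕ) (Y : Top K n → Set (Top K n)) (h : HH K n) (ξ : Top K n) (r : Cond K) : Prop :=
  n < r.len ∧ ξ ∈ Y (r.low n).lam ∧ h.1 (r.low n).lam ξ ⊆ (r.low n).e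

lemma InB.mono {n : ℕ} {Y : Top K n → Set (Top K n)} {h : HH K n} {ξ : Top K n} {r r' : Cond K}
    (H : InB n Y h ξ r) (e : r' ≤ r) : InB n Y h ξ r' := by
  have := low_le e H.1
  exact ⟨H.1.trans_le (len_le e), this.1 ▸ H.2.1, this.1 ▸ H.2.2.trans this.2.2⟩

lemma H_le {r p : Cond K} (h : r ≤ p) {n : ℕ} (hn : r.len ≤ n) : r.H n ≤ p.H n := by
  obtain ⟨_, _, -, e⟩ := h
  exact e.ex.H n hn

lemma inB_shrink {n : ℕ} {Y : Top K n → Set (Top K n)} (hY : ∀ l, Y l ∈ Un K n) {h h' : HH K n}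
    (e : h' ≤ h) : ∃ Y' : Top K n → Set (Top K n), (∀ l, Y' l ∈ Un K n) ∧
      ∀ ξ r, InB n Y' h' ξ r → InB n Y h ξ r :=
  ⟨fun l => Y l ∩ {ξ | h.1 l ξ ⊆ h'.1 l ξ}, fun l => inter_mem (hY l) (e l),
    fun _ _ k => ⟨k.1, k.2.1.1, Subset.trans k.2.1.2 k.2.2⟩⟩

section

variable {I : K → Cond K → Prop} (hm : ∀ ξ a b, I ξ a → b ≤ a → I ξ b)
  (hr : ∀ ξ q, (∀ r ≤ q, ∃ r' ≤ r, I ξ r') → I ξ q)

include hm hr

theorem homog (p : Cond K) (n : ℕ) (hn : p.len ≤ n) :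
    ∃ q, DLe q p ∧ ∃ Y : Top K n → Set (Top K n), (∀ l, Y l ∈ Un K n) ∧
      ∀ r ≤ q, ∀ ξ ξ', InB n Y (q.H n) ξ r → InB n Y (q.H n) ξ' r → I ξ.1 r →
        ∃ r' ≤ r, I ξ'.1 r' := by
  obtain ⟨p1, f1, d1⟩ := diag p (n + 1) (I := Top K n) (mk_Top n)
    (fun ξ q => I ξ.1 q ∨ Out (I ξ.1) q)
    (fun ξ a b k e => k.imp (fun k => hm ξ.1 a b k e.le) fun k r l => k r (l.trans e.le))
  have h0 : p1.len ≤ n := f1.dle.len ▸ hn
  have h1 : p1.len ≤ n + 1 := h0.trans (Nat.le_succ n)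
  have hD : ∀ ξ : Top K n, ∀ a b, I ξ.1 a → DLe b a → I ξ.1 b := fun ξ a b k e => hm _ a b k e.le
  choose e e1 e2 e3 using fun l ξ => ediag (hD ξ) p1 n h1 l ((p1.H n).2 l ξ)
  have hY : ∀ l : Top K n, ∃ Z ∈ Un K n, l.c ^ #(p1.b n) ≤ l.c → ∀ ξ ∈ Z, ∀ ξ' ∈ Z,
      ∀ (t : Stem K) (d : Low K), Adm p1 t (n + 1) → (t n).top = l → (d n).lam = l →
        Hold (I ξ.1) p1 n h1 t d (e l ξ) → Hold (I ξ'.1) p1 n h1 t d (e l ξ') := by
    intro l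
    by_cases hl : l.c ^ #(p1.b n) ≤ l.c
    · obtain ⟨R, r1, r2⟩ := task_reps p1 n l hl
      obtain ⟨Z, z1, z2⟩ := ae_pw (Un K n) _ (r1.trans_lt l.2.1)
        (fun ξ x => Hold (I ξ.1) p1 n h1 x.1 x.2 (e l ξ))
      refine ⟨Z, z1, fun _ ξ k1 ξ' k2 t d a k3 k4 k5 => ?_⟩
      obtain ⟨x, x1, x2, x3, x4, x5⟩ := r2 t d k3 k4
      exact (z2 ξ k1 ξ' k2 x x1 (k5.congr (hD ξ) (a.agr x2) x2.symm
        (fun k hk => (x3 k hk).le) (x4.trans k4.symm) x5.ge)).congr (hD ξ') a x2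
        (fun k hk => (x3 k hk).ge) (k4.trans x4.symm) x5.le
    · exact ⟨univ, univ_mem, fun k => absurd k hl⟩
  choose Y y1 y2 using hY
  have s0 := setH_dle p1 (m := n) (h := ⟨e, e1⟩) fun l => Eventually.of_forall (e2 l)
  obtain ⟨q, s1, s2⟩ := exists_shrink1 (setH p1 n ⟨e, e1⟩) n
    (X := {μ | μ.top.c ^ #(p1.b n) ≤ μ.top.c})
    (Ext.pw n _ (p1.hb n h0)) (fun μ ν a k => by rw [mem_ofPred_eq, ← a.1]; exact k)
  obtain ⟨Y', y3, y4⟩ := inB_shrink y1 ((s1.ex.H n h0).trans (setH_H p1 n _).le)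
  refine ⟨q, (s1.trans s0).trans f1.dle, Y', y3, fun r hr' ξ ξ' b1 b2 i => ?_⟩
  replace b1 := y4 _ _ b1
  replace b2 := y4 _ _ b2
  have h2 : q.len ≤ n + 1 := (s1.trans s0).len ▸ h1
  obtain ⟨t, a, k1⟩ := le_split hr' h2 b1.1
  have a1 := a.dle (s1.trans s0)
  have k2 := k1.trans (act_mono (s1.trans s0) h2 h1 a).le
  have k3 : DLe (setLow (act p1 t (n + 1) h1) r.low) (act p1 t (n + 1) h1) :=
    setLow_dle (DLe.refl _) fun k hk => low_le k2 hk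
  obtain ⟨z, z1, z2⟩ := decide_direct (hm ξ.1) (hr ξ.1) (setLow (act p1 t (n + 1) h1) r.low)
  obtain ⟨r', k4, k5⟩ := exists_low (d := z.low) k2 z1.ex.low
  have k6 := (d1 ξ t h1 z (a1.dle f1.dle) (z1.trans k3) z2).resolve_right
    fun l => l r' k5 (hm _ _ _ i k4.le)
  have k7 : z.low n ≤ r.low n := z1.ex.low n (Nat.lt_succ_self n)
  have k8 : (r.low n).lam = (t n).top :=
    ((low_le k2 (Nat.lt_succ_self n)).trans (act_low_ge _ _ h0).le).1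
  have k9 := s2 (a n ((s1.trans s0).len ▸ h0) (Nat.lt_succ_self n))
  rw [mem_ofPred_eq, ← k8] at k9
  exact ⟨r', k4.le, hm _ _ _ (y2 _ k9 ξ b1.2.1 ξ' b2.2.1 t z.low a1 k8.symm k7.1
    (e3 _ ξ k9 t z.low a1 k8.symm k7.1 (Subset.trans b1.2.2 k7.2.2) k6) z.low (fun _ _ => le_rfl)
    rfl Subset.rfl (Subset.trans b2.2.2 k7.2.2)) k5⟩

theorem ultra_dec (D : Ultrafilter ℕ) (hD : ∀ n, Ici n ∈ D) (p : Cond K) :
    ∃ q ≤ p, ∃ r ≤ q, ∃ X ∈ D, X ⊆ Ici q.len ∧ ∃ Y : ∀ n, Top K n → Set (Top K n),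
      (∀ n l, Y n l ∈ Un K n) ∧
      ((∀ n ∈ X, ∀ ξ, ∀ r' ≤ r, InB n (Y n) (q.H n) ξ r' → I ξ.1 r') ∨
        ∀ n ∈ X, ∀ ξ, ∀ r' ≤ r, InB n (Y n) (q.H n) ξ r' → Out (I ξ.1) r') := by
  obtain ⟨q, h1, h2⟩ := dle_meet (fun n q => ∃ Y : Top K n → Set (Top K n), (∀ l, Y l ∈ Un K n) ∧
      (q.len ≤ n → ∀ r ≤ q, ∀ ξ ξ', InB n Y (q.H n) ξ r → InB n Y (q.H n) ξ' r → I ξ.1 r →
        ∃ r' ≤ r, I ξ'.1 r')) p
    (fun n a b ⟨Y, k1, k2⟩ e => by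
      by_cases l : a.len ≤ n
      · obtain ⟨Y', k3, k4⟩ := inB_shrink k1 (e.ex.H n l)
        exact ⟨Y', k3, fun _ r l' ξ ξ' b1 b2 => k2 l r (l'.trans e.le) ξ ξ' (k4 _ _ b1) (k4 _ _ b2)⟩
      · exact ⟨Y, k1, fun l' => absurd (e.len ▸ l') l⟩)
    (fun n q _ => by
      by_cases l : q.len ≤ n
      · obtain ⟨r, k1, Y, k2, k3⟩ := homog hm hr q n l
        exact ⟨r, k1, Y, k2, fun _ => k3⟩
      · exact ⟨q, DLe.refl _, fun _ => univ, fun _ => univ_mem, fun l' => absurd l' l⟩)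
  choose Y y1 y2 using h2
  let Dp : ℕ → Cond K → Prop := fun n r => ∀ ξ, ∀ r' ≤ r, InB n (Y n) (q.H n) ξ r' → I ξ.1 r'
  let Dn : ℕ → Cond K → Prop := fun n r => ∀ ξ, ∀ r' ≤ r, InB n (Y n) (q.H n) ξ r' → Out (I ξ.1) r'
  obtain ⟨r, h3, h4⟩ := dle_meet (fun n r => q.len ≤ n → Dp n r ∨ Dn n r) q
    (fun n a b g e l => (g l).imp (fun k ξ r' l' => k ξ r' (l'.trans e.le))
      fun k ξ r' l' => k ξ r' (l'.trans e.le))
    (fun n q' hq' => by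
      by_cases l : q.len ≤ n
      swap
      · exact ⟨q', DLe.refl _, fun l' => absurd l' l⟩
      obtain ⟨r, k1, j, k2⟩ := prikry_small (J := Bool) (by simp)
        (D := fun j r => bif j then Dp n r else Dn n r)
        (fun j a b k e => by cases j <;> exact fun ξ r' l' => k ξ r' (l'.trans e))
        (fun j a k => by
          cases j
          · intro ξ r' l1 l2 r'' l3 l4
            obtain ⟨s, l5, l6⟩ := k r'' (l3.trans l1)
            exact l6 ξ s le_rfl (l2.mono (l5.trans l3)) s le_rfl (hm _ _ _ l4 l5)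
          · intro ξ r' l1 l2
            refine hr _ _ fun r'' l3 => ?_
            obtain ⟨s, l5, l6⟩ := k r'' (l3.trans l1)
            exact ⟨s, l5, l6 ξ s le_rfl (l2.mono (l5.trans l3))⟩) q'
        (fun a ha => by
          by_cases k : Dn n a
          · exact ⟨a, le_rfl, false, k⟩
          · simp only [Dn, Out, not_forall, not_not] at k
            obtain ⟨ξ, r', l1, l2, r'', l3, l4⟩ := k
            refine ⟨r'', l3.trans l1, true, fun ξ' s l5 l6 => hr _ _ fun s' l7 => ?_⟩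
            exact y2 n l s' ((l7.trans (l5.trans (l3.trans l1))).trans (ha.trans hq'.le)) ξ ξ'
              (l2.mono (l7.trans (l5.trans l3))) (l6.mono l7) (hm _ _ _ l4 (l7.trans l5)))
      cases j
      exacts [⟨r, k1, fun _ => Or.inr k2⟩, ⟨r, k1, fun _ => Or.inl k2⟩])
  refine ⟨q, h1.le, r, h3.le, ?_⟩
  rcases D.mem_or_compl_mem {n | Dp n r} with k | k
  · exact ⟨_, inter_mem k (hD q.len), inter_subset_right, Y, y1, Or.inl fun n l => l.1⟩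
  · exact ⟨_, inter_mem k (hD q.len), inter_subset_right, Y, y1,
      Or.inr fun n l => (h4 n l.2).resolve_left l.1⟩

end

theorem many_inB {p r : Cond K} (hr : r ≤ p) {n : ℕ} (hn : p.len ≤ n)
    {Y : Top K n → Set (Top K n)} (hY : ∀ l, Y l ∈ Un K n) :
    ∃ r' ≤ r, ∃ g : K → Top K n, InjOn g (Lt K (pre K n)) ∧
      ∀ ζ ∈ Lt K (pre K n), InB n Y (p.H n) (g ζ) r' := by
  obtain ⟨r1, h1, h2⟩ := exists_long r (n + 1)
  obtain ⟨t, -, h3⟩ := le_split (h1.trans hr) (hn.trans (Nat.le_succ n)) h2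
  have h4 := (low_le h3 (Nat.lt_succ_self n)).trans (act_low_ge _ _ hn).le
  let l := (r1.low n).lam
  have h5 : root (p.H n) l ⊆ (r1.low n).e := by
    have := h4.2.2
    rwa [show l = (t n).top from h4.1]
  obtain ⟨x, x1, x2⟩ := seq_meet (S := {x : Set (Tr K) × Set (K × Top K n) //
      Val l.c (Lt K (kp K n)) x.1 ∧ #x.2 ≤ pre K n ∧ (∀ y ∈ x.2, y.2 ∈ Y l ∧ (p.H n).1 l y.2 ⊆ x.1) ∧
      ∀ y ∈ x.2, ∀ y' ∈ x.2, y.2 = y'.2 → y.1 = y'.1})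
    (fun a b => b.1.1 ⊆ a.1.1 ∧ b.1.2 ⊆ a.1.2) (fun _ => ⟨Subset.rfl, Subset.rfl⟩)
    (fun _ _ _ k k' => ⟨k'.1.trans k.1, k'.2.trans k.2⟩) (ρ := pre K n)
    (fun I f _ hI ht => ⟨⟨(⋃ i, (f i).1.1, ⋃ i, (f i).1.2),
      Val.iUnion l.inf (hI.trans l.2.2.1.le) (fun i => (f i).2.1)
        fun i j => (ht i j).symm.imp (·.1) (·.1),
      mk_iUnion_le' (pre_inf n) hI fun i => (f i).2.2.1, fun y hy => by
        obtain ⟨i, hi⟩ := mem_iUnion.1 hy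
        exact ⟨((f i).2.2.2.1 y hi).1,
          ((f i).2.2.2.1 y hi).2.trans (subset_iUnion (fun i => (f i).1.1) i)⟩,
      fun y hy y' hy' => by
        obtain ⟨i, hi⟩ := mem_iUnion.1 hy
        obtain ⟨j, hj⟩ := mem_iUnion.1 hy'
        exact (ht i j).elim (fun k => (f i).2.2.2.2 y hi y' (k.2 hj))
          fun k => (f j).2.2.2.2 y (k.2 hi) y' hj⟩,
      fun i => ⟨subset_iUnion (fun i => (f i).1.1) i, subset_iUnion (fun i => (f i).1.2) i⟩⟩)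
    (T := Lt K (pre K n)) (mk_Lt_le _) (fun ζ a => ∃ ξ, (ζ.1, ξ) ∈ a.1.2)
    (fun _ _ _ g k => g.imp fun _ l => k.2 l)
    ⟨((r1.low n).e, ∅), (r1.low n).he, by simp, fun _ k => k.elim, fun _ k => k.elim⟩
    (fun ζ a ha => by
      obtain ⟨ξ, k1, k2, k3⟩ := ((root_compat (p.H n) l a.2.1 (h5.trans ha.1)).and
        (Eventually.and (hY l) (ae_notMem (Un K n) _ Un_ne (R := Prod.snd '' a.1.2)
          ((mk_image_le.trans a.2.2.1).trans_lt (pre_lt n))))).exists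
      refine ⟨⟨(a.1.1 ∪ (p.H n).1 l ξ, a.1.2 ∪ {(ζ.1, ξ)}), k1, mk_union_le' (pre_inf n) a.2.2.1
        (by simpa using one_lt_aleph0.le.trans (pre_inf n)), ?_, ?_⟩,
        ⟨subset_union_left, subset_union_left⟩, ξ, Or.inr rfl⟩
      · rintro y (hy | rfl)
        · exact ⟨(a.2.2.2.1 y hy).1, (a.2.2.2.1 y hy).2.trans subset_union_left⟩
        · exact ⟨k2, subset_union_right⟩
      · rintro y (hy | rfl) y' (hy' | rfl) e
        · exact a.2.2.2.2 y hy y' hy' e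
        · exact absurd ⟨y, hy, e⟩ k3
        · exact absurd ⟨y', hy', e.symm⟩ k3
        · rfl)
  obtain ⟨q, q1, q2, q3⟩ := exists_setLo r1 (n := n) (d := ⟨l, _, _, (r1.low n).hc, x.2.1⟩)
    ⟨rfl, Subset.rfl, x1.1⟩
  have : ∀ ζ, ∃ ξ, ζ ∈ Lt K (pre K n) → (ζ, ξ) ∈ x.1.2 := fun ζ => by
    by_cases k : ζ ∈ Lt K (pre K n)
    · exact (x2 ⟨ζ, k⟩).imp fun _ l _ => l
    · exact ⟨l, fun l => absurd l k⟩
  choose g hg using this
  refine ⟨q, q1.trans h1, g, fun a ha b hb e => x.2.2.2.2 _ (hg a ha) _ (hg b hb) e,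
    fun ζ hζ => ⟨q2 ▸ h2, ?_⟩⟩
  rw [q3]
  exact x.2.2.2.1 _ (hg ζ hζ)

end Pool.Agent.Lib.MP_d4b40b_lc
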