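import Pool.Agent.Lib.MP_d4b40b_lc.Copy

set_option autoImplicit false
set_option linter.unusedSectionVars false

namespace Pool.Agent.Lib.MP_d4b40b_lc

open Filter Set Cardinal

variable {K : Type} [LinearOrder K] [WellFoundedLT K] [Sys K] [Ext K]

lemma gf_of_act {q p : Cond K} {t : Stem K} {m : ℕ} {h : p.len ≤ m} (e : DLe q (act p t m h))
    {β i v : K} (hx : (β, i, v) ∈ p.F m t) : GF β i v q := by
  obtain rfl : q.len = m := e.len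
  exact F_le e h le_rfl hx

lemma fresh {ι : ℕ → K} (h1 : Function.Injective ι) (h2 : ∀ k, #(Iio (ι k)) ≤ ks K) {γ : K}
    (hγ : Cl γ) (hb : Lt K (ks K) ⊆ Iio γ) {p : Cond K} (hp : supp p ⊆ Iio γ) :
    ∃ q ≤ p, ∀ r ≤ q, ∃ y ≤ r, ∃ y' ≤ r, Agree γ y y' ∧ ∃ k ξ ξ', ξ ≠ ξ' ∧ ξ ∈ Lt K (ks K) ∧
      GF γ (ι k) ξ y ∧ GF γ (ι k) ξ' y' := by
  have hk : ∀ k (μ : Obj K k), μ.f γ ∈ Lt K (ks K) := fun k μ => Lt_mono (kp_le_ks k) (μ.mem_Lt γ)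
  obtain ⟨q, q1, q2, q3⟩ := exists_grow p (fun n => insert γ (p.b n))
    (fun n s => {x | ∃ k, p.len ≤ k ∧ k < n ∧ x = (γ, ι k, (s k).f γ)})
    (fun _ _ => subset_insert _ _)
    (fun n hn => mk_insert_le.trans_lt (add_lt_of_lt (kp_unc n).le (p.hb n hn)
      (one_lt_aleph0.trans (kp_unc n))))
    (by
      rintro n _ s s' _ e ⟨k, k1, k2, rfl⟩
      exact ⟨k, k1, k2, by rw [(e k k1 k2).2 γ ⟨mem_insert _ _, le_rfl⟩]⟩)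
    (fun n hn s => (p.hF n hn s).union ⟨by
        rintro β i v v' ⟨k, -, -, e⟩ ⟨k', -, -, e'⟩
        simp only [Prod.mk.injEq] at e e'
        obtain rfl : k = k' := h1 (e.2.1.symm.trans e'.2.1)
        exact e.2.2.trans e'.2.2.symm, by
        rintro _ ⟨k, -, -, rfl⟩
        exact ⟨trivial, h2 k, (hb (hk k _)).le⟩⟩ (by
      rintro β i v v' k ⟨_, -, -, e⟩
      simp only [Prod.mk.injEq] at e
      exact absurd (hp (F_supp hn k)) (by rw [mem_Iio, e.1]; exact lt_irrefl _)))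
    (by
      rintro n _ s _ ⟨k, k1, k2, rfl⟩
      exact ⟨k, k1, k2.trans (Nat.lt_succ_self n), rfl⟩)
    (le_trans (mk_le_mk_of_subset (t := {γ} ×ˢ range ι ×ˢ Lt K (ks K)) (by
      rintro _ ⟨n, -, s, k, -, -, rfl⟩
      exact ⟨rfl, mem_range_self k, hk k _⟩))
      (mk_sprod_le' ks_inf (by simpa using one_lt_aleph0.le.trans ks_inf)
        (mk_sprod_le' ks_inf (mk_range_le.trans (by simpa using ks_inf)) (mk_Lt_le _))))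
  refine ⟨q, q1.le, ?_⟩
  rintro r ⟨h, t0, -, e⟩
  have b1 : γ ∈ r.b r.len := e.b le_rfl (by show γ ∈ q.b _; rw [q2]; exact mem_insert _ _)
  have b2 : ∀ s : Stem K, (γ, ι r.len, (s r.len).f γ) ∈ r.F (r.len + 1) s := fun s =>
    e.F (Nat.le_succ _) s (q3 _ _ ⟨r.len, q1.len ▸ h, Nat.lt_succ_self _, by rw [merge_ge le_rfl]⟩)
  obtain ⟨r1, k1, k2⟩ := exists_pr hγ (Ex.refl (Iio γ) r)
  obtain ⟨t, ht⟩ := exists_adm r1
  have l1 : r1.len ≤ r.len + 1 := k1.len.le.trans (Nat.le_succ _)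
  obtain ⟨t', l2, a', -, k3, x, k4, k5⟩ := copy_act (k1.exs _) k2 (ht (r.len + 1))
    (DLe.refl (act r1 t _ l1)) (fun k => {(t k).f γ} ∩ Iio (t k).top.1) fun k =>
      ⟨inter_subset_right, (mk_le_mk_of_subset inter_subset_left).trans
        (by simpa using one_lt_aleph0.le.trans (pre_inf k))⟩
  obtain ⟨y', k6, k7⟩ := copy0 k5
  have k8 := k4.trans (act_mono k1 l1 l2 (ht _))
  have a := (ht (r.len + 1)).dle k1
  exact ⟨x, k8.le.trans (act_le _ a), y', k6.le.trans (act_le _ a'), k7.symm, r.len, _, _,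
    (k3 _ le_rfl (Nat.lt_succ_self _) γ b1 le_rfl _ ⟨rfl,
      (r.hAc _ le_rfl _ (a _ le_rfl (Nat.lt_succ_self _))).2 γ b1⟩).ne, hk _ _,
    gf_of_act k8 (b2 t), gf_of_act k6 (b2 t')⟩

theorem big {ι : ℕ → K} (h1 : Function.Injective ι) (h2 : ∀ k, #(Iio (ι k)) ≤ ks K)
    (V : K → K → Cond K → Prop) (p : Cond K) (hm : ∀ γ i a b, V γ i a → b ≤ a → V γ i b)
    (hd : ∀ γ, ∀ q ≤ p, ∃ r ≤ q, ∃ i ∈ Lt K (Order.succ (ks K)), V γ i r)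
    (hi : ∀ γ γ' i, ∀ r ≤ p, V γ i r → V γ' i r → ∀ k, ∀ ξ ∈ Lt K (ks K), GF γ (ι k) ξ r →
      ∃ r' ≤ r, GF γ' (ι k) ξ r') : False := by
  have h0 := ae_cl.and ((ae_above (S := Lt K (ks K)) ((mk_Lt_le _).trans_lt ks_lt)).and (ae_supp p))
  have : ∀ γ, ∃ r ≤ p, ∃ i ∈ Lt K (Order.succ (ks K)), V γ i r ∧
      (Cl γ ∧ Lt K (ks K) ⊆ Iio γ ∧ supp p ⊆ Iio γ → ∀ r' ≤ r, ∃ y ≤ r', ∃ y' ≤ r', Agree γ y y' ∧
        ∃ k ξ ξ', ξ ≠ ξ' ∧ ξ ∈ Lt K (ks K) ∧ GF γ (ι k) ξ y ∧ GF γ (ι k) ξ' y') := by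
    intro γ
    by_cases k : Cl γ ∧ Lt K (ks K) ⊆ Iio γ ∧ supp p ⊆ Iio γ
    · obtain ⟨q, k1, k2⟩ := fresh h1 h2 k.1 k.2.1 k.2.2
      obtain ⟨r, k3, i, k4, k5⟩ := hd γ q k1
      exact ⟨r, k3.trans k1, i, k4, k5, fun _ r' l => k2 r' (l.trans k3)⟩
    · obtain ⟨r, k3, i, k4, k5⟩ := hd γ p le_rfl
      exact ⟨r, k3, i, k4, k5, fun l => absurd l k⟩
  choose r r1 i r2 r3 r4 using this
  obtain ⟨j, -, hj⟩ := ae_cst (UU K) _ ((mk_Lt_le _).trans_lt succ_ks_lt)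
    (Eventually.of_forall r2)
  obtain ⟨γ', k1, k2⟩ := ((compat r).and hj).exists
  obtain ⟨x, k3, k4⟩ := k1 _ (Ex.refl _ _)
  obtain ⟨γ, ⟨s, k5, k6⟩, k7, k8, k9⟩ := ((k4 x le_rfl).and (hj.and (h0.and (Sys.tail γ')))).exists
  obtain ⟨y, l1, y', l2, l3, k, ξ, ξ', l4, l5, l6, l7⟩ := r4 γ k8 s k6
  have v1 : V γ j s := hm _ _ _ _ (k7 ▸ r3 γ) k6
  have v2 : V γ' j s := hm _ _ _ _ (k2 ▸ r3 γ') (k5.trans k3)
  have sp : s ≤ p := k6.trans (r1 γ)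
  obtain ⟨u, n1, u', n2, n3, n4⟩ := ext_agree k8.1 l3.1 (G := GF γ' (ι k) ξ)
    (fun _ _ g e => g.mono e) fun a ha => hi γ γ' j a ((ha.trans l1).trans sp)
      (hm _ _ _ _ v1 (ha.trans l1)) (hm _ _ _ _ v2 (ha.trans l1)) k ξ l5 (l6.mono ha)
  obtain ⟨u'', n5, n6⟩ := hi γ' γ j u' ((n2.trans l2).trans sp) (hm _ _ _ _ v2 (n2.trans l2))
    (hm _ _ _ _ v1 (n2.trans l2)) k ξ l5 (n4.ex n3.2 k9)
  exact l4 (n6.fn (l7.mono (n5.trans n2)))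

end Pool.Agent.Lib.MP_d4b40b_lc
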