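import Pool.Agent.Lib.MP_d4b40b_lc.Tools
import Pool.Agent.Lib.MP_d4b40b_lc.Big

set_option autoImplicit false
set_option linter.unusedSectionVars false

namespace Pool.Agent.Lib.MP_d4b40b_lc

open Pool.Agent.Lib.helper81 Pool.Agent.Lib.helper81.Name Pool.Agent.Lib.MP_fcebdf_lc Set Cardinal
open Filter

variable {K : Type} [LinearOrder K] [WellFoundedLT K] [Sys K] [Ext K]

variable (K) in
/-- the name of a ground model cardinal -/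
noncomputable abbrev oc (ρ : Cardinal.{0}) : HN (Cond K) := oS (Cond K) (Lt K ρ)

/-- the name of an ordinal -/
noncomputable abbrev oo (β : K) : HN (Cond K) := ordH (Cond K) β

instance : Infinite K := infinite_iff.2 K_inf

lemma exists_Lt_eq {ρ : Cardinal.{0}} (h : ρ < #K) : ∃ w : K, Iio w = Lt K ρ := by
  obtain ⟨β, h1⟩ := (ae_above (S := Lt K ρ) ((mk_Lt_le ρ).trans_lt h)).exists
  obtain ⟨w, h2, h3⟩ := (wellFounded_lt (α := K)).has_min {β | β ∉ Lt K ρ}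
    ⟨β, fun k => lt_irrefl β (h1 k)⟩
  exact ⟨w, Subset.antisymm (fun γ l => by_contra fun k => h3 γ k l)
    fun γ k => not_le.1 fun l => h2 (lower_Lt ρ l k)⟩

lemma kp_lt_ks (n : ℕ) : kp K n < ks K := (pre_lt (n + 1)).trans_le (kp_le_ks _)

lemma exists_emb {A : Type} {ρ : Cardinal.{0}} (h : #A ≤ ρ) (h' : ρ ≤ #K) :
    ∃ e : A → K, Function.Injective e ∧ ∀ a, e a ∈ Lt K ρ := by
  obtain ⟨e⟩ := (Cardinal.le_def _ _).1 (h.trans (le_mk_Lt h'))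
  exact ⟨fun a => e a, Subtype.val_injective.comp e.injective, fun a => (e a).2⟩

theorem pow_le (gm : GN (Cond K)) {L : Set K} {m : ℕ} (hL : #L ≤ pre K m)
    (h1 : oS (Cond K) L ∈ gm.S) (h2 : oc K (kp K m) ∈ gm.S) {Y : gm.M}
    (hY : Pow gm.E Y (gm.val (oS (Cond K) L))) : Le gm.E Y (gm.val (oc K (kp K m))) := by
  obtain ⟨Y, h3, rfl⟩ := gm.surj Y
  obtain ⟨p, hp, h4⟩ := gm.truthDef (def_pow 0 1) (mem2 h3 h1) hY
  obtain ⟨e, e1, e2⟩ := exists_emb (mk_codes hL).le (Sys.lt m).le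
  let σ : Set ((∀ k : Fin m, Lo K k) × L) → HN (Cond K) := fun φ =>
    mkH (fun ξ : L => oo ξ.1) fun ξ => ⟨{r | Sig φ ξ r}, fun _ _ l k => k.mono l⟩
  refine fc_cover σ e (fun _ _ => True) (fun _ _ _ _ _ => trivial) (fun φ _ _ => e2 φ)
    (fun φ φ' q _ _ k => e1 k ▸ Feq.refl _ _) (fun x q hq hx => ?_) gm hp (mem2 h3 h2)
  obtain ⟨r, k1, φ, k2⟩ := cover_sub hL (fun ξ r => Fmem (oo ξ.1).1 x.1 r)
    (fun _ _ _ => Fmem.mono) (fun _ _ => Fmem.reg) q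
  refine ⟨r, k1, φ, trivial, feq_of_gm {Y, oS (Cond K) L} (to_countable _)
    fun g l1 l2 l3 l4 => g.ext _ _ fun z => ⟨fun k => ?_, fun k => ?_⟩⟩
  · have a1 : Y ∈ g.S := l4 (by simp)
    have a2 : oS (Cond K) L ∈ g.S := l4 (by simp)
    obtain ⟨ξ, n1, n2, rfl⟩ := oS_elim g a2 ((h4.mono (k1.trans hq) g l1 (mem2 a1 a2) _).1
      (val_mem g l2 a1 l1 (hx.mono k1)) z k)
    obtain ⟨s, n3, n4⟩ := (g.mem_iff n2 l2).1 k
    obtain ⟨t, n5, n6, n7⟩ := g.dir _ _ l1 n3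
    refine val_mem g n2 l3 n5 (Fmem.reg fun u hu => ?_)
    exact ((k2 ⟨ξ, n1⟩ u (hu.trans n6)).2 (n4.mono (hu.trans n7))).imp fun _ k =>
      ⟨k.1, fmem_mkH (A := fun ξ : L => oo ξ.1) (i := ⟨ξ, n1⟩) k.2⟩
  · obtain ⟨ξ, n2, rfl, s, n3, n4⟩ := mkH_elim g l3 k
    obtain ⟨t, n5, n6, n7⟩ := g.dir _ _ l1 n3
    exact val_mem g n2 l2 n5 ((k2 ξ t n6).1 (Sig.mono n4 n7))

theorem not_le_kp (gm : GN (Cond K)) {L : Set K} {m : ℕ} (hL : #L ≤ pre K m)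
    (h1 : oS (Cond K) L ∈ gm.S) (h2 : oc K (kp K m) ∈ gm.S) :
    ¬ Le gm.E (gm.val (oc K (kp K m))) (gm.val (oS (Cond K) L)) := fun h => by
  obtain ⟨Y, hY⟩ := gm.isZF.pow (gm.val (oS (Cond K) L))
  exact cantor' gm.isZF hY (le_trans' gm.isZF (pow_le gm hL h1 h2 hY) h)

theorem not_le_ks (gm : GN (Cond K)) {L : Set K} (hL : #L < ks K) (h1 : oS (Cond K) L ∈ gm.S)
    (h2 : oc K (ks K) ∈ gm.S) : ¬ Le gm.E (gm.val (oc K (ks K))) (gm.val (oS (Cond K) L)) := by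
  obtain ⟨m, hm⟩ := lt_ks hL
  obtain ⟨p, hp⟩ := gm.nonempty
  refine Fc.of_extra (def_le 0 1).not (w := w2 (oc K (ks K)) (oS (Cond K) L))
    {oc K (kp K (m + 1))} (to_countable _) (fun g _ k1 k2 k => ?_) gm hp (mem2 h2 h1)
  exact not_le_kp g (m := m + 1) hm.le (k1 1) (k2 rfl) (le_trans' g.isZF
    (le_of_sub g.isZF (sub_oS g (Lt_mono (kp_le_ks _)) (k2 rfl) (k1 0))) k)

theorem strongLimit (gm : GN (Cond K)) (h : oc K (ks K) ∈ gm.S) (h' : ∀ m, oc K (kp K m) ∈ gm.S) :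
    StrongLimit gm.E (gm.val (oc K (ks K))) := by
  intro x y hx hy k
  obtain ⟨β, h1, h2, rfl⟩ := oS_elim gm h hx
  obtain ⟨m, hm⟩ := lt_ks h1
  rw [ordH_eq] at h2 hy
  exact not_le_ks gm ((mk_Lt_le _).trans_lt (kp_lt_ks _)) (h' (m + 1)) h
    (le_trans' gm.isZF k (pow_le gm (m := m + 1) hm.le h2 (h' _) hy))

lemma lt_of_not_le (gm : GN (Cond K)) {γ : K} {L : Set K} (h1 : oo γ ∈ gm.S)
    (h2 : oS (Cond K) L ∈ gm.S) (h : ¬ Le gm.E (gm.val (oo γ)) (gm.val (oS (Cond K) L))) :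
    #L < #(Iio γ) := not_le.1 fun k => by
  rw [oo, ordH_eq] at h1 h
  exact h (le_oS gm k h1 h2)

lemma Lt_succ_sub {ρ : Cardinal.{0}} {γ i : K} (h : ρ < #(Iio γ)) (hi : i ∈ Lt K (Order.succ ρ)) :
    i < γ := not_le.1 fun l =>
  absurd ((mk_le_mk_of_subset (Iio_subset_Iio l)).trans (mem_Lt_succ.1 hi)) (not_le.2 h)

/-- the conditions longer than `m` -/
def longer (m : ℕ) : LowerSet (Cond K) := ⟨{q | m < q.len}, fun _ _ l k => lt_of_lt_of_le k (len_le l)⟩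

theorem alephs (gm : GN (Cond K)) (h : oc K (ks K) ∈ gm.S) (h' : ∀ m, oc K (pre K m) ∈ gm.S)
    (hd : ∀ m, dn (longer (K := K) m) ∈ gm.S) :
    ∃ a : ℕ → gm.M, Omega gm.E (a 0) ∧ (∀ n, Next gm.E (a n) (a (n + 1))) ∧
      ∀ x, gm.E x (gm.val (oc K (ks K))) ↔ ∃ n, gm.E x (a n) := by
  have zf := gm.isZF
  have pk : ∀ m, pre K m ≤ #(Lt K (pre K m)) := fun m =>
    le_mk_Lt ((pre_le_ks m).trans ks_lt.le)
  have h1 : ∀ β ∈ Lt K (ks K), oo β ∈ gm.S →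
      ∃ m, Le gm.E (gm.val (oo β)) (gm.val (oc K (pre K m))) := fun β k1 k2 => by
    obtain ⟨m, hm⟩ := lt_ks k1
    rw [oo, ordH_eq] at k2 ⊢
    exact ⟨m + 1, le_oS gm (hm.le.trans (pk (m + 1))) k2 (h' _)⟩
  have o := isOrd_oS gm (lower_Lt (ks K)) h
  obtain ⟨a, ha⟩ := exists_seq (fun n (x : gm.M) => (Sub gm.E x (gm.val (oc K (ks K))) ∧
      ∃ m, Le gm.E x (gm.val (oc K (pre K m)))) ∧ (n = 0 → x = gm.omega))
    (fun _ x y => gm.E y (gm.val (oc K (ks K))) ∧ Next gm.E x y) (by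
      rintro n x ⟨⟨-, m, k2⟩, -⟩
      obtain ⟨w, hw⟩ := exists_Lt_eq (K := K) (Sys.lt m)
      have k3 := h' (m + 1)
      have k4 := not_le_kp gm (mk_Lt_le _) (h' m) k3
      simp only [oc, pre, ← hw, ← ordH_eq] at k3 k4
      obtain ⟨y, ⟨y1, y2⟩, y3⟩ := gm.wf.has_min
        {y | gm.E y (gm.val (oc K (ks K))) ∧ ¬ Le gm.E y x}
        ⟨_, oS_intro gm h k3 (lt_of_le_of_lt (hw ▸ mk_Lt_le _) (kp_lt_ks m)),
          fun k => k4 (le_trans' zf k k2)⟩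
      refine ⟨y, ⟨⟨o.1 y y1, ?_⟩, fun k => absurd k (Nat.succ_ne_zero n)⟩, y1,
        isOrd_mem gm.wf o y1, y2, fun z k => by_contra fun l => y3 z ⟨o.1 y y1 z k, l⟩ k⟩
      obtain ⟨β, l1, l2, rfl⟩ := oS_elim gm h y1
      exact h1 β l1 l2)
    gm.omega ⟨⟨omega_sub gm (Lt_mono ks_inf) h, 0, omega_le gm (h' 0)⟩, fun _ => rfl⟩
  have h2 : ∀ j, ∃ γ, oo γ ∈ gm.S ∧ gm.val (oo γ) = a (j + 1) := fun j =>
    (oS_elim gm h (ha j).2.1).imp fun _ k => k.2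
  have h3 : ∀ j β, oo β ∈ gm.S → Le gm.E (gm.val (oo β)) (a j) →
      gm.E (gm.val (oo β)) (a (j + 1)) := by
    intro j β k1 k2
    obtain ⟨γ, k3, k4⟩ := h2 j
    refine k4 ▸ ord_lt gm k1 k3 (not_le.1 fun l => (ha j).2.2.2.1 (le_trans' zf ?_ k2))
    exact k4 ▸ le_of_sub zf (sub_ord gm l k3 k1)
  have h4 : ∀ m, ∃ j, Le gm.E (gm.val (oc K (pre K m))) (a j) := by
    intro m
    induction m with
    | zero =>
      exact ⟨0, (ha 0).1.2 rfl ▸ le_omega gm (le_aleph0_iff_set_countable.1 (mk_Lt_le _)) (h' 0)⟩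
    | succ m ih =>
      obtain ⟨j, hj⟩ := ih
      obtain ⟨q, q1, q2⟩ := meet_dense gm (fun q => exists_long q (m + 1)) (hd m)
      obtain ⟨γ1, k1, k2⟩ := h2 j
      obtain ⟨γ2, k3, k4⟩ := h2 (j + 1)
      obtain ⟨γ3, k5, k6⟩ := h2 (j + 2)
      have l1 : pre K m < #(Iio γ1) := (pk m).trans_lt
        (lt_of_not_le gm k1 (h' m) fun k => (ha j).2.2.2.1 (le_trans' zf (k2 ▸ k) hj))
      have l2 : (q.low m).lam.1 ≤ γ2 := not_lt.1 fun l => (ha (j + 1)).2.2.2.1 (by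
        rw [← k2, ← k4]
        refine le_collapse' gm q1 (fun i v r => m < r.len ∧ (γ2, i, v) ∈ (r.low m).c)
          (fun _ _ _ _ k e => ⟨k.1.trans_le (len_le e), (low_le e k.1).2.1 k.2⟩)
          (fun _ _ _ r k k' => (r.low m).hc.1.fn _ _ _ _ k.2 k'.2) (fun v hv r hr => ?_) k1 k3
        obtain ⟨s, n1, i, n2, n3⟩ := c_dense r m ((low_le hr q2).1 ▸ l) hv.le
        exact ⟨s, n1, i, Lt_succ_sub l1 n2, lt_of_lt_of_le q2 (len_le (n1.trans hr)), n3⟩)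
      have l3 : (q.low m).lam.c < #(Iio γ3) := by
        refine (mk_le_mk_of_subset (Iio_subset_Iio l2)).trans_lt (lt_of_not_le gm k5
          (by rw [← ordH_eq]; exact k3) ?_)
        rw [← ordH_eq, k4, k6]
        exact (ha (j + 2)).2.2.2.1
      refine ⟨j + 4, le_of_sub zf fun x hx => ?_⟩
      obtain ⟨β, n4, n5, rfl⟩ := oS_elim gm (h' _) hx
      refine h3 (j + 3) β n5 ?_
      rw [← k6]
      refine le_collapse' gm q1 (fun i v r => m < r.len ∧ (β, i, v) ∈ (r.low m).e)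
        (fun _ _ _ _ k e => ⟨k.1.trans_le (len_le e), (low_le e k.1).2.2 k.2⟩)
        (fun _ _ _ r k k' => (r.low m).he.1.fn _ _ _ _ k.2 k'.2) (fun v hv r hr => ?_) k5 n5
      obtain ⟨s, n1, i, n2, n3⟩ := e_dense r m n4 hv.le
      exact ⟨s, n1, i, Lt_succ_sub l3 ((low_le hr q2).1 ▸ n2),
        lt_of_lt_of_le q2 (len_le (n1.trans hr)), n3⟩
  refine ⟨a, (ha 0).1.2 rfl ▸ gm.omega_spec, fun n => (ha n).2.2, fun x =>
    ⟨fun hx => ?_, fun ⟨n, k⟩ => (ha n).1.1.1 x k⟩⟩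
  obtain ⟨β, k1, k2, rfl⟩ := oS_elim gm h hx
  obtain ⟨m, k3⟩ := h1 β k1 k2
  obtain ⟨j, k4⟩ := h4 m
  exact ⟨j + 1, h3 j β k2 (le_trans' zf k3 k4)⟩

lemma le_ks (gm : GN (Cond K)) (h : oc K (ks K) ∈ gm.S) (h' : oc K (Order.succ (ks K)) ∈ gm.S)
    {x : gm.M} (hx : gm.E x (gm.val (oc K (Order.succ (ks K))))) :
    Le gm.E x (gm.val (oc K (ks K))) := by
  obtain ⟨β, k1, k2, rfl⟩ := oS_elim gm h' hx
  rw [ordH_eq] at k2 ⊢
  exact le_oS gm ((mem_Lt_succ.1 k1).trans (le_mk_Lt ks_lt.le)) k2 h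

theorem next_ks (gm : GN (Cond K)) (h : oc K (ks K) ∈ gm.S) (h' : oc K (Order.succ (ks K)) ∈ gm.S) :
    Next gm.E (gm.val (oc K (ks K))) (gm.val (oc K (Order.succ (ks K)))) := by
  refine ⟨isOrd_oS gm (lower_Lt _) h', ?_, fun x => le_ks gm h h'⟩
  rintro ⟨f, hf⟩
  obtain ⟨f, hfS, rfl⟩ := gm.surj f
  obtain ⟨p, -, hp⟩ := gm.truthDef (Def.inj 0 1 2) (mem3 hfS h' h) hf
  obtain ⟨q, h1, j, h2, h3⟩ := bound_succ
    (fun ξ γ q => q ≤ p ∧ γ ∈ Lt K (Order.succ (ks K)) ∧ FR f (oo γ) (oo ξ) q)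
    (fun _ _ _ _ k e => ⟨e.trans k.1, k.2.1, k.2.2.mono e⟩)
    (fun _ _ _ _ k k' => fr_inj hp k.1 k.2.2 k'.2.2) (fun _ _ _ k => k.2.1) p
  obtain ⟨r, k1, y, k2, k3⟩ := fr_exists (hp.mono h1) h2
  obtain ⟨s, k4, ξ, k5, k6⟩ := fmem_oS_elim k2
  exact lt_irrefl j (h3 ξ k5 j s (k4.trans k1) ⟨(k4.trans k1).trans h1, h2,
    FR.congr (k3.mono k4) k6⟩)

lemma k_bound (δ : K) (b : K → K) : ∃ β, ∀ ξ < δ, b ξ < β :=
  (ae_above (S := b '' Iio δ) (mk_image_le.trans_lt (Sys.ord δ))).exists.imp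
    fun _ k _ l => k (mem_image_of_mem b l)

lemma k_clos (b : K → K) :
    ∃ h : K → K, Function.Injective h ∧ ∀ ξ ξ', h ξ < h ξ' → b (h ξ) < h ξ' := by
  have h1 : {β | ∀ α < β, b α < β} ∈ UU K := by
    by_contra h
    obtain ⟨δ, k⟩ := ae_press (Q := fun β α => ¬ b α < β)
      ((Ultrafilter.eventually_not.2 h).mono fun β k => by simpa using k)
    obtain ⟨β, k1, k2⟩ := (k.and (Sys.tail (b δ))).exists
    exact k1 k2
  obtain ⟨e⟩ := (Cardinal.le_def _ _).1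
    (le_mk_of_ae (UU K) #K (fun t => (Sys.tail t).mono fun _ h => h.ne') h1)
  exact ⟨fun ξ => e ξ, Subtype.val_injective.comp e.injective, fun ξ ξ' h => (e ξ').2 _ h⟩

lemma le_succ_ks (gm : GN (Cond K)) (h : oc K (Order.succ (ks K)) ∈ gm.S) {β : K}
    (hβ : oo β ∈ gm.S) : Le gm.E (gm.val (oo β)) (gm.val (oc K (Order.succ (ks K)))) := by
  obtain ⟨w, hw⟩ := exists_Lt_eq (K := K) succ_ks_lt
  simp only [oc, ← hw, ← ordH_eq] at h ⊢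
  refine le_collapse gm (GF β) (fun _ _ _ _ => GF.mono) (fun _ _ _ _ => GF.fn)
    (fun v hv p => ?_) h hβ
  obtain ⟨q, k1, i, k2, k3⟩ := gf_dense hv.le p
  exact ⟨q, k1, i, hw.ge k2, k3⟩

theorem next_succ (gm : GN (Cond K)) (h : oc K (Order.succ (ks K)) ∈ gm.S)
    (h' : oS (Cond K) (univ : Set K) ∈ gm.S) :
    Next gm.E (gm.val (oc K (Order.succ (ks K)))) (gm.val (oS (Cond K) (univ : Set K))) := by
  refine ⟨isOrd_oS gm isLowerSet_univ h', ?_, fun x hx => ?_⟩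
  · obtain ⟨w, hw⟩ := exists_Lt_eq (K := K) succ_ks_lt
    simp only [oc, ← hw, ← ordH_eq] at h ⊢
    exact not_le_ord cc_bounded k_bound gm h' h
  · obtain ⟨β, -, k2, rfl⟩ := oS_elim gm h' hx
    exact le_succ_ks gm h k2

theorem pow_big (gm : GN (Cond K)) (h : oc K (ks K) ∈ gm.S) (h' : oc K (Order.succ (ks K)) ∈ gm.S)
    {y : gm.M} (hy : Pow gm.E y (gm.val (oc K (ks K)))) :
    ¬ Le gm.E y (gm.val (oc K (Order.succ (ks K)))) := by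
  rintro ⟨f, hf⟩
  obtain ⟨f, hfS, rfl⟩ := gm.surj f
  obtain ⟨y, hyS, rfl⟩ := gm.surj y
  obtain ⟨p, -, hp⟩ := gm.truthDef ((def_pow 1 3).and (Def.inj 0 1 2)) (mem4 hfS hyS h' h) ⟨hy, hf⟩
  obtain ⟨ι, i1, i2⟩ := exists_emb (K := K) (A := ℕ) (ρ := ks K) (by simpa using ks_inf) ks_lt.le
  obtain ⟨c, c1, c2⟩ := exists_emb (K := K) (A := ℕ × Lt K (ks K)) (ρ := ks K)
    (mk_prod_le' ks_inf (by simpa using ks_inf) (mk_Lt_le _)) ks_lt.le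
  let T : K → HN (Cond K) := fun γ => mkH (fun x : ℕ × Lt K (ks K) => oo (c x))
    fun x => ⟨{r | GF γ (ι x.1) x.2.1 r}, fun _ _ l k => k.mono l⟩
  refine big i1 (fun k => (i2 k).le) (fun γ i r => FR f (T γ) (oo i) r) p
    (fun _ _ _ _ => Fc.mono) (fun γ q hq => ?_) fun γ γ' i r hr v1 v2 k ξ l1 l2 => ?_
  · obtain ⟨g, k1, k2, k3⟩ := exists_gm' q (w4 f y (oc K (Order.succ (ks K))) (oc K (ks K))) {T γ}
      (to_countable _)
    obtain ⟨k4, k5⟩ := hp.mono hq g k1 k2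
    obtain ⟨z, k6, -⟩ := k5.2.1 (g.val (T γ)) ((k4 _).2 fun x hx => by
      obtain ⟨x, n1, rfl, -⟩ := mkH_elim g (k3 rfl) hx
      exact oS_intro g (k2 3) n1 (c2 x))
    obtain ⟨i, k7, k8, rfl⟩ := oS_elim g (k2 2) (Inj.rel_mem g.isZF k5 k6).2
    obtain ⟨r, -, k9, k10⟩ := g.truthDef_le (Def.rel 0 1 2) (mem3 (k2 0) (k3 rfl) k8) k6 k1
    exact ⟨r, k9, i, k7, k10⟩
  · have e : Feq (T γ).1 (T γ').1 r := feq_of_gm
      {f, y, oc K (Order.succ (ks K)), oc K (ks K), oo i} (to_countable _) fun g k1 k2 k3 k4 => by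
        have a1 : f ∈ g.S := k4 (by simp)
        have a2 : oo i ∈ g.S := k4 (by simp)
        exact (hp.mono hr g k1 (mem4 a1 (k4 (by simp)) (k4 (by simp)) (k4 (by simp)))).2.2.2 _ _ _
          (v1 g k1 (mem3 a1 k2 a2)) (v2 g k1 (mem3 a1 k3 a2))
    obtain ⟨s, n1, x, n2, n3⟩ := fmem_elim ((fmem_mkH (A := fun x : ℕ × Lt K (ks K) => oo (c x))
      (i := (k, ⟨ξ, l1⟩)) l2).congr_right e)
    obtain rfl : (k, ⟨ξ, l1⟩) = x := c1 (feq_ord n3)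
    exact ⟨s, n1, n2⟩

end Pool.Agent.Lib.MP_d4b40b_lc
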