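import Pool.Agent.Lib.MP_d4b40b_lc.Obj

set_option autoImplicit false
set_option linter.unusedSectionVars false

namespace Pool.Agent.Lib.MP_d4b40b_lc

open Filter Set Cardinal

abbrev Tr (K : Type) : Type := K × K × K

variable {K : Type} [LinearOrder K] [WellFoundedLT K]

/-- graphs of collapsing functions -/
structure Fn (ρ : Cardinal.{0}) (D : Set K) (c : Set (Tr K)) : Prop where
  fn : ∀ β i v v', (β, i, v) ∈ c → (β, i, v') ∈ c → v = v'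
  bd : ∀ x ∈ c, x.1 ∈ D ∧ #(Iio x.2.1) ≤ ρ ∧ x.2.2 ≤ x.1

/-- conditions of the collapse -/
def Val (ρ : Cardinal.{0}) (D : Set K) (c : Set (Tr K)) : Prop := Fn ρ D c ∧ #c ≤ ρ

section
variable {ρ : Cardinal.{0}} {D D' : Set K} {c c' : Set (Tr K)}

lemma Fn.sub (h : Fn ρ D c) (hs : c' ⊆ c) : Fn ρ D c' :=
  ⟨fun β i v v' h1 h2 => h.fn β i v v' (hs h1) (hs h2), fun x hx => h.bd x (hs hx)⟩

lemma Fn.dom (h : Fn ρ D c) (hs : ∀ x ∈ c, x.1 ∈ D') : Fn ρ D' c :=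
  ⟨h.fn, fun x hx => ⟨hs x hx, (h.bd x hx).2⟩⟩

lemma Val.dom (h : Val ρ D c) (hs : D ⊆ D') : Val ρ D' c :=
  ⟨h.1.dom fun x hx => hs (h.1.bd x hx).1, h.2⟩

lemma Fn.empty : Fn ρ D (∅ : Set (Tr K)) := ⟨fun _ _ _ _ h => h.elim, fun _ h => h.elim⟩

lemma Val.empty : Val ρ D (∅ : Set (Tr K)) := ⟨Fn.empty, by simp⟩

lemma Fn.iUnion {I : Type} {f : I → Set (Tr K)} (h : ∀ i, Fn ρ D (f i))
    (ht : ∀ i j, f i ⊆ f j ∨ f j ⊆ f i) : Fn ρ D (⋃ i, f i) := by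
  refine ⟨fun β k v v' h1 h2 => ?_, fun x hx => ?_⟩
  · obtain ⟨i, h1⟩ := mem_iUnion.1 h1
    obtain ⟨j, h2⟩ := mem_iUnion.1 h2
    rcases ht i j with l | l
    · exact (h j).fn _ _ _ _ (l h1) h2
    · exact (h i).fn _ _ _ _ h1 (l h2)
  · obtain ⟨i, h1⟩ := mem_iUnion.1 hx
    exact (h i).bd x h1

lemma Val.iUnion {I : Type} {f : I → Set (Tr K)} (hρ : ℵ₀ ≤ ρ) (hI : #I ≤ ρ)
    (h : ∀ i, Val ρ D (f i)) (ht : ∀ i j, f i ⊆ f j ∨ f j ⊆ f i) : Val ρ D (⋃ i, f i) :=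
  ⟨Fn.iUnion (fun i => (h i).1) ht, mk_iUnion_le' hρ hI fun i => (h i).2⟩

lemma Fn.union (h : Fn ρ D c) (h' : Fn ρ D c')
    (hc : ∀ β i v v', (β, i, v) ∈ c → (β, i, v') ∈ c' → v = v') : Fn ρ D (c ∪ c') := by
  refine ⟨fun β i v v' h1 h2 => ?_, fun x hx => hx.elim (h.bd x) (h'.bd x)⟩
  rcases h1 with h1 | h1 <;> rcases h2 with h2 | h2
  · exact h.fn _ _ _ _ h1 h2
  · exact hc _ _ _ _ h1 h2
  · exact (hc _ _ _ _ h2 h1).symm
  · exact h'.fn _ _ _ _ h1 h2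

lemma Val.union (hρ : ℵ₀ ≤ ρ) (h : Val ρ D c) (h' : Val ρ D c')
    (hc : ∀ β i v v', (β, i, v) ∈ c → (β, i, v') ∈ c' → v = v') : Val ρ D (c ∪ c') :=
  ⟨h.1.union h'.1 hc, mk_union_le' hρ h.2 h'.2⟩

lemma Fn.subset (h : Fn ρ D c) (hD : IsLowerSet D) : c ⊆ D ×ˢ Lt K (Order.succ ρ) ×ˢ D :=
  fun x hx => ⟨(h.bd x hx).1, mem_Lt_succ.2 (h.bd x hx).2.1, hD (h.bd x hx).2.2 (h.bd x hx).1⟩

lemma mk_val_le {σ : Cardinal.{0}} (hD : IsLowerSet D) (hσ : ℵ₀ ≤ σ) (h1 : #D ≤ σ) (h2 : ρ < σ)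
    (h3 : σ ^ ρ ≤ σ) : #{c : Set (Tr K) // Val ρ D c} ≤ σ := by
  refine (mk_subtype_le_of_subset
    (q := fun c => c ⊆ D ×ˢ Lt K (Order.succ ρ) ×ˢ D ∧ #c ≤ ρ)
    fun c hc => ⟨hc.1.subset hD, hc.2⟩).trans ((mk_bounded_subset_le _ _).trans ?_)
  refine (power_le_power_right (max_le ?_ hσ)).trans h3
  exact mk_sprod_le' hσ h1 (mk_sprod_le' hσ ((mk_Lt_le _).trans (Order.succ_le_of_lt h2)) h1)

/-- a fresh index -/
lemma exists_fresh (hρ : ρ < #K) (hc : #c ≤ ρ) :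
    ∃ i : K, #(Iio i) ≤ ρ ∧ ∀ x ∈ c, x.2.1 ≠ i := by
  obtain ⟨i, h1, h2⟩ := exists_Lt_notMem (K := K) (Order.succ_le_of_lt hρ)
    (S := (fun x : Tr K => x.2.1) '' c) (Order.lt_succ_iff.2 (mk_image_le.trans hc))
  exact ⟨i, mem_Lt_succ.1 h1, fun x hx e => h2 ⟨x, hx, e⟩⟩

lemma Val.add (hρ : ρ < #K) (hi : ℵ₀ ≤ ρ) (h : Val ρ D c) {β v : K} (hβ : β ∈ D) (hv : v ≤ β) :
    ∃ i : K, #(Iio i) ≤ ρ ∧ Val ρ D (c ∪ {(β, i, v)}) := by
  obtain ⟨i, h1, h2⟩ := exists_fresh hρ h.2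
  refine ⟨i, h1, h.union hi ⟨⟨?_, ?_⟩, by simpa using one_lt_aleph0.le.trans hi⟩ ?_⟩
  · rintro _ _ _ _ ⟨⟩ ⟨⟩; rfl
  · rintro _ rfl; exact ⟨hβ, h1, hv⟩
  · rintro _ _ _ _ k ⟨⟩; exact absurd rfl (h2 _ k)

end

variable [Sys K]

variable (K) in
/-- the lower part of a condition at one level -/
structure Lo (n : ℕ) where
  lam : Top K n
  c : Set (Tr K)
  e : Set (Tr K)
  hc : Val (pre K n) (Iio lam.1) c
  he : Val lam.c (Lt K (kp K n)) e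

instance (n : ℕ) : Preorder (Lo K n) where
  le d d' := d.lam = d'.lam ∧ d'.c ⊆ d.c ∧ d'.e ⊆ d.e
  le_refl _ := ⟨rfl, Subset.rfl, Subset.rfl⟩
  le_trans _ _ _ h h' := ⟨h.1.trans h'.1, h'.2.1.trans h.2.1, h'.2.2.trans h.2.2⟩

lemma Lo.le_def {n : ℕ} {d d' : Lo K n} : d ≤ d' ↔ d.lam = d'.lam ∧ d'.c ⊆ d.c ∧ d'.e ⊆ d.e :=
  Iff.rfl

lemma lo_lim {n : ℕ} {I : Type} [Nonempty I] (hI : #I ≤ pre K n) (f : I → Lo K n)
    (ht : ∀ i j, f i ≤ f j ∨ f j ≤ f i) : ∃ d, (∀ i, d ≤ f i) ∧ ∀ d', (∀ i, d' ≤ f i) → d' ≤ d := by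
  obtain ⟨i0⟩ := ‹Nonempty I›
  have e : ∀ i, (f i).lam = (f i0).lam := fun i => (ht i i0).elim (·.1) (·.1.symm)
  refine ⟨⟨(f i0).lam, ⋃ i, (f i).c, ⋃ i, (f i).e,
    Val.iUnion (pre_inf n) hI (fun i => e i ▸ (f i).hc)
      fun i j => (ht i j).symm.imp (·.2.1) (·.2.1),
    Val.iUnion (Top.inf _) (hI.trans (f i0).lam.2.2.1.le) (fun i => e i ▸ (f i).he)
      fun i j => (ht i j).symm.imp (·.2.2) (·.2.2)⟩,
    fun i => ⟨(e i).symm, subset_iUnion (fun i => (f i).c) i, subset_iUnion (fun i => (f i).e) i⟩,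
    fun d' h => ⟨(h i0).1, iUnion_subset fun i => (h i).2.1, iUnion_subset fun i => (h i).2.2⟩⟩

lemma mk_cc {n : ℕ} (l : Top K n) : #{c : Set (Tr K) // Val (pre K n) (Iio l.1) c} ≤ l.c :=
  mk_val_le (isLowerSet_Iio _) l.inf le_rfl l.2.2.1 l.2.2.2.1

variable (K) in
/-- guiding constraints -/
def HH (n : ℕ) : Type :=
  {h : Top K n → Top K n → Set (Tr K) // ∀ l ξ, Val l.c (Lt K (kp K n)) (h l ξ)}

/-- the image of a constraint under an object -/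
def img {n : ℕ} (μ : Obj K n) (C : Set (Tr K)) : Set (Tr K) :=
  (fun x : Tr K => (μ.f x.1, x.2.1, μ.f x.2.2)) '' C

/-- constraints with field in `b` -/
def CV (n : ℕ) (b : Set K) (C : Set (Tr K)) : Prop := Val (pre K n) b C ∧ ∀ x ∈ C, x.2.2 ∈ b

lemma CV.mono {n : ℕ} {b b' : Set K} {C : Set (Tr K)} (h : CV n b C) (hb : b ⊆ b') : CV n b' C :=
  ⟨h.1.dom hb, fun x hx => hb (h.2 x hx)⟩

lemma img_mono {n : ℕ} (μ : Obj K n) {C C' : Set (Tr K)} (h : C ⊆ C') : img μ C ⊆ img μ C' :=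
  image_mono h

lemma img_val {n : ℕ} {μ : Obj K n} {b : Set K} {C : Set (Tr K)} (hμ : Inc b μ) (h : CV n b C) :
    Val (pre K n) (Iio μ.top.1) (img μ C) := by
  refine ⟨⟨?_, ?_⟩, mk_image_le.trans h.1.2⟩
  · rintro β i v v' ⟨⟨β1, i1, v1⟩, h1, e1⟩ ⟨⟨β2, i2, v2⟩, h2, e2⟩
    simp only [Prod.mk.injEq] at e1 e2
    obtain ⟨e1, rfl, rfl⟩ := e1
    obtain ⟨e2, rfl, rfl⟩ := e2
    obtain rfl : β1 = β2 := hμ.1.injOn (h.1.1.bd _ h1).1 (h.1.1.bd _ h2).1 (e1.trans e2.symm)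
    rw [h.1.1.fn _ _ _ _ h1 h2]
  · rintro _ ⟨x, hx, rfl⟩
    have := h.1.1.bd x hx
    exact ⟨hμ.2 _ this.1, this.2.1, hμ.1.monotoneOn (h.2 x hx) this.1 this.2.2⟩

lemma img_agr {n : ℕ} {μ ν : Obj K n} {b : Set K} {C : Set (Tr K)} (e : Agr b μ ν)
    (h : CV n b C) : img μ C = img ν C :=
  image_congr fun x hx => by rw [e.2 _ (h.1.1.bd x hx).1, e.2 _ (h.2 x hx)]

variable [Ext K]

noncomputable instance (n : ℕ) : Inhabited (Obj K n) := ⟨(EE K n).nonempty_of_mem univ_mem |>.some⟩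

instance (n : ℕ) : Inhabited (HH K n) := ⟨⟨fun _ _ => ∅, fun _ _ => Val.empty⟩⟩

noncomputable instance (n : ℕ) : Inhabited (Lo K n) :=
  ⟨⟨(default : Obj K n).top, ∅, ∅, Val.empty, Val.empty⟩⟩

lemma mk_ec {n : ℕ} (l : Top K n) : #{c : Set (Tr K) // Val l.c (Lt K (kp K n)) c} ≤ kp K n :=
  mk_val_le (lower_Lt _) (kp_unc n).le (mk_Lt_le _) l.2.1 (inacc_pow_le (inacc_kp n) l.2.1)

lemma mk_Lo (n : ℕ) : #(Lo K n) ≤ kp K n := by
  have h : #(Lo K n) ≤ #(Σ l : Top K n, {c : Set (Tr K) // Val (pre K n) (Iio l.1) c} ×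
      {c : Set (Tr K) // Val l.c (Lt K (kp K n)) c}) := by
    refine mk_le_of_surjective (f := fun t => ⟨t.1, t.2.1.1, t.2.2.1, t.2.1.2, t.2.2.2⟩) ?_
    rintro ⟨l, c, e, hc, he⟩
    exact ⟨⟨l, ⟨c, hc⟩, ⟨e, he⟩⟩, rfl⟩
  refine h.trans ?_
  rw [mk_sigma]
  refine (sum_le_sum _ (fun _ => kp K n) fun l =>
    mk_prod_le' (kp_unc n).le ((mk_cc l).trans l.2.1.le) (mk_ec l)).trans ?_
  simp only [sum_const, lift_id]
  exact mul_le' (kp_unc n).le (mk_Top n) le_rfl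

lemma mk_HH (n : ℕ) : #(HH K n) ≤ kp K (n + 1) := by
  have h : #(HH K n) ≤ #(Top K n → Top K n →
      Set (Lt K (kp K n) ×ˢ Lt K (kp K n) ×ˢ Lt K (kp K n) : Set (Tr K))) := by
    refine mk_le_of_injective (f := fun h l ξ => Subtype.val ⁻¹' h.1 l ξ) fun h h' e => ?_
    have key : ∀ (h : HH K n) l ξ,
        h.1 l ξ ⊆ (Lt K (kp K n) ×ˢ Lt K (kp K n) ×ˢ Lt K (kp K n) : Set (Tr K)) := fun h l ξ =>
      ((h.2 l ξ).1.subset (lower_Lt _)).trans (prod_mono Subset.rfl (prod_mono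
        (Lt_mono (Order.succ_le_of_lt l.2.1)) Subset.rfl))
    refine Subtype.ext (funext fun l => funext fun ξ => ?_)
    exact (preimage_eq_preimage' (Subtype.range_coe.symm ▸ key h l ξ)
      (Subtype.range_coe.symm ▸ key h' l ξ)).1
      (congrFun (congrFun e l) ξ)
  have hi := inacc_kp (K := K) (n + 1)
  have hl : kp K n < kp K (n + 1) := pre_lt (n + 1)
  refine h.trans (le_of_lt ?_)
  simp only [← power_def, mk_set]
  refine inacc_pow_lt hi (inacc_pow_lt hi (hi.isStrongPrelimit ?_) ((mk_Top n).trans_lt hl))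
    ((mk_Top n).trans_lt hl)
  exact (mk_sprod_le' (kp_unc n).le (mk_Lt_le _)
    (mk_sprod_le' (kp_unc n).le (mk_Lt_le _) (mk_Lt_le _))).trans_lt hl

instance (n : ℕ) : Preorder (HH K n) where
  le h h' := ∀ l, ∀ᶠ ξ in (Un K n : Filter (Top K n)), h'.1 l ξ ⊆ h.1 l ξ
  le_refl _ _ := Eventually.of_forall fun _ => Subset.rfl
  le_trans _ _ _ h h' l := ((h l).and (h' l)).mono fun _ k => k.2.trans k.1

lemma HH.le_def {n : ℕ} {h h' : HH K n} :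
    h ≤ h' ↔ ∀ l, ∀ᶠ ξ in (Un K n : Filter (Top K n)), h'.1 l ξ ⊆ h.1 l ξ := Iff.rfl

/-- the root of a guiding constraint -/
def root {n : ℕ} (h : HH K n) (l : Top K n) : Set (Tr K) :=
  {x | ∀ᶠ ξ in (Un K n : Filter (Top K n)), x ∈ h.1 l ξ}

lemma root_mono {n : ℕ} {h h' : HH K n} (e : h ≤ h') (l : Top K n) : root h' l ⊆ root h l :=
  fun _ hx => (Eventually.and hx (e l)).mono fun _ k => k.2 k.1

lemma root_val {n : ℕ} (h : HH K n) (l : Top K n) : Val l.c (Lt K (kp K n)) (root h l) := by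
  refine ⟨⟨fun β i v v' h1 h2 => ?_, fun x hx => ?_⟩, ?_⟩
  · obtain ⟨ξ, k1, k2⟩ := (Eventually.and (f := (Un K n : Filter (Top K n))) h1 h2).exists
    exact (h.2 l ξ).1.fn _ _ _ _ k1 k2
  · obtain ⟨ξ, k1⟩ := Eventually.exists (f := (Un K n : Filter (Top K n))) hx
    exact (h.2 l ξ).1.bd x k1
  · by_contra hc
    obtain ⟨S, h1, h2⟩ := le_mk_iff_exists_subset.1 (Order.succ_le_of_lt (not_le.1 hc))
    obtain ⟨ξ, hξ⟩ := (ae_ball (Un K n) _ (h2.trans_lt (inacc_succ_lt (inacc_kp n) l.2.1))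
      (Q := fun ξ x => x ∈ h.1 l ξ) fun x hx => h1 hx).exists
    exact absurd ((h2.ge.trans (mk_le_mk_of_subset hξ)).trans (h.2 l ξ).2)
      (not_le.2 (Order.lt_succ _))

lemma root_ae {n : ℕ} (h : HH K n) (l : Top K n) :
    ∀ᶠ ξ in (Un K n : Filter (Top K n)), root h l ⊆ h.1 l ξ :=
  ae_ball (Un K n) _ ((root_val h l).2.trans_lt l.2.1) (Q := fun ξ x => x ∈ h.1 l ξ) fun _ hx => hx

lemma root_compat {n : ℕ} (h : HH K n) (l : Top K n) {e : Set (Tr K)}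
    (he : Val l.c (Lt K (kp K n)) e) (hr : root h l ⊆ e) :
    ∀ᶠ ξ in (Un K n : Filter (Top K n)), Val l.c (Lt K (kp K n)) (e ∪ h.1 l ξ) := by
  have h1 := ae_ball (Un K n) _ (he.2.trans_lt l.2.1)
    (Q := fun ξ x => ∀ v, (x.1, x.2.1, v) ∈ h.1 l ξ → x.2.2 = v) fun x hx => by
      by_contra hc
      have h2 : ∀ᶠ ξ in (Un K n : Filter (Top K n)),
          ∃ v ∈ Iic x.1, (x.1, x.2.1, v) ∈ h.1 l ξ ∧ x.2.2 ≠ v := by
        filter_upwards [Ultrafilter.eventually_not.2 hc] with ξ hξ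
        push Not at hξ
        obtain ⟨v, k1, k2⟩ := hξ
        exact ⟨v, ((h.2 l ξ).1.bd _ k1).2.2, k1, k2⟩
      obtain ⟨v, -, h3⟩ := ae_ex (Un K n) _ (mk_Iic_lt (kp_unc n).le (he.1.bd x hx).1) h2
      obtain ⟨ξ, -, k⟩ := h3.exists
      exact k (he.1.fn _ _ _ _ hx (hr (h3.mono fun _ k => k.1)))
  exact h1.mono fun ξ hξ => he.union l.inf (h.2 l ξ) fun β i v v' k1 k2 => hξ _ k1 v' k2

lemma hh_ext {n : ℕ} (h : HH K n) (e : Top K n → Set (Tr K))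
    (he : ∀ l, Val l.c (Lt K (kp K n)) (e l) ∧ root h l ⊆ e l) :
    ∃ h' ≤ h, ∀ l, e l ⊆ root h' l := by
  classical
  refine ⟨⟨fun l ξ => if Val l.c (Lt K (kp K n)) (e l ∪ h.1 l ξ) then e l ∪ h.1 l ξ else ∅,
    fun l ξ => ?_⟩, fun l => ?_, fun l x hx => ?_⟩
  · dsimp only
    split_ifs with k
    exacts [k, Val.empty]
  · filter_upwards [root_compat h l (he l).1 (he l).2] with ξ hξ
    simp only [if_pos hξ]
    exact subset_union_right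
  · show ∀ᶠ ξ in (Un K n : Filter (Top K n)), _
    filter_upwards [root_compat h l (he l).1 (he l).2] with ξ hξ
    simp only [if_pos hξ]
    exact Or.inl hx

lemma hh_lim {n : ℕ} {I : Type} (hI : #I ≤ pre K n) (f : I → HH K n)
    (ht : ∀ i j, f i ≤ f j ∨ f j ≤ f i) : ∃ h, (∀ i, h ≤ f i) ∧ ∀ h', (∀ i, h' ≤ f i) → h' ≤ h := by
  classical
  have hI' := hI.trans_lt (pre_lt n)
  refine ⟨⟨fun l ξ => if Val l.c (Lt K (kp K n)) (⋃ i, (f i).1 l ξ) then ⋃ i, (f i).1 l ξ else ∅,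
    fun l ξ => ?_⟩, fun i l => ?_, fun h' hh l => ?_⟩
  · dsimp only
    split_ifs with k
    exacts [k, Val.empty]
  · have h1 := ae_all (Un K n) _ hI' (Q := fun ξ i => ∀ j,
        (f i).1 l ξ ⊆ (f j).1 l ξ ∨ (f j).1 l ξ ⊆ (f i).1 l ξ) fun i =>
      ae_all (Un K n) _ hI' fun j => (ht i j).elim (fun k => (k l).mono fun _ => Or.inr)
        fun k => (k l).mono fun _ => Or.inl
    filter_upwards [h1] with ξ hξ
    simp only [if_pos (Val.iUnion l.inf (hI.trans l.2.2.1.le) (fun i => (f i).2 l ξ) hξ)]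
    exact subset_iUnion (fun i => (f i).1 l ξ) i
  · filter_upwards [ae_all (Un K n) _ hI' fun i => hh i l] with ξ hξ
    split_ifs
    exacts [iUnion_subset hξ, empty_subset _]

/-- every choice of collapses is the image of a single constraint -/
lemma exists_pull {n : ℕ} {b : Set K} {C : Set (Tr K)} (hb : #b < kp K n) (hC : CV n b C)
    (c : Obj K n → Set (Tr K))
    (hc : ∀ᶠ μ in (EE K n : Filter (Obj K n)),
      Val (pre K n) (Iio μ.top.1) (c μ) ∧ img μ C ⊆ c μ) :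
    ∃ (b' : Set K) (C' : Set (Tr K)), b ⊆ b' ∧ C ⊆ C' ∧ #b' < kp K n ∧ CV n b' C' ∧
      ∀ᶠ μ in (EE K n : Filter (Obj K n)), c μ ⊆ img μ C' := by
  have h1 : ∀ μ, ∃ e : (pre K n).out → Option (Tr K), #(c μ) ≤ pre K n →
      (∀ i a, e i = some a → a ∈ c μ) ∧ ∀ a ∈ c μ, ∃ i, e i = some a := by
    intro μ
    by_cases h : #(c μ) ≤ pre K n
    · exact (exists_enum h).imp fun _ k _ => k
    · exact ⟨fun _ => none, fun k => absurd k h⟩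
  choose e he using h1
  have h2 : ∀ i, ∃ S : Set (Tr K), S.Subsingleton ∧
      (∀ x ∈ S, ∀ᶠ μ in (EE K n : Filter (Obj K n)), (μ.f x.1, x.2.1, μ.f x.2.2) ∈ c μ) ∧
      ∀ᶠ μ in (EE K n : Filter (Obj K n)), ∀ a, e μ i = some a → a ∈ img μ S := by
    intro i
    by_cases h : ∀ᶠ μ in (EE K n : Filter (Obj K n)), e μ i = none
    · exact ⟨∅, subsingleton_empty, fun _ k => k.elim, h.mono fun μ k a ha => by
        rw [k] at ha; cases ha⟩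
    · let g : Obj K n → Tr K := fun μ => (e μ i).getD (μ.top.1, μ.top.1, μ.top.1)
      have h3 : ∀ᶠ μ in (EE K n : Filter (Obj K n)), e μ i = some (g μ) ∧ g μ ∈ c μ ∧
          (g μ).1 < μ.top.1 ∧ #(Iio (g μ).2.1) ≤ pre K n ∧ (g μ).2.2 ≤ (g μ).1 := by
        filter_upwards [hc, Ultrafilter.eventually_not.2 h] with μ k1 k2
        obtain ⟨a, ha⟩ := Option.ne_none_iff_exists'.1 k2
        have : g μ = a := by simp only [g, ha, Option.getD_some]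
        rw [this]
        exact ⟨ha, (he μ k1.1.2).1 i a ha, k1.1.1.bd a ((he μ k1.1.2).1 i a ha)⟩
      obtain ⟨β, hβ⟩ := Ext.nor n (fun μ => (g μ).1) (h3.mono fun _ k => k.2.2.1)
      obtain ⟨v, hv⟩ := Ext.nor n (fun μ => (g μ).2.2)
        (h3.mono fun _ k => k.2.2.2.2.trans_lt k.2.2.1)
      obtain ⟨j, -, hj⟩ := ae_cst (EE K n) _ (R := Lt K (Order.succ (pre K n)))
        ((mk_Lt_le _).trans_lt (inacc_succ_lt (inacc_kp n) (pre_lt n)))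
        (f := fun μ => (g μ).2.1) (h3.mono fun _ k => mem_Lt_succ.2 k.2.2.2.1)
      have h4 : ∀ᶠ μ in (EE K n : Filter (Obj K n)), (μ.f β, j, μ.f v) = g μ := by
        filter_upwards [hβ, hv, hj] with μ k1 k2 k3
        rw [← k1, ← k2, ← k3]
      refine ⟨{(β, j, v)}, subsingleton_singleton, ?_, ?_⟩
      · rintro _ rfl
        exact (h3.and h4).mono fun μ k => k.2 ▸ k.1.2.1
      · filter_upwards [h3, h4] with μ k1 k2 a ha
        exact ⟨_, rfl, k2.trans (Option.some.inj (k1.1.symm.trans ha))⟩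
  choose S s1 s2 s3 using h2
  let C' : Set (Tr K) := C ∪ ⋃ i, S i
  have c1 : #C' ≤ pre K n := mk_union_le' (pre_inf n) hC.1.2 (mk_iUnion_le' (pre_inf n) (by simp)
    fun i => ((mk_le_one_iff_set_subsingleton).2 (s1 i)).trans (one_lt_aleph0.le.trans (pre_inf n)))
  have c2 : ∀ x ∈ C', ∀ᶠ μ in (EE K n : Filter (Obj K n)), (μ.f x.1, x.2.1, μ.f x.2.2) ∈ c μ := by
    rintro x (hx | hx)
    · exact hc.mono fun μ k => k.2 ⟨x, hx, rfl⟩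
    · obtain ⟨i, hi⟩ := mem_iUnion.1 hx
      exact s2 i x hi
  refine ⟨b ∪ ((fun x : Tr K => x.1) '' C' ∪ (fun x : Tr K => x.2.2) '' C'), C', subset_union_left,
    subset_union_left, mk_union_lt' (kp_unc n).le hb ((mk_union_le' (pre_inf n)
      (mk_image_le.trans c1) (mk_image_le.trans c1)).trans_lt (pre_lt n)),
    ⟨⟨⟨fun β i v v' k1 k2 => ?_, fun x hx => ⟨Or.inr (Or.inl ⟨x, hx, rfl⟩), ?_, ?_⟩⟩, c1⟩,
      fun x hx => Or.inr (Or.inr ⟨x, hx, rfl⟩)⟩, ?_⟩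
  · by_contra hne
    have : ∀ᶠ μ in (EE K n : Filter (Obj K n)), μ.f v ≠ μ.f v' := by
      rcases lt_or_gt_of_ne hne with l | l
      · exact (Ext.lt n _ _ l).mono fun _ k => k.ne
      · exact (Ext.lt n _ _ l).mono fun _ k => k.ne'
    obtain ⟨μ, l1, l2, l3, l4⟩ := (hc.and ((c2 _ k1).and ((c2 _ k2).and this))).exists
    exact l4 (l1.1.1.fn _ _ _ _ l2 l3)
  · obtain ⟨μ, l1, l2⟩ := (hc.and (c2 x hx)).exists
    exact (l1.1.1.bd _ l2).2.1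
  · by_contra hlt
    obtain ⟨μ, l1, l2, l3⟩ := (hc.and ((c2 x hx).and (Ext.lt n _ _ (not_le.1 hlt)))).exists
    exact absurd (l1.1.1.bd _ l2).2.2 (not_le.2 l3)
  · filter_upwards [hc, ae_all (EE K n) _ (J := (pre K n).out) (by simpa using pre_lt n) s3]
      with μ k1 k2 a ha
    obtain ⟨i, hi⟩ := (he μ k1.1.2).2 a ha
    exact img_mono μ (C' := C') (fun x hx => Or.inr (mem_iUnion.2 ⟨i, hx⟩)) (k2 i a hi)

end Pool.Agent.Lib.MP_d4b40b_lc
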