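import Pool.Agent.Lib.MP_d4b40b_lc.Col

set_option autoImplicit false
set_option linter.unusedSectionVars false

namespace Pool.Agent.Lib.MP_d4b40b_lc

open Filter Set Cardinal

variable (K : Type) [LinearOrder K] [WellFoundedLT K] [Sys K] [Ext K]

abbrev Stem : Type := ∀ n, Obj K n

abbrev Low : Type := ∀ n, Lo K n

abbrev Tm : Type := ℕ → Stem K → Set (Tr K)

variable {K}

/-- agreement of stems on the levels in `[l, n)` -/
def SAgr (b : ℕ → Set K) (S : Set K) (l n : ℕ) (s s' : Stem K) : Prop :=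
  ∀ k, l ≤ k → k < n → Agr (b k ∩ S) (s k) (s' k)

lemma SAgr.refl (b : ℕ → Set K) (S : Set K) (l n : ℕ) (s : Stem K) : SAgr b S l n s s :=
  fun _ _ _ => Agr.refl _ _

lemma SAgr.symm {b : ℕ → Set K} {S : Set K} {l n : ℕ} {s s' : Stem K} (h : SAgr b S l n s s') :
    SAgr b S l n s' s := fun k h1 h2 => (h k h1 h2).symm

lemma SAgr.trans {b : ℕ → Set K} {S : Set K} {l n : ℕ} {s s' s'' : Stem K}
    (h : SAgr b S l n s s') (h' : SAgr b S l n s' s'') : SAgr b S l n s s'' :=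
  fun k h1 h2 => (h k h1 h2).trans (h' k h1 h2)

lemma SAgr.mono {b b' : ℕ → Set K} {S S' : Set K} {l n l' n' : ℕ} {s s' : Stem K}
    (h : SAgr b S l n s s') (h1 : l ≤ l') (h2 : n' ≤ n)
    (h3 : ∀ k, l' ≤ k → k < n' → b' k ∩ S' ⊆ b k ∩ S) : SAgr b' S' l' n' s s' :=
  fun k k1 k2 => (h k (h1.trans k1) (k2.trans_le h2)).mono (h3 k k1 k2)

/-- the value of a term at a coordinate only depends on the stem up to that coordinate -/
def Inv (b : ℕ → Set K) (l : ℕ) (Φ : Tm K) : Prop :=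
  ∀ n, l ≤ n → ∀ s s' x, SAgr b (Iic x.1) l n s s' → x ∈ Φ n s → x ∈ Φ n s'

lemma Inv.mono {b b' : ℕ → Set K} {l : ℕ} {Φ : Tm K} (h : Inv b l Φ)
    (hb : ∀ k, l ≤ k → b k ⊆ b' k) : Inv b' l Φ := fun n hn s s' x e =>
  h n hn s s' x (e.mono le_rfl le_rfl fun k k1 _ => inter_subset_inter_left _ (hb k k1))

lemma Inv.sub {b : ℕ → Set K} {l : ℕ} {Φ : Tm K} (h : Inv b l Φ) {n : ℕ} (hn : l ≤ n)
    {s s' : Stem K} (e : SAgr b univ l n s s') : Φ n s ⊆ Φ n s' := fun x =>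
  h n hn s s' x (e.mono le_rfl le_rfl fun _ _ _ => inter_subset_inter_right _ (subset_univ _))

lemma Inv.eq {b : ℕ → Set K} {l : ℕ} {Φ : Tm K} (h : Inv b l Φ) {n : ℕ} (hn : l ≤ n)
    {s s' : Stem K} (e : SAgr b univ l n s s') : Φ n s = Φ n s' :=
  (h.sub hn e).antisymm (h.sub hn e.symm)

/-- all values of a term -/
def allT (l : ℕ) (Φ : Tm K) : Set (Tr K) := {x | ∃ n, l ≤ n ∧ ∃ s, x ∈ Φ n s}

variable (K) in
/-- forcing conditions -/
structure Cond where
  len : ℕ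
  low : Low K
  b : ℕ → Set K
  A : ∀ n, Set (Obj K n)
  H : ∀ n, HH K n
  C : Tm K
  F : Tm K
  hb : ∀ n, len ≤ n → #(b n) < kp K n
  hA : ∀ n, len ≤ n → A n ∈ EE K n
  hAi : ∀ n, len ≤ n → ∀ μ ν, Agr (b n) μ ν → μ ∈ A n → ν ∈ A n
  hAc : ∀ n, len ≤ n → ∀ μ ∈ A n, Inc (b n) μ
  hC : ∀ n, len ≤ n → ∀ s, CV n (b n) (C n s)
  hCi : Inv b len C
  hF : ∀ n, len ≤ n → ∀ s, Fn (ks K) univ (F n s)
  hFi : Inv b len F
  hFm : ∀ n, len ≤ n → ∀ s, F n s ⊆ F (n + 1) s
  hFc : #(allT len F) ≤ ks K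

noncomputable instance : Inhabited (Cond K) :=
  ⟨⟨0, default, fun _ => ∅, fun _ => univ, default, fun _ _ => ∅, fun _ _ => ∅,
    fun n _ => by simpa using (inacc_kp n).pos, fun _ _ => univ_mem, fun _ _ _ _ _ h => h,
    fun _ _ _ _ => ⟨fun _ h => h.elim, fun _ h => h.elim⟩,
    fun _ _ _ => ⟨Val.empty, fun _ h => h.elim⟩, fun _ _ _ _ _ _ h => h, fun _ _ _ => Fn.empty,
    fun _ _ _ _ _ _ h => h, fun _ _ _ => Subset.rfl, by simp [allT]⟩⟩

lemma Cond.F_mono (p : Cond K) {n m : ℕ} (hn : p.len ≤ n) (h : n ≤ m) (s : Stem K) :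
    p.F n s ⊆ p.F m s := by
  induction m, h using Nat.le_induction with
  | base => exact Subset.rfl
  | succ m h ih => exact ih.trans (p.hFm m (hn.trans h) s)

/-- inclusion of terms on the coordinates in `S` -/
def TSub (S : Set K) (l : ℕ) (Φ Ψ : Tm K) : Prop :=
  ∀ n, l ≤ n → ∀ s x, x.1 ∈ S → x ∈ Φ n s → x ∈ Ψ n s

/-- `q` extends the part of `p` living on `S` -/
structure Ex (S : Set K) (q p : Cond K) : Prop where
  len : q.len = p.len
  low : ∀ k < p.len, q.low k ≤ p.low k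
  b : ∀ n, p.len ≤ n → p.b n ∩ S ⊆ q.b n
  H : ∀ n, p.len ≤ n → q.H n ≤ p.H n
  C : TSub S p.len p.C q.C
  F : TSub S p.len p.F q.F

lemma Ex.refl (S : Set K) (p : Cond K) : Ex S p p :=
  ⟨rfl, fun _ _ => le_rfl, fun _ _ => inter_subset_left, fun _ _ => le_rfl,
    fun _ _ _ _ _ h => h, fun _ _ _ _ _ h => h⟩

lemma Ex.trans {S : Set K} {r q p : Cond K} (h : Ex S r q) (h' : Ex S q p) : Ex S r p :=
  ⟨h.len.trans h'.len, fun k hk => (h.low k (h'.len ▸ hk)).trans (h'.low k hk),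
    fun n hn _ hx => h.b n (h'.len ▸ hn) ⟨h'.b n hn hx, hx.2⟩,
    fun n hn => (h.H n (h'.len ▸ hn)).trans (h'.H n hn),
    fun n hn s x k1 k2 => h.C n (h'.len ▸ hn) s x k1 (h'.C n hn s x k1 k2),
    fun n hn s x k1 k2 => h.F n (h'.len ▸ hn) s x k1 (h'.F n hn s x k1 k2)⟩

lemma Ex.mono {S S' : Set K} {q p : Cond K} (h : Ex S q p) (hs : S' ⊆ S) : Ex S' q p :=
  ⟨h.len, h.low, fun n hn _ hx => h.b n hn ⟨hx.1, hs hx.2⟩, h.H,
    fun n hn s x k => h.C n hn s x (hs k), fun n hn s x k => h.F n hn s x (hs k)⟩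

/-- direct extensions -/
structure DLe (q p : Cond K) : Prop where
  ex : Ex univ q p
  A : ∀ n, p.len ≤ n → q.A n ⊆ p.A n

namespace DLe

variable {r q p : Cond K}

lemma refl (p : Cond K) : DLe p p := ⟨Ex.refl _ _, fun _ _ => Subset.rfl⟩

lemma trans (h : DLe r q) (h' : DLe q p) : DLe r p :=
  ⟨h.ex.trans h'.ex, fun n hn => (h.A n (h'.ex.len ▸ hn)).trans (h'.A n hn)⟩

lemma len (h : DLe q p) : q.len = p.len := h.ex.len

lemma b (h : DLe q p) {n : ℕ} (hn : p.len ≤ n) : p.b n ⊆ q.b n := fun _ hx => h.ex.b n hn ⟨hx, trivial⟩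

lemma C (h : DLe q p) {n : ℕ} (hn : p.len ≤ n) (s : Stem K) : p.C n s ⊆ q.C n s :=
  fun x => h.ex.C n hn s x trivial

lemma F (h : DLe q p) {n : ℕ} (hn : p.len ≤ n) (s : Stem K) : p.F n s ⊆ q.F n s :=
  fun x => h.ex.F n hn s x trivial

lemma exs (h : DLe q p) (S : Set K) : Ex S q p := h.ex.mono (subset_univ S)

lemma mk' (h1 : q.len = p.len) (h2 : ∀ k < p.len, q.low k ≤ p.low k)
    (h3 : ∀ n, p.len ≤ n → p.b n ⊆ q.b n ∧ q.A n ⊆ p.A n ∧ q.H n ≤ p.H n ∧
      ∀ s, p.C n s ⊆ q.C n s ∧ p.F n s ⊆ q.F n s) : DLe q p :=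
  ⟨⟨h1, h2, fun n hn _ hx => (h3 n hn).1 hx.1, fun n hn => (h3 n hn).2.2.1,
    fun n hn s _ _ k => ((h3 n hn).2.2.2 s).1 k, fun n hn s _ _ k => ((h3 n hn).2.2.2 s).2 k⟩,
    fun n hn => (h3 n hn).2.1⟩

end DLe

/-- the stem which follows `t` below `m` and `s` from `m` on -/
def merge (m : ℕ) (t s : Stem K) : Stem K := fun k => if k < m then t k else s k

lemma merge_lt {m k : ℕ} (h : k < m) (t s : Stem K) : merge m t s k = t k := if_pos h

lemma merge_ge {m k : ℕ} (h : m ≤ k) (t s : Stem K) : merge m t s k = s k := if_neg (not_lt.2 h)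

lemma merge_merge {m m' : ℕ} (h : m ≤ m') (t t' s : Stem K) :
    merge m t (merge m' t' s) = merge m' (merge m t t') s := by
  funext k
  by_cases h1 : k < m
  · rw [merge_lt h1, merge_lt (h1.trans_le h), merge_lt h1]
  · by_cases h2 : k < m'
    · rw [merge_ge (not_lt.1 h1), merge_lt h2, merge_lt h2, merge_ge (not_lt.1 h1)]
    · rw [merge_ge (not_lt.1 h1), merge_ge (not_lt.1 h2), merge_ge (not_lt.1 h2)]

lemma sagr_merge {b : ℕ → Set K} {S : Set K} {l m n : ℕ} {t t' s s' : Stem K}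
    (h1 : SAgr b S l m t t') (h2 : SAgr b S m n s s') :
    SAgr b S l n (merge m t s) (merge m t' s') := by
  intro k k1 k2
  by_cases h : k < m
  · rw [merge_lt h, merge_lt h]; exact h1 k k1 h
  · rw [merge_ge (not_lt.1 h), merge_ge (not_lt.1 h)]; exact h2 k (not_lt.1 h) k2

lemma sagr_merge_self (b : ℕ → Set K) (S : Set K) {l m : ℕ} (h : m ≤ l) (n : ℕ) (t s : Stem K) :
    SAgr b S l n (merge m t s) s := fun k k1 _ => by
  rw [merge_ge (h.trans k1)]; exact Agr.refl _ _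

lemma sagr_merge_left (b : ℕ → Set K) (S : Set K) (l : ℕ) {m n : ℕ} (h : n ≤ m) (t s : Stem K) :
    SAgr b S l n (merge m t s) t := fun k _ k2 => by
  rw [merge_lt (k2.trans_le h)]; exact Agr.refl _ _

lemma Inv.merge {b : ℕ → Set K} {l m : ℕ} {Φ : Tm K} (h : Inv b l Φ) (hm : l ≤ m) (t : Stem K) :
    Inv b m (fun n s => Φ n (merge m t s)) := fun n hn _ _ x e =>
  h n (hm.trans hn) _ _ x (sagr_merge (SAgr.refl _ _ _ _ _) e)

open Classical in
/-- the lower part obtained from an object and two constraints -/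
noncomputable def mkLo {k : ℕ} (μ : Obj K k) (C : Set (Tr K)) (h : HH K k) : Lo K k :=
  ⟨μ.top, if Val (pre K k) (Iio μ.top.1) (img μ C) then img μ C else ∅, root h μ.top, by
    split_ifs with h
    exacts [h, Val.empty], root_val _ _⟩

/-- the activated lower part -/
noncomputable def actLo (p : Cond K) (t : Stem K) (k : ℕ) : Lo K k := mkLo (t k) (p.C k t) (p.H k)

lemma actLo_c_sub (p : Cond K) (t : Stem K) (k : ℕ) : (actLo p t k).c ⊆ img (t k) (p.C k t) := by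
  simp only [actLo, mkLo]
  split_ifs
  exacts [Subset.rfl, empty_subset _]

lemma actLo_c {p : Cond K} {t : Stem K} {k : ℕ} (hk : p.len ≤ k) (ht : t k ∈ p.A k) :
    (actLo p t k).c = img (t k) (p.C k t) := if_pos (img_val (p.hAc k hk _ ht) (p.hC k hk t))

lemma le_actLo {p : Cond K} {t : Stem K} {k : ℕ} {d : Lo K k} (h1 : d.lam = (t k).top)
    (h2 : img (t k) (p.C k t) ⊆ d.c) (h3 : root (p.H k) (t k).top ⊆ d.e) : d ≤ actLo p t k :=
  ⟨h1, (actLo_c_sub p t k).trans h2, h3⟩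

/-- the weakest extension of `p` of length `m` along `t` -/
noncomputable def act (p : Cond K) (t : Stem K) (m : ℕ) (h : p.len ≤ m) : Cond K where
  len := m
  low k := if k < p.len then p.low k else actLo p t k
  b := p.b
  A := p.A
  H := p.H
  C n s := p.C n (merge m t s)
  F n s := p.F n (merge m t s)
  hb n hn := p.hb n (h.trans hn)
  hA n hn := p.hA n (h.trans hn)
  hAi n hn := p.hAi n (h.trans hn)
  hAc n hn := p.hAc n (h.trans hn)
  hC n hn _ := p.hC n (h.trans hn) _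
  hCi := p.hCi.merge h t
  hF n hn _ := p.hF n (h.trans hn) _
  hFi := p.hFi.merge h t
  hFm n hn _ := p.hFm n (h.trans hn) _
  hFc := le_trans (mk_le_mk_of_subset (t := allT p.len p.F)
    fun _ ⟨n, hn, _, hx⟩ => ⟨n, h.trans hn, _, hx⟩) p.hFc

lemma act_low_lt {p : Cond K} (t : Stem K) {m : ℕ} (h : p.len ≤ m) {k : ℕ} (hk : k < p.len) :
    (act p t m h).low k = p.low k := if_pos hk

lemma act_low_ge {p : Cond K} (t : Stem K) {m : ℕ} (h : p.len ≤ m) {k : ℕ} (hk : p.len ≤ k) :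
    (act p t m h).low k = actLo p t k := if_neg (not_lt.2 hk)

/-- admissible stems -/
def Adm (p : Cond K) (t : Stem K) (m : ℕ) : Prop := ∀ k, p.len ≤ k → k < m → t k ∈ p.A k

lemma Adm.mono {p : Cond K} {t : Stem K} {m m' : ℕ} (h : Adm p t m) (hm : m' ≤ m) : Adm p t m' :=
  fun k k1 k2 => h k k1 (k2.trans_le hm)

lemma Adm.dle {p q : Cond K} {t : Stem K} {m : ℕ} (h : Adm q t m) (e : DLe q p) : Adm p t m :=
  fun k k1 k2 => e.A k k1 (h k (e.len ▸ k1) k2)

lemma Adm.agr {p : Cond K} {t t' : Stem K} {m : ℕ} (h : Adm p t m)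
    (e : SAgr p.b univ p.len m t t') : Adm p t' m :=
  fun k k1 k2 => p.hAi k k1 _ _ ((e k k1 k2).mono (by simp)) (h k k1 k2)

lemma exists_adm (p : Cond K) : ∃ t : Stem K, ∀ m, Adm p t m := by
  have : ∀ k, ∃ μ : Obj K k, p.len ≤ k → μ ∈ p.A k := fun k => by
    by_cases h : p.len ≤ k
    · exact ((EE K k).nonempty_of_mem (p.hA k h)).imp fun _ l _ => l
    · exact ⟨default, fun l => absurd l h⟩
  choose t ht using this
  exact ⟨t, fun _ k k1 _ => ht k k1⟩

lemma dle_act {q p : Cond K} {t : Stem K} {m : ℕ} {h : p.len ≤ m} (h1 : q.len = m)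
    (h2 : ∀ k < p.len, q.low k ≤ p.low k)
    (h3 : ∀ k, p.len ≤ k → k < m → q.low k ≤ actLo p t k)
    (h4 : ∀ n, m ≤ n → p.b n ⊆ q.b n ∧ q.A n ⊆ p.A n ∧ q.H n ≤ p.H n ∧
      ∀ s, p.C n (merge m t s) ⊆ q.C n s ∧ p.F n (merge m t s) ⊆ q.F n s) :
    DLe q (act p t m h) := by
  refine DLe.mk' h1 (fun k hk => ?_) h4
  rcases lt_or_ge k p.len with l | l
  · rw [act_low_lt t h l]; exact h2 k l
  · rw [act_low_ge t h l]; exact h3 k l hk

lemma act_mono' {q p : Cond K} (e : DLe q p) {t t' : Stem K} {m : ℕ} (h : q.len ≤ m)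
    (h' : p.len ≤ m) (ht : Adm q t m) (a : SAgr p.b univ p.len m t t') :
    DLe (act q t m h) (act p t' m h') := by
  refine dle_act rfl (fun k hk => ?_) (fun k k1 k2 => ?_) fun n hn => ?_
  · rw [act_low_lt t h (e.len ▸ hk)]; exact e.ex.low k hk
  · have k3 : q.len ≤ k := e.len ▸ k1
    have k4 : Agr (p.b k) (t k) (t' k) := (a k k1 k2).mono (by simp)
    rw [act_low_ge t h k3]
    refine le_actLo k4.1 ?_ ?_
    · rw [actLo_c k3 (ht k k3 k2), ← img_agr k4 (p.hC k k1 _)]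
      exact img_mono _ ((p.hCi.sub k1 (a.symm.mono le_rfl k2.le fun _ _ _ => Subset.rfl)).trans
        (e.C k1 t))
    · rw [← k4.1]; exact root_mono (e.ex.H k k1) _
  · have k1 := h'.trans hn
    have k2 : ∀ s, SAgr p.b univ p.len n (merge m t' s) (merge m t s) := fun s =>
      sagr_merge a.symm (SAgr.refl _ _ _ _ _)
    exact ⟨e.b k1, e.A n k1, e.ex.H n k1, fun s =>
      ⟨(p.hCi.sub k1 (k2 s)).trans (e.C k1 _), (p.hFi.sub k1 (k2 s)).trans (e.F k1 _)⟩⟩

lemma act_mono {q p : Cond K} (e : DLe q p) {t : Stem K} {m : ℕ} (h : q.len ≤ m)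
    (h' : p.len ≤ m) (ht : Adm q t m) : DLe (act q t m h) (act p t m h') :=
  act_mono' e h h' ht (SAgr.refl _ _ _ _ _)

lemma act_agr {p : Cond K} {t t' : Stem K} {m : ℕ} (h : p.len ≤ m) (ht : Adm p t m)
    (a : SAgr p.b univ p.len m t t') : DLe (act p t m h) (act p t' m h) :=
  act_mono' (DLe.refl p) h h ht a

lemma dle_act_self {q p : Cond K} (e : DLe q p) (t : Stem K) (h : p.len ≤ q.len) :
    DLe q (act p t q.len h) := by
  refine dle_act rfl e.ex.low (fun k k1 k2 => absurd (e.len ▸ k2) (not_lt.2 k1)) fun n hn => ?_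
  have k1 := h.trans hn
  have k2 := sagr_merge_self p.b univ e.len.le n t
  exact ⟨e.b k1, e.A n k1, e.ex.H n k1, fun s =>
    ⟨(p.hCi.sub k1 (k2 s)).trans (e.C k1 _), (p.hFi.sub k1 (k2 s)).trans (e.F k1 _)⟩⟩

lemma act_self (p : Cond K) (t : Stem K) : DLe (act p t p.len le_rfl) p := by
  refine DLe.mk' rfl (fun k hk => (act_low_lt t _ hk).le) fun n hn => ?_
  have k2 := sagr_merge_self p.b univ (le_refl p.len) n t
  exact ⟨Subset.rfl, Subset.rfl, le_rfl, fun s =>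
    ⟨p.hCi.sub hn (k2 s).symm, p.hFi.sub hn (k2 s).symm⟩⟩

lemma actLo_act {p : Cond K} {t t' : Stem K} {m : ℕ} (h : p.len ≤ m) {k : ℕ} (hk : m ≤ k) :
    actLo (act p t m h) t' k = actLo p (merge m t t') k := by
  simp only [actLo, merge_ge hk]
  rfl

lemma actLo_congr {p : Cond K} {t t' : Stem K} {k : ℕ} (hk : p.len ≤ k)
    (e : ∀ j ≤ k, t j = t' j) : actLo p t k = actLo p t' k := by
  have : p.C k t = p.C k t' := p.hCi.eq hk fun j _ l => by rw [e j l.le]; exact Agr.refl _ _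
  simp only [actLo, e k le_rfl, this]

lemma act_act (p : Cond K) (t t' : Stem K) {m m' : ℕ} (h : p.len ≤ m) (h' : m ≤ m') :
    DLe (act (act p t m h) t' m' h') (act p (merge m t t') m' (h.trans h')) ∧
    DLe (act p (merge m t t') m' (h.trans h')) (act (act p t m h) t' m' h') := by
  have e : ∀ k, (act (act p t m h) t' m' h').low k =
      (act p (merge m t t') m' (h.trans h')).low k := by
    intro k
    rcases lt_or_ge k m with l | l
    · rw [act_low_lt (p := act p t m h) t' h' l]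
      rcases lt_or_ge k p.len with l' | l'
      · rw [act_low_lt _ _ l', act_low_lt _ _ l']
      · rw [act_low_ge _ _ l', act_low_ge _ _ l']
        exact actLo_congr l' fun j hj => (merge_lt (hj.trans_lt l) _ _).symm
    · rw [act_low_ge (p := act p t m h) t' h' l, act_low_ge _ _ (h.trans l), actLo_act h l]
  have e' : ∀ s, merge m t (merge m' t' s) = merge m' (merge m t t') s := merge_merge h' t t'
  exact ⟨DLe.mk' rfl (fun k _ => (e k).le) fun n _ => ⟨Subset.rfl, Subset.rfl, le_rfl,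
      fun s => ⟨(congrArg (p.C n) (e' s)).ge, (congrArg (p.F n) (e' s)).ge⟩⟩,
    DLe.mk' rfl (fun k _ => (e k).ge) fun n _ => ⟨Subset.rfl, Subset.rfl, le_rfl,
      fun s => ⟨(congrArg (p.C n) (e' s)).le, (congrArg (p.F n) (e' s)).le⟩⟩⟩

lemma adm_merge {p : Cond K} {t t' : Stem K} {m m' : ℕ} {h : p.len ≤ m} (h1 : Adm p t m)
    (h2 : Adm (act p t m h) t' m') : Adm p (merge m t t') m' := by
  intro k k1 k2
  rcases lt_or_ge k m with l | l
  · rw [merge_lt l]; exact h1 k k1 l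
  · rw [merge_ge l]; exact h2 k l k2

instance : Preorder (Cond K) where
  le q p := ∃ (h : p.len ≤ q.len) (t : Stem K), Adm p t q.len ∧ DLe q (act p t q.len h)
  le_refl p := ⟨le_rfl, default, fun k k1 k2 => absurd k2 (not_lt.2 k1),
    dle_act_self (DLe.refl p) _ _⟩
  le_trans := by
    rintro r q p ⟨h1, t1, a1, e1⟩ ⟨h2, t2, a2, e2⟩
    exact ⟨h2.trans h1, merge q.len t2 t1, adm_merge a2 (a1.dle e2),
      e1.trans ((act_mono e2 h1 h1 a1).trans (act_act p t2 t1 h2 h1).1)⟩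

lemma Cond.le_def {q p : Cond K} :
    q ≤ p ↔ ∃ (h : p.len ≤ q.len) (t : Stem K), Adm p t q.len ∧ DLe q (act p t q.len h) := Iff.rfl

lemma DLe.le {q p : Cond K} (e : DLe q p) : q ≤ p :=
  ⟨e.len.ge, default, fun _ k1 k2 => absurd (e.len ▸ k2) (not_lt.2 k1), dle_act_self e _ _⟩

lemma act_le {p : Cond K} {t : Stem K} {m : ℕ} (h : p.len ≤ m) (a : Adm p t m) :
    act p t m h ≤ p := ⟨h, t, a, DLe.refl _⟩

lemma len_le {q p : Cond K} (h : q ≤ p) : p.len ≤ q.len := h.1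

lemma low_le {q p : Cond K} (h : q ≤ p) {k : ℕ} (hk : k < p.len) : q.low k ≤ p.low k := by
  obtain ⟨h, t, -, e⟩ := h
  exact (e.ex.low k (hk.trans_le h)).trans (act_low_lt t h hk).le

lemma dle_of_le {q p : Cond K} (h : q ≤ p) (e : q.len ≤ p.len) : DLe q p := by
  obtain ⟨h, t, -, e'⟩ := h
  have key : ∀ m (h : p.len ≤ m), m = p.len → DLe (act p t m h) p := by
    rintro m h rfl
    exact act_self p t
  exact e'.trans (key _ h (e.antisymm h))

lemma merge_self (m : ℕ) (t : Stem K) : merge m t t = t := funext fun _ => ite_self _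

lemma act_le_act {p : Cond K} {t : Stem K} {m m' : ℕ} (h : p.len ≤ m) (h' : m ≤ m')
    (a : Adm p t m') : act p t m' (h.trans h') ≤ act p t m h := by
  refine ⟨h', t, fun k k1 k2 => a k (h.trans k1) k2, ?_⟩
  have := (act_act p t t h h').2
  rwa [merge_self] at this

lemma le_split {r p : Cond K} (h : r ≤ p) {m : ℕ} (h1 : p.len ≤ m) (h2 : m ≤ r.len) :
    ∃ t, Adm p t m ∧ r ≤ act p t m h1 := by
  obtain ⟨h, t, a, e⟩ := h
  exact ⟨t, a.mono h2, e.le.trans (act_le_act h1 h2 a)⟩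

lemma exists_long (p : Cond K) (m : ℕ) : ∃ q ≤ p, m ≤ q.len := by
  obtain ⟨t, ht⟩ := exists_adm p
  exact ⟨act p t (max p.len m) (le_max_left _ _), act_le _ (ht _), le_max_right _ _⟩

/-- replacing the lower part -/
def setLow (p : Cond K) (d : Low K) : Cond K := { p with low := d }

lemma dle_setLow {q p : Cond K} {d : Low K} (e : DLe q p) (h : ∀ k < p.len, q.low k ≤ d k) :
    DLe q (setLow p d) :=
  ⟨⟨e.len, h, e.ex.b, e.ex.H, e.ex.C, e.ex.F⟩, e.A⟩

lemma setLow_dle {q p : Cond K} {d : Low K} (e : DLe q p) (h : ∀ k < p.len, d k ≤ p.low k) :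
    DLe (setLow q d) p :=
  ⟨⟨e.len, h, e.ex.b, e.ex.H, e.ex.C, e.ex.F⟩, e.A⟩

lemma setLow_mono {q p : Cond K} {d d' : Low K} (e : DLe q p) (h : ∀ k < p.len, d k ≤ d' k) :
    DLe (setLow q d) (setLow p d') :=
  ⟨⟨e.len, h, e.ex.b, e.ex.H, e.ex.C, e.ex.F⟩, e.A⟩

lemma le_setLow {q p : Cond K} {d : Low K} (e : q ≤ p) (h : ∀ k < p.len, q.low k ≤ d k) :
    q ≤ setLow p d := by
  obtain ⟨h1, t, a, e⟩ := e
  refine ⟨h1, t, a, dle_act rfl h (fun k k1 k2 => ?_) fun n hn =>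
    ⟨e.b hn, e.A n hn, e.ex.H n hn, fun s => ⟨e.C hn s, e.F hn s⟩⟩⟩
  exact (e.ex.low k k2).trans (act_low_ge t h1 k1).le

/-- lowering the lower part of an extension -/
lemma exists_low {q p : Cond K} {d : Low K} (e : q ≤ p) (h : ∀ k < p.len, d k ≤ q.low k) :
    ∃ r, DLe r q ∧ r ≤ setLow p d := by
  let d' : Low K := fun k => if k < p.len then d k else q.low k
  have h1 : DLe (setLow q d') q := setLow_dle (DLe.refl q) fun k _ => by
    simp only [d']
    split_ifs with l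
    exacts [h k l, le_rfl]
  exact ⟨_, h1, le_setLow (h1.le.trans e) fun k hk => (if_pos hk : d' k = d k).le⟩

end Pool.Agent.Lib.MP_d4b40b_lc
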