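import Pool.Agent.Lib.MP_d4b40b_lc.Appl

set_option autoImplicit false
set_option linter.unusedSectionVars false

namespace Pool.Agent.Lib.MP_d4b40b_lc

open Filter Set Cardinal

variable {K : Type} [LinearOrder K] [WellFoundedLT K] [Sys K] [Ext K]

/-- the objects of `p` lift to objects of `p'` -/
def Pr (α : K) (p p' : Cond K) : Prop := ∀ n, p'.len ≤ n → p.A n ⊆ proj α (p'.b n) (p'.A n)

/-- agreement below `α` -/
def Agree (α : K) (p q : Cond K) : Prop := Ex (Iio α) p q ∧ Ex (Iio α) q p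

lemma Agree.refl (α : K) (p : Cond K) : Agree α p p := ⟨Ex.refl _ _, Ex.refl _ _⟩

lemma Agree.symm {α : K} {p q : Cond K} (h : Agree α p q) : Agree α q p := ⟨h.2, h.1⟩

lemma Agree.trans {α : K} {p q r : Cond K} (h : Agree α p q) (h' : Agree α q r) : Agree α p r :=
  ⟨h.1.trans h'.1, h'.2.trans h.2⟩

lemma copy0 {α : K} {r p : Cond K} (h : Ex (Iio α) r p) : ∃ r', DLe r' p ∧ Agree α r' r :=
  copy_direct (isLowerSet_Iio α) h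

lemma exists_pr {α : K} (hα : Cl α) {p p' : Cond K} (h : Ex (Iio α) p p') :
    ∃ p1, DLe p1 p ∧ Pr α p1 p' :=
  ⟨shrink p (fun n => proj α (p'.b n) (p'.A n)) fun n hn =>
    ⟨hα n _ _ (p'.hb n (h.len ▸ hn)) (p'.hA n (h.len ▸ hn)),
      fun _ _ e k => proj_agr k (e.mono (h.b n (h.len ▸ hn)))⟩,
    shrink_dle _ _ _, fun _ _ => inter_subset_right⟩

theorem copy_act {α : K} {p p' x : Cond K} (h : Ex (Iio α) p p') (hp : Pr α p p') {t : Stem K}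
    {m : ℕ} {hm : p.len ≤ m} (a : Adm p t m) (hx : DLe x (act p t m hm)) (G : ℕ → Set K)
    (hG : ∀ k, G k ⊆ Iio (t k).top.1 ∧ #(G k) ≤ pre K k) :
    ∃ t' hm', Adm p' t' m ∧ SAgr p'.b (Iio α) p'.len m t t' ∧
      (∀ k, p'.len ≤ k → k < m → ∀ β ∈ p'.b k, α ≤ β → ∀ γ ∈ G k, γ < (t' k).f β) ∧
      ∃ x1, DLe x1 x ∧ Ex (Iio α) x1 (act p' t' m hm') := by
  have hm' : p'.len ≤ m := h.len ▸ hm
  have l1 : ∀ k, p'.len ≤ k → k < m → x.low k ≤ actLo p t k := fun k k1 k2 =>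
    (hx.ex.low k k2).trans (act_low_ge _ _ (h.len ▸ k1)).le
  have h1 : ∀ k, ∃ ν : Obj K k, p'.len ≤ k → k < m → ν ∈ p'.A k ∧ Agr (p'.b k ∩ Iio α) (t k) ν ∧
      ∀ β ∈ p'.b k, α ≤ β → ∀ γ ∈ G k ∪ Prod.fst '' (x.low k).c, γ < ν.f β := by
    intro k
    by_cases hk : p'.len ≤ k ∧ k < m
    · obtain ⟨γ, g1, g2⟩ := (t k).top.2.2.2.2 (G k ∪ Prod.fst '' (x.low k).c)
        (union_subset (hG k).1 (by
          rintro _ ⟨y, hy, rfl⟩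
          exact lt_of_lt_of_eq ((x.low k).hc.1.bd y hy).1
            (congrArg Subtype.val (l1 k hk.1 hk.2).1)))
        (mk_union_le' (pre_inf k) (hG k).2 (mk_image_le.trans (x.low k).hc.2))
      obtain ⟨ν, n1, n2, n3⟩ := hp k hk.1 (a k (h.len ▸ hk.1) hk.2) γ g1
      exact ⟨ν, fun _ _ => ⟨n1, n2, fun β b1 b2 δ hδ => (g2 δ hδ).trans_lt (n3 β b1 b2)⟩⟩
    · exact ⟨t k, fun k1 k2 => absurd ⟨k1, k2⟩ hk⟩
  choose t' ht' using h1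
  have a' : Adm p' t' m := fun k k1 k2 => (ht' k k1 k2).1
  have e : SAgr p'.b (Iio α) p'.len m t t' := fun k k1 k2 => (ht' k k1 k2).2.1
  have e' : ∀ β < α, SAgr p'.b (Iic β) p'.len m t' t := fun β hβ =>
    e.symm.mono le_rfl le_rfl fun _ _ _ => inter_subset_inter_right _ fun γ hγ => lt_of_le_of_lt hγ hβ
  have h2 : ∀ k, ∃ d : Lo K k, d ≤ x.low k ∧ (p'.len ≤ k → k < m → d ≤ actLo p' t' k) := by
    intro k
    by_cases hk : p'.len ≤ k ∧ k < m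
    swap
    · exact ⟨x.low k, le_rfl, fun k1 k2 => absurd ⟨k1, k2⟩ hk⟩
    obtain ⟨k1, k2⟩ := hk
    have k3 : (x.low k).lam = (t' k).top := (l1 k k1 k2).1.trans (e k k1 k2).1
    have k4 := p'.hC k k1 t'
    refine ⟨⟨(x.low k).lam, (x.low k).c ∪ img (t' k) (p'.C k t'), (x.low k).e,
      (x.low k).hc.union (pre_inf k) (k3 ▸ img_val (p'.hAc k k1 _ (a' k k1 k2)) k4) ?_,
      (x.low k).he⟩, ⟨rfl, subset_union_left, Subset.rfl⟩, fun _ _ =>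
      le_actLo k3 subset_union_right ?_⟩
    · rintro β i v v' j1 ⟨⟨β0, i0, v0⟩, j2, j3⟩
      simp only [Prod.mk.injEq] at j3
      obtain ⟨rfl, rfl, rfl⟩ := j3
      have j4 := k4.1.1.bd _ j2
      rcases lt_or_ge β0 α with l | l
      · refine (x.low k).hc.1.fn _ _ _ _ j1 ((l1 k k1 k2).2.1 ?_)
        rw [actLo_c (h.len ▸ k1) (a k (h.len ▸ k1) k2)]
        refine ⟨(β0, i0, v0), h.C k k1 t _ l (p'.hCi k k1 _ _ _
          ((e' β0 l).mono le_rfl k2.le fun _ _ _ => Subset.rfl) j2), ?_⟩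
        simp only [(e k k1 k2).2 β0 ⟨j4.1, l⟩,
          (e k k1 k2).2 v0 ⟨k4.2 _ j2, lt_of_le_of_lt j4.2.2 l⟩]
      · exact absurd ((ht' k k1 k2).2.2 β0 j4.1 l _ (Or.inr ⟨_, j1, rfl⟩)) (lt_irrefl _)
    · show _ ⊆ (x.low k).e
      rw [← (e k k1 k2).1]
      exact (root_mono (h.H k k1) _).trans (l1 k k1 k2).2.2
  choose d d1 d2 using h2
  refine ⟨t', hm', a', e, fun k k1 k2 β b1 b2 γ g => (ht' k k1 k2).2.2 β b1 b2 γ (Or.inl g),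
    setLow x d, setLow_dle (DLe.refl x) fun k _ => d1 k, hx.len, fun k hk => ?_,
    fun n hn => (h.b n (hm'.trans hn)).trans (hx.b hn),
    fun n hn => (hx.ex.H n hn).trans (h.H n (hm'.trans hn)), fun n hn s y k1 k2 => ?_,
    fun n hn s y k1 k2 => ?_⟩
  · rcases lt_or_ge k p'.len with l | l
    · rw [act_low_lt _ _ l]
      exact (d1 k).trans (((hx.ex.low k hk).trans (act_low_lt _ _ (h.len ▸ l)).le).trans (h.low k l))
    · rw [act_low_ge _ _ l]; exact d2 k l hk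
  · exact hx.C hn s (h.C n (hm'.trans hn) _ y k1 (p'.hCi n (hm'.trans hn) _ _ y
      (sagr_merge (e' _ k1) (SAgr.refl _ _ _ _ _)) k2))
  · exact hx.F hn s (h.F n (hm'.trans hn) _ y k1 (p'.hFi n (hm'.trans hn) _ _ y
      (sagr_merge (e' _ k1) (SAgr.refl _ _ _ _ _)) k2))

lemma copy_le {α : K} {p p' r : Cond K} (h : Ex (Iio α) p p') (hp : Pr α p p') (hr : r ≤ p) :
    ∃ r1, DLe r1 r ∧ ∃ r' ≤ p', Agree α r1 r' := by
  obtain ⟨hm, t, a, e⟩ := hr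
  obtain ⟨t', hm', a', -, -, x1, k1, k2⟩ := copy_act h hp a e (fun _ => ∅) fun _ => by simp
  obtain ⟨r', k3, k4⟩ := copy0 k2
  exact ⟨x1, k1, r', k3.le.trans (act_le _ a'), k4.symm⟩

lemma copy {α : K} (hα : Cl α) {p p' : Cond K} (h : Ex (Iio α) p p') :
    ∃ p1, DLe p1 p ∧ ∀ r ≤ p1, ∃ r1 ≤ r, ∃ r' ≤ p', Agree α r1 r' := by
  obtain ⟨p1, h1, h2⟩ := exists_pr hα h
  exact ⟨p1, h1, fun r hr => (copy_le ((h1.exs _).trans h) h2 hr).imp fun _ k => ⟨k.1.le, k.2⟩⟩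

lemma ext_agree {α : K} (hα : Cl α) {p p' : Cond K} (h : Ex (Iio α) p p') {G : Cond K → Prop}
    (hG : ∀ a b, G a → b ≤ a → G b) (hd : ∀ x ≤ p, ∃ y ≤ x, G y) :
    ∃ r ≤ p, ∃ r' ≤ p', Agree α r r' ∧ G r := by
  obtain ⟨p1, h1, h2⟩ := copy hα h
  obtain ⟨y, h3, h4⟩ := hd p1 h1.le
  obtain ⟨r, h5, r', h6, h7⟩ := h2 y h3
  exact ⟨r, (h5.trans h3).trans h1.le, r', h6, h7, hG _ _ h4 h5⟩

/-- the support of a condition -/
def supp (p : Cond K) : Set K := (⋃ n ∈ Ici p.len, p.b n) ∪ Prod.fst '' allT p.len p.F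

lemma mk_supp (p : Cond K) : #(supp p) ≤ ks K :=
  mk_union_le' ks_inf (mk_biUnion_le' ks_inf ((mk_set_le _).trans (by simpa using ks_inf))
    fun n hn => (p.hb n hn).le.trans (kp_le_ks n)) (mk_image_le.trans p.hFc)

lemma b_supp {p : Cond K} {n : ℕ} (hn : p.len ≤ n) : p.b n ⊆ supp p :=
  fun _ h => Or.inl (mem_biUnion hn h)

lemma C_supp {p : Cond K} {n : ℕ} (hn : p.len ≤ n) {s : Stem K} {x : Tr K} (h : x ∈ p.C n s) :
    x.1 ∈ supp p := b_supp hn ((p.hC n hn s).1.1.bd x h).1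

lemma F_supp {p : Cond K} {n : ℕ} (hn : p.len ≤ n) {s : Stem K} {x : Tr K} (h : x ∈ p.F n s) :
    x.1 ∈ supp p := Or.inr ⟨x, ⟨n, hn, s, h⟩, rfl⟩

lemma ae_supp (p : Cond K) : ∀ᶠ α in (UU K : Filter K), supp p ⊆ Iio α :=
  ae_above ((mk_supp p).trans_lt ks_lt)

lemma Ex.univ {S : Set K} {q p : Cond K} (h : Ex S q p) (hs : supp p ⊆ S) : Ex univ q p :=
  ⟨h.len, h.low, fun n hn _ k => h.b n hn ⟨k.1, hs (b_supp hn k.1)⟩, h.H,
    fun n hn s x _ k => h.C n hn s x (hs (C_supp hn k)) k,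
    fun n hn s x _ k => h.F n hn s x (hs (F_supp hn k)) k⟩

lemma supp_act (p : Cond K) (t : Stem K) (m : ℕ) (h : p.len ≤ m) : supp (act p t m h) ⊆ supp p := by
  rintro x (k | ⟨y, ⟨n, k1, s, k2⟩, rfl⟩)
  · obtain ⟨n, k1, k2⟩ := mem_iUnion₂.1 k
    exact b_supp (h.trans k1) k2
  · exact F_supp (h.trans k1) k2

lemma le_of_supp {S : Set K} {q r e : Cond K} (h1 : r ≤ e) (h2 : supp e ⊆ S) (h3 : Ex S q r) :
    ∃ q' ≤ q, q' ≤ e := by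
  obtain ⟨h, t, a, k⟩ := h1
  obtain ⟨q', k1, k2, -⟩ := exists_inter ((h3.trans (k.exs S)).univ ((supp_act _ _ _ _).trans h2))
  exact ⟨q', k1.le, k2.le.trans (act_le _ a)⟩

theorem stab0 (q : K → Cond K) : ∃ Z ∈ UU K, ∀ α0 ∈ Z, ∀ α ∈ Z,
    (∀ x, Ex (Iio α0) x (q α0) → Ex (Iio α) x (q α)) ∧ (q α0).len = (q α).len ∧
      ∀ n, (q α).len ≤ n → proj α0 ((q α0).b n) ((q α0).A n) ⊆ proj α ((q α).b n) ((q α).A n) := by
  obtain ⟨l, h1⟩ := ae_cst' (UU K) _ (by simpa using (inacc_K (K := K)).1) fun α => (q α).len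
  obtain ⟨d, h2⟩ := ae_cst' (UU K) _
    (mk_seq_lt inacc_K ks_lt fun n => (mk_Lo n).trans (kp_le_ks n)) fun α => (q α).low
  obtain ⟨H, h3⟩ := ae_cst' (UU K) _
    (mk_seq_lt inacc_K ks_lt fun n => (mk_HH n).trans (kp_le_ks _)) fun α => (q α).H
  obtain ⟨δ, h4⟩ := ae_press (Q := fun α δ => supp (q α) ∩ Iio α ⊆ Iio δ)
    (ae_cf.mono fun α k => k _ inter_subset_right
      ((mk_le_mk_of_subset inter_subset_left).trans (mk_supp _)))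
  have hN : #(univ : Set ℕ) < #K := by simpa using (inacc_K (K := K)).1
  obtain ⟨Z1, z1, z2⟩ := ae_pw (UU K) _ (mk_sprod_lt' K_inf hN (Sys.ord δ))
    (fun α x => x.2 ∈ (q α).b x.1)
  let Z0 := {α | ((q α).len = l ∧ (q α).low = d ∧ (q α).H = H ∧ supp (q α) ∩ Iio α ⊆ Iio δ ∧ δ < α)
    ∧ α ∈ Z1}
  have z0 : Z0 ∈ UU K := (h1.and (h2.and (h3.and (h4.and (Sys.tail δ))))).and z1
  have hb : ∀ α ∈ Z0, ∀ α' ∈ Z0, ∀ n, l ≤ n → (q α).b n ∩ Iio α ⊆ (q α').b n ∩ Iio α' :=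
    fun α k α' k' n hn β hβ =>
      have j := k.1.2.2.2.1 ⟨b_supp (k.1.1 ▸ hn) hβ.1, hβ.2⟩
      ⟨z2 α k.2 α' k'.2 (n, β) ⟨trivial, j⟩ hβ.1, lt_trans j k'.1.2.2.2.2⟩
  obtain ⟨α1, a1⟩ := Ultrafilter.nonempty_of_mem z0
  obtain ⟨r, hr⟩ := stem_rep (fun n => (q α1).b n ∩ Iio α1) l fun n hn =>
    (mk_le_mk_of_subset inter_subset_left).trans_lt ((q α1).hb n (a1.1.1 ▸ hn))
  let R : Set (Stem K) := {s | ∀ k, s k ∈ range (r k)}
  have r1 : #R < #K := lt_of_le_of_lt (mk_le_of_injective (β := ∀ k, range (r k))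
    (f := fun s k => ⟨s.1 k, s.2 k⟩) fun s s' e => Subtype.ext (funext fun k =>
      congrArg Subtype.val (congrFun e k)))
    (mk_seq_lt inacc_K ks_lt fun n => (hr n).1.trans (kp_le_ks n))
  have r2 : ∀ α ∈ Z0, ∀ (s : Stem K) n, ∀ β < α,
      SAgr (q α).b (Iic β) (q α).len n s fun k => r k (s k) := fun α k s n β hβ j j1 _ =>
    ((hr j).2 (k.1.1 ▸ j1) _).mono fun γ hγ =>
      hb α k α1 a1 j (k.1.1 ▸ j1) ⟨hγ.1, lt_of_le_of_lt hγ.2 hβ⟩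
  let T : Set (Tr K) := Iio δ ×ˢ Lt K (Order.succ (ks K)) ×ˢ Iio δ
  have t1 : #T < #K := mk_sprod_lt' K_inf (Sys.ord δ)
    (mk_sprod_lt' K_inf ((mk_Lt_le _).trans_lt succ_ks_lt) (Sys.ord δ))
  have key : ∀ Φ : K → Tm K, (∀ α, Inv (q α).b (q α).len (Φ α)) →
      (∀ α n s, (q α).len ≤ n → ∀ x ∈ Φ α n s,
        x.1 ∈ supp (q α) ∧ #(Iio x.2.1) ≤ ks K ∧ x.2.2 ≤ x.1) →
      ∃ Z ∈ UU K, ∀ α ∈ Z0 ∩ Z, ∀ α' ∈ Z0 ∩ Z, ∀ n, l ≤ n → ∀ s x, x.1 < α → x ∈ Φ α n s →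
        x.1 < α' ∧ x ∈ Φ α' n s := by
    intro Φ i1 i2
    obtain ⟨Z, z3, z4⟩ := ae_pw (UU K) _ (mk_sprod_lt' K_inf r1 (mk_sprod_lt' K_inf hN t1))
      (fun α x => x.2.2 ∈ Φ α x.2.1 x.1)
    refine ⟨Z, z3, fun α k α' k' n hn s x k1 k2 => ?_⟩
    have j1 : (q α).len ≤ n := k.1.1.1 ▸ hn
    have j2 := i2 α n s j1 x k2
    have j3 : x.1 < δ := k.1.1.2.2.2.1 ⟨j2.1, k1⟩
    have j4 : x.1 < α' := j3.trans k'.1.1.2.2.2.2
    exact ⟨j4, i1 α' n (k'.1.1.1 ▸ hn) _ _ x (r2 α' k'.1 s n _ j4).symm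
      (z4 α k.2 α' k'.2 (fun k => r k (s k), n, x) ⟨fun k => mem_range_self _, trivial, j3,
        mem_Lt_succ.2 j2.2.1, lt_of_le_of_lt j2.2.2 j3⟩ (i1 α n j1 _ _ x (r2 α k.1 s n _ k1) k2))⟩
  obtain ⟨Z2, z3, z4⟩ := key (fun α => (q α).C) (fun α => (q α).hCi) fun α n s hn x hx =>
    ⟨C_supp hn hx, (((q α).hC n hn s).1.1.bd x hx).2.1.trans (pre_le_ks n),
      (((q α).hC n hn s).1.1.bd x hx).2.2⟩
  obtain ⟨Z3, z5, z6⟩ := key (fun α => (q α).F) (fun α => (q α).hFi) fun α n s hn x hx =>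
    ⟨F_supp hn hx, (((q α).hF n hn s).bd x hx).2⟩
  obtain ⟨Z4, z7, z8⟩ := ae_pw (UU K) _ (mk_sprod_lt' K_inf r1 hN)
    (fun α x => x.1 x.2 ∈ proj α ((q α).b x.2) ((q α).A x.2))
  refine ⟨Z0 ∩ (Z2 ∩ (Z3 ∩ Z4)), inter_mem z0 (inter_mem z3 (inter_mem z5 z7)),
    fun α0 k0 α k => ⟨fun x e => ?_, k0.1.1.1.trans k.1.1.1.symm, fun n hn μ hμ => ?_⟩⟩
  · have ll : (q α).len = (q α0).len := k.1.1.1.trans k0.1.1.1.symm
    refine ⟨e.len.trans ll.symm, fun j hj => ?_, fun n hn => ?_, fun n hn => ?_,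
      fun n hn s y j1 j2 => ?_, fun n hn s y j1 j2 => ?_⟩
    · rw [k.1.1.2.1, ← k0.1.1.2.1]; exact e.low j (ll ▸ hj)
    · exact (hb α k.1 α0 k0.1 n (k.1.1.1 ▸ hn)).trans (e.b n (ll ▸ hn))
    · rw [k.1.1.2.2.1, ← k0.1.1.2.2.1]; exact e.H n (ll ▸ hn)
    · have := z4 α ⟨k.1, k.2.1⟩ α0 ⟨k0.1, k0.2.1⟩ n (k.1.1.1 ▸ hn) s y j1 j2
      exact e.C n (ll ▸ hn) s y this.1 this.2
    · have := z6 α ⟨k.1, k.2.2.1⟩ α0 ⟨k0.1, k0.2.2.1⟩ n (k.1.1.1 ▸ hn) s y j1 j2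
      exact e.F n (ll ▸ hn) s y this.1 this.2
  · have hn' : l ≤ n := k.1.1.1 ▸ hn
    have j := (hr n).2 hn' μ
    let s : Stem K := fun k => r k (Function.update (default : Stem K) n μ k)
    have e : s n = r n μ := by simp only [s, Function.update_self]
    have := z8 α0 k0.2.2.2 α k.2.2.2 (s, n) ⟨fun k => mem_range_self _, trivial⟩
      (by dsimp only; rw [e]; exact proj_agr hμ (j.mono (hb α0 k0.1 α1 a1 n hn')))
    dsimp only at this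
    rw [e] at this
    exact proj_agr this (j.symm.mono (hb α k.1 α1 a1 n hn'))

theorem stab (q : K → Cond K) : ∀ᶠ α0 in (UU K : Filter K), ∀ x, Ex (Iio α0) x (q α0) →
    ∃ x', DLe x' x ∧ ∀ᶠ α in (UU K : Filter K), Ex (Iio α) x' (q α) ∧ Pr α x' (q α) := by
  obtain ⟨Z, z1, z2⟩ := stab0 q
  filter_upwards [z1, ae_cl] with α0 k1 k2 x e
  obtain ⟨x', h1, h2⟩ := exists_pr k2 e
  refine ⟨x', h1, mem_of_superset z1 fun α k => ⟨(z2 α0 k1 α k).1 _ ((h1.exs _).trans e),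
    fun n hn => (h2 n ((z2 α0 k1 α k).2.1 ▸ hn)).trans ((z2 α0 k1 α k).2.2 n hn)⟩⟩

/-- almost every member of a family has an extension below which almost all members are dense -/
theorem compat (q : K → Cond K) : ∀ᶠ α0 in (UU K : Filter K), ∀ x, Ex (Iio α0) x (q α0) →
    ∃ x' ≤ x, ∀ y ≤ x', ∀ᶠ α in (UU K : Filter K), ∃ r ≤ y, r ≤ q α := by
  filter_upwards [stab q] with α0 k x e
  obtain ⟨x', h1, h2⟩ := k x e
  refine ⟨x', h1.le, fun y hy => ?_⟩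
  filter_upwards [h2, ae_supp y] with α k1 k2
  obtain ⟨r1, k3, r', k4, k5⟩ := copy_le k1.1 k1.2 hy
  obtain ⟨r, k6, k7⟩ := le_of_supp k3.le k2 k5.2
  exact ⟨r, k7, k6.trans k4⟩

theorem cc_bounded (S : K → Cond K → Prop) (h1 : ∀ β p q, S β p → q ≤ p → S β q)
    (h2 : ∀ β β' p, S β p → S β' p → β = β') : ∃ δ, ∀ β p, S β p → β < δ := by
  by_contra h
  push Not at h
  choose β p k1 k2 using h
  obtain ⟨α0, k3⟩ := (compat p).exists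
  obtain ⟨x, k4, k5⟩ := k3 _ (Ex.refl _ _)
  obtain ⟨α, ⟨r, k6, k7⟩, k8⟩ := ((k5 x le_rfl).and (Sys.tail (β α0))).exists
  exact absurd (h2 _ _ r (h1 _ _ _ (k1 α0) (k6.trans k4)) (h1 _ _ _ (k1 α) k7))
    (k8.trans_le (k2 α)).ne

end Pool.Agent.Lib.MP_d4b40b_lc
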