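import Pool.Agent.Lib.MP_d4b40b_lc.Ops

set_option autoImplicit false
set_option linter.unusedSectionVars false

namespace Pool.Agent.Lib.MP_d4b40b_lc

open Filter Set Cardinal

variable {K : Type} [LinearOrder K] [WellFoundedLT K] [Sys K] [Ext K]

lemma patchT_tsub {m l : ℕ} {c c' : Stem K → K → Prop} {Φ Φ' Ψ : Tm K} {S : Set K}
    (h : ∀ s, ∀ β ∈ S, c s β ↔ c' s β) (h' : TSub S l Φ Φ') :
    TSub S l (patchT m c Φ Ψ) (patchT m c' Φ' Ψ) := by
  rintro n hn s x k (⟨k1, k2⟩ | ⟨k1, k2⟩)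
  · exact Or.inl ⟨⟨k1.1, (h s _ k).1 k1.2⟩, k2⟩
  · exact Or.inr ⟨fun l => k1 ⟨l.1, (h s _ k).2 l.2⟩, h' n hn s x k k2⟩

/-- copying a direct extension -/
theorem copy_direct {S : Set K} (hS : IsLowerSet S) {r p : Cond K} (h : Ex S r p) :
    ∃ r', DLe r' p ∧ Ex S r' r ∧ Ex S r r' := by
  obtain ⟨u, h1, h2, h3, h4⟩ := exists_patch p r p.len S (fun _ β => β ∈ S) h.len.ge h.len.le hS
    (fun k k1 k2 => absurd (h.len ▸ k1) (not_le.2 k2)) (fun _ _ k => k) (fun _ _ _ _ k => k)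
    (fun n hn => ⟨h.H n hn, fun s x k => ⟨h.C n hn s x k, h.F n hn s x k⟩⟩)
  have l : u.len = p.len := h1.dle.len
  refine ⟨setLow u r.low, setLow_dle h1.dle h.low,
    ⟨l.trans h.len.symm, fun _ _ => le_rfl, fun n hn x hx => ?_,
      fun n hn => (h2 n (h.len ▸ hn)).2.1.le, fun n hn s x k hx => ?_, fun n hn s x k hx => ?_⟩,
    ⟨h.len.trans l.symm, fun _ _ => le_rfl, fun n hn x hx => ?_,
      fun n hn => (h2 n (l ▸ hn)).2.1.ge, fun n hn s x k hx => ?_, fun n hn s x k hx => ?_⟩⟩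
  · exact (h2 n (h.len ▸ hn)).1.ge (Or.inr hx)
  · exact (congrFun (congrFun h3 n) s).ge (Or.inl ⟨⟨h.len ▸ hn, k⟩, hx⟩)
  · exact (congrFun (congrFun h4 n) s).ge (Or.inl ⟨⟨h.len ▸ hn, k⟩, hx⟩)
  · exact ((h2 n (l ▸ hn)).1.le hx.1).elim (fun k => h.b n (l ▸ hn) ⟨k, hx.2⟩) (·.1)
  · exact ((congrFun (congrFun h3 n) s).le hx).elim (·.2) fun k' => absurd ⟨l ▸ hn, k⟩ k'.1
  · exact ((congrFun (congrFun h4 n) s).le hx).elim (·.2) fun k' => absurd ⟨l ▸ hn, k⟩ k'.1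

/-- pulling an extension back into one member of an agreeing family -/
theorem fam_pull {X : Type} {S : Set K} (hS : IsLowerSet S) (q : X → Cond K)
    (hq : ∀ x y, Ex S (q x) (q y)) (x0 : X) {m : ℕ} (h : (q x0).len ≤ m) {t : Stem K}
    {y : Cond K} (hy : DLe y (act (q x0) t m h)) :
    ∃ q' : X → Cond K, (∀ z, Fix m (q' z) (q z)) ∧ (∀ z w, Ex S (q' z) (q' w)) ∧
      (∀ h', DLe (setLow (act (q' x0) t m h') y.low) y) ∧
      ∀ z, z ≠ x0 → ∀ t' h1 h2 y2, Adm (q z) t' m → DLe y2 (act (q z) t' m h1) → Ex S y2 y →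
        DLe y2 (act (q' z) t' m h2) := by
  classical
  have yl : y.len = m := hy.len
  let S' : X → Set K := fun z => {β | z = x0 ∨ β ∈ S}
  have hS' : ∀ z, IsLowerSet (S' z) := fun z a b l k => k.imp id (hS l)
  have hz : ∀ z, Ex (S' z) (q x0) (q z) ∧ Ex (S' z) (q z) (q x0) := fun z => by
    by_cases e : z = x0
    · subst e; exact ⟨Ex.refl _ _, Ex.refl _ _⟩
    · exact ⟨(hq _ _).mono fun β k => k.resolve_left e, (hq _ _).mono fun β k => k.resolve_left e⟩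
  let c : X → Stem K → K → Prop := fun z s β =>
    β ∈ S' z ∧ SAgr (q x0).b (Iic β) (q x0).len m s t
  have hr := fun z => exists_patch (q z) y m (S' z) (c z) (yl ▸ (hz z).1.len ▸ h) yl.le (hS' z)
    (fun k k1 k2 => absurd (yl ▸ k1) (not_le.2 k2)) (fun _ _ k => k.1)
    (fun s s' β e k => ⟨k.1, SAgr.trans (e.symm.mono (hz z).1.len.ge le_rfl fun j j1 _ γ hγ =>
      ⟨(hz z).2.b j j1 ⟨hγ.1, hS' z hγ.2 k.1⟩, hγ.2⟩) k.2⟩)
    (fun n hn => by
      have k0 : (q z).len ≤ n := (hz z).1.len ▸ h.trans hn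
      refine ⟨(hy.ex.H n hn).trans ((hz z).1.H n k0), fun s x k => ?_⟩
      have e : SAgr (q x0).b (Iic x.1) (q x0).len n s (merge m t s) := by
        have := sagr_merge k.2 (SAgr.refl (q x0).b (Iic x.1) m n s)
        rwa [merge_self] at this
      exact ⟨fun l => hy.C hn s ((q x0).hCi n (h.trans hn) _ _ x e ((hz z).1.C n k0 s x k.1 l)),
        fun l => hy.F hn s ((q x0).hFi n (h.trans hn) _ _ x e ((hz z).1.F n k0 s x k.1 l))⟩)
  choose r r1 r2 r3 r4 using hr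
  let A : X → ∀ n, Set (Obj K n) := fun z n => {μ | z = x0 → m ≤ n → μ ∈ y.A n}
  have hA : ∀ z n, (r z).len ≤ n → A z n ∈ EE K n ∧
      ∀ μ ν, Agr ((r z).b n) μ ν → μ ∈ A z n → ν ∈ A z n := by
    intro z n _
    constructor
    · by_cases l : m ≤ n
      · exact mem_of_superset (y.hA n (yl ▸ l)) fun _ k _ _ => k
      · exact mem_of_superset univ_mem fun _ _ _ k => absurd k l
    · intro μ ν e k e1 l
      refine y.hAi n (yl ▸ l) μ ν (e.mono fun β hβ => ?_) (k e1 l)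
      exact (r2 z n l).1.ge (Or.inr ⟨hβ, Or.inl e1⟩)
  have f1 : ∀ z, Fix m (shrink (r z) (A z) (hA z)) (q z) := fun z =>
    Fix.trans ⟨shrink_dle _ _ _, fun _ _ _ => le_rfl, fun k k1 _ => ⟨Subset.rfl,
      fun μ hμ => ⟨hμ, fun _ l => absurd l (not_le.2 k1)⟩, le_rfl, fun _ => Subset.rfl⟩⟩ (r1 z)
  refine ⟨fun z => shrink (r z) (A z) (hA z), f1, fun z w => ?_, fun h' => ?_,
    fun z hne t' h1 h2 y2 a e1 e2 => ?_⟩
  · have lw : (r w).len = (q w).len := (r1 w).dle.len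
    have lm : (q w).len ≤ m := (hz w).1.len ▸ h
    have hc : ∀ s, ∀ β ∈ S, c w s β ↔ c z s β := fun s β hβ =>
      and_congr_left fun _ => iff_of_true (Or.inr hβ) (Or.inr hβ)
    refine ((shrink_dle _ _ _).exs S).trans (Ex.trans ?_ (ex_shrink _ _ _ _))
    refine ⟨(r1 z).dle.len.trans ((hq z w).len.trans lw.symm), fun k hk => ?_, fun n hn => ?_,
      fun n hn => ?_, ?_, ?_⟩
    · have k1 : k < (q w).len := lw ▸ hk
      exact (((r1 z).dle.ex.low k ((hq z w).len ▸ k1)).trans ((hq z w).low k k1)).trans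
        ((r1 w).low k (k1.trans_le lm) k1)
    · have k1 : (q w).len ≤ n := lw ▸ hn
      have k2 : (q w).b n ∩ S ⊆ (r z).b n :=
        ((hq z w).b n k1).trans ((r1 z).dle.b ((hq z w).len ▸ k1))
      rcases lt_or_ge n m with l | l
      · exact (inter_subset_inter_left _ ((r1 w).up n l k1).1).trans k2
      · rintro β ⟨k3, k4⟩
        rcases (r2 w n l).1.le k3 with k5 | k5
        · exact k2 ⟨k5, k4⟩
        · exact (r2 z n l).1.ge (Or.inr ⟨k5.1, Or.inr k4⟩)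
    · have k1 : (q w).len ≤ n := lw ▸ hn
      rcases lt_or_ge n m with l | l
      · exact (((r1 z).dle.ex.H n ((hq z w).len ▸ k1)).trans ((hq z w).H n k1)).trans
          ((r1 w).up n l k1).2.2.1
      · rw [(r2 z n l).2.1, (r2 w n l).2.1]
    · rw [r3, r3, lw]; exact patchT_tsub hc (hq z w).C
    · rw [r4, r4, lw]; exact patchT_tsub hc (hq z w).F
  · refine DLe.mk' yl.symm (fun _ _ => le_rfl) fun n hn => ?_
    have l : m ≤ n := yl ▸ hn
    have hc : ∀ s β, c x0 (merge m t s) β := fun s β =>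
      ⟨Or.inl rfl, sagr_merge_left _ _ _ le_rfl _ _⟩
    have e := fun s => (sagr_merge_self y.b univ yl.ge n t s).symm
    refine ⟨fun β hβ => (r2 x0 n l).1.ge (Or.inr ⟨hβ, Or.inl rfl⟩), fun μ hμ => hμ.2 rfl l,
      (r2 x0 n l).2.1.le, fun s => ⟨fun x hx => ?_, fun x hx => ?_⟩⟩
    · exact (congrFun (congrFun (r3 x0) n) _).ge (Or.inl ⟨⟨l, hc s _⟩, y.hCi.sub hn (e s) hx⟩)
    · exact (congrFun (congrFun (r4 x0) n) _).ge (Or.inl ⟨⟨l, hc s _⟩, y.hFi.sub hn (e s) hx⟩)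
  · refine DLe.mk' e1.len (fun k hk => (e1.ex.low k hk).trans ((f1 z).act_low a h1 h2 hk))
      fun n hn => ?_
    have l : m ≤ n := hn
    have ly : y.len ≤ n := yl ▸ l
    have hb : (r z).b n ⊆ y2.b n := (r2 z n l).1.le.trans (union_subset (e1.b hn)
      fun β hβ => e2.b n ly ⟨hβ.1, hβ.2.resolve_left hne⟩)
    have e := fun s => sagr_merge_self y.b univ yl.ge n t' s
    refine ⟨hb, fun μ hμ => ⟨(r2 z n l).2.2 μ (e1.A n hn hμ)
      ((y2.hAc n (e1.len ▸ hn) μ hμ).mono hb), fun k => absurd k hne⟩,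
      (e2.H n ly).trans (r2 z n l).2.1.ge, fun s => ⟨fun x hx => ?_, fun x hx => ?_⟩⟩
    · rcases (congrFun (congrFun (r3 z) n) _).le hx with k | k
      · exact e2.C n ly s x (k.1.2.1.resolve_left hne) (y.hCi.sub ly (e s) k.2)
      · exact e1.C hn s k.2
    · rcases (congrFun (congrFun (r4 z) n) _).le hx with k | k
      · exact e2.F n ly s x (k.1.2.1.resolve_left hne) (y.hFi.sub ly (e s) k.2)
      · exact e1.F hn s k.2

theorem pull {q y : Cond K} {m : ℕ} (h : q.len ≤ m) {t : Stem K} (hy : DLe y (act q t m h)) :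
    ∃ q', Fix m q' q ∧ ∀ h', DLe (setLow (act q' t m h') y.low) y := by
  obtain ⟨q', h1, -, h2, -⟩ := fam_pull (X := Unit) isLowerSet_empty (fun _ => q)
    (fun _ _ => Ex.refl _ _) () h hy
  exact ⟨q' (), h1 (), h2⟩

lemma stem_rep (b : ℕ → Set K) (l : ℕ) (hb : ∀ n, l ≤ n → #(b n) < kp K n) :
    ∃ r : ∀ k, Obj K k → Obj K k, ∀ k, #(range (r k)) ≤ kp K k ∧
      (l ≤ k → ∀ μ, Agr (b k) μ (r k μ)) := by
  have : ∀ k, ∃ r : Obj K k → Obj K k, #(range r) ≤ kp K k ∧ (l ≤ k → ∀ μ, Agr (b k) μ (r μ)) := by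
    intro k
    by_cases h : l ≤ k
    · exact (obj_rep (hb k h)).imp fun _ k => ⟨k.1, fun _ => k.2⟩
    · exact (obj_rep (n := k) (b := (∅ : Set K)) (by simpa using (inacc_kp k).pos)).imp
        fun _ k => ⟨k.1, fun l => absurd l h⟩
  choose r hr using this
  exact ⟨r, hr⟩

lemma stem_reps (p : Cond K) (m : ℕ) :
    ∃ R : Set (Stem K), #R ≤ pre K m ∧ ∀ t, ∃ t0 ∈ R, SAgr p.b univ p.len m t t0 := by
  obtain ⟨r, hr⟩ := stem_rep p.b p.len p.hb
  refine ⟨_, mk_finseq_le default (fun k => range (r k)) m (pre_inf m)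
    fun k hk => (hr k).1.trans (kp_le_pre hk), fun t =>
    ⟨fun k => if k < m then r k (t k) else default, ⟨fun k hk => ?_, fun k hk => ?_⟩,
      fun k k1 k2 => ?_⟩⟩
  · simp only [if_pos hk]; exact mem_range_self _
  · simp only [if_neg (not_lt.2 hk)]; rfl
  · simp only [if_pos k2]; exact ((hr k).2 k1 _).mono inter_subset_left

lemma seq_reps {T : ℕ → Type} [∀ n, Inhabited (T n)] (hT : ∀ n, #(T n) ≤ kp K n) (m : ℕ) :
    ∃ R : Set (∀ n, T n), #R ≤ pre K m ∧ ∀ d : ∀ n, T n, ∃ d0 ∈ R, ∀ k < m, d0 k = d k := by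
  refine ⟨_, mk_finseq_le default (fun _ => univ) m (pre_inf m)
    fun k hk => by simpa using (hT k).trans (kp_le_pre hk), fun d =>
    ⟨fun k => if k < m then d k else default, ⟨fun k _ => trivial, fun k hk => ?_⟩,
      fun k k2 => if_pos k2⟩⟩
  simp only [if_neg (not_lt.2 hk)]; rfl

lemma Fix.sagr {m : ℕ} {q p : Cond K} (h : Fix m q p) {t t' : Stem K}
    (e : SAgr p.b univ p.len m t t') : SAgr q.b univ q.len m t t' :=
  e.mono h.dle.len.ge le_rfl fun k k1 k2 =>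
    inter_subset_inter_left _ (h.up k k2 (h.dle.len ▸ k1)).1

/-- diagonalizing over all stems and lower parts of length `m` -/
theorem diag (p : Cond K) (m : ℕ) {I : Type} (hI : #I ≤ pre K m) (D : I → Cond K → Prop)
    (hD : ∀ i a b, D i a → DLe b a → D i b) :
    ∃ q, Fix m q p ∧ ∀ i t h y, Adm p t m → DLe y (act q t m h) → D i y →
      D i (setLow (act q t m h) y.low) := by
  obtain ⟨R, r1, r2⟩ := stem_reps p m
  obtain ⟨L, l1, l2⟩ := seq_reps (K := K) mk_Lo m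
  obtain ⟨q, h1, h2⟩ := fix_meet m (T := I × R × L)
    (mk_prod_le' (pre_inf m) hI (mk_prod_le' (pre_inf m) r1 l1))
    (fun τ q => ∀ h y, Adm q τ.2.1.1 m → DLe y (act q τ.2.1.1 m h) →
      (∀ k < m, τ.2.2.1 k = y.low k) → D τ.1 y → D τ.1 (setLow (act q τ.2.1.1 m h) τ.2.2.1)) p
    (fun τ a b g e h y k1 k2 k3 k4 => by
      have h' : a.len ≤ m := e.dle.len ▸ h
      have e' := act_mono e.dle h h' k1
      exact hD _ _ _ (g h' y (k1.dle e.dle) (k2.trans e') k3 k4)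
        (setLow_mono e' fun _ _ => le_rfl))
    (fun τ q _ => by
      by_cases hx : ∃ h y, DLe y (act q τ.2.1.1 m h) ∧ (∀ k < m, τ.2.2.1 k = y.low k) ∧ D τ.1 y
      · obtain ⟨h, y, k2, k3, k4⟩ := hx
        obtain ⟨q', k5, k6⟩ := pull h k2
        exact ⟨q', k5, fun h' _ _ _ _ _ => hD _ _ _ k4
          ((setLow_mono (DLe.refl _) fun k hk => (k3 k hk).le).trans (k6 h'))⟩
      · exact ⟨q, Fix.refl _ _, fun h y _ k2 k3 k4 => absurd ⟨h, y, k2, k3, k4⟩ hx⟩)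
  refine ⟨q, h1, fun i t h y a e d => ?_⟩
  obtain ⟨t0, k1, k2⟩ := r2 t
  obtain ⟨d0, k3, k4⟩ := l2 y.low
  have k5 := h1.sagr k2
  have a' := h1.adm a
  exact hD _ _ _ (h2 (i, ⟨t0, k1⟩, ⟨d0, k3⟩) h y (a'.agr k5) (e.trans (act_agr h a' k5)) k4 d)
    (setLow_mono (act_agr h a' k5) fun k hk => (k4 k hk).ge)

end Pool.Agent.Lib.MP_d4b40b_lc
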