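import Pool.Agent.Lib.MP_d4b40b_lc.Split

set_option autoImplicit false
set_option linter.unusedSectionVars false

namespace Pool.Agent.Lib.MP_d4b40b_lc

open Filter Set Cardinal

variable {K : Type} [LinearOrder K] [WellFoundedLT K] [Sys K] [Ext K]

/-- a name for a tree: `N z p` says that `p` puts `z` into the tree, `D z w p` that `p` puts `z`
below `w` -/
structure TS {Z : Type} (lv : Z → K) (N : Z → Cond K → Prop) (D : Z → Z → Cond K → Prop) :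
    Prop where
  Nm : ∀ z a b, N z a → b ≤ a → N z b
  Dm : ∀ z w a b, D z w a → b ≤ a → D z w b
  small : ∀ δ, #{z | lv z = δ ∧ ∃ p, N z p} < #K
  pred : ∀ w p δ, N w p → δ < lv w → ∃ q ≤ p, ∃ z, lv z = δ ∧ D z w q
  uniq : ∀ z z' w p, D z w p → D z' w p → lv z = lv z' → z = z'
  lin : ∀ z z' w p, D z w p → D z' w p → lv z < lv z' → D z z' p
  tr : ∀ z z' w p, D z z' p → D z' w p → D z w p
  DN : ∀ z w p, D z w p → N z p ∧ N w p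

variable {Z : Type} {lv : Z → K} {N : Z → Cond K → Prop} {D : Z → Z → Cond K → Prop}

lemma ae_choose {A B : Type} [Nonempty B] {l : Filter A} {Q : A → B → Prop}
    (h : ∀ᶠ a in l, ∃ b, Q a b) : ∃ f : A → B, ∀ᶠ a in l, Q a (f a) :=
  ⟨fun a => Classical.epsilon (Q a), h.mono fun _ k => Classical.epsilon_spec k⟩

lemma TS.node0 (T : TS lv N D) {δ : K} {Q : K → Z → Prop}
    (h : ∀ᶠ α in (UU K : Filter K), ∃ z, lv z = δ ∧ (∃ p, N z p) ∧ Q α z) :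
    ∃ z, lv z = δ ∧ ∀ᶠ α in (UU K : Filter K), Q α z := by
  obtain ⟨z, h1, h2⟩ := ae_ex (UU K) _ (T.small δ) (Q := Q)
    (h.mono fun _ ⟨z, k1, k2, k3⟩ => ⟨z, ⟨k1, k2⟩, k3⟩)
  exact ⟨z, h1.1, h2⟩

lemma TS.node (T : TS lv N D) {Q : K → Z → Prop}
    (h : ∀ᶠ α in (UU K : Filter K), ∃ z, lv z < α ∧ (∃ p, N z p) ∧ Q α z) :
    ∃ z, ∀ᶠ α in (UU K : Filter K), Q α z := by
  obtain ⟨δ, h1⟩ := ae_press (Q := fun α δ => ∃ z, lv z = δ ∧ (∃ p, N z p) ∧ Q α z)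
    (h.mono fun _ ⟨z, k1, k2⟩ => ⟨_, k1, z, rfl, k2⟩)
  exact (T.node0 h1).imp fun _ k => k.2

variable (lv D) in
/-- the tree below `α` is decided by the part of the forcing below `α` -/
def Cap (α : K) : Prop := ∀ z z', lv z < α → lv z' < α → ∀ r r', D z z' r → Ex (Iio α) r' r →
  ∃ r'' ≤ r', D z z' r''

lemma TS.ae_cap (T : TS lv N D) : ∀ᶠ α in (UU K : Filter K), Cap lv D α := by
  by_contra h
  have h0 := Ultrafilter.eventually_not.2 h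
  obtain ⟨z, h1⟩ := T.node (Q := fun α z => ∃ z', lv z' < α ∧ (∃ p, N z' p) ∧
      ∃ r : Cond K × Cond K, D z z' r.1 ∧ Ex (Iio α) r.2 r.1 ∧ ∀ r'' ≤ r.2, ¬ D z z' r'') (by
    filter_upwards [h0] with α k
    simp only [Cap, not_forall, not_exists, not_and] at k
    obtain ⟨z, z', k1, k2, r, r', k3, k4, k5⟩ := k
    exact ⟨z, k1, ⟨r, (T.DN _ _ _ k3).1⟩, z', k2, ⟨r, (T.DN _ _ _ k3).2⟩, (r, r'), k3, k4, k5⟩)
  obtain ⟨z', h2⟩ := T.node h1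
  obtain ⟨r, h3⟩ := ae_choose h2
  obtain ⟨α0, k1, -, k2, k3⟩ := ((compat fun α => (r α).1).and h3).exists
  obtain ⟨x, k4, k5⟩ := k1 _ k2
  obtain ⟨α, ⟨s, k6, k7⟩, k8, -⟩ := ((k5 x le_rfl).and h3).exists
  exact k3 s (k6.trans k4) (T.Dm _ _ _ _ k8 k7)

variable (lv D) in
/-- the two conditions put different nodes of level `δ` below `w` -/
def Sep (α : K) (w : Z) (δ : K) (q q' : Cond K) : Prop :=
  ∀ r ≤ q, ∀ r' ≤ q', Agree α r r' → ∀ z, lv z = δ → D z w r → ¬ D z w r'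

lemma Sep.mono {α δ : K} {w : Z} {a b a' b' : Cond K} (h : Sep lv D α w δ a b) (h1 : a' ≤ a)
    (h2 : b' ≤ b) : Sep lv D α w δ a' b' :=
  fun r k1 r' k2 => h r (k1.trans h1) r' (k2.trans h2)

lemma TS.sep_up (T : TS lv N D) {α δ δ' : K} {w : Z} {a b : Cond K} (h1 : Cl α) (h2 : Cap lv D α)
    (h3 : lv w = α) (h : Sep lv D α w δ a b) (h4 : δ < δ') (h5 : δ' < α) :
    Sep lv D α w δ' a b := by
  intro r k1 r' k2 e z' k3 k4 k5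
  obtain ⟨r1, l1, r1', l2, l3, z, l4, l5⟩ := ext_agree h1 e.1 (G := fun y => ∃ z, lv z = δ ∧ D z w y)
    (fun _ _ ⟨z, g1, g2⟩ e => ⟨z, g1, T.Dm _ _ _ _ g2 e⟩)
    fun x hx => T.pred w x δ (T.Nm _ _ _ (T.DN _ _ _ k4).2 hx) (h3 ▸ h4.trans h5)
  have l6 := T.lin _ _ _ _ l5 (T.Dm _ _ _ _ k4 l1) (l4 ▸ k3 ▸ h4)
  obtain ⟨p1, n1, n2⟩ := copy h1 l3.2
  obtain ⟨r2', n3, r2, n4, n5, n6⟩ := ext_agree h1 ((n1.exs _).trans l3.2) (G := D z z')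
    (T.Dm _ _) fun x hx => by
      obtain ⟨x1, j1, x', j2, j3⟩ := n2 x hx
      obtain ⟨y, j4, j5⟩ := h2 z z' (l4 ▸ h4.trans h5) (k3 ▸ h5) x' x1 (T.Dm _ _ _ _ l6 j2) j3.1
      exact ⟨y, j4.trans j1, j5⟩
  have n7 := (n3.trans n1.le).trans l2
  exact h r2 ((n4.trans l1).trans k1) r2' (n7.trans k2) n5.symm z l4 (T.Dm _ _ _ _ l5 n4)
    (T.tr _ _ _ _ n6 (T.Dm _ _ _ _ k5 n7))

variable (lv D) in
/-- the branch below `w` does not split below `q` -/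
def NS (α : K) (w : Z) (q : Cond K) : Prop :=
  ∀ r ≤ q, ∀ r' ≤ q, Agree α r r' → ∀ z z', lv z < α → lv z = lv z' → D z w r → D z' w r' → z = z'

variable (lv N D) in
/-- the branch below `w` splits densely below `q` -/
structure Spl (α : K) (w : Z) (q : Cond K) : Prop where
  cl : Cl α
  cf : Cf α
  cap : Cap lv D α
  lw : lv w = α
  nw : N w q
  sp : ∀ r ≤ q, ¬ NS lv D α w r

section

variable (T : TS lv N D) {α : K} {w : Z} {q0 : Cond K} (S : Spl lv N D α w q0)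

include T S

lemma sep_of_ne {a b : Cond K} {z z' : Z} (h1 : D z w a) (h2 : D z' w b) (h3 : lv z = lv z')
    (h4 : z ≠ z') : Sep lv D α w (lv z) a b := fun _ k1 _ k2 _ _ k3 k4 k5 =>
  h4 ((T.uniq _ _ _ _ (T.Dm _ _ _ _ h1 k1) k4 k3.symm).trans
    (T.uniq _ _ _ _ k5 (T.Dm _ _ _ _ h2 k2) (k3.trans h3)))

lemma sep_dense {a b : Cond K} (ha : a ≤ q0) (hb : b ≤ q0) (e : Agree α a b) :
    ∃ a' ≤ a, ∃ b' ≤ b, Agree α a' b' ∧ ∃ δ < α, Sep lv D α w δ a' b' := by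
  obtain ⟨a1, h1, h2⟩ := copy S.cl e.1
  have h3 := S.sp a1 (h1.le.trans ha)
  simp only [NS, not_forall] at h3
  obtain ⟨r, k1, r', k2, k3, z, z', k4, k5, k6, k7, k8⟩ := h3
  obtain ⟨r1, l1, l2⟩ := exists_pr S.cl k3.1
  obtain ⟨r2, l3, b2, l4, l5⟩ := h2 r1 (l1.le.trans k1)
  obtain ⟨b5, l6, r5, l7, l8, y, l9, l10⟩ := ext_agree S.cl l5.2
    (G := fun x => ∃ y, lv y = lv z ∧ D y w x)
    (fun _ _ ⟨z, g1, g2⟩ e => ⟨z, g1, T.Dm _ _ _ _ g2 e⟩)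
    fun x hx => T.pred w x _ (T.Nm _ _ _ S.nw ((hx.trans l4).trans hb)) (S.lw ▸ k4)
  have l11 := l7.trans l3
  by_cases hy : z = y
  · obtain ⟨r6, n1, r6', n2, n3⟩ := copy_le ((l1.exs _).trans k3.1) l2 l11
    obtain ⟨b6, n4, n5⟩ := copy0 ((n1.exs _).trans l8.2)
    exact ⟨r6', (n2.trans k2).trans h1.le, b6, (n4.le.trans l6).trans l4, (n5.trans n3).symm, _,
      k5 ▸ k4, sep_of_ne T S (T.Dm _ _ _ _ k7 n2) (T.Dm _ _ _ _ l10 n4.le)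
        (k5.symm.trans l9.symm) (hy ▸ Ne.symm k8)⟩
  · exact ⟨r5, ((l11.trans l1.le).trans k1).trans h1.le, b5, l6.trans l4, l8.symm, _, k4,
      sep_of_ne T S (T.Dm _ _ _ _ k6 (l11.trans l1.le)) l10 l9.symm hy⟩

lemma sep_bound {I : Type} {W : Set I} (hW : #W ≤ ks K) {Q : I → Cond K → Cond K → Prop}
    (h : ∀ i ∈ W, ∃ δ < α, ∀ a b, Q i a b → Sep lv D α w δ a b) :
    ∃ δ < α, ∀ i ∈ W, ∀ a b, Q i a b → Sep lv D α w δ a b := by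
  have : Nonempty K := ⟨α⟩
  choose! d d1 d2 using h
  obtain ⟨δ, h1, h2⟩ := S.cf (d '' W) (by rintro _ ⟨i, k, rfl⟩; exact d1 i k)
    (mk_image_le.trans hW)
  exact ⟨δ, h1, fun i k a b l =>
    T.sep_up S.cl S.cap S.lw (d2 i k a b l) (h2 (mem_image_of_mem d k)) h1⟩

lemma sep_fam {X : Type} (m0 : ℕ) (hX : #X ≤ pre K m0) (p : X → Cond K)
    (hp : ∀ x y, Ex (Iio α) (p x) (p y)) (h0 : ∀ x, p x ≤ q0) :
    ∃ q : X → Cond K, (∀ x y, Ex (Iio α) (q x) (q y)) ∧ (∀ x, Fix m0 (q x) (p x)) ∧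
      ∃ δ < α, ∀ x y, x ≠ y → Sep lv D α w δ (q x) (q y) := by
  obtain ⟨q, h1, h2, h3⟩ := fam_meet m0 (T := Ici m0) ((mk_set_le _).trans (by simpa using pre_inf m0))
    (fun m f => ∃ δ < α, ∀ a b, (∃ x y, x ≠ y ∧ a ≤ f x ∧ b ≤ f y ∧ a.len = m ∧ Agree α a b ∧
      ∃ δ < α, Sep lv D α w δ a b) → Sep lv D α w δ a b) p hp
    (fun m f g ⟨δ, k1, k2⟩ e => ⟨δ, k1, fun a b ⟨x, y, l1, l2, l3, l4⟩ =>
      k2 a b ⟨x, y, l1, l2.trans (e x).dle.le, l3.trans (e y).dle.le, l4⟩⟩)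
    (fun m f hf _ => by
      obtain ⟨g, k1, k2, W, k3, k4, k5⟩ := fam_diag (isLowerSet_Iio α) m
        (hX.trans (pre_mono m.2)) f hf (Q := fun a b => ∃ δ < α, Sep lv D α w δ a b)
        fun _ _ _ _ ⟨δ, l1, l2⟩ l3 l4 => ⟨δ, l1, l2.mono l3 l4⟩
      obtain ⟨δ, k6, k7⟩ := sep_bound T S (k3.trans (pre_le_ks _))
        (Q := fun u a b => a ≤ u.1 ∧ b ≤ u.2) fun u hu =>
          (k4 u hu).imp fun δ l => ⟨l.1, fun a b l' => l.2.mono l'.1 l'.2⟩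
      refine ⟨g, k1, fun x => (k2 x).mono m.2, δ, k6, fun a b ⟨x, y, l1, l2, l3, l4, l5, l6⟩ => ?_⟩
      obtain ⟨u, l7, l8⟩ := k5 x y l1 a l2 b l3 l4 l5.1 l5.2 l6
      exact k7 u l7 a b l8)
  obtain ⟨δ, h4, h5⟩ := sep_bound T S (W := (univ : Set (Ici m0)))
    ((mk_set_le _).trans ((mk_set_le _).trans (by simpa using ks_inf))) fun m _ => h3 m
  refine ⟨q, h1, h2, δ, h4, fun x y hne r k1 r' k2 e z k3 k4 k5 => ?_⟩
  obtain ⟨r1, l1, r1', l2, l3, l4⟩ := ext_agree S.cl e.1 (G := fun y => m0 ≤ y.len)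
    (fun _ _ g e => g.trans (len_le e)) fun x _ => exists_long x m0
  obtain ⟨a, l5, b, l6, l7, l8⟩ := sep_dense T S (((l1.trans k1).trans (h2 x).dle.le).trans (h0 x))
    (((l2.trans k2).trans (h2 y).dle.le).trans (h0 y)) l3
  exact h5 ⟨a.len, l4.trans (len_le l5)⟩ trivial a b
    ⟨x, y, hne, (l5.trans l1).trans k1, (l6.trans l2).trans k2, rfl, l7, l8⟩ a le_rfl b le_rfl l7 z k3
    (T.Dm _ _ _ _ k4 (l5.trans l1)) (T.Dm _ _ _ _ k5 (l6.trans l2))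

lemma sep_tree : ∃ g : ℕ → (∀ k, Lt K (kp K k)) → Cond K, ∀ n,
    ((∀ x y, (∀ k < n, x k = y k) → g n x = g n y) ∧ (∀ x y, Ex (Iio α) (g n x) (g n y)) ∧
      (∀ x, Fix q0.len (g n x) q0) ∧
      ∃ δ < α, ∀ x y, (∃ k < n, x k ≠ y k) → Sep lv D α w δ (g n x) (g n y)) ∧
    ∀ x, Fix (n + 1) (g (n + 1) x) (g n x) := by
  have x0 : ∀ k, Lt K (kp K k) := fun k => ⟨_, (default : Obj K k).mem_Lt α⟩
  refine exists_seq (fun n (f : (∀ k, Lt K (kp K k)) → Cond K) =>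
    (∀ x y, (∀ k < n, x k = y k) → f x = f y) ∧ (∀ x y, Ex (Iio α) (f x) (f y)) ∧
      (∀ x, Fix q0.len (f x) q0) ∧
      ∃ δ < α, ∀ x y, (∃ k < n, x k ≠ y k) → Sep lv D α w δ (f x) (f y))
    (fun n f f' => ∀ x, Fix (n + 1) (f' x) (f x)) ?_ (fun _ => q0)
    ⟨fun _ _ _ => rfl, fun _ _ => Ex.refl _ _, fun _ => Fix.refl _ _, ?_⟩
  · rintro n f ⟨h1, h2, h3, -⟩
    let e : (∀ k : Fin (n + 1), Lt K (kp K k)) → ∀ k, Lt K (kp K k) := fun x k =>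
      if h : k < n + 1 then x ⟨k, h⟩ else x0 k
    obtain ⟨q, k1, k2, δ, k3, k4⟩ := sep_fam T S (X := ∀ k : Fin (n + 1), Lt K (kp K k))
      (max (n + 1) q0.len) (by
        rw [mk_pi]
        refine (Cardinal.prod_le_prod _ (fun _ => pre K (max (n + 1) q0.len))
          fun k : Fin (n + 1) => (mk_Lt_le _).trans (kp_le_pre (lt_max_of_lt_left k.2))).trans ?_
        simp only [prod_const, lift_id, mk_fintype, Fintype.card_fin]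
        exact power_nat_le (pre_inf _)) (fun x => f (e x)) (fun _ _ => h2 _ _)
      fun x => (h3 _).dle.le
    have k5 : ∀ x : ∀ k, Lt K (kp K k), f (e fun k => x k) = f x := fun x => h1 _ _ fun k hk =>
      dif_pos (hk.trans (Nat.lt_succ_self n))
    refine ⟨fun x => q fun k => x k, ⟨fun x y h => congrArg q (funext fun k => h k k.2),
      fun _ _ => k1 _ _, fun x => ((k2 _).mono (le_max_right _ _)).trans (h3 _), δ, k3,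
      fun x y ⟨k, l1, l2⟩ => k4 _ _ fun l => l2 (congrFun l ⟨k, l1⟩)⟩, fun x => ?_⟩
    exact k5 x ▸ (k2 _).mono (le_max_left _ _)
  · exact (S.cf ∅ (empty_subset _) (by simp)).imp fun δ k =>
      ⟨k.1, fun _ _ ⟨_, l, _⟩ => absurd l (Nat.not_lt_zero _)⟩

omit T S in
lemma act_merge {r p : Cond K} (h : r ≤ p) {t : Stem K} {m : ℕ} (hm : r.len ≤ m) (a : Adm r t m) :
    ∃ s, Adm p s m ∧ s r.len = t r.len ∧ act r t m hm ≤ act p s m ((len_le h).trans hm) := by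
  obtain ⟨h, t0, a0, e⟩ := h
  exact ⟨merge r.len t0 t, adm_merge a0 (a.dle e), merge_ge le_rfl _ _,
    ((act_mono e hm hm a).trans (act_act p t0 t h hm).1).le⟩

lemma sep_many : ∃ δ < α, ∃ P : K → Cond K, ∀ γ < α, P γ ≤ q0 ∧
    ∀ γ' < α, γ < γ' → Sep lv D α w δ (P γ) (P γ') := by
  obtain ⟨g, hg⟩ := sep_tree T S
  obtain ⟨δ, h1, h2⟩ := sep_bound T S (W := (univ : Set ℕ)) (by simpa using ks_inf)
    (Q := fun n a b => ∃ x y, (∃ k < n, x k ≠ y k) ∧ a ≤ g n x ∧ b ≤ g n y) fun n _ =>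
      (hg n).1.2.2.2.imp fun δ k => ⟨k.1, fun a b ⟨x, y, l1, l2, l3⟩ => (k.2 x y l1).mono l2 l3⟩
  choose! P p1 p2 p3 p4 using fun γ (hγ : γ < α) => glue hγ g (fun n => (hg n).1.1)
    (fun n => (hg n).1.2.1) (fun n => (hg n).1.2.2.1) fun n => (hg n).2
  refine ⟨δ, h1, P, fun γ hγ => ⟨p1 γ hγ, fun γ' hγ' l r k1 r' k2 e z k3 k4 k5 => ?_⟩⟩
  obtain ⟨r2, l1, l2⟩ := exists_pr S.cl e.1
  obtain ⟨t, ht⟩ := exists_adm r2
  have l3 : r2.len ≤ r2.len + 1 := Nat.le_succ _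
  have l0 : r'.len = r2.len := (l1.len.trans e.1.len).symm
  obtain ⟨t', l4, a', l5, -, x1, l6, l7⟩ := copy_act ((l1.exs _).trans e.1) l2 (ht (r2.len + 1))
    (DLe.refl (act r2 t _ l3)) (fun _ => ∅) fun _ => by simp
  obtain ⟨y1, l8, l9⟩ := copy0 l7
  obtain ⟨s, n1, n2, n3⟩ := act_merge (l1.le.trans k1) l3 (ht _)
  obtain ⟨s', n4, n5, n6⟩ := act_merge k2 l4 a'
  obtain ⟨x, n7, n8⟩ := p4 γ hγ s _ _ n1
  obtain ⟨y, n9, n10⟩ := p4 γ' hγ' s' _ _ n4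
  have b0 : ∀ {r p : Cond K}, r ≤ p → p.b r.len ⊆ r.b r.len := fun ⟨_, _, _, e⟩ => e.b le_rfl
  have b1 : γ ∈ r2.b r2.len := b0 (l1.le.trans k1) (p3 γ hγ _)
  have b2 : γ' ∈ r'.b r2.len := l0 ▸ b0 k2 (p3 γ' hγ' _)
  have b3 : γ' ∈ r2.b r2.len := ((l1.exs _).trans e.1).b _ l0.le ⟨b2, hγ'⟩
  have b4 : q0.len ≤ r2.len := len_le ((l1.le.trans k1).trans (p1 γ hγ))
  have x2 := l6.le.trans (act_le _ (ht _))
  refine h2 (r2.len + 1) trivial x1 y1 ⟨x, y, ⟨r2.len, Nat.lt_succ_self _, fun k => ?_⟩,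
    (l6.le.trans n3).trans n8, (l8.le.trans n6).trans n10⟩ x1 le_rfl y1 le_rfl l9.symm z k3
    (T.Dm _ _ _ _ k4 (x2.trans l1.le)) (T.Dm _ _ _ _ k5 (l8.le.trans (act_le _ a')))
  have n5' : s' r2.len = t' r2.len := l0 ▸ n5
  have := (r2.hAc _ le_rfl _ (ht _ _ le_rfl (Nat.lt_succ_self _))).1 b1 b3 l
  rw [(l5 _ l0.le (Nat.lt_succ_self _)).2 γ' ⟨b2, hγ'⟩, ← n2, ← n5', ← n7 _ b4, ← n9 _ b4, k] at this
  exact lt_irrefl _ this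

end

theorem TS.not_spl (T : TS lv N D) (w : K → Z) (q : K → Cond K) :
    ¬ ∀ᶠ α in (UU K : Filter K), Spl lv N D α (w α) (q α) := by
  intro h
  obtain ⟨δ, h1⟩ := ae_press (h.mono fun α S => sep_many T S)
  obtain ⟨P, h2⟩ := ae_choose h1
  have h3 : ∀ γ, ∃ z, lv z = δ ∧ (∃ p, N z p) ∧ ∃ r : K → Cond K, ∀ᶠ α in (UU K : Filter K),
      r α ≤ P α γ ∧ D z (w α) (r α) := by
    intro γ
    obtain ⟨z, k1, k2⟩ := T.node0 (δ := δ) (Q := fun α z => ∃ r ≤ P α γ, D z (w α) r) (by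
      filter_upwards [h, h2, Sys.tail γ, Sys.tail δ] with α k1 k2 k3 k4
      obtain ⟨r, k5, z, k6, k7⟩ := T.pred (w α) (P α γ) δ (T.Nm _ _ _ k1.nw (k2 γ k3).1)
        (k4.trans_eq k1.lw.symm)
      exact ⟨z, k6, ⟨r, (T.DN _ _ _ k7).1⟩, r, k5, k7⟩)
    obtain ⟨α, r, -, k3⟩ := k2.exists
    exact ⟨z, k1, ⟨r, (T.DN _ _ _ k3).1⟩, ae_choose k2⟩
  obtain ⟨z, h4, h5⟩ := T.node0 (Eventually.of_forall h3)
  obtain ⟨r, h6⟩ := ae_choose h5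
  choose Y y1 y2 using fun γ => stab0 (r γ)
  choose a ha using fun γ => Ultrafilter.nonempty_of_mem (y1 γ)
  obtain ⟨X, x1, x2⟩ := stab0 fun γ => r γ (a γ)
  obtain ⟨γ, k1, k2⟩ := (h6.and x1).exists
  obtain ⟨γ', k3, k4, k5, k6⟩ :=
    (h6.and (Eventually.and x1 ((ae_supp (r γ (a γ))).and (Sys.tail γ)))).exists
  obtain ⟨u, k7, k8⟩ := copy0 ((x2 γ k2 γ' k4).1 _ (Ex.refl _ _))
  obtain ⟨α, l1, l2, l3, l4, l5, l6⟩ := (k1.and (k3.and (Eventually.and (y1 γ)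
    (Eventually.and (y1 γ') (h2.and (Sys.tail γ')))))).exists
  obtain ⟨r1, n1, n2⟩ := copy0 ((y2 γ _ (ha γ) α l3).1 u ((k8.1.univ k5).mono (subset_univ _)))
  obtain ⟨r1', n3, n4⟩ := copy0 ((y2 γ' _ (ha γ') α l4).1 u (k7.exs _))
  exact (l5 γ (k6.trans l6)).2 γ' l6 k6 r1 (n1.le.trans l1.1) r1' (n3.le.trans l2.1)
    (n2.trans n4.symm) z h4 (T.Dm _ _ _ _ l1.2 n1.le) (T.Dm _ _ _ _ l2.2 n3.le)

/-- the tree has a cofinal branch -/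
theorem TS.branch (T : TS lv N D) (p : Cond K) (hex : ∀ δ, ∃ q ≤ p, ∃ z, lv z = δ ∧ N z q) :
    ∃ r ≤ p, ∃ B : Z → Cond K → Prop, (∀ z a b, B z a → b ≤ a → B z b) ∧ (∀ z e, B z e → N z e) ∧
      (∀ δ, ∀ e ≤ r, ∃ e' ≤ e, ∃ z, lv z = δ ∧ B z e') ∧
      ∀ z z' e, B z e → B z' e → lv z ≤ lv z' → z = z' ∨ ∃ e' ≤ e, D z z' e' := by
  choose q0 h1 w h2 h3 using hex
  have h4 : ∀ᶠ α in (UU K : Filter K), ∃ q ≤ q0 α, NS lv D α (w α) q := by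
    filter_upwards [Ultrafilter.eventually_not.2 (T.not_spl w q0), ae_cl, ae_cf, T.ae_cap]
      with α k1 k2 k3 k4
    by_contra k5
    exact k1 ⟨k2, k3, k4, h2 α, h3 α, fun r l1 l2 => k5 ⟨r, l1, l2⟩⟩
  obtain ⟨q, h5⟩ := ae_choose h4
  obtain ⟨α0, k1, k2, -⟩ := ((compat q).and h5).exists
  obtain ⟨r, k3, k4⟩ := k1 _ (Ex.refl _ _)
  refine ⟨r, (k3.trans k2).trans (h1 _), fun z e => N z e ∧ ∀ e' ≤ e, ∀ᶠ α in (UU K : Filter K),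
    ∃ s ≤ q α, s ≤ e' ∧ D z (w α) s, fun z a b k l => ⟨T.Nm _ _ _ k.1 l, fun e' l' =>
      k.2 e' (l'.trans l)⟩, fun _ _ k => k.1, fun δ e he => ?_, fun z z' e b b' l => ?_⟩
  · obtain ⟨z, l1, l2⟩ := T.node0 (δ := δ) (Q := fun α z => ∃ s ≤ q α, s ≤ e ∧ D z (w α) s) (by
      filter_upwards [k4 e he, h5, Sys.tail δ] with α ⟨s, l1, l2⟩ l3 l4
      obtain ⟨s', l5, z, l6, l7⟩ := T.pred (w α) s δ (T.Nm _ _ _ (h3 α) (l2.trans l3.1))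
        ((h2 α).symm ▸ l4)
      exact ⟨z, l6, ⟨s', (T.DN _ _ _ l7).1⟩, s', l5.trans l2, l5.trans l1, l7⟩)
    obtain ⟨s, l3⟩ := ae_choose l2
    obtain ⟨α1, l4, -, l5, l6⟩ := ((compat s).and l3).exists
    obtain ⟨x, l7, l8⟩ := l4 _ (Ex.refl _ _)
    refine ⟨x, l7.trans l5, z, l1, T.Nm _ _ _ (T.DN _ _ _ l6).1 l7, fun e' l9 => ?_⟩
    filter_upwards [l8 e' l9, l3] with α ⟨y, n1, n2⟩ n3
    exact ⟨y, n2.trans n3.1, n1, T.Dm _ _ _ _ n3.2.2 n2⟩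
  · obtain ⟨s, l3⟩ := ae_choose (b.2 e le_rfl)
    obtain ⟨α1, l4, -, l5, -⟩ := ((stab s).and l3).exists
    obtain ⟨x, l7, l8⟩ := l4 _ (Ex.refl _ _)
    obtain ⟨α, ⟨n1, n2⟩, ⟨s', n3, n4, n5⟩, n6, n7, n8, n9⟩ := (l8.and ((b'.2 x (l7.le.trans l5)).and
      (l3.and (h5.and (ae_cl.and (Sys.tail (lv z'))))))).exists
    obtain ⟨r1, j1, r', j2, j3⟩ := copy_le n1 n2 n4
    have j4 := T.Dm _ _ _ _ n5 j1.le
    have j5 := T.Dm _ _ _ _ n6.2.2 j2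
    rcases l.eq_or_lt with l | l
    · exact Or.inl (n7.2 r1 (j1.le.trans n3) r' (j2.trans n6.1) j3 z' z n9 l.symm j4 j5).symm
    · obtain ⟨r2, j6, r2', j7, j8, y, j9, j10⟩ := ext_agree n8 j3.1
        (G := fun x => ∃ y, lv y = lv z ∧ D y (w α) x)
        (fun _ _ ⟨z, g1, g2⟩ e => ⟨z, g1, T.Dm _ _ _ _ g2 e⟩)
        fun x hx => T.pred _ x _ (T.Nm _ _ _ (T.DN _ _ _ j4).2 hx) ((h2 α).symm ▸ l.trans n9)
      obtain rfl := n7.2 r2 ((j6.trans j1.le).trans n3) r2' ((j7.trans j2).trans n6.1) j8 y z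
        (j9 ▸ l.trans n9) j9 j10 (T.Dm _ _ _ _ j5 j7)
      exact Or.inr ⟨r2, (((j6.trans j1.le).trans n4).trans l7.le).trans l5,
        T.lin _ _ _ _ j10 (T.Dm _ _ _ _ j4 j6) l⟩

end Pool.Agent.Lib.MP_d4b40b_lc
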