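import Pool.Agent.Lib.MP_d4b40b_lc.UModel
import Pool.Agent.Lib.MP_d4b40b_lc.TModel

set_option autoImplicit false

namespace Pool.Agent.Lib.MP_d4b40b_lc

open Pool.Agent.Lib.helper81 Pool.Agent.Lib.MP_fcebdf_lc Set Cardinal Filter

theorem exists_sys (K : Type) (U : Ultrafilter K) (hU : ∀ x, {x} ∉ U)
    (hc : CardinalInterFilter (U : Filter K) #K) (κ : ℕ → Cardinal.{0}) (h0 : ℵ₀ < κ 0)
    (h1 : StrictMono κ) (h2 : ∀ n, κ n < #K) :
    ∃ (_ : LinearOrder K) (_ : WellFoundedLT K) (S : Sys K), S.κ = κ := by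
  obtain ⟨_, _, hord⟩ := exists_ord_eq_type_lt K
  have hK := h0.trans (h2 0)
  have hcc : CountableInterFilter (U : Filter K) :=
    CardinalInterFilter.toCountableInterFilter _ hK
  have hne : ∀ x, ∀ᶠ β in (U : Filter K), β ≠ x := fun x =>
    Ultrafilter.eventually_not.2 (hU x)
  have htail : ∀ α, ∀ᶠ β in (U : Filter K), α < β := fun α =>
    (ae_notMem U _ hne (mk_Iic_lt hK.le (mk_Iio_lt α hord))).mono fun _ k => not_le.1 k
  have hwf : WellFounded (fun f g : K → K => ∀ᶠ β in (U : Filter K), f β < g β) := by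
    rw [wellFounded_iff_isEmpty_descending_chain]
    refine ⟨fun ⟨f, hf⟩ => ?_⟩
    obtain ⟨β, hβ⟩ := (eventually_countable_forall.2 hf).exists
    exact (wellFounded_iff_isEmpty_descending_chain.1 (wellFounded_lt (α := K))).false
      ⟨fun n => f n β, hβ⟩
  obtain ⟨f, hf, hmin⟩ := hwf.has_min {f | ∀ α, ∀ᶠ β in (U : Filter K), α < f β} ⟨id, htail⟩
  refine ⟨_, inferInstance, ⟨κ, U.map f, h1, h0, h2, fun β => mk_Iio_lt β hord,
    by rw [Ultrafilter.coe_map]; infer_instance, hf, fun g hg => ?_⟩, rfl⟩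
  have h1 : ¬ ∀ α, ∀ᶠ β in (U : Filter K), α < g (f β) := fun h => hmin (g ∘ f) h hg
  obtain ⟨α, hα⟩ := not_forall.1 h1
  obtain ⟨δ, -, k⟩ := ae_cst U _ (mk_Iic_lt hK.le (mk_Iio_lt α hord)) (f := g ∘ f)
    ((Ultrafilter.eventually_not.2 hα).mono fun _ k => not_lt.1 k)
  exact ⟨δ, k⟩

theorem main (K : Type) (U : Ultrafilter K) (hU : ∀ x, {x} ∉ U)
    (hc : CardinalInterFilter (U : Filter K) #K) (κ : ℕ → Cardinal.{0}) (h0 : ℵ₀ < κ 0)
    (h1 : StrictMono κ) (h2 : ∀ n, κ n < #K) (h3 : ∀ n, ∃ W : Ultrafilter (Set K), SC (κ n) W) :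
    ∃ (M : Type) (E : M → M → Prop), IsZF E ∧ Choice E ∧ WellFounded E ∧
      ∃ (a : ℕ → M) (k k1 k2 : M), Omega E (a 0) ∧ (∀ n, Next E (a n) (a (n + 1))) ∧
        (∀ x, E x k ↔ ∃ n, E x (a n)) ∧ Next E k k1 ∧ Next E k1 k2 ∧ StrongLimit E k ∧
        (∀ y, Pow E y k → ¬ Le E y k1) ∧ UNum E k k1 ∧ TP E k2 := by
  obtain ⟨_, _, S, rfl⟩ := exists_sys K U hU hc κ h0 h1 h2
  choose W hW using h3
  obtain ⟨_⟩ := exists_ext W (fun n => (hW n).1) (fun n => (hW n).2.1) (fun n => (hW n).2.2.1)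
    fun n => (hW n).2.2.2
  obtain ⟨gm, -, hS⟩ := exists_gm (G := Triv (Cond K)) default
    ((range (fun m => oc K (pre K m)) ∪ range fun m => dn (longer (K := K) m)) ∪
      {oc K (ks K), oc K (Order.succ (ks K)), oS _ (univ : Set K), BB K})
    (((countable_range _).union (countable_range _)).union (to_countable _))
  have a1 : ∀ m, oc K (pre K m) ∈ gm.S := fun m => hS (Or.inl (Or.inl (mem_range_self m)))
  have a2 : oc K (ks K) ∈ gm.S := hS (Or.inr (by simp))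
  have a3 : oc K (Order.succ (ks K)) ∈ gm.S := hS (Or.inr (by simp))
  have a4 : oS _ (univ : Set K) ∈ gm.S := hS (Or.inr (by simp))
  obtain ⟨a, k1, k2, k3⟩ := alephs gm a2 a1 fun m => hS (Or.inl (Or.inr (mem_range_self m)))
  exact ⟨gm.M, gm.E, gm.isZF, choice gm, gm.wf, a, _, _, _, k1, k2, k3, next_ks gm a2 a3,
    next_succ gm a3 a4, strongLimit gm a2 fun m => a1 (m + 1), fun _ => pow_big gm a2 a3,
    uNum gm a2 a3 (hS (Or.inr (by simp))), treeProp gm a4⟩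

end Pool.Agent.Lib.MP_d4b40b_lc
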