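import Pool.Agent.Lib.MP_d4b40b_lc.Setup

set_option autoImplicit false
set_option linter.unusedSectionVars false

namespace Pool.Agent.Lib.MP_d4b40b_lc

open Filter Set Cardinal

variable {K : Type} [LinearOrder K] [WellFoundedLT K] [Sys K]

/-- agreement of objects -/
def Agr {n : ℕ} (S : Set K) (μ ν : Obj K n) : Prop := μ.top = ν.top ∧ ∀ β ∈ S, μ.f β = ν.f β

namespace Agr

variable {n : ℕ} {S S' : Set K} {μ ν ξ : Obj K n}

lemma refl (S : Set K) (μ : Obj K n) : Agr S μ μ := ⟨rfl, fun _ _ => rfl⟩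

lemma symm (h : Agr S μ ν) : Agr S ν μ := ⟨h.1.symm, fun β hβ => (h.2 β hβ).symm⟩

lemma trans (h : Agr S μ ν) (h' : Agr S ν ξ) : Agr S μ ξ :=
  ⟨h.1.trans h'.1, fun β hβ => (h.2 β hβ).trans (h'.2 β hβ)⟩

lemma mono (h : Agr S μ ν) (hs : S' ⊆ S) : Agr S' μ ν := ⟨h.1, fun β hβ => h.2 β (hs hβ)⟩

end Agr

/-- order preserving objects -/
def Inc {n : ℕ} (b : Set K) (μ : Obj K n) : Prop :=
  StrictMonoOn μ.f b ∧ ∀ β ∈ b, μ.f β < μ.top.1

lemma Inc.mono {n : ℕ} {b b' : Set K} {μ : Obj K n} (h : Inc b μ) (hb : b' ⊆ b) : Inc b' μ :=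
  ⟨h.1.mono hb, fun β hβ => h.2 β (hb hβ)⟩

lemma Inc.agr {n : ℕ} {b : Set K} {μ ν : Obj K n} (h : Inc b μ) (e : Agr b μ ν) : Inc b ν :=
  ⟨fun x hx y hy l => by rw [← e.2 x hx, ← e.2 y hy]; exact h.1 hx hy l,
    fun β hβ => by rw [← e.2 β hβ, ← e.1]; exact h.2 β hβ⟩

lemma Obj.mem_Lt {n : ℕ} (μ : Obj K n) (β : K) : μ.f β ∈ Lt K (kp K n) :=
  lower_Lt _ (μ.le β) μ.top.2.1

lemma mk_Top (n : ℕ) : #(Top K n) ≤ kp K n :=
  (mk_subtype_le_of_subset (q := (· ∈ Lt K (kp K n))) fun _ h => h.1).trans (mk_Lt_le _)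

lemma obj_reps_top {n : ℕ} {b : Set K} (l : Top K n) (h : l.c ^ #b ≤ l.c) :
    ∃ R : Set (Obj K n), #R ≤ l.c ∧ ∀ μ : Obj K n, μ.top = l → ∃ ν ∈ R, Agr b μ ν := by
  let f : {μ : Obj K n // μ.top = l} → (b → Iic l.1) := fun μ β => ⟨μ.1.f β,
    (μ.1.le β).trans_eq (congrArg Subtype.val μ.2)⟩
  obtain ⟨r, h1, h2⟩ := exists_rep f
  refine ⟨Subtype.val '' range r, mk_image_le.trans (h1.trans ((mk_set_le _).trans ?_)),
    fun μ hμ => ⟨_, ⟨_, mem_range_self ⟨μ, hμ⟩, rfl⟩, hμ.trans (r _).2.symm, fun β hβ => ?_⟩⟩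
  · have : #(b → Iic l.1) = #(Iic l.1) ^ #b := by simp
    rw [this]
    exact (power_le_power_right (mk_Iic_le l.inf le_rfl)).trans h
  · exact (congrArg Subtype.val (congrFun (h2 ⟨μ, hμ⟩) ⟨β, hβ⟩)).symm

variable [Ext K]

variable (K) in
abbrev EE (n : ℕ) : Ultrafilter (Obj K n) := Ext.E n

instance (n : ℕ) : CardinalInterFilter (EE K n : Filter (Obj K n)) (kp K n) := Ext.cpl n

variable (K) in
/-- the measure on the `n`-th cardinal -/
def Un (n : ℕ) : Ultrafilter (Top K n) := (EE K n).map Obj.top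

instance (n : ℕ) : CardinalInterFilter (Un K n : Filter (Top K n)) (kp K n) := by
  rw [Un, Ultrafilter.coe_map]; infer_instance

lemma Un_ne {n : ℕ} (l : Top K n) : ∀ᶠ ξ in (Un K n : Filter (Top K n)), ξ ≠ l := by
  refine Ultrafilter.eventually_not.2 fun h => ?_
  have h0 : ∀ᶠ μ in (EE K n : Filter (Obj K n)), μ.top = l := h
  have h1 : ∀ β, ∃ r ∈ Iio l.1, ∀ᶠ μ in (EE K n : Filter (Obj K n)), μ.f β = r := fun β =>
    ae_cst (EE K n) _ l.2.1 ((h0.and (Ext.top n β)).mono fun μ k => k.1 ▸ k.2)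
  choose φ h2 h3 using h1
  have h4 : StrictMono φ := fun β β' hlt => by
    obtain ⟨μ, k1, k2, k3⟩ := ((h3 β).and ((h3 β').and (Ext.lt n β β' hlt))).exists
    rwa [← k1, ← k2]
  have h5 : #K ≤ #(Iio l.1) :=
    mk_le_of_injective (f := fun β => ⟨φ β, h2 β⟩) fun a b e =>
      h4.injective (congrArg Subtype.val e)
  exact absurd h5 (not_le.2 (Sys.ord _))

lemma inacc_kp (n : ℕ) : IsInaccessible (kp K n) :=
  inacc_of_ultra (Un K n) _ Un_ne (mk_Top n) (kp_unc n)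

lemma ae_inc {n : ℕ} {b : Set K} (hb : #b < kp K n) :
    ∀ᶠ μ in (EE K n : Filter (Obj K n)), Inc b μ := by
  have h1 := ae_ball (EE K n) _ hb (Q := fun μ β => ∀ β' ∈ b, β < β' → μ.f β < μ.f β')
    fun β _ => ae_ball (EE K n) _ hb fun β' _ => by
      by_cases h : β < β'
      · exact (Ext.lt n β β' h).mono fun _ k _ => k
      · exact Eventually.of_forall fun _ k => absurd k h
  filter_upwards [h1, ae_ball (EE K n) _ hb (Q := fun μ β => μ.f β < μ.top.1)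
    fun β _ => Ext.top n β] with μ k1 k2
  exact ⟨fun x hx y hy => k1 x hx y hy, k2⟩

lemma range_agr {n : ℕ} {b : Set K} (hb : #b < kp K n) {T : Type} (g : Obj K n → T)
    (hg : ∀ μ ν, Agr b μ ν → g μ = g ν) : #(range g) ≤ kp K n := by
  let f : Obj K n → Top K n × (b → Lt K (kp K n)) := fun μ => (μ.top, fun β => ⟨μ.f β, μ.mem_Lt β⟩)
  refine (range_le_of_inv f g fun μ ν e => hg μ ν ⟨congrArg Prod.fst e, fun β hβ =>
    congrArg Subtype.val (congrFun (congrArg Prod.snd e) ⟨β, hβ⟩)⟩).trans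
    ((mk_set_le _).trans (mk_prod_le' (kp_unc n).le (mk_Top n) ?_))
  have : #(b → Lt K (kp K n)) = #(Lt K (kp K n)) ^ #b := by simp
  rw [this]
  exact (power_le_power_right (mk_Lt_le _)).trans (inacc_pow_le (inacc_kp n) hb)

lemma obj_rep {n : ℕ} {b : Set K} (hb : #b < kp K n) :
    ∃ r : Obj K n → Obj K n, #(range r) ≤ kp K n ∧ ∀ μ, Agr b μ (r μ) := by
  refine ⟨fun μ => @Classical.epsilon _ ⟨μ⟩ (Agr b μ), range_agr hb _ fun μ ν e => ?_,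
    fun μ => Classical.epsilon_spec ⟨μ, Agr.refl _ _⟩⟩
  have : Agr b μ = Agr b ν := funext fun ξ => propext ⟨e.symm.trans, e.trans⟩
  simp only [this]

/-- the projection of a set of objects below `α` -/
def proj {n : ℕ} (α : K) (b : Set K) (A : Set (Obj K n)) : Set (Obj K n) :=
  {μ | ∀ γ < μ.top.1, ∃ ν ∈ A, Agr (b ∩ Iio α) μ ν ∧ ∀ β ∈ b, α ≤ β → γ < ν.f β}

lemma proj_agr {n : ℕ} {α : K} {b : Set K} {A : Set (Obj K n)} {μ ν : Obj K n}
    (h : μ ∈ proj α b A) (e : Agr (b ∩ Iio α) μ ν) : ν ∈ proj α b A := fun γ hγ => by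
  obtain ⟨ξ, h1, h2, h3⟩ := h γ (e.1 ▸ hγ)
  exact ⟨ξ, h1, e.symm.trans h2, h3⟩

/-- closure points -/
def Cl (α : K) : Prop :=
  ∀ n (b : Set K) (A : Set (Obj K n)), #b < kp K n → A ∈ EE K n → proj α b A ∈ EE K n

lemma ae_cl0 (n : ℕ) : ∀ᶠ α in (UU K : Filter K), ∀ (b : Set K) (g : Obj K n → K),
    #b < kp K n → b ⊆ Iio α → (∀ μ ν, Agr b μ ν → g μ = g ν) → (∀ μ, g μ ≤ μ.top.1) →
    (∀ᶠ μ in (EE K n : Filter (Obj K n)), g μ < μ.top.1) →
    ∃ β < α, ∀ᶠ μ in (EE K n : Filter (Obj K n)), g μ = μ.f β := by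
  by_contra h
  have h0 := Ultrafilter.eventually_not.2 h
  simp only [not_forall] at h0
  obtain ⟨α0, -⟩ := h0.exists
  have h1 : ∀ α : K, ∃ (b : Set K) (g : Obj K n → K), (∃ (b : Set K) (g : Obj K n → K)
      (_ : #b < kp K n) (_ : b ⊆ Iio α) (_ : ∀ μ ν, Agr b μ ν → g μ = g ν)
      (_ : ∀ μ, g μ ≤ μ.top.1) (_ : ∀ᶠ μ in (EE K n : Filter (Obj K n)), g μ < μ.top.1),
      ¬ ∃ β < α, ∀ᶠ μ in (EE K n : Filter (Obj K n)), g μ = μ.f β) →
      ∃ (_ : #b < kp K n) (_ : b ⊆ Iio α) (_ : ∀ μ ν, Agr b μ ν → g μ = g ν)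
      (_ : ∀ μ, g μ ≤ μ.top.1) (_ : ∀ᶠ μ in (EE K n : Filter (Obj K n)), g μ < μ.top.1),
      ¬ ∃ β < α, ∀ᶠ μ in (EE K n : Filter (Obj K n)), g μ = μ.f β := by
    intro α
    by_cases hα : ∃ (b : Set K) (g : Obj K n → K)
      (_ : #b < kp K n) (_ : b ⊆ Iio α) (_ : ∀ μ ν, Agr b μ ν → g μ = g ν)
      (_ : ∀ μ, g μ ≤ μ.top.1) (_ : ∀ᶠ μ in (EE K n : Filter (Obj K n)), g μ < μ.top.1),
      ¬ ∃ β < α, ∀ᶠ μ in (EE K n : Filter (Obj K n)), g μ = μ.f β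
    · obtain ⟨b, g, k⟩ := hα
      exact ⟨b, g, fun _ => k⟩
    · exact ⟨∅, fun _ => α0, fun h => absurd h hα⟩
  choose b g hbg using h1
  have h2 := h0.mono hbg
  obtain ⟨δ, hδ⟩ := ae_press (Q := fun α δ => b α ⊆ Iio δ) (by
    filter_upwards [h2, ae_cf] with α k1 k2
    obtain ⟨l1, l2, -⟩ := k1
    exact k2 _ l2 (l1.le.trans (kp_le_ks n)))
  obtain ⟨Z1, z1, z2⟩ := ae_pw (UU K) _ (Sys.ord δ) (fun α β => β ∈ b α)
  obtain ⟨α1, ⟨a1, -⟩, a2, a3⟩ := (h2.and (hδ.and z1)).exists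
  obtain ⟨r, r1, r2⟩ := obj_rep a1
  obtain ⟨Z2, z3, z4⟩ := ae_pw (UU K) _ (R := range r ×ˢ Lt K (kp K n))
    (mk_sprod_lt' K_inf (r1.trans_lt (Sys.lt n)) ((mk_Lt_le _).trans_lt (Sys.lt n)))
    (fun α x => g α x.1 = x.2)
  obtain ⟨α2, ⟨-, -, b3, b4, b5, -⟩, b6, b7, b8⟩ := (h2.and (hδ.and (Eventually.and z1 z3))).exists
  obtain ⟨β, hβ⟩ := Ext.nor n _ b5
  obtain ⟨α, ⟨-, -, c3, -, -, c5⟩, c6, c7, c8, c9⟩ :=
    (h2.and (hδ.and (Eventually.and z1 (Eventually.and z3 (Sys.tail β))))).exists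
  refine c5 ⟨β, c9, hβ.mono fun μ hμ => ?_⟩
  rw [← hμ, c3 μ (r μ) ((r2 μ).mono fun x hx => z2 α c7 α1 a3 x (c6 hx) hx),
    b3 μ (r μ) ((r2 μ).mono fun x hx => z2 α2 b7 α1 a3 x (b6 hx) hx)]
  exact z4 α2 b8 α c8 (r μ, g α2 (r μ))
    ⟨mem_range_self μ, lower_Lt _ (b4 _) (r μ).top.2.1⟩ rfl

lemma ae_cl : ∀ᶠ α in (UU K : Filter K), Cl α := by
  classical
  filter_upwards [ae_all (UU K) _ (J := ℕ) (by simpa using (inacc_K (K := K)).1) ae_cl0] with α hα n b A hb hA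
  by_contra h
  have h0 : ∀ᶠ μ in (EE K n : Filter (Obj K n)), μ ∉ proj α b A := Ultrafilter.eventually_not.2 h
  let B : Obj K n → Set K := fun μ =>
    {γ | γ < μ.top.1 ∧ ¬ ∃ ν ∈ A, Agr (b ∩ Iio α) μ ν ∧ ∀ β ∈ b, α ≤ β → γ < ν.f β}
  let g : Obj K n → K := fun μ => if h : (B μ).Nonempty then h.some else μ.top.1
  have h1 : ∀ᶠ μ in (EE K n : Filter (Obj K n)), g μ ∈ B μ := by
    filter_upwards [h0] with μ hμ
    have : (B μ).Nonempty := by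
      simp only [proj, mem_ofPred_eq, not_forall] at hμ
      obtain ⟨γ, k1, k2⟩ := hμ
      exact ⟨γ, k1, k2⟩
    simp only [g, dif_pos this]
    exact this.some_mem
  obtain ⟨β, h2, h3⟩ := hα n (b ∩ Iio α) g ((mk_le_mk_of_subset inter_subset_left).trans_lt hb)
    inter_subset_right (fun μ ν e => by
      have : B μ = B ν := by
        ext γ
        simp only [B, mem_ofPred_eq, e.1]
        exact and_congr_right fun _ => not_congr (exists_congr fun ξ => and_congr_right fun _ =>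
          and_congr_left fun _ => ⟨e.symm.trans, e.trans⟩)
      simp only [g, this, e.1])
    (fun μ => by
      by_cases k : (B μ).Nonempty
      · simp only [g, dif_pos k]; exact k.some_mem.1.le
      · simp only [g, dif_neg k]; exact le_rfl)
    (h1.mono fun _ k => k.1)
  obtain ⟨μ, k1, k2, k3, k4⟩ := (h1.and (h3.and (Eventually.and hA
    (ae_inc (b := insert β b) (by
      exact (mk_insert_le).trans_lt (add_lt_of_lt (kp_unc n).le hb
        (one_lt_aleph0.trans (kp_unc n)))))))).exists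
  exact k1.2 ⟨μ, k3, Agr.refl _ _, fun β' l1 l2 =>
    k2 ▸ k4.1 (mem_insert _ _) (mem_insert_of_mem _ l1) (h2.trans_le l2)⟩

end Pool.Agent.Lib.MP_d4b40b_lc
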