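import Pool.Agent.Lib.MP_d4b40b_lc.Cond

set_option autoImplicit false
set_option linter.unusedSectionVars false

namespace Pool.Agent.Lib.MP_d4b40b_lc

open Filter Set Cardinal

variable {K : Type} [LinearOrder K] [WellFoundedLT K] [Sys K] [Ext K]

/-- direct extensions which do not change the levels below `m` -/
structure Fix (m : ℕ) (q p : Cond K) : Prop where
  dle : DLe q p
  low : ∀ k < m, k < p.len → p.low k ≤ q.low k
  up : ∀ k < m, p.len ≤ k →
    q.b k ⊆ p.b k ∧ p.A k ⊆ q.A k ∧ p.H k ≤ q.H k ∧ ∀ s, q.C k s ⊆ p.C k s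

namespace Fix

variable {m m' : ℕ} {r q p : Cond K}

lemma refl (m : ℕ) (p : Cond K) : Fix m p p :=
  ⟨DLe.refl p, fun _ _ _ => le_rfl, fun _ _ _ => ⟨Subset.rfl, Subset.rfl, le_rfl, fun _ => Subset.rfl⟩⟩

lemma trans (h : Fix m r q) (h' : Fix m q p) : Fix m r p :=
  ⟨h.dle.trans h'.dle, fun k k1 k2 => (h'.low k k1 k2).trans (h.low k k1 (h'.dle.len ▸ k2)),
    fun k k1 k2 =>
      have a := h.up k k1 (h'.dle.len ▸ k2)
      have a' := h'.up k k1 k2
      ⟨a.1.trans a'.1, a'.2.1.trans a.2.1, a'.2.2.1.trans a.2.2.1,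
        fun s => (a.2.2.2 s).trans (a'.2.2.2 s)⟩⟩

lemma mono (h : Fix m q p) (hm : m' ≤ m) : Fix m' q p :=
  ⟨h.dle, fun k k1 => h.low k (k1.trans_le hm), fun k k1 => h.up k (k1.trans_le hm)⟩

lemma zero (h : DLe q p) : Fix 0 q p :=
  ⟨h, fun _ k => absurd k (Nat.not_lt_zero _), fun _ k => absurd k (Nat.not_lt_zero _)⟩

lemma adm (h : Fix m q p) {t : Stem K} (a : Adm p t m) : Adm q t m :=
  fun k k1 k2 => (h.up k k2 (h.dle.len ▸ k1)).2.1 (a k (h.dle.len ▸ k1) k2)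

lemma actLo (h : Fix m q p) {t : Stem K} {k : ℕ} (k1 : p.len ≤ k) (k2 : k < m)
    (a : t k ∈ p.A k) : actLo p t k ≤ actLo q t k := by
  refine le_actLo rfl ?_ (root_mono (h.up k k2 k1).2.2.1 _)
  rw [actLo_c k1 a]
  exact img_mono _ ((h.up k k2 k1).2.2.2 t)

lemma act_low (h : Fix m q p) {t : Stem K} (a : Adm p t m) (h1 : p.len ≤ m) (h2 : q.len ≤ m)
    {k : ℕ} (hk : k < m) : (act p t m h1).low k ≤ (act q t m h2).low k := by
  rcases lt_or_ge k p.len with l | l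
  · rw [act_low_lt t h1 l, act_low_lt t h2 (h.dle.len ▸ l)]
    exact h.low k hk l
  · rw [act_low_ge t h1 l, act_low_ge t h2 (h.dle.len ▸ l)]
    exact h.actLo l hk (a k l hk)

end Fix

theorem exists_lim {m : ℕ} {I : Type} [hne : Nonempty I] (hI : #I ≤ pre K m) (f : I → Cond K)
    (ht : ∀ i j, Fix m (f i) (f j) ∨ Fix m (f j) (f i)) :
    ∃ q, (∀ i, Fix m q (f i)) ∧ ∀ S r, (∀ i, Ex S r (f i)) → Ex S r q := by
  classical
  obtain ⟨i0⟩ := id hne
  have hl : ∀ i, (f i).len = (f i0).len := fun i => (ht i i0).elim (·.dle.len) (·.dle.len.symm)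
  have hd : ∀ i j, DLe (f i) (f j) ∨ DLe (f j) (f i) := fun i j => (ht i j).imp (·.dle) (·.dle)
  have hlo : ∀ k, ∃ d : Lo K k, k < (f i0).len →
      (∀ i, d ≤ (f i).low k) ∧ ∀ d', (∀ i, d' ≤ (f i).low k) → d' ≤ d := by
    intro k
    by_cases hk : k < (f i0).len
    · rcases lt_or_ge k m with l | l
      · refine ⟨(f i0).low k, fun _ => ⟨fun i => ?_, fun d' h => h i0⟩⟩
        exact (ht i i0).elim (fun h => h.low k l hk) fun h => h.dle.ex.low k (hl i ▸ hk)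
      · exact (lo_lim (hI.trans (pre_mono l)) (fun i => (f i).low k) fun i j =>
          (hd i j).imp (fun h => h.ex.low k (hl j ▸ hk)) fun h => h.ex.low k (hl i ▸ hk)).imp
          fun _ h _ => h
    · exact ⟨default, fun h => absurd h hk⟩
  choose d hd1 using hlo
  have hup : ∀ n, (f i0).len ≤ n → n < m → ∀ i, (f i).b n = (f i0).b n ∧ (f i).A n = (f i0).A n ∧
      ((f i).H n ≤ (f i0).H n ∧ (f i0).H n ≤ (f i).H n) ∧ (f i).C n = (f i0).C n := by
    intro n k1 k2 i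
    rcases ht i i0 with h | h
    · have a := h.up n k2 k1
      exact ⟨a.1.antisymm (h.dle.b k1), (h.dle.A n k1).antisymm a.2.1, ⟨h.dle.ex.H n k1, a.2.2.1⟩,
        funext fun s => (a.2.2.2 s).antisymm (h.dle.C k1 s)⟩
    · have k3 : (f i).len ≤ n := hl i ▸ k1
      have a := h.up n k2 k3
      exact ⟨(h.dle.b k3).antisymm a.1, a.2.1.antisymm (h.dle.A n k3), ⟨a.2.2.1, h.dle.ex.H n k3⟩,
        funext fun s => (h.dle.C k3 s).antisymm (a.2.2.2 s)⟩
  have hh : ∀ n, ∃ h : HH K n, (f i0).len ≤ n →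
      (∀ i, h ≤ (f i).H n) ∧ ∀ h', (∀ i, h' ≤ (f i).H n) → h' ≤ h := by
    intro n
    by_cases hn : (f i0).len ≤ n
    · rcases lt_or_ge n m with l | l
      · exact ⟨(f i0).H n, fun _ => ⟨fun i => (hup n hn l i).2.2.1.2, fun h' h => h i0⟩⟩
      · exact (hh_lim (hI.trans (pre_mono l)) (fun i => (f i).H n) fun i j =>
          (hd i j).imp (fun h => h.ex.H n (hl j ▸ hn)) fun h => h.ex.H n (hl i ▸ hn)).imp
          fun _ h _ => h
    · exact ⟨default, fun h => absurd h hn⟩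
  choose H hH using hh
  have hb : ∀ n, (f i0).len ≤ n → ∀ i j, (f i).b n ⊆ (f j).b n ∨ (f j).b n ⊆ (f i).b n :=
    fun n hn i j => (hd i j).symm.imp (fun h => h.b (hl i ▸ hn)) fun h => h.b (hl j ▸ hn)
  have hinv : ∀ Φ : I → Tm K, (∀ i, Inv (f i).b (f i).len (Φ i)) →
      Inv (fun n => ⋃ i, (f i).b n) (f i0).len (fun n s => ⋃ i, Φ i n s) := by
    intro Φ hΦ n hn s s' x e hx
    obtain ⟨i, hi⟩ := mem_iUnion.1 hx
    exact mem_iUnion.2 ⟨i, hΦ i n (hl i ▸ hn) s s' x (e.mono (hl i).ge le_rfl fun k _ _ =>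
      inter_subset_inter_left _ (subset_iUnion (fun i => (f i).b k) i)) hi⟩
  let q : Cond K := {
    len := (f i0).len
    low := d
    b := fun n => ⋃ i, (f i).b n
    A := fun n => ⋂ i, (f i).A n
    H := H
    C := fun n s => ⋃ i, (f i).C n s
    F := fun n s => ⋃ i, (f i).F n s
    hb := fun n hn => by
      rcases lt_or_ge n m with l | l
      · simp only [fun i => (hup n hn l i).1, iUnion_const]
        exact (f i0).hb n hn
      · exact (card_iUnion_lt_iff_forall_of_isRegular (inacc_kp n).isRegular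
          (hI.trans_lt (pre_lt_kp l))).2 fun i => (f i).hb n (hl i ▸ hn)
    hA := fun n hn => by
      rcases lt_or_ge n m with l | l
      · simp only [fun i => (hup n hn l i).2.1, iInter_const]
        exact (f i0).hA n hn
      · exact (cardinal_iInter_mem (l := (EE K n : Filter (Obj K n)))
          (hI.trans_lt (pre_lt_kp l))).2 fun i => (f i).hA n (hl i ▸ hn)
    hAi := fun n hn μ ν e h => mem_iInter.2 fun i => (f i).hAi n (hl i ▸ hn) μ ν
      (e.mono (subset_iUnion (fun i => (f i).b n) i)) (mem_iInter.1 h i)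
    hAc := fun n hn μ h => by
      have h1 : ∀ i, Inc ((f i).b n) μ := fun i => (f i).hAc n (hl i ▸ hn) μ (mem_iInter.1 h i)
      refine ⟨fun x hx y hy l => ?_, fun x hx => ?_⟩
      · obtain ⟨i, hi⟩ := mem_iUnion.1 hx
        obtain ⟨j, hj⟩ := mem_iUnion.1 hy
        exact (hb n hn i j).elim (fun k => (h1 j).1 (k hi) hj l) fun k => (h1 i).1 hi (k hj) l
      · obtain ⟨i, hi⟩ := mem_iUnion.1 hx
        exact (h1 i).2 x hi
    hC := fun n hn s => by
      have h1 : ∀ i, CV n (⋃ i, (f i).b n) ((f i).C n s) := fun i =>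
        ((f i).hC n (hl i ▸ hn) s).mono (subset_iUnion (fun i => (f i).b n) i)
      rcases lt_or_ge n m with l | l
      · simp only [fun i => (hup n hn l i).2.2.2, iUnion_const]
        exact h1 i0
      · refine ⟨Val.iUnion (pre_inf n) (hI.trans (pre_mono l)) (fun i => (h1 i).1) fun i j =>
          (hd i j).symm.imp (fun h => h.C (hl i ▸ hn) s) fun h => h.C (hl j ▸ hn) s,
          fun x hx => ?_⟩
        obtain ⟨i, hi⟩ := mem_iUnion.1 hx
        exact (h1 i).2 x hi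
    hCi := hinv _ fun i => (f i).hCi
    hF := fun n hn s => Fn.iUnion (fun i => (f i).hF n (hl i ▸ hn) s) fun i j =>
      (hd i j).symm.imp (fun h => h.F (hl i ▸ hn) s) fun h => h.F (hl j ▸ hn) s
    hFi := hinv _ fun i => (f i).hFi
    hFm := fun n hn s => iUnion_mono fun i => (f i).hFm n (hl i ▸ hn) s
    hFc := le_trans (mk_le_mk_of_subset (t := ⋃ i, allT (f i).len (f i).F) (by
        rintro x ⟨n, hn, s, hx⟩
        obtain ⟨i, hi⟩ := mem_iUnion.1 hx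
        exact mem_iUnion.2 ⟨i, n, hl i ▸ hn, s, hi⟩))
      (mk_iUnion_le' ks_inf (hI.trans (pre_le_ks m)) fun i => (f i).hFc) }
  refine ⟨q, fun i => ⟨DLe.mk' (hl i).symm (fun k hk => (hd1 k (hl i ▸ hk)).1 i) fun n hn =>
    ⟨subset_iUnion (fun i => (f i).b n) i, iInter_subset (fun i => (f i).A n) i,
      (hH n (hl i ▸ hn)).1 i, fun s => ⟨subset_iUnion (fun i => (f i).C n s) i,
        subset_iUnion (fun i => (f i).F n s) i⟩⟩, fun k k1 k2 => ?_, fun k k1 k2 => ?_⟩,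
    fun S r h => ⟨(h i0).len, fun k hk => (hd1 k hk).2 _ fun i => (h i).low k (hl i ▸ hk),
      fun n hn x hx => ?_, fun n hn => (hH n hn).2 _ fun i => (h i).H n (hl i ▸ hn),
      fun n hn s x k hx => ?_, fun n hn s x k hx => ?_⟩⟩
  · exact (hd1 k (hl i ▸ k2)).2 _ fun j =>
      (ht i j).elim (fun h => h.dle.ex.low k (hl j ▸ hl i ▸ k2)) fun h => h.low k k1 k2
  · have a := hup k (hl i ▸ k2) k1
    exact ⟨iUnion_subset fun j => ((a j).1.trans (a i).1.symm).le,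
      subset_iInter fun j => ((a i).2.1.trans (a j).2.1.symm).le,
      (hH k (hl i ▸ k2)).2 _ fun j => (a i).2.2.1.1.trans (a j).2.2.1.2,
      fun s => iUnion_subset fun j => (congrFun ((a j).2.2.2.trans (a i).2.2.2.symm) s).le⟩
  · obtain ⟨i, hi⟩ := mem_iUnion.1 hx.1
    exact (h i).b n (hl i ▸ hn) ⟨hi, hx.2⟩
  · obtain ⟨i, hi⟩ := mem_iUnion.1 hx
    exact (h i).C n (hl i ▸ hn) s x k hi
  · obtain ⟨i, hi⟩ := mem_iUnion.1 hx
    exact (h i).F n (hl i ▸ hn) s x k hi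

/-- meeting many tasks without changing the levels below `m` -/
theorem fix_meet (m : ℕ) {T : Type} (hT : #T ≤ pre K m) (G : T → Cond K → Prop)
    (p : Cond K) (hop : ∀ τ a b, G τ a → Fix m b a → G τ b)
    (hd : ∀ τ q, Fix m q p → ∃ r, Fix m r q ∧ G τ r) : ∃ q, Fix m q p ∧ ∀ τ, G τ q :=
  seq_meet (Fix m) (Fix.refl m) (fun _ _ _ => Fix.trans)
    (fun _ f _ hI ht => (exists_lim hI f ht).imp fun _ h => h.1) hT G hop p hd

theorem dle_meet (G : ℕ → Cond K → Prop) (p : Cond K) (hop : ∀ τ a b, G τ a → DLe b a → G τ b)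
    (hd : ∀ τ q, DLe q p → ∃ r, DLe r q ∧ G τ r) : ∃ q, DLe q p ∧ ∀ τ, G τ q := by
  obtain ⟨q, h1, h2⟩ := fix_meet 0 (T := ℕ) (by simp [pre]) G p
    (fun τ a b h e => hop τ a b h e.dle)
    (fun τ q h => (hd τ q h.dle).imp fun _ k => ⟨Fix.zero k.1, k.2⟩)
  exact ⟨q, h1.dle, h2⟩

/-- shrinking the measure one sets -/
def shrink (p : Cond K) (A : ∀ n, Set (Obj K n)) (h : ∀ n, p.len ≤ n → A n ∈ EE K n ∧
    ∀ μ ν, Agr (p.b n) μ ν → μ ∈ A n → ν ∈ A n) : Cond K :=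
  { p with
    A := fun n => p.A n ∩ A n
    hA := fun n hn => inter_mem (p.hA n hn) (h n hn).1
    hAi := fun n hn μ ν e k => ⟨p.hAi n hn μ ν e k.1, (h n hn).2 μ ν e k.2⟩
    hAc := fun n hn μ k => p.hAc n hn μ k.1 }

lemma shrink_dle (p : Cond K) (A : ∀ n, Set (Obj K n)) (h) : DLe (shrink p A h) p :=
  ⟨⟨rfl, fun _ _ => le_rfl, fun _ _ => inter_subset_left, fun _ _ => le_rfl,
    fun _ _ _ _ _ h => h, fun _ _ _ _ _ h => h⟩, fun _ _ => inter_subset_left⟩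

lemma ex_shrink (p : Cond K) (A : ∀ n, Set (Obj K n)) (h) (S : Set K) : Ex S p (shrink p A h) :=
  ⟨rfl, fun _ _ => le_rfl, fun _ _ => inter_subset_left, fun _ _ => le_rfl,
    fun _ _ _ _ _ h => h, fun _ _ _ _ _ h => h⟩

lemma exists_shrink1 (p : Cond K) (m : ℕ) {X : Set (Obj K m)} (h1 : X ∈ EE K m)
    (h2 : ∀ μ ν, Agr (p.b m) μ ν → μ ∈ X → ν ∈ X) : ∃ q, DLe q p ∧ q.A m ⊆ X := by
  refine ⟨shrink p (Function.update (fun _ => univ) m X) fun n _ => ?_, shrink_dle _ _ _,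
    fun μ hμ => by simpa using hμ.2⟩
  rcases eq_or_ne n m with rfl | l
  · simpa using ⟨h1, h2⟩
  · rw [Function.update_of_ne l]
    exact ⟨univ_mem, fun _ _ _ h => h⟩

/-- a common direct extension -/
lemma exists_inter {q p : Cond K} (h : Ex univ q p) : ∃ r, DLe r q ∧ DLe r p ∧ Ex univ q r := by
  refine ⟨shrink q p.A fun n hn => ⟨p.hA n (h.len ▸ hn), fun μ ν e =>
    p.hAi n (h.len ▸ hn) μ ν (e.mono fun x hx => h.b n (h.len ▸ hn) ⟨hx, trivial⟩)⟩,
    shrink_dle _ _ _, ⟨(shrink_dle _ _ _).ex.trans h, fun n _ => inter_subset_right⟩,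
    ex_shrink _ _ _ _⟩

/-- changing one guiding constraint -/
def setH (p : Cond K) (m : ℕ) (h : HH K m) : Cond K := { p with H := Function.update p.H m h }

lemma setH_dle (p : Cond K) {m : ℕ} {h : HH K m} (e : h ≤ p.H m) : DLe (setH p m h) p := by
  refine DLe.mk' rfl (fun _ _ => le_rfl) fun n _ =>
    ⟨Subset.rfl, Subset.rfl, ?_, fun _ => ⟨Subset.rfl, Subset.rfl⟩⟩
  rcases eq_or_ne n m with rfl | l
  · simpa [setH] using e
  · simp [setH, Function.update_of_ne l]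

lemma setH_H (p : Cond K) (m : ℕ) (h : HH K m) : (setH p m h).H m = h := by simp [setH]

lemma exists_first (p : Cond K) {m : ℕ} (hm : p.len = m) {b : Set K} {A : Set (Obj K m)}
    {C : Set (Tr K)} (h1 : p.b m ⊆ b) (h2 : #b < kp K m) (h3 : A ∈ EE K m)
    (h4 : ∀ μ ν, Agr b μ ν → μ ∈ A → ν ∈ A) (h5 : CV m b C) (h6 : ∀ s, p.C m s ⊆ C) :
    ∃ q, DLe q p ∧ q.A m ⊆ A ∧ ∀ s, q.C m s = C := by
  have hb : ∀ k, p.b k ⊆ Function.update p.b m b k := fun k => by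
    rcases eq_or_ne k m with rfl | l
    · simpa using h1
    · simp [Function.update_of_ne l]
  refine ⟨{ p with
    b := Function.update p.b m b
    A := Function.update p.A m (p.A m ∩ A ∩ {μ | Inc b μ})
    C := Function.update p.C m (fun _ => C)
    hb := fun n hn => ?_
    hA := fun n hn => ?_
    hAi := fun n hn => ?_
    hAc := fun n hn => ?_
    hC := fun n hn => ?_
    hCi := fun n hn s s' x e => ?_
    hFi := p.hFi.mono fun k _ => hb k }, DLe.mk' rfl (fun _ _ => le_rfl) fun n _ =>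
      ⟨hb n, ?_, le_rfl, fun s => ⟨?_, Subset.rfl⟩⟩, ?_, fun s => ?_⟩
  · rcases eq_or_ne n m with rfl | l
    · simpa using h2
    · simpa [Function.update_of_ne l] using p.hb n hn
  · rcases eq_or_ne n m with rfl | l
    · rw [Function.update_self]
      exact inter_mem (inter_mem (p.hA n hn) h3) (ae_inc h2)
    · simpa [Function.update_of_ne l] using p.hA n hn
  · rcases eq_or_ne n m with rfl | l
    · simp only [Function.update_self]
      exact fun μ ν e k => ⟨⟨p.hAi n hn μ ν (e.mono h1) k.1.1, h4 μ ν e k.1.2⟩, Inc.agr k.2 e⟩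
    · simpa only [Function.update_of_ne l] using p.hAi n hn
  · rcases eq_or_ne n m with rfl | l
    · simp only [Function.update_self]
      exact fun μ k => k.2
    · simpa only [Function.update_of_ne l] using p.hAc n hn
  · rcases eq_or_ne n m with rfl | l
    · simp only [Function.update_self]
      exact fun _ => h5
    · simpa only [Function.update_of_ne l] using p.hC n hn
  · rcases eq_or_ne n m with rfl | l
    · simp only [Function.update_self]
      exact id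
    · simp only [Function.update_of_ne l]
      exact (p.hCi.mono fun k _ => hb k) n hn s s' x e
  · rcases eq_or_ne n m with rfl | l
    · simp only [Function.update_self]
      exact fun μ k => k.1.1
    · simp only [Function.update_of_ne l]; exact Subset.rfl
  · rcases eq_or_ne n m with rfl | l
    · simp only [Function.update_self]
      exact h6 s
    · simp only [Function.update_of_ne l]; exact Subset.rfl
  · simp only [Function.update_self]
    exact fun μ k => k.1.2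
  · simp only [Function.update_self]

lemma exists_grow (p : Cond K) (b : ℕ → Set K) (G : Tm K) (h1 : ∀ n, p.len ≤ n → p.b n ⊆ b n)
    (h2 : ∀ n, p.len ≤ n → #(b n) < kp K n) (h3 : Inv b p.len G)
    (h4 : ∀ n, p.len ≤ n → ∀ s, Fn (ks K) univ (p.F n s ∪ G n s))
    (h5 : ∀ n, p.len ≤ n → ∀ s, G n s ⊆ G (n + 1) s) (h6 : #(allT p.len G) ≤ ks K) :
    ∃ q, DLe q p ∧ q.b = b ∧ ∀ n s, G n s ⊆ q.F n s := by
  refine ⟨{ p with
    b := b
    A := fun n => p.A n ∩ {μ | Inc (b n) μ}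
    F := fun n s => p.F n s ∪ G n s
    hb := h2
    hA := fun n hn => inter_mem (p.hA n hn) (ae_inc (h2 n hn))
    hAi := fun n hn μ ν e k => ⟨p.hAi n hn μ ν (e.mono (h1 n hn)) k.1, Inc.agr k.2 e⟩
    hAc := fun n _ μ k => k.2
    hC := fun n hn s => (p.hC n hn s).mono (h1 n hn)
    hCi := p.hCi.mono h1
    hF := h4
    hFi := fun n hn s s' x e k => k.imp (p.hFi.mono h1 n hn s s' x e) (h3 n hn s s' x e)
    hFm := fun n hn s => union_subset_union (p.hFm n hn s) (h5 n hn s)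
    hFc := le_trans (mk_le_mk_of_subset (t := allT p.len p.F ∪ allT p.len G)
      fun _ ⟨n, hn, s, hx⟩ => hx.imp (fun k => ⟨n, hn, s, k⟩) fun k => ⟨n, hn, s, k⟩)
      (mk_union_le' ks_inf p.hFc h6) }, DLe.mk' rfl (fun _ _ => le_rfl) fun n hn =>
      ⟨h1 n hn, inter_subset_left, le_rfl, fun s => ⟨Subset.rfl, subset_union_left⟩⟩, rfl,
      fun _ _ => subset_union_right⟩

/-- patching two terms -/
def patchT (m : ℕ) (c : Stem K → K → Prop) (Φ Ψ : Tm K) : Tm K := fun n s =>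
  {x | (m ≤ n ∧ c s x.1) ∧ x ∈ Ψ n s ∨ ¬ (m ≤ n ∧ c s x.1) ∧ x ∈ Φ n s}

lemma patchT_lt {m n : ℕ} (h : n < m) (c : Stem K → K → Prop) (Φ Ψ : Tm K) (s : Stem K) :
    patchT m c Φ Ψ n s = Φ n s := by
  ext x
  simp [patchT, not_le.2 h]

lemma patchT_fn {m n : ℕ} {c : Stem K → K → Prop} {Φ Ψ : Tm K} {s : Stem K} {ρ : Cardinal.{0}}
    {D D' D'' : Set K} (h1 : Fn ρ D (Φ n s)) (h2 : m ≤ n → Fn ρ D' (Ψ n s)) (h3 : D ⊆ D'')
    (h4 : m ≤ n → ∀ β ∈ D', c s β → β ∈ D'') : Fn ρ D'' (patchT m c Φ Ψ n s) := by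
  refine ⟨?_, ?_⟩
  · rintro β i v v' (⟨k1, k2⟩ | ⟨k1, k2⟩) (⟨k3, k4⟩ | ⟨k3, k4⟩)
    · exact (h2 k1.1).fn _ _ _ _ k2 k4
    · exact absurd k1 k3
    · exact absurd k3 k1
    · exact h1.fn _ _ _ _ k2 k4
  · rintro x (⟨k1, k2⟩ | ⟨-, k2⟩)
    · exact ⟨h4 k1.1 _ ((h2 k1.1).bd x k2).1 k1.2, ((h2 k1.1).bd x k2).2⟩
    · exact ⟨h3 (h1.bd x k2).1, (h1.bd x k2).2⟩

lemma patchT_sub {m n : ℕ} {c : Stem K → K → Prop} {Φ Ψ : Tm K} {s : Stem K}
    (h : m ≤ n → ∀ x, c s x.1 → x ∈ Φ n s → x ∈ Ψ n s) : Φ n s ⊆ patchT m c Φ Ψ n s := by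
  intro x hx
  by_cases k : m ≤ n ∧ c s x.1
  · exact Or.inl ⟨k, h k.1 x k.2 hx⟩
  · exact Or.inr ⟨k, hx⟩

theorem exists_patch (q y : Cond K) (m : ℕ) (S : Set K) (c : Stem K → K → Prop)
    (h1 : q.len ≤ y.len) (h2 : y.len ≤ m) (hS : IsLowerSet S)
    (h3 : ∀ k, y.len ≤ k → k < m → y.b k ∩ S ⊆ q.b k) (h4 : ∀ s β, c s β → β ∈ S)
    (h5 : ∀ s s' β, SAgr q.b (Iic β) q.len m s s' → c s β → c s' β)
    (h6 : ∀ n, m ≤ n → y.H n ≤ q.H n ∧ ∀ s x, c s x.1 →
      (x ∈ q.C n s → x ∈ y.C n s) ∧ (x ∈ q.F n s → x ∈ y.F n s)) :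
    ∃ r, Fix m r q ∧ (∀ n, m ≤ n → r.b n = q.b n ∪ (y.b n ∩ S) ∧ r.H n = y.H n ∧
      ∀ μ ∈ q.A n, Inc (r.b n) μ → μ ∈ r.A n) ∧
      r.C = patchT m c q.C y.C ∧ r.F = patchT m c q.F y.F := by
  let b : ℕ → Set K := fun n => if m ≤ n then q.b n ∪ (y.b n ∩ S) else q.b n
  have b1 : ∀ n, m ≤ n → b n = q.b n ∪ (y.b n ∩ S) := fun n hn => if_pos hn
  have b2 : ∀ n, n < m → b n = q.b n := fun n hn => if_neg (not_le.2 hn)
  have b3 : ∀ n, q.b n ⊆ b n := fun n => by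
    rcases lt_or_ge n m with l | l
    · rw [b2 n l]
    · rw [b1 n l]; exact subset_union_left
  have b4 : ∀ n, y.len ≤ n → y.b n ∩ S ⊆ b n := fun n hn => by
    rcases lt_or_ge n m with l | l
    · rw [b2 n l]; exact h3 n hn l
    · rw [b1 n l]; exact subset_union_right
  have b5 : ∀ n, q.len ≤ n → #(b n) < kp K n := fun n hn => by
    rcases lt_or_ge n m with l | l
    · rw [b2 n l]; exact q.hb n hn
    · rw [b1 n l]
      exact mk_union_lt' (kp_unc n).le (q.hb n hn)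
        ((mk_le_mk_of_subset inter_subset_left).trans_lt (y.hb n (h2.trans l)))
  have hinv : ∀ Φ Ψ : Tm K, Inv q.b q.len Φ → Inv y.b y.len Ψ →
      Inv b q.len (patchT m c Φ Ψ) := by
    intro Φ Ψ i1 i2 n hn s s' x e hx
    have e1 : m ≤ n → SAgr q.b (Iic x.1) q.len m s s' := fun l =>
      e.mono le_rfl l fun k _ _ => inter_subset_inter_left _ (b3 k)
    rcases hx with ⟨k1, k2⟩ | ⟨k1, k2⟩
    · refine Or.inl ⟨⟨k1.1, h5 _ _ _ (e1 k1.1) k1.2⟩, i2 n (h2.trans k1.1) s s' x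
        (e.mono h1 le_rfl fun k l _ β hβ => ⟨b4 k l ⟨hβ.1, hS hβ.2 (h4 _ _ k1.2)⟩, hβ.2⟩) k2⟩
    · exact Or.inr ⟨fun l => k1 ⟨l.1, h5 _ _ _ (e1 l.1).symm l.2⟩,
        i1.mono (fun k _ => b3 k) n hn s s' x e k2⟩
  refine ⟨{
    len := q.len
    low := q.low
    b := b
    A := fun n => q.A n ∩ {μ | Inc (b n) μ}
    H := fun n => if m ≤ n then y.H n else q.H n
    C := patchT m c q.C y.C
    F := patchT m c q.F y.F
    hb := b5
    hA := fun n hn => inter_mem (q.hA n hn) (ae_inc (b5 n hn))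
    hAi := fun n hn μ ν e k => ⟨q.hAi n hn μ ν (e.mono (b3 n)) k.1, Inc.agr k.2 e⟩
    hAc := fun n _ μ k => k.2
    hC := fun n hn s => ⟨⟨patchT_fn (q.hC n hn s).1.1 (fun l => (y.hC n (h2.trans l) s).1.1) (b3 n)
      fun l β k1 k2 => b4 n (h2.trans l) ⟨k1, h4 _ _ k2⟩, ?_⟩, ?_⟩
    hCi := hinv _ _ q.hCi y.hCi
    hF := fun n hn s => patchT_fn (q.hF n hn s) (fun l => y.hF n (h2.trans l) s) Subset.rfl
      fun _ _ _ _ => trivial
    hFi := hinv _ _ q.hFi y.hFi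
    hFm := fun n hn s => ?_
    hFc := le_trans (mk_le_mk_of_subset (t := allT y.len y.F ∪ allT q.len q.F)
      fun _ ⟨n, hn, s, hx⟩ => hx.imp (fun k => ⟨n, h2.trans k.1.1, s, k.2⟩) fun k => ⟨n, hn, s, k.2⟩)
      (mk_union_le' ks_inf y.hFc q.hFc) }, ⟨DLe.mk' rfl (fun _ _ => le_rfl) fun n hn =>
      ⟨b3 n, inter_subset_left, ?_, fun s => ⟨patchT_sub fun l x k => ((h6 n l).2 s x k).1,
        patchT_sub fun l x k => ((h6 n l).2 s x k).2⟩⟩, fun _ _ _ => le_rfl, fun k k1 k2 =>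
      ⟨(b2 k k1).le, fun μ hμ => ⟨hμ, (q.hAc k k2 μ hμ).mono (b2 k k1).le⟩,
        (if_neg (not_le.2 k1) : (if m ≤ k then y.H k else q.H k) = q.H k).ge,
        fun s => (patchT_lt k1 _ _ _ s).le⟩⟩,
    fun n hn => ⟨b1 n hn, if_pos hn, fun μ k1 k2 => ⟨k1, k2⟩⟩, rfl, rfl⟩
  · rcases lt_or_ge n m with l | l
    · rw [patchT_lt l]; exact (q.hC n hn s).1.2
    · exact (mk_le_mk_of_subset (t := y.C n s ∪ q.C n s) fun x hx => hx.imp (·.2) (·.2)).trans
        (mk_union_le' (pre_inf n) (y.hC n (h2.trans l) s).1.2 (q.hC n hn s).1.2)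
  · rintro x (⟨k1, k2⟩ | ⟨-, k2⟩)
    · have := y.hC n (h2.trans k1.1) s
      exact b4 n (h2.trans k1.1) ⟨this.2 x k2, hS (this.1.1.bd x k2).2.2 (h4 _ _ k1.2)⟩
    · exact b3 n ((q.hC n hn s).2 x k2)
  · rintro x (⟨k1, k2⟩ | ⟨k1, k2⟩)
    · exact Or.inl ⟨⟨k1.1.trans (Nat.le_succ n), k1.2⟩, y.hFm n (h2.trans k1.1) s k2⟩
    · exact patchT_sub (fun l x k => ((h6 _ l).2 s x k).2) (q.hFm n hn s k2)
  · show (if m ≤ n then y.H n else q.H n) ≤ q.H n
    split_ifs with l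
    exacts [(h6 n l).1, le_rfl]

end Pool.Agent.Lib.MP_d4b40b_lc
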