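import Pool.Agent.Lib.MP_d4b40b_lc.Fam

set_option autoImplicit false
set_option linter.unusedSectionVars false

namespace Pool.Agent.Lib.MP_d4b40b_lc

open Filter Set Cardinal

variable {K : Type} [LinearOrder K] [WellFoundedLT K] [Sys K] [Ext K]

lemma task_reps (p : Cond K) (m : ℕ) (l : Top K m) (hl : l.c ^ #(p.b m) ≤ l.c) :
    ∃ R : Set (Stem K × Low K), #R ≤ l.c ∧ ∀ (t : Stem K) (d : Low K), (t m).top = l →
      (d m).lam = l → ∃ x ∈ R, SAgr p.b univ p.len (m + 1) t x.1 ∧ (∀ k < m, x.2 k = d k) ∧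
        (x.2 m).lam = l ∧ (x.2 m).c = (d m).c := by
  obtain ⟨R, r1, r2⟩ := stem_reps p m
  obtain ⟨L, l1, l2⟩ := seq_reps (K := K) mk_Lo m
  obtain ⟨O, o1, o2⟩ := obj_reps_top l hl
  let g : R × L × O × {c : Set (Tr K) // Val (pre K m) (Iio l.1) c} → Stem K × Low K := fun x =>
    (Function.update x.1.1 m x.2.2.1.1,
      Function.update x.2.1.1 m ⟨l, x.2.2.2.1, ∅, x.2.2.2.2, Val.empty⟩)
  refine ⟨range g, mk_range_le.trans (mk_prod_le' l.inf (r1.trans l.2.2.1.le)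
    (mk_prod_le' l.inf (l1.trans l.2.2.1.le) (mk_prod_le' l.inf o1 (mk_cc l)))),
    fun t d h1 h2 => ?_⟩
  obtain ⟨t0, k1, k2⟩ := r2 t
  obtain ⟨d0, k3, k4⟩ := l2 d
  obtain ⟨μ, k5, k6⟩ := o2 (t m) h1
  refine ⟨_, mem_range_self (⟨t0, k1⟩, ⟨d0, k3⟩, ⟨μ, k5⟩, ⟨(d m).c, h2 ▸ (d m).hc⟩),
    fun k j1 j2 => ?_, fun k hk => ?_, ?_, ?_⟩
  · rcases (Nat.lt_succ_iff.1 j2).eq_or_lt with rfl | j3
    · simp only [g, Function.update_self]
      exact k6.mono inter_subset_left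
    · simp only [g, Function.update_of_ne j3.ne]
      exact k2 k j1 j3
  · simp only [g, Function.update_of_ne hk.ne]
    exact k4 k hk
  · simp only [g, Function.update_self]
  · simp only [g, Function.update_self]

/-- the property holds once the last collapse extends `e` -/
def Hold (D : Cond K → Prop) (p : Cond K) (m : ℕ) (h : p.len ≤ m + 1) (t : Stem K) (d : Low K)
    (e : Set (Tr K)) : Prop :=
  ∀ d' : Low K, (∀ k < m, d' k ≤ d k) → (d' m).lam = (d m).lam → (d m).c ⊆ (d' m).c →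
    e ⊆ (d' m).e → D (setLow (act p t (m + 1) h) d')

section Hold

variable {D : Cond K → Prop} {p : Cond K} {m : ℕ} {h : p.len ≤ m + 1} {t t' : Stem K}
  {d d' : Low K} {e e' : Set (Tr K)}

lemma Hold.mono (H : Hold D p m h t d e) (he : e ⊆ e') : Hold D p m h t d e' :=
  fun d' k1 k2 k3 k4 => H d' k1 k2 k3 (he.trans k4)

lemma Hold.congr (hD : ∀ a b, D a → DLe b a → D b) (H : Hold D p m h t d e)
    (a : Adm p t' (m + 1)) (h1 : SAgr p.b univ p.len (m + 1) t' t) (h2 : ∀ k < m, d' k ≤ d k)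
    (h3 : (d' m).lam = (d m).lam) (h4 : (d m).c ⊆ (d' m).c) : Hold D p m h t' d' e :=
  fun d'' k1 k2 k3 k4 => hD _ _ (H d'' (fun k hk => (k1 k hk).trans (h2 k hk)) (k2.trans h3)
    (h4.trans k3) k4) (setLow_mono (act_agr h a h1) fun _ _ => le_rfl)

lemma Hold.intro (hD : ∀ a b, D a → DLe b a → D b) (H : D (setLow (act p t (m + 1) h) d)) :
    Hold D p m h t d (d m).e := fun d' k1 k2 k3 k4 =>
  hD _ _ H (setLow_mono (DLe.refl _) fun k hk => by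
    rcases (Nat.lt_succ_iff.1 hk).eq_or_lt with rfl | l
    exacts [⟨k2, k3, k4⟩, k1 k l])

end Hold

theorem ediag {D : Cond K → Prop} (hD : ∀ a b, D a → DLe b a → D b) (p : Cond K) (m : ℕ)
    (h : p.len ≤ m + 1) (l : Top K m) {e0 : Set (Tr K)} (he : Val l.c (Lt K (kp K m)) e0) :
    ∃ e, Val l.c (Lt K (kp K m)) e ∧ e0 ⊆ e ∧ (l.c ^ #(p.b m) ≤ l.c →
      ∀ (t : Stem K) (d : Low K), Adm p t (m + 1) → (t m).top = l → (d m).lam = l →
        e ⊆ (d m).e → D (setLow (act p t (m + 1) h) d) → Hold D p m h t d e) := by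
  by_cases hl : l.c ^ #(p.b m) ≤ l.c
  swap
  · exact ⟨e0, he, Subset.rfl, fun k => absurd k hl⟩
  obtain ⟨R, r1, r2⟩ := task_reps p m l hl
  obtain ⟨e, e1, e2⟩ := seq_meet (S := {e : Set (Tr K) // Val l.c (Lt K (kp K m)) e})
    (fun a b => b.1 ⊆ a.1) (fun _ => Subset.rfl) (fun _ _ _ k k' => k'.trans k) (ρ := l.c)
    (fun I f _ hI ht => ⟨⟨⋃ i, (f i).1, Val.iUnion l.inf hI (fun i => (f i).2)
      fun i j => (ht i j).symm⟩, subset_iUnion (fun i => (f i).1)⟩) (T := R) r1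
    (fun τ a => ∀ e', Val l.c (Lt K (kp K m)) e' → a.1 ⊆ e' → Hold D p m h τ.1.1 τ.1.2 e' →
      Hold D p m h τ.1.1 τ.1.2 a.1)
    (fun τ a b g k e' k1 k2 k3 => (g e' k1 (k.trans k2) k3).mono k) ⟨e0, he⟩
    (fun τ a _ => by
      by_cases hx : ∃ e', Val l.c (Lt K (kp K m)) e' ∧ a.1 ⊆ e' ∧ Hold D p m h τ.1.1 τ.1.2 e'
      · obtain ⟨e', k1, k2, k3⟩ := hx
        exact ⟨⟨e', k1⟩, k2, fun _ _ _ _ => k3⟩
      · exact ⟨a, Subset.rfl, fun e' k1 k2 k3 => absurd ⟨e', k1, k2, k3⟩ hx⟩)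
  refine ⟨e.1, e.2, e1, fun _ t d a k1 k2 k3 k4 => ?_⟩
  obtain ⟨x, x1, x2, x3, x4, x5⟩ := r2 t d k1 k2
  exact (e2 ⟨x, x1⟩ (d m).e (k2 ▸ (d m).he) k3 ((Hold.intro hD k4).congr hD (a.agr x2) x2.symm
    (fun k hk => (x3 k hk).le) (x4.trans k2.symm) x5.ge)).congr hD a x2
    (fun k hk => (x3 k hk).ge) (k2.trans x4.symm) x5.le

lemma of_one_step {D : Cond K → Prop} (hop : ∀ a b, D a → b ≤ a → D b)
    (hreg : ∀ q, (∀ r ≤ q, ∃ r' ≤ r, D r') → D q) {q : Cond K} {m : ℕ} (h : q.len ≤ m)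
    (H : ∀ t, Adm q t m → D (act q t m h)) : D q := by
  refine hreg q fun r hr => ?_
  obtain ⟨r', k1, k2⟩ := exists_long r m
  obtain ⟨t, a, k3⟩ := le_split (k1.trans hr) h k2
  exact ⟨r', k1, hop _ _ (H t a) k3⟩

section Prikry

variable {J : Type} {D : J → Cond K → Prop} (hop : ∀ j a b, D j a → b ≤ a → D j b)
  (hreg : ∀ j q, (∀ r ≤ q, ∃ r' ≤ r, D j r') → D j q)
  (hdir : ∀ n (f : Obj K n → J), #(range f) ≤ kp K n →
    ∃ j, ∀ᶠ μ in (EE K n : Filter (Obj K n)), ∀ q, D (f μ) q → D j q)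

include hop hreg hdir

theorem prikry_step (p : Cond K) (m : ℕ) (h : p.len ≤ m)
    (hp : ∀ t, Adm p t m → ∀ r, DLe r (act p t m h) → ¬ ∃ j, D j r) :
    ∃ p', DLe p' p ∧ ∀ t h', Adm p' t (m + 1) → ∀ r, DLe r (act p' t (m + 1) h') →
      ¬ ∃ j, D j r := by
  classical
  have hD : ∀ a b, (∃ j, D j a) → DLe b a → ∃ j, D j b :=
    fun a b k e => k.imp fun j k => hop j a b k e.le
  obtain ⟨p1, f1, d1⟩ := diag p (m + 1) (I := Unit)
    (by simpa using one_lt_aleph0.le.trans (pre_inf _)) (fun _ q => ∃ j, D j q) fun _ => hD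
  have h0 : p1.len ≤ m := f1.dle.len ▸ h
  have h1 : p1.len ≤ m + 1 := h0.trans (Nat.le_succ m)
  choose e e1 e2 e3 using fun l => ediag hD p1 m h1 l (root_val (p1.H m) l)
  obtain ⟨h', hh1, hh2⟩ := hh_ext (p1.H m) e fun l => ⟨e1 l, e2 l⟩
  have s2 := setH_dle p1 hh1
  let X : Set (Obj K m) := {μ | ∃ (t : Stem K) (d : Low K), Agr (p1.b m) (t m) μ ∧
    Adm p1 t (m + 1) ∧ (∀ k < m, d k ≤ (act p1 t (m + 1) h1).low k) ∧ (d m).lam = μ.top ∧
    img μ (p1.C m t) ⊆ (d m).c ∧ Hold (fun q => ∃ j, D j q) p1 m h1 t d (e μ.top)}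
  have hX : X ∉ EE K m := by
    intro hX
    obtain ⟨R, r1, r2⟩ := stem_reps p1 m
    obtain ⟨L, l1, l2⟩ := seq_reps (K := K) mk_Lo m
    obtain ⟨⟨t0, d0⟩, -, hx⟩ := ae_ex (EE K m) _ (R := R ×ˢ L)
      ((mk_sprod_le' (pre_inf m) r1 l1).trans_lt (pre_lt m))
      (Q := fun μ x => ∃ (t : Stem K) (d : Low K), (Agr (p1.b m) (t m) μ ∧
        Adm p1 t (m + 1) ∧ (∀ k < m, d k ≤ (act p1 t (m + 1) h1).low k) ∧ (d m).lam = μ.top ∧
        img μ (p1.C m t) ⊆ (d m).c ∧ Hold (fun q => ∃ j, D j q) p1 m h1 t d (e μ.top)) ∧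
        SAgr p1.b univ p1.len m t x.1 ∧ ∀ k < m, x.2 k = d k) (by
          filter_upwards [hX] with μ ⟨t, d, k⟩
          obtain ⟨t0, k1, k2⟩ := r2 t
          obtain ⟨d0, k3, k4⟩ := l2 d
          exact ⟨(t0, d0), ⟨k1, k3⟩, t, d, k, k2, k4⟩)
    dsimp only at hx
    let Θ : Obj K m → Set (Tr K) × J → Prop := fun μ x =>
      Val (pre K m) (Iio μ.top.1) x.1 ∧ img μ (p1.C m t0) ⊆ x.1 ∧
        ∀ (t : Stem K) (d : Low K), SAgr p1.b univ p1.len m t t0 → Agr (p1.b m) (t m) μ →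
          Adm p1 t (m + 1) → (∀ k < m, d k ≤ d0 k) → (d m).lam = μ.top → x.1 ⊆ (d m).c →
          e μ.top ⊆ (d m).e → D x.2 (setLow (act p1 t (m + 1) h1) d)
    have t1 : ∀ μ ν, Agr (p1.b m) μ ν → ∀ x, Θ μ x → Θ ν x := fun μ ν a x k =>
      ⟨a.1 ▸ k.1, img_agr a (p1.hC m h0 t0) ▸ k.2.1, fun t d j1 j2 j3 j4 j5 j6 j7 =>
        k.2.2 t d j1 (j2.trans a.symm) j3 j4 (j5.trans a.1.symm) j6 (a.1 ▸ j7)⟩
    have t2 : ∀ᶠ μ in (EE K m : Filter (Obj K m)), ∃ x, Θ μ x := by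
      filter_upwards [hx] with μ ⟨t, d, ⟨k1, k2, _, k4, k5, k6⟩, k7, k8⟩
      let d' : Low K := Function.update d m
        ⟨μ.top, (d m).c, e μ.top, k4 ▸ (d m).hc, e1 _⟩
      have j1 : ∀ k < m, d' k = d k := fun k hk => Function.update_of_ne hk.ne _ _
      have j2 : d' m = ⟨μ.top, (d m).c, e μ.top, k4 ▸ (d m).hc, e1 _⟩ := Function.update_self _ _ _
      obtain ⟨j, hj⟩ := k6 d' (fun k hk => (j1 k hk).le) (by rw [j2]; exact k4.symm)
        (by rw [j2]) (by rw [j2])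
      refine ⟨((d m).c, j), k4 ▸ (d m).hc, (img_mono μ (p1.hCi.sub h0 k7.symm)).trans k5,
        fun t' d'' i1 i2 i3 i4 i5 i6 i7 => hop j _ _ hj (DLe.le (setLow_mono
          (act_agr h1 i3 fun k n1 n2 => ?_) fun k hk => ?_))⟩
      · rcases (Nat.lt_succ_iff.1 n2).eq_or_lt with rfl | n3
        · exact (i2.trans k1.symm).mono inter_subset_left
        · exact (i1.trans k7.symm) k n1 n3
      · rcases (Nat.lt_succ_iff.1 hk).eq_or_lt with rfl | n3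
        · rw [j2]; exact ⟨i5, i6, i7⟩
        · rw [j1 k n3, ← k8 k n3]; exact i4 k n3
    obtain ⟨_, x0, -⟩ := t2.exists
    let f : Obj K m → Set (Tr K) × J := fun μ => @Classical.epsilon _ ⟨x0⟩ (Θ μ)
    have t3 : ∀ᶠ μ in (EE K m : Filter (Obj K m)), Θ μ (f μ) :=
      t2.mono fun μ k => Classical.epsilon_spec k
    obtain ⟨j, hj⟩ := hdir m (fun μ => (f μ).2) (range_agr (p1.hb m h0) _ fun μ ν a => by
      have : Θ μ = Θ ν := funext fun x => propext ⟨t1 μ ν a x, t1 ν μ a.symm x⟩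
      simp only [f, this])
    obtain ⟨b', C', c1, c2, c3, c4, c5⟩ := exists_pull (p1.hb m h0) (p1.hC m h0 t0)
      (fun μ => (f μ).1) (t3.mono fun _ k => ⟨k.1, k.2.1⟩)
    obtain ⟨_, t, d, ⟨-, k2, k3, -⟩, k7, k8⟩ := hx.exists
    have a0 : Adm p1 t0 m := (k2.mono (Nat.le_succ m)).agr k7
    have s3 : DLe (act (setH p1 m h') t0 m h0) (act p1 t0 m h0) := act_mono s2 h0 h0 a0
    have s4 : DLe (setLow (act (setH p1 m h') t0 m h0) d0) (act p1 t0 m h0) :=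
      setLow_dle s3 fun k hk => (k8 k hk).le.trans ((k3 k hk).trans (low_le
        ((act_le_act h0 (Nat.le_succ m) k2).trans
          (act_agr h0 (k2.mono (Nat.le_succ m)) k7).le) hk))
    obtain ⟨q, q1, q2, q3⟩ := exists_first (setLow (act (setH p1 m h') t0 m h0) d0) (m := m) rfl
      (A := {μ | ∃ ν, Agr b' μ ν ∧ Θ ν (f ν) ∧ (∀ q, D (f ν).2 q → D j q) ∧ (f ν).1 ⊆ img ν C'})
      c1 c3 (mem_of_superset (t3.and (hj.and c5)) fun μ k => ⟨μ, Agr.refl _ _, k⟩)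
      (fun μ ν a ⟨ξ, k1, k2⟩ => ⟨ξ, a.symm.trans k1, k2⟩) c4
      (fun s => (p1.hCi.sub h0 (sagr_merge_left _ _ _ le_rfl _ _)).trans c2)
    have ql : q.len = m := q1.len
    refine hp t0 (a0.dle f1.dle) q ((q1.trans s4).trans (act_mono f1.dle h0 h a0))
      ⟨j, of_one_step (hop j) (hreg j) (ql.le.trans (Nat.le_succ m)) fun t' a' => ?_⟩
    have a1 := a' m ql.le (Nat.lt_succ_self m)
    obtain ⟨ν, n1, n2, n3, n4⟩ := q2 a1
    have s5 := (act_mono (q1.trans s4) (ql.le.trans (Nat.le_succ m)) (Nat.le_succ m) a').trans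
      (act_act p1 t0 t' h0 (Nat.le_succ m)).1
    refine hop j _ _ (n3 _ (n2.2.2 (merge m t0 t') _ (sagr_merge_left _ _ _ le_rfl _ _) ?_
      (adm_merge a0 (a'.dle (q1.trans s4))) (fun k hk => ?_) ?_ ?_ ?_))
      (dle_setLow s5 fun _ _ => le_rfl).le
    · rw [merge_ge le_rfl]; exact n1.mono c1
    · rw [act_low_lt _ _ (ql ▸ hk)]; exact q1.ex.low k hk
    · rw [act_low_ge _ _ ql.le]; exact n1.1
    · rw [act_low_ge _ _ ql.le, actLo_c ql.le a1, q3, img_agr n1 c4]; exact n4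
    · rw [act_low_ge _ _ ql.le, ← n1.1]
      refine (hh2 _).trans (root_mono ?_ _)
      exact (q1.ex.H m le_rfl).trans (setH_H p1 m h').le
  obtain ⟨p', s5, s6⟩ := exists_shrink1 (setH p1 m h') m
    (X := Xᶜ ∩ {μ | μ.top.c ^ #(p1.b m) ≤ μ.top.c})
    (inter_mem (Ultrafilter.compl_mem_iff_notMem.2 hX) (Ext.pw m _ (p1.hb m h0)))
    (fun μ ν a k => ⟨fun ⟨t, d, k1, k2, k3, k4, k5, k6⟩ => k.1 ⟨t, d, k1.trans a.symm, k2, k3,
      k4.trans a.1.symm, img_agr (b := p1.b m) a (p1.hC m h0 t) ▸ k5, a.1 ▸ k6⟩, by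
        rw [mem_ofPred_eq, ← a.1]; exact k.2⟩)
  refine ⟨p', (s5.trans s2).trans f1.dle, fun t h2 a r hr hD' => ?_⟩
  have a2 := a.dle s5
  have a1 := a2.dle s2
  have r2 := hr.trans (act_mono s5 h2 h1 a)
  have r1 := r2.trans (act_mono s2 h1 h1 a2)
  have l1 : r.low m ≤ actLo p1 t m := (r1.ex.low m (Nat.lt_succ_self m)).trans (act_low_ge _ _ h0).le
  have l2 : r.low m ≤ actLo (setH p1 m h') t m :=
    (r2.ex.low m (Nat.lt_succ_self m)).trans (act_low_ge (p := setH p1 m h') _ _ h0).le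
  have a3 := s6 (a m (s5.len ▸ h0) (Nat.lt_succ_self m))
  refine a3.1 ⟨t, r.low, Agr.refl _ _, a1, fun k hk => r1.ex.low k (hk.trans (Nat.lt_succ_self m)),
    l1.1, (actLo_c h0 (a1 m h0 (Nat.lt_succ_self m))).ge.trans l1.2.1,
    e3 _ a3.2 t r.low a1 rfl l1.1 ((hh2 _).trans (Subset.trans ?_ l2.2.2))
      (d1 () t h1 r (a1.dle f1.dle) r1 hD')⟩
  exact root_mono (setH_H p1 m h').le _

theorem prikry (p : Cond K) (hd : ∀ q ≤ p, ∃ r ≤ q, ∃ j, D j r) : ∃ q, DLe q p ∧ ∃ j, D j q := by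
  by_contra hc
  obtain ⟨q, h1, h2⟩ := dle_meet (fun m q => ∀ t h, Adm q t m → ∀ r, DLe r (act q t m h) →
      ¬ ∃ j, D j r) p
    (fun m a b g e t h k r hr => g t (e.len ▸ h) (k.dle e) r (hr.trans (act_mono e h _ k)))
    (fun m => by
      induction m with
      | zero =>
        exact fun q hq => ⟨q, DLe.refl q, fun t h k r hr hj =>
          hc ⟨r, dle_of_le ((hr.le.trans (act_le h k)).trans hq.le)
            (hr.len.le.trans (Nat.zero_le _)), hj⟩⟩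
      | succ m ih =>
        intro q hq
        rcases le_or_gt q.len m with l | l
        · obtain ⟨r, k1, k2⟩ := ih q hq
          obtain ⟨r', k3, k4⟩ := prikry_step hop hreg hdir r m (k1.len ▸ l) fun t => k2 t _
          exact ⟨r', k3.trans k1, k4⟩
        · exact ⟨q, DLe.refl q, fun t h k r hr hj =>
            hc ⟨r, dle_of_le ((hr.le.trans (act_le h k)).trans hq.le)
              (hr.len.le.trans (hq.len ▸ l)), hj⟩⟩)
  obtain ⟨r, ⟨h, t, a, e⟩, hj⟩ := hd q h1.le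
  exact h2 _ t h a r e hj

end Prikry

theorem prikry_small {J : Type} (hJ : #J ≤ ℵ₀) {D : J → Cond K → Prop}
    (hop : ∀ j a b, D j a → b ≤ a → D j b) (hreg : ∀ j q, (∀ r ≤ q, ∃ r' ≤ r, D j r') → D j q)
    (p : Cond K) (hd : ∀ q ≤ p, ∃ r ≤ q, ∃ j, D j r) : ∃ q, DLe q p ∧ ∃ j, D j q :=
  prikry hop hreg (fun n f _ => (ae_cst' (EE K n) _ (hJ.trans_lt (kp_unc (K := K) n)) f).imp
    fun _ k => k.mono fun _ e _ l => e ▸ l) p hd

end Pool.Agent.Lib.MP_d4b40b_lc
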