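import Pool.Agent.Lib.MP_d4b40b_lc.Card

set_option autoImplicit false
set_option linter.unusedSectionVars false

namespace Pool.Agent.Lib.MP_d4b40b_lc

open Filter Set Cardinal

/-- a measurable cardinal with a normal measure and a sequence of smaller cardinals -/
class Sys (K : Type) [LinearOrder K] where
  κ : ℕ → Cardinal.{0}
  U : Ultrafilter K
  mono : StrictMono κ
  unc : ℵ₀ < κ 0
  lt : ∀ n, κ n < #K
  ord : ∀ β : K, #(Iio β) < #K
  cpl : CardinalInterFilter (U : Filter K) #K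
  tail : ∀ α, ∀ᶠ β in (U : Filter K), α < β
  normal : ∀ f : K → K, (∀ᶠ β in (U : Filter K), f β < β) → ∃ α, ∀ᶠ β in (U : Filter K), f β = α

variable (K : Type) [LinearOrder K] [Sys K]

abbrev kp (n : ℕ) : Cardinal.{0} := Sys.κ K n

abbrev UU : Ultrafilter K := Sys.U

/-- the previous cardinal of the sequence -/
def pre : ℕ → Cardinal.{0}
  | 0 => ℵ₀
  | n + 1 => kp K n

/-- the supremum of the sequence -/
noncomputable def ks : Cardinal.{0} := ⨆ n, kp K n

instance : CardinalInterFilter (UU K : Filter K) #K := Sys.cpl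

variable {K}

lemma pre_lt (n : ℕ) : pre K n < kp K n := by
  cases n with
  | zero => exact Sys.unc
  | succ n => exact Sys.mono (Nat.lt_succ_self n)

lemma pre_mono : Monotone (pre K) := monotone_nat_of_le_succ fun n => (pre_lt n).le

lemma pre_inf (n : ℕ) : ℵ₀ ≤ pre K n := pre_mono (K := K) (Nat.zero_le n)

lemma kp_unc (n : ℕ) : ℵ₀ < kp K n := (pre_inf n).trans_lt (pre_lt n)

lemma kp_le_pre {k m : ℕ} (h : k < m) : kp K k ≤ pre K m := pre_mono (K := K) (Nat.succ_le_of_lt h)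

lemma pre_lt_kp {m n : ℕ} (h : m ≤ n) : pre K m < kp K n := (pre_mono h).trans_lt (pre_lt n)

lemma kp_le_ks (n : ℕ) : kp K n ≤ ks K := le_ciSup (f := kp K) bddAbove_of_small n

lemma pre_le_ks (n : ℕ) : pre K n ≤ ks K := (pre_lt n).le.trans (kp_le_ks n)

lemma ks_inf : ℵ₀ ≤ ks K := pre_le_ks 0

lemma lt_ks {ρ : Cardinal.{0}} (h : ρ < ks K) : ∃ n, ρ < kp K n := by
  by_contra h'
  push Not at h'
  exact absurd (ciSup_le' h') (not_le.2 h)

lemma inacc_K : IsInaccessible #K :=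
  inacc_of_ultra (UU K) _ (fun t => (Sys.tail t).mono fun _ h => h.ne') le_rfl
    ((kp_unc 0).trans (Sys.lt 0))

lemma K_inf : ℵ₀ ≤ #K := inacc_K.1.le

lemma ks_lt : ks K < #K :=
  iSup_lt_of_lt_cof_ord (by simpa using inacc_K.1.trans_le inacc_K.2) Sys.lt

lemma succ_ks_lt : Order.succ (ks K) < #K := inacc_succ_lt inacc_K ks_lt

lemma ae_press {Q : K → K → Prop} (h : ∀ᶠ α in (UU K : Filter K), ∃ δ < α, Q α δ) :
    ∃ δ, ∀ᶠ α in (UU K : Filter K), Q α δ := by
  classical
  let f : K → K := fun α => if h : ∃ δ < α, Q α δ then h.choose else α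
  have h2 : ∀ᶠ α in (UU K : Filter K), f α < α ∧ Q α (f α) := by
    filter_upwards [h] with α hα
    simp only [f, dif_pos hα]
    exact hα.choose_spec
  obtain ⟨δ, hδ⟩ := Sys.normal f (h2.mono fun _ h => h.1)
  exact ⟨δ, (h2.and hδ).mono fun α k => k.2 ▸ k.1.2⟩

lemma ae_above {S : Set K} (h : #S < #K) : ∀ᶠ α in (UU K : Filter K), S ⊆ Iio α :=
  ae_ball (UU K) _ h (Q := fun α β => β < α) fun β _ => Sys.tail β

/-- the cofinality of `α` is above the supremum -/
def Cf (α : K) : Prop := ∀ S ⊆ Iio α, #S ≤ ks K → ∃ δ < α, S ⊆ Iio δ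

lemma exists_enum {A : Type} {S : Set A} {c : Cardinal.{0}} (h : #S ≤ c) :
    ∃ e : c.out → Option A, (∀ i a, e i = some a → a ∈ S) ∧ ∀ a ∈ S, ∃ i, e i = some a := by
  classical
  obtain ⟨g⟩ : Nonempty (S ↪ c.out) := by rw [← Cardinal.le_def]; simpa using h
  refine ⟨fun i => if h : ∃ a, g a = i then some h.choose.1 else none, fun i a ha => ?_,
    fun a ha => ⟨g ⟨a, ha⟩, ?_⟩⟩
  · by_cases h : ∃ a, g a = i
    · simp only [dif_pos h, Option.some.injEq] at ha
      exact ha ▸ h.choose.2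
    · simp only [dif_neg h] at ha; cases ha
  · have h : ∃ a', g a' = g ⟨a, ha⟩ := ⟨_, rfl⟩
    simp only [dif_pos h, g.injective h.choose_spec]

lemma ae_cf : ∀ᶠ α in (UU K : Filter K), Cf α := by
  by_contra h
  have h1 : ∀ α : K, ∃ S : Set K, ¬ Cf α → S ⊆ Iio α ∧ #S ≤ ks K ∧ ∀ δ < α, ¬ S ⊆ Iio δ := by
    intro α
    by_cases hα : Cf α
    · exact ⟨∅, fun h => absurd hα h⟩
    · have := hα
      simp only [Cf, not_forall, not_exists, not_and] at this
      obtain ⟨S, k1, k2, k3⟩ := this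
      exact ⟨S, fun _ => ⟨k1, k2, k3⟩⟩
  choose S hS using h1
  have h2 : ∀ α : K, ∃ e : (ks K).out → Option K, ¬ Cf α →
      (∀ i a, e i = some a → a ∈ S α) ∧ ∀ a ∈ S α, ∃ i, e i = some a := by
    intro α
    by_cases hα : Cf α
    · exact ⟨fun _ => none, fun h => absurd hα h⟩
    · exact (exists_enum (hS α hα).2.1).imp fun _ h _ => h
  choose e he using h2
  have h0 := Ultrafilter.eventually_not.2 h
  have h3 : ∀ i, ∃ δ, ∀ᶠ α in (UU K : Filter K), ∀ a, e α i = some a → a = δ := by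
    intro i
    obtain ⟨α0, -⟩ := h0.exists
    refine ae_press ?_
    filter_upwards [h0, Sys.tail α0] with α k1 k2
    cases l : e α i with
    | none => exact ⟨α0, k2, fun a ha => by cases ha⟩
    | some a => exact ⟨a, (hS α k1).1 ((he α k1).1 i a l), fun a' ha' => by cases ha'; rfl⟩
  choose d hd using h3
  have h4 := ae_all (UU K) _ (J := (ks K).out) (by simpa using ks_lt) hd
  obtain ⟨δ, hδ⟩ := (ae_above (S := range d) (mk_range_le.trans_lt (by simpa using ks_lt))).exists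
  obtain ⟨α, k1, k2, k3⟩ := (h0.and (h4.and (Sys.tail δ))).exists
  refine (hS α k1).2.2 δ k3 fun a ha => ?_
  obtain ⟨i, hi⟩ := (he α k1).2 a ha
  exact hδ ⟨i, (k2 i a hi).symm⟩

variable (K) in
/-- possible reflections of the top cardinal -/
def Nice (n : ℕ) (l : K) : Prop :=
  #(Iio l) < kp K n ∧ pre K n < #(Iio l) ∧ #(Iio l) ^ pre K n ≤ #(Iio l) ∧
    ∀ S ⊆ Iio l, #S ≤ pre K n → ∃ γ < l, ∀ β ∈ S, β ≤ γ

variable (K) in
abbrev Top (n : ℕ) : Type := {l : K // Nice K n l}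

/-- the cardinality of a top -/
abbrev Top.c {n : ℕ} (l : Top K n) : Cardinal.{0} := #(Iio l.1)

lemma Top.inf {n : ℕ} (l : Top K n) : ℵ₀ ≤ l.c := (pre_inf n).trans l.2.2.1.le

variable (K) in
/-- objects -/
structure Obj (n : ℕ) where
  top : Top K n
  f : K → K
  le : ∀ β, f β ≤ top.1

variable (K) in
/-- the extenders derived from supercompactness measures -/
class Ext where
  E : ∀ n, Ultrafilter (Obj K n)
  cpl : ∀ n, CardinalInterFilter (E n : Filter (Obj K n)) (kp K n)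
  lt : ∀ n β β', β < β' → ∀ᶠ μ in (E n : Filter (Obj K n)), μ.f β < μ.f β'
  top : ∀ n β, ∀ᶠ μ in (E n : Filter (Obj K n)), μ.f β < μ.top.1
  nor : ∀ n (g : Obj K n → K), (∀ᶠ μ in (E n : Filter (Obj K n)), g μ < μ.top.1) →
    ∃ β, ∀ᶠ μ in (E n : Filter (Obj K n)), g μ = μ.f β
  pw : ∀ n ρ, ρ < kp K n → ∀ᶠ μ in (E n : Filter (Obj K n)), μ.top.c ^ ρ ≤ μ.top.c

theorem exists_ext [WellFoundedLT K] (W : ℕ → Ultrafilter (Set K))
    (hc : ∀ n, CardinalInterFilter (W n : Filter (Set K)) (kp K n))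
    (hs : ∀ n, ∀ᶠ x : Set K in (W n : Filter (Set K)), #x < kp K n)
    (hf : ∀ n β, ∀ᶠ x : Set K in (W n : Filter (Set K)), β ∈ x)
    (hn : ∀ n (g : Set K → K), (∀ᶠ x : Set K in (W n : Filter (Set K)), g x ∈ x) →
      ∃ β, ∀ᶠ x : Set K in (W n : Filter (Set K)), g x = β) : Nonempty (Ext K) := by
  classical
  have hK : Nonempty K := mk_ne_zero_iff.1 inacc_K.ne_zero
  have hsub : ∀ n (S : Set K), #S < kp K n → ∀ᶠ x : Set K in (W n : Filter (Set K)), S ⊆ x :=
    fun n S hS => ae_ball (W n) _ hS fun β _ => hf n β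
  have hfun : ∀ n (I : Type) (g : Set K → I → K), #I < kp K n →
      (∀ᶠ x : Set K in (W n : Filter (Set K)), ∀ i, g x i ∈ x) →
      ∃ g0, ∀ᶠ x : Set K in (W n : Filter (Set K)), g x = g0 := by
    intro n I g hI hg
    choose g0 hg0 using fun i => hn n (fun x => g x i) (hg.mono fun x hx => hx i)
    exact ⟨g0, (ae_all (W n) _ hI hg0).mono fun x hx => funext hx⟩
  have hall : ∀ n (I : Type) (Q : Set K → (I → K) → Prop), #I < kp K n →
      (∀ g, ∀ᶠ x : Set K in (W n : Filter (Set K)), Q x g) →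
      ∀ᶠ x : Set K in (W n : Filter (Set K)), ∀ g : I → K, (∀ i, g i ∈ x) → Q x g := by
    intro n I Q hI hQ
    by_contra h
    have h1 : ∀ x : Set K, ∃ g : I → K, (¬ ∀ g : I → K, (∀ i, g i ∈ x) → Q x g) →
        (∀ i, g i ∈ x) ∧ ¬ Q x g := by
      intro x
      by_cases hx : ∀ g : I → K, (∀ i, g i ∈ x) → Q x g
      · exact ⟨fun _ => hK.some, fun h => absurd hx h⟩
      · have := hx
        push Not at this
        exact this.imp fun _ h _ => h
    choose g hg using h1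
    have h0 := Ultrafilter.eventually_not.2 h
    obtain ⟨g0, hg0⟩ := hfun n I g hI (h0.mono fun x hx => (hg x hx).1)
    obtain ⟨x, k1, k2, k3⟩ := (h0.and (hg0.and (hQ g0))).exists
    exact (hg x k1).2 (k2 ▸ k3)
  have hpw : ∀ n ρ, ρ < kp K n → ∀ᶠ x : Set K in (W n : Filter (Set K)), #x ^ ρ ≤ #x := by
    intro n ρ hρ
    obtain ⟨cd⟩ : Nonempty ((ρ.out → K) ↪ K) := by
      rw [← Cardinal.le_def]
      simpa using inacc_pow_le inacc_K (hρ.trans (Sys.lt n))
    filter_upwards [hall n ρ.out (fun x g => cd g ∈ x) (by simpa using hρ) fun g => hf n _]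
      with x hx
    have : #(ρ.out → x) ≤ #x :=
      mk_le_of_injective (f := fun g => ⟨cd fun i => (g i).1, hx _ fun i => (g i).2⟩)
        fun g g' e => funext fun i =>
          Subtype.ext (congrFun (cd.injective (congrArg Subtype.val e)) i)
    simpa using this
  have hcol : ∀ x : Set K, ∃ (top : K) (f : K → K), #x < #K →
      StrictMonoOn f x ∧ f '' x = Iio top ∧ ∀ β, f β ≤ top := by
    intro x
    by_cases hx : #x < #K
    · obtain ⟨top, f, h⟩ := exists_collapse x hx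
      exact ⟨top, f, fun _ => h⟩
    · exact ⟨hK.some, id, fun h => absurd h hx⟩
  choose tp fn hcol using hcol
  have hcard : ∀ x : Set K, #x < #K → #(Iio (tp x)) = #x := fun x hx => by
    rw [← (hcol x hx).2.1]
    exact mk_image_eq_of_injOn _ _ (hcol x hx).1.injOn
  have hs' : ∀ n, ∀ᶠ x : Set K in (W n : Filter (Set K)), #x < #K :=
    fun n => (hs n).mono fun x hx => hx.trans (Sys.lt n)
  have hnice : ∀ n, ∀ᶠ x : Set K in (W n : Filter (Set K)), #x < #K ∧ Nice K n (tp x) := by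
    intro n
    obtain ⟨S, hS⟩ := le_mk_iff_exists_set.1 ((pre_lt n).trans (Sys.lt (K := K) n)).le
    have hb := hall n (pre K n).out (fun x g => ∃ β ∈ x, ∀ i, g i < β) (by simpa using pre_lt n)
      (fun g => by
        obtain ⟨β, hβ⟩ := (ae_above (S := range g) (mk_range_le.trans_lt
          (by simpa using (pre_lt n).trans (Sys.lt n)))).exists
        exact (hf n β).mono fun x hx => ⟨β, hx, fun i => hβ (mem_range_self i)⟩)
    filter_upwards [hs n, hs' n, hsub n S (hS.trans_lt (pre_lt n)), hpw n _ (pre_lt n), hb,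
      hf n hK.some] with x k1 k2 k3 k4 k5 k6
    have k7 : pre K n ≤ #x := hS ▸ mk_le_mk_of_subset k3
    refine ⟨k2, by rwa [hcard x k2], ?_, by rwa [hcard x k2], fun T hT1 hT2 => ?_⟩
    · rw [hcard x k2]
      refine (cantor _).trans_le (le_trans (power_le_power_right ?_) k4)
      exact (natCast_lt_aleph0 (n := 2)).le.trans ((pre_inf n).trans k7)
    · obtain ⟨e, he1, he2⟩ := exists_enum hT2
      have : ∀ i, ∃ y ∈ x, ∀ a, e i = some a → fn x y = a := by
        intro i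
        cases l : e i with
        | none => exact ⟨_, k6, fun a ha => by cases ha⟩
        | some a =>
          obtain ⟨y, h1, h2⟩ : a ∈ fn x '' x := (hcol x k2).2.1 ▸ hT1 (he1 i a l)
          exact ⟨y, h1, fun a' ha' => by cases ha'; exact h2⟩
      choose g hg1 hg2 using this
      obtain ⟨β, h1, h2⟩ := k5 g hg1
      refine ⟨fn x β, (hcol x k2).2.1.subset (mem_image_of_mem _ h1), fun a ha => ?_⟩
      obtain ⟨i, hi⟩ := he2 a ha
      exact hg2 i a hi ▸ ((hcol x k2).1 (hg1 i) h1 (h2 i)).le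
  choose x0 hx0 using fun n => (hnice n).exists
  let ob : ∀ n, Set K → Obj K n := fun n x =>
    if h : #x < #K ∧ Nice K n (tp x) then ⟨⟨tp x, h.2⟩, fn x, (hcol x h.1).2.2⟩
    else ⟨⟨tp (x0 n), (hx0 n).2⟩, fn (x0 n), (hcol _ (hx0 n).1).2.2⟩
  have hob : ∀ n, ∀ᶠ x : Set K in (W n : Filter (Set K)), (ob n x).top.1 = tp x ∧ (ob n x).f = fn x :=
    fun n => (hnice n).mono fun x hx => by simp only [ob, dif_pos hx, and_self]
  refine ⟨⟨fun n => (W n).map (ob n), fun n => by rw [Ultrafilter.coe_map]; infer_instance,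
    fun n β β' h => ?_, fun n β => ?_, fun n g hg => ?_, fun n ρ hρ => ?_⟩⟩
  · show ∀ᶠ x : Set K in (W n : Filter (Set K)), (ob n x).f β < (ob n x).f β'
    filter_upwards [hob n, hs' n, hf n β, hf n β'] with x k1 k2 k3 k4
    rw [k1.2]
    exact (hcol x k2).1 k3 k4 h
  · show ∀ᶠ x : Set K in (W n : Filter (Set K)), (ob n x).f β < (ob n x).top.1
    filter_upwards [hob n, hs' n, hf n β] with x k1 k2 k3
    rw [k1.1, k1.2]
    exact (hcol x k2).2.1.subset (mem_image_of_mem _ k3)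
  · have hg' : ∀ᶠ x : Set K in (W n : Filter (Set K)), g (ob n x) < (ob n x).top.1 := hg
    have h1 : ∀ x : Set K, ∃ y, g (ob n x) ∈ fn x '' x → y ∈ x ∧ fn x y = g (ob n x) := by
      intro x
      by_cases hx : g (ob n x) ∈ fn x '' x
      · exact hx.imp fun _ h _ => h
      · exact ⟨hK.some, fun h => absurd h hx⟩
    choose y hy using h1
    have h2 : ∀ᶠ x : Set K in (W n : Filter (Set K)), y x ∈ x ∧ fn x (y x) = g (ob n x) := by
      filter_upwards [hob n, hs' n, hg'] with x k1 k2 k3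
      refine hy x ?_
      rw [(hcol x k2).2.1]
      rwa [k1.1] at k3
    obtain ⟨β, hβ⟩ := hn n y (h2.mono fun _ h => h.1)
    refine ⟨β, ?_⟩
    show ∀ᶠ x : Set K in (W n : Filter (Set K)), g (ob n x) = (ob n x).f β
    filter_upwards [hob n, h2, hβ] with x k1 k2 k3
    rw [k1.2, ← k3, k2.2]
  · show ∀ᶠ x : Set K in (W n : Filter (Set K)), #(Iio (ob n x).top.1) ^ ρ ≤ #(Iio (ob n x).top.1)
    filter_upwards [hob n, hs' n, hpw n ρ hρ] with x k1 k2 k3
    rwa [k1.1, hcard x k2]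

end Pool.Agent.Lib.MP_d4b40b_lc
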