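import Pool.Agent.Lib.MP_d4b40b_lc.Copy

set_option autoImplicit false
set_option linter.unusedSectionVars false

namespace Pool.Agent.Lib.MP_d4b40b_lc

open Filter Set Cardinal

variable {K : Type} [LinearOrder K] [WellFoundedLT K] [Sys K] [Ext K]

theorem fam_meet {X : Type} {S : Set K} (m : ℕ) {T : Type} (hT : #T ≤ pre K m)
    (G : T → (X → Cond K) → Prop) (p : X → Cond K) (hp : ∀ x y, Ex S (p x) (p y))
    (hop : ∀ τ a b, G τ a → (∀ x, Fix m (b x) (a x)) → G τ b)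
    (hd : ∀ τ (q : X → Cond K), (∀ x y, Ex S (q x) (q y)) → (∀ x, Fix m (q x) (p x)) →
      ∃ r : X → Cond K, (∀ x y, Ex S (r x) (r y)) ∧ (∀ x, Fix m (r x) (q x)) ∧ G τ r) :
    ∃ q : X → Cond K, (∀ x y, Ex S (q x) (q y)) ∧ (∀ x, Fix m (q x) (p x)) ∧ ∀ τ, G τ q := by
  obtain ⟨q, h1, h2⟩ := seq_meet (S := {f : X → Cond K // ∀ x y, Ex S (f x) (f y)})
    (fun a b => ∀ x, Fix m (a.1 x) (b.1 x)) (fun _ _ => Fix.refl _ _)
    (fun _ _ _ k k' x => (k x).trans (k' x)) (ρ := pre K m)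
    (fun I f _ hI ht => by
      choose g g1 g2 using fun x => exists_lim hI (fun i => (f i).1 x)
        fun i j => (ht i j).imp (· x) (· x)
      exact ⟨⟨g, fun x y => g2 y S _ fun i => ((g1 x i).dle.exs S).trans ((f i).2 x y)⟩,
        fun i x => g1 x i⟩) hT (fun τ a => G τ a.1) (fun τ a b => hop τ a.1 b.1) ⟨p, hp⟩
    (fun τ a ha => by
      obtain ⟨r, k1, k2, k3⟩ := hd τ a.1 a.2 ha
      exact ⟨⟨r, k1⟩, k2, k3⟩)
  exact ⟨q.1, q.2, h1, h2⟩

theorem fam_diag {X : Type} {S : Set K} (hS : IsLowerSet S) (m : ℕ) (hX : #X ≤ pre K m)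
    (p : X → Cond K) (hp : ∀ x y, Ex S (p x) (p y)) {Q : Cond K → Cond K → Prop}
    (hQ : ∀ a b a' b', Q a b → a' ≤ a → b' ≤ b → Q a' b') :
    ∃ q : X → Cond K, (∀ x y, Ex S (q x) (q y)) ∧ (∀ x, Fix m (q x) (p x)) ∧
      ∃ W : Set (Cond K × Cond K), #W ≤ pre K m ∧ (∀ u ∈ W, Q u.1 u.2) ∧
        ∀ x y, x ≠ y → ∀ a ≤ q x, ∀ b ≤ q y, a.len = m → Ex S a b → Ex S b a → Q a b →
          ∃ u ∈ W, a ≤ u.1 ∧ b ≤ u.2 := by
  classical
  choose R0 r1 r2 using fun x => stem_reps (p x) m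
  obtain ⟨L, l1, l2⟩ := seq_reps (K := K) mk_Lo m
  have r3 : #(⋃ x, R0 x) ≤ pre K m := mk_iUnion_le' (pre_inf m) hX r1
  let T := X × X × (⋃ x, R0 x) × (⋃ x, R0 x) × L
  have hT : #T ≤ pre K m := mk_prod_le' (pre_inf m) hX (mk_prod_le' (pre_inf m) hX
    (mk_prod_le' (pre_inf m) r3 (mk_prod_le' (pre_inf m) r3 l1)))
  obtain ⟨q, h1, h2, h3⟩ := fam_meet m hT (fun τ q => τ.1 ≠ τ.2.1 → ∀ h h' a b,
      Adm (q τ.1) τ.2.2.1.1 m → Adm (q τ.2.1) τ.2.2.2.1.1 m →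
      DLe a (act (q τ.1) τ.2.2.1.1 m h) → DLe b (act (q τ.2.1) τ.2.2.2.1.1 m h') →
      Ex S a b → Ex S b a → (∀ k < m, τ.2.2.2.2.1 k = a.low k) → Q a b →
      Q (setLow (act (q τ.1) τ.2.2.1.1 m h) τ.2.2.2.2.1)
        (setLow (act (q τ.2.1) τ.2.2.2.1.1 m h') τ.2.2.2.2.1)) p hp
    (fun τ f g k e hne h h' a b a1 a2 e1 e2 e3 e4 e5 e6 => by
      have j1 := act_mono (e _).dle h ((e _).dle.len ▸ h) a1
      have j2 := act_mono (e _).dle h' ((e _).dle.len ▸ h') a2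
      exact hQ _ _ _ _ (k hne _ _ a b (a1.dle (e _).dle) (a2.dle (e _).dle) (e1.trans j1)
        (e2.trans j2) e3 e4 e5 e6) (setLow_mono j1 fun _ _ => le_rfl).le
        (setLow_mono j2 fun _ _ => le_rfl).le)
    (by
      rintro ⟨x, y, ⟨t, t0⟩, ⟨t', t1⟩, ⟨d, d0⟩⟩ f hf -
      dsimp only
      by_cases hx : x ≠ y ∧ ∃ h h' a b, Adm (f x) t m ∧ Adm (f y) t' m ∧
        DLe a (act (f x) t m h) ∧ DLe b (act (f y) t' m h') ∧ Ex S a b ∧ Ex S b a ∧
        (∀ k < m, d k = a.low k) ∧ Q a b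
      · obtain ⟨hne, h, h', a, b, a1, a2, e1, e2, e3, e4, e5, e6⟩ := hx
        obtain ⟨f1, g1, g2, g3, g4⟩ := fam_pull hS f hf x h e1
        have h1' : (f1 y).len ≤ m := (g1 y).dle.len ▸ h'
        obtain ⟨f2, g5, g6, g7, -⟩ := fam_pull hS f1 g2 y h1'
          (g4 y hne.symm t' h' h1' b a2 e2 e4)
        refine ⟨f2, g6, fun z => (g5 z).trans (g1 z), fun _ j j' _ _ a3 _ _ _ _ _ _ _ =>
          hQ _ _ _ _ e6 ?_ ?_⟩
        · exact ((setLow_mono (act_mono (g5 x).dle j ((g5 x).dle.len ▸ j) a3)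
            fun k hk => (e5 k hk).le).trans (g3 _)).le
        · exact ((setLow_mono (DLe.refl (act (f2 y) t' m j')) fun k hk => (e5 k hk).le.trans
            (e3.low k (e2.len ▸ hk))).trans (g7 j')).le
      · exact ⟨f, hf, fun _ => Fix.refl _ _, fun hne h h' a b a1 a2 e1 e2 e3 e4 e5 e6 =>
          absurd ⟨hne, h, h', a, b, a1, a2, e1, e2, e3, e4, e5, e6⟩ hx⟩)
  let c : X → Stem K → Low K → Cond K := fun x t d =>
    if h : (q x).len ≤ m then setLow (act (q x) t m h) d else q x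
  refine ⟨q, h1, h2, {u | Q u.1 u.2} ∩ range fun τ : T =>
    (c τ.1 τ.2.2.1.1 τ.2.2.2.2.1, c τ.2.1 τ.2.2.2.1.1 τ.2.2.2.2.1),
    (mk_le_mk_of_subset inter_subset_right).trans (mk_range_le.trans hT), fun _ k => k.1, ?_⟩
  rintro x y hne a ⟨h, t, a1, e1⟩ b ⟨h', t', a2, e2⟩ rfl e3 e4 e6
  have bl := e4.len
  obtain ⟨t0, k1, k2⟩ := r2 x t
  obtain ⟨t1, k3, k4⟩ := r2 y t'
  obtain ⟨d, k5, k6⟩ := l2 a.low
  have k7 := (h2 x).sagr k2
  have k8 := (h2 y).sagr k4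
  have h'' : (q y).len ≤ a.len := bl ▸ h'
  have a2' : Adm (q y) t' a.len := bl ▸ a2
  have e2' : DLe b (act (q y) t' a.len h'') := by
    have : ∀ n (j : (q y).len ≤ n), n = b.len → DLe b (act (q y) t' n j) := by
      rintro n j rfl; exact e2
    exact this _ _ bl.symm
  have e1' := e1.trans (act_agr h a1 k7)
  have e2'' := e2'.trans (act_agr h'' a2' k8)
  refine ⟨_, ⟨?_, (x, y, ⟨t0, mem_iUnion.2 ⟨x, k1⟩⟩, ⟨t1, mem_iUnion.2 ⟨y, k3⟩⟩, ⟨d, k5⟩), rfl⟩,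
    ?_, ?_⟩
  · simp only [c, dif_pos h, dif_pos h'', mem_ofPred_eq]
    exact h3 (x, y, ⟨t0, mem_iUnion.2 ⟨x, k1⟩⟩, ⟨t1, mem_iUnion.2 ⟨y, k3⟩⟩, ⟨d, k5⟩) hne h h'' a b (a1.agr k7) (a2'.agr k8) e1' e2'' e3 e4
      k6 e6
  · simp only [c, dif_pos h]
    exact (dle_setLow e1' fun k hk => (k6 k hk).ge).le
  · simp only [c, dif_pos h'']
    exact (dle_setLow e2'' fun k hk => (e4.low k hk).trans (k6 k hk).ge).le

/-- gluing a tree of conditions along the coordinate `γ` -/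
theorem glue {α γ : K} (hγ : γ < α) {q0 : Cond K} (g : ℕ → (∀ k, Lt K (kp K k)) → Cond K)
    (h1 : ∀ n x y, (∀ k < n, x k = y k) → g n x = g n y)
    (h2 : ∀ n x y, Ex (Iio α) (g n x) (g n y)) (h3 : ∀ n x, Fix q0.len (g n x) q0)
    (h4 : ∀ n x, Fix (n + 1) (g (n + 1) x) (g n x)) :
    ∃ p, p ≤ q0 ∧ p.len = q0.len ∧ (∀ n, γ ∈ p.b n) ∧ ∀ t m h, Adm p t m →
      ∃ x, (∀ k, q0.len ≤ k → (x k).1 = (t k).f γ) ∧ act p t m h ≤ g m x := by
  have x0 : ∀ k, Lt K (kp K k) := fun k => ⟨_, (default : Obj K k).mem_Lt γ⟩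
  let xs : Stem K → ∀ k, Lt K (kp K k) := fun s k =>
    if q0.len ≤ k then ⟨(s k).f γ, (s k).mem_Lt γ⟩ else x0 k
  have gl : ∀ n x, (g n x).len = q0.len := fun n x => (h3 n x).dle.len
  have g1 : ∀ n n', n ≤ n' → ∀ x, Fix (n + 1) (g n' x) (g n x) := by
    intro n n' h x
    induction n', h using Nat.le_induction with
    | base => exact Fix.refl _ _
    | succ m h ih => exact ((h4 m x).mono (Nat.succ_le_succ h)).trans ih
  have g2 : ∀ n, #(range (g n)) ≤ pre K n := fun n => by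
    letI : ∀ k, Inhabited (Lt K (kp K k)) := fun k => ⟨x0 k⟩
    obtain ⟨L, l1, l2⟩ := seq_reps (K := K) (T := fun k => Lt K (kp K k)) (fun _ => mk_Lt_le _) n
    refine (mk_le_mk_of_subset (t := g n '' L) ?_).trans (mk_image_le.trans l1)
    rintro _ ⟨x, rfl⟩
    obtain ⟨y, k1, k2⟩ := l2 x
    exact ⟨y, k1, h1 n y x k2⟩
  let b : ℕ → Set K := fun n => insert γ (⋃ u ∈ range (g n), u.b n)
  have b1 : ∀ n x, (g n x).b n ⊆ b n := fun n x β k =>
    mem_insert_of_mem _ (mem_biUnion (mem_range_self x) k)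
  have b2 : ∀ n k x, q0.len ≤ k → (g n x).b k ⊆ b k ∨ n < k := fun n k x k1 => by
    rcases le_or_gt k n with l | l
    · exact Or.inl (((g1 k n l x).up k (Nat.lt_succ_self k) (gl k x ▸ k1)).1.trans (b1 k x))
    · exact Or.inr l
  have b3 : ∀ n, q0.len ≤ n → #(b n) < kp K n := fun n hn =>
    mk_insert_le.trans_lt (add_lt_of_lt (kp_unc n).le
      ((card_biUnion_lt_iff_forall_of_isRegular (t := fun (u : Cond K) _ => u.b n)
        (inacc_kp n).isRegular ((g2 n).trans_lt (pre_lt n))).2 (by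
          rintro _ ⟨x, rfl⟩; exact (g n x).hb n (gl n x ▸ hn))) (one_lt_aleph0.trans (kp_unc n)))
  have hinv : ∀ Φ : Cond K → Tm K, (∀ u, Inv u.b u.len (Φ u)) →
      (∀ u v, Ex (Iio α) u v → TSub (Iio α) v.len (Φ v) (Φ u)) →
      Inv b q0.len (fun n s => Φ (g n (xs s)) n s) := by
    intro Φ i1 i2 n hn s s' y e k
    have k1 : y ∈ Φ (g n (xs s)) n s' := i1 _ n (gl n _ ▸ hn) s s' y
      (e.mono (gl n _).ge le_rfl fun j j1 j2 => inter_subset_inter_left _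
        ((b2 n j _ (gl n _ ▸ j1)).resolve_right (not_lt.2 j2.le))) k
    rcases lt_or_ge y.1 α with l | l
    · exact i2 _ _ (h2 n _ _) n (gl n _ ▸ hn) s' y l k1
    · show y ∈ Φ (g n (xs s')) n s'
      refine h1 n (xs s) (xs s') (fun j j2 => ?_) ▸ k1
      simp only [xs]
      split_ifs with j1
      · exact Subtype.ext ((e j j1 j2).2 γ ⟨mem_insert _ _, hγ.le.trans l⟩)
      · rfl
  let p : Cond K := {
    len := q0.len
    low := q0.low
    b := b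
    A := fun n => (⋂ u ∈ range (g n), u.A n) ∩ {μ | Inc (b n) μ}
    H := fun n => (g n x0).H n
    C := fun n s => (g n (xs s)).C n s
    F := fun n s => (g n (xs s)).F n s
    hb := b3
    hA := fun n hn => inter_mem ((cardinal_bInter_mem (l := (EE K n : Filter (Obj K n)))
      ((g2 n).trans_lt (pre_lt n))).2 (by
        rintro _ ⟨x, rfl⟩; exact (g n x).hA n (gl n x ▸ hn))) (ae_inc (b3 n hn))
    hAi := fun n hn μ ν e k => ⟨mem_iInter₂.2 (by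
      rintro _ ⟨x, rfl⟩
      exact (g n x).hAi n (gl n x ▸ hn) μ ν (e.mono (b1 n x))
        (mem_iInter₂.1 k.1 _ (mem_range_self x))), Inc.agr k.2 e⟩
    hAc := fun _ _ _ k => k.2
    hC := fun n hn s => ((g n _).hC n (gl n _ ▸ hn) s).mono (b1 n _)
    hCi := hinv Cond.C Cond.hCi fun _ _ e => e.C
    hF := fun n hn s => (g n _).hF n (gl n _ ▸ hn) s
    hFi := hinv Cond.F Cond.hFi fun _ _ e => e.F
    hFm := fun n hn s => ((h4 n _).dle.F (gl n _ ▸ hn) s).trans ((g (n + 1) _).hFm n (gl _ _ ▸ hn) s)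
    hFc := le_trans (mk_le_mk_of_subset (t := ⋃ n, ⋃ u ∈ range (g n), allT u.len u.F) (by
        rintro y ⟨n, hn, s, k⟩
        exact mem_iUnion.2 ⟨n, mem_biUnion (mem_range_self (xs s)) ⟨n, gl n _ ▸ hn, s, k⟩⟩))
      (mk_iUnion_le' ks_inf (by simpa using ks_inf) fun n =>
        mk_biUnion_le' ks_inf ((g2 n).trans (pre_le_ks n)) fun u _ => u.hFc) }
  have pA : ∀ n x, p.A n ⊆ (g n x).A n := fun n x μ k => mem_iInter₂.1 k.1 _ (mem_range_self x)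
  have pH : ∀ n x, q0.len ≤ n → p.H n ≤ (g n x).H n := fun n x hn => (h2 n x0 x).H n (gl n x ▸ hn)
  have key : ∀ t m h, Adm p t m → act p t m h ≤ g m (xs t) := by
    intro t m h a
    have h' : (g m (xs t)).len ≤ m := gl m _ ▸ h
    refine ⟨h', t, fun k k1 k2 => ((g1 k m k2.le _).up k (Nat.lt_succ_self k) (gl _ _ ▸ gl _ _ ▸ k1)).2.1
      (pA k _ (a k (gl _ _ ▸ k1) k2)), dle_act rfl (fun k hk => ?_) (fun k k1 k2 => ?_)
      fun n hn => ?_⟩
    · have k1 : k < q0.len := gl m _ ▸ hk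
      rw [act_low_lt (p := p) _ _ k1]
      exact (h3 m _).low k k1 k1
    · have k3 : q0.len ≤ k := gl m _ ▸ k1
      have k4 := (g1 k m k2.le (xs t)).up k (Nat.lt_succ_self k) (gl _ _ ▸ k3)
      rw [act_low_ge (p := p) _ _ k3]
      refine le_actLo rfl ?_ (root_mono ((pH k _ k3).trans k4.2.2.1) _)
      rw [actLo_c (p := p) k3 (a k k3 k2)]
      exact img_mono _ (k4.2.2.2 t)
    · have k3 : q0.len ≤ n := h.trans hn
      have k4 := fun x => (g1 m n hn x).dle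
      have k5 : ∀ s, g m (xs t) = g m (xs (merge m t s)) := fun s => h1 m _ _ fun k hk => by
        simp only [xs, merge_lt hk]
      refine ⟨((k4 _).b (gl _ _ ▸ k3)).trans (b1 n _), (pA n _).trans ((k4 _).A n (gl _ _ ▸ k3)),
        (pH n _ k3).trans ((k4 _).ex.H n (gl _ _ ▸ k3)), fun s => ?_⟩
      rw [k5 s]
      exact ⟨(k4 _).C (gl _ _ ▸ k3) _, (k4 _).F (gl _ _ ▸ k3) _⟩
  refine ⟨p, ?_, rfl, fun _ => mem_insert _ _, fun t m h a =>
    ⟨xs t, fun k hk => by simp only [xs, if_pos hk], key t m h a⟩⟩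
  exact (dle_act_self (DLe.refl p) default le_rfl).le.trans
    ((key default _ le_rfl fun k k1 k2 => absurd k2 (not_lt.2 k1)).trans (h3 _ _).dle.le)

end Pool.Agent.Lib.MP_d4b40b_lc
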