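import Pool.Agent.Lib.MP_d4b40b_lc.Cards
import Pool.Agent.Lib.MP_d4b40b_lc.Base

set_option autoImplicit false
set_option linter.unusedSectionVars false

namespace Pool.Agent.Lib.MP_d4b40b_lc

open Pool.Agent.Lib.helper81 Pool.Agent.Lib.helper81.Name Pool.Agent.Lib.MP_fcebdf_lc Set Cardinal
open Filter

variable {K : Type} [LinearOrder K] [WellFoundedLT K] [Sys K] [Ext K]

variable (K) in
/-- data for the members of the base -/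
abbrev Dat : Type := Set ℕ × (∀ n, Top K n → Set (Top K n)) × ∀ n, HH K n

lemma mk_Dat : #(Dat K) < #K := by
  refine mk_prod_lt' K_inf ?_ (mk_prod_lt' K_inf (mk_seq_lt inacc_K ks_lt fun n => ?_)
    (mk_seq_lt inacc_K ks_lt fun n => (mk_HH n).trans (kp_le_ks _)))
  · rw [mk_set]
    exact inacc_K.isStrongPrelimit (by simpa using (inacc_K (K := K)).1)
  · have hl : #(Top K n) < kp K (n + 1) := (mk_Top n).trans_lt (pre_lt (n + 1))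
    simp only [← power_def, mk_set]
    exact (inacc_pow_lt (inacc_kp _) ((inacc_kp _).isStrongPrelimit hl) hl).le.trans (kp_le_ks _)

/-- a member of the base -/
noncomputable def bn (d : Dat K) : HN (Cond K) :=
  mkH (fun x : Σ n, Top K n => oo x.2.1) fun x =>
    ⟨{r | x.1 ∈ d.1 ∧ InB x.1 (d.2.1 x.1) (d.2.2 x.1) x.2 r}, fun _ _ l k => ⟨k.1, k.2.mono l⟩⟩

/-- the condition puts the set into the base -/
def InD (d : Dat K) (r : Cond K) : Prop := d.1 ∈ hyperfilter ℕ ∧ (∀ n l, d.2.1 n l ∈ Un K n) ∧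
  ∃ q, r ≤ q ∧ d.1 ⊆ Ici q.len ∧ d.2.2 = q.H

lemma InD.mono {d : Dat K} {r s : Cond K} (h : InD d r) (l : s ≤ r) : InD d s :=
  ⟨h.1, h.2.1, h.2.2.imp fun _ k => ⟨l.trans k.1, k.2⟩⟩

variable (K) in
/-- the base -/
noncomputable def BB : HN (Cond K) := mkH bn fun d => ⟨{r | InD d r}, fun _ _ l k => k.mono l⟩

lemma Ici_hyper (n : ℕ) : Ici n ∈ hyperfilter ℕ := Nat.hyperfilter_le_atTop (Ici_mem_atTop n)

lemma fmem_bn {d : Dat K} {n : ℕ} {ξ : Top K n} {r : Cond K} (h1 : n ∈ d.1)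
    (h2 : InB n (d.2.1 n) (d.2.2 n) ξ r) : Fmem (oo ξ.1).1 (bn d).1 r :=
  fmem_mkH (A := fun x : Σ n, Top K n => oo x.2.1) (i := ⟨n, ξ⟩) ⟨h1, h2⟩

lemma fmem_BB {d : Dat K} {r : Cond K} (h : InD d r) : Fmem (bn d).1 (BB K).1 r :=
  fmem_mkH (A := bn) h

lemma bn_sub (gm : GN (Cond K)) {d : Dat K} (h : bn d ∈ gm.S) {p : Cond K} (hp : p ∈ gm.Γ)
    {A : HN (Cond K)} (hA : A ∈ gm.S)
    (k : ∀ n ∈ d.1, ∀ ξ, ∀ r ≤ p, InB n (d.2.1 n) (d.2.2 n) ξ r → Fmem (oo ξ.1).1 A.1 r) :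
    Sub gm.E (gm.val (bn d)) (gm.val A) := fun z hz => by
  obtain ⟨x, k1, rfl, s, k2, k3⟩ := mkH_elim gm h hz
  obtain ⟨t, k4, k5, k6⟩ := gm.dir _ _ hp k2
  exact val_mem gm k1 hA k4 (k x.1 k3.1 x.2 t k5 (k3.2.mono k6))

lemma bn_big {d : Dat K} {r : Cond K} (h : InD d r) :
    Fc (fun _ E v => Le E (v 0) (v 1)) (w2 (oc K (ks K)) (bn d)) r := by
  obtain ⟨h1, h2, q, h3, h4, h5⟩ := h
  have : ∀ ζ : K, ∃ n, ζ ∈ Lt K (ks K) → n ∈ d.1 ∧ ζ ∈ Lt K (pre K n) := fun ζ => by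
    by_cases k : ζ ∈ Lt K (ks K)
    · obtain ⟨m, hm⟩ := lt_ks k
      obtain ⟨n, k1, k2⟩ := Ultrafilter.nonempty_of_mem (inter_mem h1 (Ici_hyper (m + 1)))
      exact ⟨n, fun _ => ⟨k1, lt_of_lt_of_le hm (kp_le_pre k2)⟩⟩
    · exact ⟨0, fun l => absurd l k⟩
  choose ν hν using this
  let Ok : ∀ n, (K → Top K n) → Cond K → Prop := fun n g s => InjOn g (Lt K (pre K n)) ∧
    ∀ ζ ∈ Lt K (pre K n), InB n (d.2.1 n) (d.2.2 n) (g ζ) s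
  refine fc_le_oS _ oo (fun ζ t s => ∃ g, Lst (Ok (ν ζ)) g s ∧ (g ζ).1 = t)
    (fun _ _ _ _ ⟨g, k1, k2⟩ l => ⟨g, k1.mono l ⟨k1.1.1, fun ζ j => (k1.1.2 ζ j).mono l⟩, k2⟩)
    ?_ (fun ζ k s hs => ?_) (fun _ _ _ _ ⟨g, k1, k2⟩ ⟨g', k3, k4⟩ => k2 ▸ k4 ▸ k1.uniq k3 ▸ rfl) ?_
  · rintro ζ _ s _ k ⟨g, k1, rfl⟩
    exact fmem_bn (hν ζ k).1 (k1.1.2 ζ (hν ζ k).2)
  · obtain ⟨s', k1, g, k2⟩ := exists_lst (Ok (ν ζ)) (q := s)
      (by simpa only [Ok, h5] using many_inB (hs.trans h3) (h4 (hν ζ k).1) (h2 _))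
    exact ⟨s', k1, _, g, k2, rfl⟩
  · rintro ζ k ζ' k' _ _ s ⟨g, k1, rfl⟩ ⟨g', k2, rfl⟩ e
    have e := feq_ord e
    have key : ∀ {n n' : ℕ} (a : Top K n) (b : Top K n'), a.1 = b.1 → ¬ n < n' := fun a b e l =>
      lt_asymm (a.2.1.trans_le (kp_le_pre l)) (e ▸ b.2.2.1)
    have e' : ν ζ = ν ζ' := le_antisymm (not_lt.1 (key _ _ e.symm)) (not_lt.1 (key _ _ e))
    have k3 := (hν ζ' k').2
    generalize ν ζ' = n at *
    subst e'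
    obtain rfl := k1.uniq k2
    exact k1.1.1 (hν ζ k).2 k3 (Subtype.ext e)

theorem u_upper (gm : GN (Cond K)) (h : oc K (ks K) ∈ gm.S) (h' : oc K (Order.succ (ks K)) ∈ gm.S)
    (hB : BB K ∈ gm.S) : ∃ U B, UF gm.E U (gm.val (oc K (ks K))) ∧ Base gm.E B U ∧
      Le gm.E B (gm.val (oc K (Order.succ (ks K)))) := by
  obtain ⟨p, hp⟩ := gm.nonempty
  have h3 : ∀ A, Sub gm.E A (gm.val (oc K (ks K))) → ∃ C, gm.E C (gm.val (BB K)) ∧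
      (Sub gm.E C A ∨ ∀ x, gm.E x C → ¬ gm.E x A) := by
    intro A _
    obtain ⟨A, hA, rfl⟩ := gm.surj A
    have hd : Def (fun _ E v => ∃ C, E C (v 0) ∧ (Sub E C (v 1) ∨ ∀ x, E x C → ¬ E x (v 1))) :=
      Def.ex ((Def.mem _ _).and ((Def.sub _ _).or (Def.all ((Def.mem _ _).imp (Def.mem _ _).not))))
    refine Fc.reg hd (w := w2 (BB K) A) (fun s _ => ?_) gm hp (mem2 hB hA)
    obtain ⟨q, k1, r, k2, X, k3, k4, Y, k5, k6⟩ := ultra_dec (I := fun ξ r => Fmem (oo ξ).1 A.1 r)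
      (fun _ _ _ => Fmem.mono) (fun _ _ => Fmem.reg) (hyperfilter ℕ) Ici_hyper s
    refine ⟨r, k2.trans k1, Fc.of_extra hd {bn (X, Y, q.H)} (to_countable _) fun g l1 l2 l3 =>
      ⟨_, val_mem g (l3 rfl) (l2 0) l1 (fmem_BB ⟨k3, k5, q, k2, k4, rfl⟩),
        k6.imp (bn_sub g (l3 rfl) l1 (l2 1)) fun k z hz l => ?_⟩⟩
    obtain ⟨x, n1, rfl, t, n2, n3⟩ := mkH_elim g (l3 rfl) hz
    obtain ⟨u, n4, n5⟩ := (g.mem_iff n1 (l2 1)).1 l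
    obtain ⟨v, -, n6, n7, n8⟩ := dir3 g l1 n2 n4
    exact k x.1 n3.1 x.2 v n6 (n3.2.mono n7) v le_rfl (n5.mono n8)
  refine (uf_of_base gm.isZF (B := gm.val (BB K)) ((h3 _ fun _ k => k).imp fun _ k => k.1)
    (fun C hC => ?_) (fun C C' hC hC' => ?_) h3).imp fun U h4 => ⟨_, h4.1, h4.2, ?_⟩
  rotate_right
  · obtain ⟨e, e1, e2⟩ := exists_emb (K := K) (A := Dat K) le_rfl mk_Dat.le
    obtain ⟨w, hw⟩ := exists_Lt_eq (K := K) mk_Dat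
    refine Fc.of_extra (def_le 0 1) (w := w2 (BB K) (oc K (Order.succ (ks K)))) {oo w}
      (to_countable _) (fun g l1 l2 l3 => ?_) gm hp (mem2 hB h')
    have l4 : oo w ∈ g.S := l3 rfl
    refine le_trans' g.isZF ?_ (le_succ_ks g (l2 1) l4)
    rw [oo, ordH_eq, hw] at l4 ⊢
    refine fc_cover bn e (fun _ _ => True) (fun _ _ _ _ _ => trivial) (fun φ _ _ => e2 φ)
      (fun φ φ' q _ _ k => e1 k ▸ Feq.refl _ _) (fun x q _ hx => ?_) g l1 (mem2 (l2 0) l4)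
    obtain ⟨r, k1, d, -, k2⟩ := fmem_elim hx
    exact ⟨r, k1, d, trivial, k2⟩
  · obtain ⟨d, k1, rfl, r, k2, k3⟩ := mkH_elim gm hB hC
    exact ⟨bn_sub gm k1 hp h fun n _ ξ r _ _ => fmem_oS (Lt_mono (kp_le_ks n) ξ.2.1) r,
      bn_big k3 gm k2 (mem2 h k1)⟩
  · obtain ⟨d, k1, rfl, r, k2, k3, k4, q, k5, k6, k7⟩ := mkH_elim gm hB hC
    obtain ⟨d', l1, rfl, r', l2, l3, l4, q', l5, l6, l7⟩ := mkH_elim gm hB hC'
    obtain ⟨s, n1, n2, n3⟩ := gm.dir _ _ k2 l2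
    have key : ∀ (d : Dat K) (q : Cond K), s ≤ q → (∀ n l, d.2.1 n l ∈ Un K n) → d.2.2 = q.H →
        ∃ Y : ∀ n, Top K n → Set (Top K n), ∀ n, (∀ l, Y n l ∈ Un K n) ∧ (s.len ≤ n →
          ∀ ξ r, InB n (Y n) (s.H n) ξ r → InB n (d.2.1 n) (d.2.2 n) ξ r) := by
      intro d q j1 j2 j3
      refine Classical.skolem (p := fun n (Y : Top K n → Set (Top K n)) => (∀ l, Y l ∈ Un K n) ∧
        (s.len ≤ n → ∀ ξ r, InB n Y (s.H n) ξ r → InB n (d.2.1 n) (d.2.2 n) ξ r)).1 fun n => ?_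
      by_cases l : s.len ≤ n
      · exact (inB_shrink (j2 n) (j3 ▸ H_le j1 l)).imp fun _ k => ⟨k.1, fun _ => k.2⟩
      · exact ⟨_, j2 n, fun k => absurd k l⟩
    obtain ⟨Y, y1⟩ := key d q (n2.trans k5) k4 k7
    obtain ⟨Y', y2⟩ := key d' q' (n3.trans l5) l4 l7
    have hd : Def (fun _ E v => ∃ C, E C (v 0) ∧ Sub E C (v 1) ∧ Sub E C (v 2)) :=
      Def.ex ((Def.mem _ _).and ((Def.sub _ _).and (Def.sub _ _)))
    refine Fc.of_extra hd (w := w3 (BB K) (bn d) (bn d'))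
      {bn (d.1 ∩ d'.1 ∩ Ici s.len, fun n l => Y n l ∩ Y' n l, s.H)} (to_countable _)
      (fun g j1 j2 j3 => ⟨_, val_mem g (j3 rfl) (j2 0) j1 (fmem_BB
        ⟨inter_mem (inter_mem k3 l3) (Ici_hyper _), fun n l => inter_mem ((y1 n).1 l) ((y2 n).1 l),
          s, le_rfl, inter_subset_right, rfl⟩),
        bn_sub g (j3 rfl) j1 (j2 1) fun n k ξ r _ b =>
          fmem_bn k.1.1 ((y1 n).2 k.2 ξ r ⟨b.1, b.2.1.1, b.2.2⟩),
        bn_sub g (j3 rfl) j1 (j2 2) fun n k ξ r _ b =>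
          fmem_bn k.1.2 ((y2 n).2 k.2 ξ r ⟨b.1, b.2.1.2, b.2.2⟩)⟩) gm n1 (mem3 hB k1 l1)

/-- two copies -/
def Two (A : Type) : Type := A × Bool

theorem u_lower0 (gm : GN (Cond K)) (h : oc K (ks K) ∈ gm.S) {U B : gm.M}
    (h1 : UF gm.E U (gm.val (oc K (ks K)))) (h2 : Base gm.E B U) :
    ¬ Le gm.E B (gm.val (oc K (ks K))) := by
  rintro ⟨f, hf⟩
  obtain ⟨f, hfS, rfl⟩ := gm.surj f
  obtain ⟨U, hU, rfl⟩ := gm.surj U
  obtain ⟨B, hB, rfl⟩ := gm.surj B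
  obtain ⟨p, -, hp⟩ := gm.truthDef ((def_uf 1 3).and ((def_base 2 1).and (Def.inj 0 2 3)))
    (mem4 hfS hU hB h) ⟨h1, h2, hf⟩
  obtain ⟨_, _, hord⟩ := exists_ord_eq_type_lt (Two (Lt K (ks K)))
  obtain ⟨S, s1, s2, s3, s4, s5⟩ := exists_sel (P := Cond K) (T := Two (Lt K (ks K)))
    (fun t η q => ∃ C : HN (Cond K), FR f C (oo t.1.1) q ∧ Fmem (oo η).1 C.1 q)
    (fun _ _ _ _ ⟨C, k1, k2⟩ l => ⟨C, k1.mono l, k2.mono l⟩) (fun η η' _ => η = η')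
    fun _ _ _ => Eq.symm
  let X : HN (Cond K) := mkH (fun η : Lt K (ks K) => oo η.1) fun η =>
    ⟨{q | ∃ ξ, S (ξ, true) η.1 q}, fun _ _ l k => k.imp fun _ k => s1 _ _ _ _ k l⟩
  obtain ⟨g, k1, k2, k3⟩ := exists_gm' p (w4 f U B (oc K (ks K))) {X} (to_countable _)
  obtain ⟨k4, k5, k6⟩ := hp g k1 k2
  obtain ⟨C, k7, k8⟩ := uf_dec g.isZF (A := g.val X) k4 k5 fun x hx => by
    obtain ⟨η, n1, rfl, -⟩ := mkH_elim g (k3 rfl) hx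
    exact oS_intro g (k2 3) n1 η.2
  obtain ⟨z, k9, -⟩ := k6.2.1 C k7
  obtain ⟨ξ, k10, k11, rfl⟩ := oS_elim g (k2 3) (Inj.rel_mem g.isZF k6 k9).2
  obtain ⟨C, hC, rfl⟩ := g.surj C
  have key : ∀ b, ∀ q ≤ p, FR f C (oo ξ) q →
      Fc (fun _ E v => Sub E (v 0) (v 1) ∧ Le E (v 1) (v 0)) (w2 C (oc K (ks K))) q →
      ∃ r ≤ q, ∃ η ∈ Lt K (ks K), S (⟨ξ, k10⟩, b) η r ∧ Fmem (oo η).1 C.1 r := by
    intro b q hq l1 l2
    have l0 : ∀ x : HN (Cond K), ∀ r ≤ q, Fmem x.1 C.1 r → Fmem x.1 (oc K (ks K)).1 r :=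
      fun x r hr k => fmem_of_gm {C} (to_countable _) fun g n1 n2 n3 n4 =>
        (l2.mono hr g n1 (mem2 (n4 rfl) n3)).1 _ (val_mem g n2 (n4 rfl) n1 k)
    rcases s5 (⟨ξ, k10⟩, b) q with ⟨r, l3, η, l4⟩ | l3
    · obtain ⟨C', l5, l6⟩ := s2 _ _ _ l4
      have e : Feq C'.1 C.1 r := feq_of_gm {f, U, B, oc K (ks K), oo ξ} (to_countable _)
        fun g n1 n2 n3 n4 => by
          have a1 : f ∈ g.S := n4 (by simp)
          have a2 : oo ξ ∈ g.S := n4 (by simp)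
          exact (hp.mono (l3.trans hq) g n1 (mem4 a1 (n4 (by simp)) (n4 (by simp))
            (n4 (by simp)))).2.2.2.2 _ _ _ (l5 g n1 (mem3 a1 n2 a2)) (l1.mono l3 g n1 (mem3 a1 n3 a2))
      obtain ⟨s, -, η', l7, l8⟩ := fmem_oS_elim (l0 _ r l3 (l6.congr_right e))
      exact ⟨r, l3, η, feq_ord l8 ▸ l7, l4, l6.congr_right e⟩
    · have l4 : #(Iio (α := Two (Lt K (ks K))) (⟨ξ, k10⟩, b)) < ks K := (mk_Iio_lt _ hord).trans_le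
        (mk_prod_le' ks_inf (mk_Lt_le _) (mk_le_aleph0.trans ks_inf))
      obtain ⟨e, e1, e2⟩ := exists_emb (K := K) le_rfl (l4.trans ks_lt).le
      obtain ⟨g, n1, n2, n3⟩ := exists_gm' q (w2 C (oc K (ks K))) {oc K _} (to_countable _)
      refine absurd (le_trans' g.isZF (l2 g n1 n2).2 ?_)
        (not_le_ks g ((mk_Lt_le _).trans_lt l4) (n3 rfl) (n2 1))
      refine fc_cover (Φ := Iio (α := Two (Lt K (ks K))) (⟨ξ, k10⟩, b) × K) (fun φ => oo φ.2)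
        (fun φ => e φ.1) (fun φ s => S φ.1.1 φ.2 s) (fun _ _ _ => s1 _ _ _ _) (fun φ _ _ => e2 φ.1)
        (fun φ φ' s k k' l => ?_) (fun x s hs k => ?_) g n1 (mem2 (n2 0) (n3 rfl))
      · rw [s3 _ _ _ _ k (e1 l ▸ k')]; exact Feq.refl _ _
      · obtain ⟨s', j1, η, -, j2⟩ := fmem_oS_elim (l0 x s hs k)
        obtain ⟨s'', j3, t, j4, _, j5, rfl⟩ := l3 s' (j1.trans hs) η
          ⟨C, l1.mono (j1.trans hs), (k.mono j1).congr_left j2⟩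
        exact ⟨s'', j3.trans j1, (⟨t, j4⟩, η), j5, j2.mono j3⟩
  obtain ⟨q1, m1, m2, m3⟩ := g.truthDef_le (Def.rel 0 1 2) (mem3 (k2 0) hC k11) k9 k1
  obtain ⟨q2, m4, m5, m6⟩ := g.truthDef_le ((Def.sub 0 1).and (def_le 1 0)) (mem2 hC (k2 3))
    (k4.1 _ (k5.1 _ k7)) m1
  rcases k8 with k8 | k8
  · obtain ⟨q3, -, m7, m8⟩ := g.truthDef_le (Def.sub 0 1) (mem2 hC (k3 rfl)) k8 m4
    obtain ⟨r, n1, η, -, n2, n3⟩ := key false q3 ((m7.trans m5).trans m2) (m3.mono (m7.trans m5))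
      (m6.mono m7)
    obtain ⟨s, n4, η', ⟨ξ', n5⟩, n6⟩ := fmem_elim (X := X) (fmem_of_gm (a := oo η) {C}
      (to_countable _) fun g j1 j2 j3 j4 =>
        m8.mono n1 g j1 (mem2 (j4 rfl) j3) _ (val_mem g j2 (j4 rfl) j1 n3))
    exact Bool.false_ne_true (congrArg Prod.snd (s4 _ _ _ _ _ (s1 _ _ _ _ n2 n4) n5 (feq_ord n6)))
  · obtain ⟨q3, -, m7, m8⟩ := g.truthDef_le (Φ := fun _ E v => ∀ x, E x (v 0) → ¬ E x (v 1))
      (Def.all ((Def.mem _ _).imp (Def.mem _ _).not)) (mem2 hC (k3 rfl)) k8 m4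
    obtain ⟨r, n1, η, n0, n2, n3⟩ := key true q3 ((m7.trans m5).trans m2) (m3.mono (m7.trans m5))
      (m6.mono m7)
    obtain ⟨g, j1, j2, j3⟩ := exists_gm' r (w2 C X) {oo η} (to_countable _)
    exact m8.mono n1 g j1 j2 _ (val_mem g (j3 rfl) (j2 0) j1 n3) (val_mem g (j3 rfl) (j2 1) j1
      (fmem_mkH (A := fun η : Lt K (ks K) => oo η.1) (i := ⟨η, n0⟩) ⟨_, n2⟩))

theorem uNum (gm : GN (Cond K)) (h : oc K (ks K) ∈ gm.S) (h' : oc K (Order.succ (ks K)) ∈ gm.S)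
    (hB : BB K ∈ gm.S) :
    UNum gm.E (gm.val (oc K (ks K))) (gm.val (oc K (Order.succ (ks K)))) :=
  ⟨u_upper gm h h' hB, fun _ _ h1 h2 => (le_or_le gm h').resolve_right fun ⟨_, k1, k2⟩ =>
    u_lower0 gm h h1 h2 (le_trans' gm.isZF k2 (le_ks gm h h' k1))⟩

end Pool.Agent.Lib.MP_d4b40b_lc
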